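import Pool.Agent.H467.MR.Spec
import Pool.Graph.R_seed8.H525R3.FFp.Riemann

/-! S_ZETA: the primes of degree one in a finite separable extension of `k(t)` have logarithmic
density one (helper548). Part I: places, counting effective divisors, the sum over the places. Part II:
primes of degree one and places. Part III: conclusion. -/

set_option autoImplicit false
set_option linter.all false
set_option linter.overlappingInstances false

section
open Module FF Pool.Agent.H525R3.FFp

namespace Pool.Agent.H467.MR.Zeta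

variable {k F : Type*} [Field k] [Finite k] [Field F] [Algebra k F] [IsFF k F]

theorem two_le : 2 ≤ Nat.card k := by
  have := Finite.one_lt_card (α := k)
  omega

theorem card_RF (P : Place k F) : Nat.card P.RF = Nat.card k ^ P.deg :=
  Module.natCard_eq_pow_finrank (K := k) (V := P.RF)

theorem pow_card_red (P : Place k F) (c : P.RF) : c ^ (Nat.card k ^ P.deg) = c := by
  have : Finite P.RF := Module.finite_of_finite k
  letI : Fintype P.RF := Fintype.ofFinite _
  rw [← card_RF, Nat.card_eq_fintype_card]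
  exact FiniteField.pow_card c

theorem finite_deg (B : ℕ) : {P : Place k F | P.deg ≤ B}.Finite := by
  obtain ⟨x, hx⟩ := exists_D_ne k F
  have htr := (sep_of_D_ne hx).1
  have hfin : (⋃ d ∈ Finset.range (B + 1), {P : Place k F | P.ord (x ^ (Nat.card k ^ d) - x) ≠ 0}).Finite :=
    Set.Finite.biUnion (Finset.finite_toSet _) (fun d _ => finite_support _)
  refine ((finite_support (k := k) x).union hfin).subset ?_
  intro P hP
  simp only [Set.mem_setOf_eq] at hP
  by_cases h : P.Reg x
  · right
    simp only [Set.mem_iUnion, Finset.mem_range, Set.mem_setOf_eq]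
    refine ⟨P.deg, by omega, ?_⟩
    have hreg : ∀ n : ℕ, P.Reg (x ^ n) := by
      intro n
      induction n with
      | zero => rw [pow_zero]; exact P.reg_one
      | succ n ih => rw [pow_succ]; exact P.reg_mul ih h
    have h1 : P.red (x ^ (Nat.card k ^ P.deg) - x) = 0 := by
      rw [P.red_sub (hreg _) h, P.red_pow h, pow_card_red, sub_self]
    have h2 : P.Reg (x ^ (Nat.card k ^ P.deg) - x) := by
      rw [sub_eq_add_neg]
      exact P.reg_add (hreg _) (P.reg_neg h)
    rw [P.red_eq_zero_iff h2] at h1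
    rcases h1 with h1 | h1
    · exfalso
      apply htr
      refine ⟨Polynomial.X ^ (Nat.card k ^ P.deg) - Polynomial.X, ?_, ?_⟩
      · apply FiniteField.X_pow_card_sub_X_ne_zero
        exact Nat.one_lt_pow (deg_pos P).ne' (by have := two_le (k := k); omega)
      · simpa using h1
    · omega
  · left
    simp only [Set.mem_setOf_eq]
    intro h0
    exact h (Or.inr h0.ge)

/-- The degree of an effective divisor. -/
noncomputable def edeg (E : Place k F →₀ ℕ) : ℕ := E.sum fun P n => n * P.deg

theorem edeg_single (P : Place k F) (n : ℕ) : edeg (Finsupp.single P n) = n * P.deg := by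
  unfold edeg; rw [Finsupp.sum_single_index]; simp

theorem edeg_add (D E : Place k F →₀ ℕ) : edeg (D + E) = edeg D + edeg E := by
  unfold edeg
  rw [Finsupp.sum_add_index']
  · intro; simp
  · intro P a b; ring

theorem ddeg_nd (E : Place k F →₀ ℕ) : ddeg (nd E) = edeg E := by
  induction E using Finsupp.induction_linear with
  | zero => rw [map_zero, ddeg_zero]; simp [edeg]
  | add a b ha hb => rw [map_add, ddeg_add, ha, hb, edeg_add]; push_cast; ring
  | single P n => rw [nd_single, ddeg_single, edeg_single]; push_cast; ring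

theorem nd_apply (E : Place k F →₀ ℕ) (P : Place k F) : nd E P = (E P : ℤ) := by
  simp [nd]

theorem nd_toNat {D : Place k F →₀ ℤ} (h : 0 ≤ D) : nd (D.mapRange Int.toNat rfl) = D := by
  ext P
  rw [nd_apply, Finsupp.mapRange_apply, Int.toNat_of_nonneg (h P)]

theorem nd_injective : Function.Injective (nd (k := k) (K := F)) := by
  intro a b h
  ext P
  have := DFunLike.congr_fun h P
  simpa [nd] using this

theorem nd_nonneg (E : Place k F →₀ ℕ) : (0 : Place k F →₀ ℤ) ≤ nd E := by
  intro P
  simp [nd]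

theorem le_edeg (E : Place k F →₀ ℕ) (P : Place k F) : E P * P.deg ≤ edeg E := by
  unfold edeg Finsupp.sum
  by_cases h : P ∈ E.support
  · exact Finset.single_le_sum (f := fun P => E P * P.deg) (fun _ _ => Nat.zero_le _) h
  · rw [Finsupp.notMem_support_iff] at h
    rw [h]; simp

theorem finite_edeg (B : ℕ) : {E : Place k F →₀ ℕ | edeg E ≤ B}.Finite := by
  classical
  let S : Finset (Place k F) := (finite_deg (k := k) (F := F) B).toFinset
  let M : Place k F →₀ ℕ := ∑ P ∈ S, Finsupp.single P B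
  have hM : ∀ P, P ∈ S → M P = B := by
    intro P hP
    simp only [M, Finsupp.finset_sum_apply]
    rw [Finset.sum_eq_single P]
    · simp
    · intro Q _ hQ
      rw [Finsupp.single_eq_of_ne (Ne.symm hQ)]
    · intro h; exact absurd hP h
  refine (Set.finite_Icc (0 : Place k F →₀ ℕ) M).subset ?_
  intro E hE
  simp only [Set.mem_setOf_eq] at hE
  refine ⟨fun P => Nat.zero_le _, ?_⟩
  intro P
  by_cases h0 : E P = 0
  · rw [h0]; exact Nat.zero_le _
  · have h1 := le_edeg E P
    have h2 := deg_pos P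
    have h3 : P ∈ S := by
      simp only [S, Set.Finite.mem_toFinset, Set.mem_setOf_eq]
      have : 1 * P.deg ≤ E P * P.deg := Nat.mul_le_mul_right _ (Nat.one_le_iff_ne_zero.2 h0)
      omega
    rw [hM P h3]
    have : E P * 1 ≤ E P * P.deg := Nat.mul_le_mul_left _ h2
    omega

theorem finite_eff (d : ℕ) : {E : Place k F →₀ ℕ | edeg E = d}.Finite :=
  (finite_edeg d).subset (fun E hE => by
    simp only [Set.mem_setOf_eq] at hE ⊢
    exact hE.le)

/-- The number of effective divisors of degree `d`. -/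
noncomputable def AA (k F : Type*) [Field k] [Finite k] [Field F] [Algebra k F] [IsFF k F] (d : ℕ) : ℕ :=
  Set.ncard {E : Place k F →₀ ℕ | edeg E = d}

theorem ell_le_deg (P₀ : Place k F) (D : Place k F →₀ ℤ) (hD : 0 ≤ ddeg D) :
    ell D ≤ ddeg D + P₀.deg := by
  have h0 := deg_pos P₀
  let n : ℕ := (ddeg D).toNat / P₀.deg + 1
  have hn1 : ddeg D < n * P₀.deg := by
    have h1 := Nat.lt_div_mul_add (a := (ddeg D).toNat) h0
    have h2 : ((ddeg D).toNat : ℤ) = ddeg D := Int.toNat_of_nonneg hD
    have h3 : (((ddeg D).toNat : ℕ) : ℤ) < (((ddeg D).toNat / P₀.deg * P₀.deg + P₀.deg : ℕ) : ℤ) := by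
      exact_mod_cast h1
    rw [h2] at h3
    refine h3.trans_le (le_of_eq ?_)
    simp only [n]; push_cast; ring
  have hn2 : (n : ℤ) * P₀.deg ≤ ddeg D + P₀.deg := by
    have h1 := Nat.div_mul_le_self (ddeg D).toNat P₀.deg
    have h2 : ((ddeg D).toNat : ℤ) = ddeg D := Int.toNat_of_nonneg hD
    have h3 : (((ddeg D).toNat / P₀.deg * P₀.deg : ℕ) : ℤ) ≤ (((ddeg D).toNat : ℕ) : ℤ) := by
      exact_mod_cast h1
    rw [h2] at h3
    calc (n : ℤ) * P₀.deg = (((ddeg D).toNat / P₀.deg * P₀.deg : ℕ) : ℤ) + P₀.deg := by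
          simp only [n]; push_cast; ring
      _ ≤ _ := by omega
  have h1 : ddeg (D - nd (Finsupp.single P₀ n)) < 0 := by
    rw [ddeg_sub, nd_single, ddeg_single]; omega
  have h2 := ell_le (D := D - nd (Finsupp.single P₀ n)) (E := D) (sub_le_self _ (nd_nonneg _))
  have h3 : ell (D - nd (Finsupp.single P₀ n)) = 0 := by
    unfold ell
    rw [LL_eq_bot h1]
    simp
  rw [h3, ddeg_sub, nd_single, ddeg_single] at h2
  omega

theorem card_LL (D : Place k F →₀ ℤ) : Nat.card (LL D) = Nat.card k ^ finrank k (LL D) :=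
  Module.natCard_eq_pow_finrank (K := k) (V := LL D)

instance (D : Place k F →₀ ℤ) : Finite (LL D) := Module.finite_of_finite k

/-- Upper bound for the number of effective divisors. -/
theorem upper : ∃ C : ℝ, 0 < C ∧ ∀ d : ℕ, (AA k F d : ℝ) ≤ C * (Nat.card k : ℝ) ^ d := by
  classical
  obtain ⟨P₀, -⟩ := exists_place (k := k) (K := F)
  obtain ⟨γ, -, hγ, -⟩ := riemann k F
  have he := deg_pos P₀
  let e := P₀.deg
  let B₀ : ℕ := γ.toNat + 1
  let R : Finset (Place k F →₀ ℕ) := (finite_edeg (k := k) (F := F) (B₀ + e)).toFinset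
  have hq : 1 ≤ Nat.card k := by have := two_le (k := k); omega
  have hR : (0 : Place k F →₀ ℕ) ∈ R := by
    simp only [R, Set.Finite.mem_toFinset, Set.mem_setOf_eq]
    have : edeg (0 : Place k F →₀ ℕ) = 0 := by simp [edeg]
    omega
  have hRpos : 0 < R.card := Finset.card_pos.2 ⟨0, hR⟩
  refine ⟨R.card * (Nat.card k : ℝ) ^ e, by positivity, ?_⟩
  intro d
  let m : ℕ := (d - B₀) / e
  let D : (Place k F →₀ ℕ) → (Place k F →₀ ℤ) := fun r => nd r + nd (Finsupp.single P₀ m)
  let G : (r : Place k F →₀ ℕ) → LL (D r) → (Place k F →₀ ℕ) := fun r g =>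
    (divisor k (g : F) + D r).mapRange Int.toNat rfl
  -- every effective divisor is obtained
  have hcov : {E : Place k F →₀ ℕ | edeg E = d} ⊆
      ⋃ r ∈ R.filter (fun r => edeg r + m * e = d), Set.range (G r) := by
    intro E hE
    simp only [Set.mem_setOf_eq] at hE
    have hkey : ∃ (r : Place k F →₀ ℕ) (z : F), z ≠ 0 ∧ edeg r ≤ B₀ + e ∧ nd E = divisor k z + D r := by
      by_cases hd : d ≤ B₀
      · refine ⟨E, 1, one_ne_zero, by omega, ?_⟩
        have hm : m = 0 := by simp only [m]; rw [Nat.sub_eq_zero_of_le hd]; simp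
        have h1 : divisor k (1 : F) = 0 := by
          ext P; rw [divisor_apply, P.ord_one]; rfl
        simp only [D, hm, Finsupp.single_zero, map_zero, h1, zero_add, add_zero]
      · push Not at hd
        have h1 := Nat.div_mul_le_self (d - B₀) e
        have h2 := Nat.lt_div_mul_add (a := d - B₀) he
        have h3 : ddeg (nd E - nd (Finsupp.single P₀ m)) = d - m * e := by
          rw [ddeg_sub, ddeg_nd, hE, nd_single, ddeg_single]
        have h1' : ((m * e : ℕ) : ℤ) ≤ d - B₀ := by
          have : ((m * e : ℕ) : ℤ) ≤ ((d - B₀ : ℕ) : ℤ) := by exact_mod_cast h1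
          omega
        have h2' : (d : ℤ) - B₀ < ((m * e : ℕ) : ℤ) + e := by
          have : ((d - B₀ : ℕ) : ℤ) < ((m * e + e : ℕ) : ℤ) := by exact_mod_cast h2
          push_cast at this ⊢
          omega
        have h4 := hγ (nd E - nd (Finsupp.single P₀ m))
        have h5 : 0 < ell (nd E - nd (Finsupp.single P₀ m)) := by
          rw [h3] at h4
          have : (B₀ : ℤ) = γ.toNat + 1 := by simp [B₀]
          push_cast at h1' 
          have := Int.self_le_toNat γ
          omega
        obtain ⟨f, hf, hf0⟩ := exists_ne_zero_of_ell_pos h5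
        rw [mem_LL' hf0] at hf
        let r : Place k F →₀ ℕ := (divisor k f + (nd E - nd (Finsupp.single P₀ m))).mapRange Int.toNat rfl
        have hr : nd r = divisor k f + (nd E - nd (Finsupp.single P₀ m)) := nd_toNat hf
        refine ⟨r, f⁻¹, inv_ne_zero hf0, ?_, ?_⟩
        · have h6 : (edeg r : ℤ) = d - m * e := by
            rw [← ddeg_nd, hr, ddeg_add, ddeg_divisor, h3]; ring
          push_cast at h2'
          omega
        · simp only [D]
          rw [hr, divisor_inv]
          abel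
    obtain ⟨r, z, hz, hr, hE2⟩ := hkey
    have hdeg : edeg r + m * e = d := by
      have h1 : ddeg (nd E) = ddeg (divisor k z + D r) := by rw [hE2]
      rw [ddeg_nd, hE, ddeg_add, ddeg_divisor, zero_add] at h1
      simp only [D] at h1
      rw [ddeg_add, ddeg_nd, nd_single, ddeg_single] at h1
      have : ((edeg r + m * e : ℕ) : ℤ) = d := by push_cast; exact h1.symm
      exact_mod_cast this
    have hzL : z ∈ LL (D r) := by
      rw [mem_LL' hz, ← hE2]
      exact nd_nonneg E
    simp only [Set.mem_iUnion, Finset.mem_filter]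
    refine ⟨r, ⟨by simpa [R] using hr, hdeg⟩, ⟨z, hzL⟩, ?_⟩
    apply nd_injective
    rw [hE2]
    have h0 : (0 : Place k F →₀ ℤ) ≤ divisor k z + D r := by rw [← hE2]; exact nd_nonneg E
    exact nd_toNat h0
  have hcard : ∀ r, edeg r + m * e = d → (Set.range (G r)).ncard ≤ Nat.card k ^ (d + e) := by
    intro r hr
    have h1 : (Set.range (G r)).ncard ≤ Nat.card (LL (D r)) := by
      rw [← Set.image_univ, ← Set.ncard_univ]
      exact Set.ncard_image_le (Set.toFinite _)
    refine h1.trans ?_
    rw [card_LL]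
    apply Nat.pow_le_pow_right hq
    have h2 : ddeg (D r) = d := by
      simp only [D]
      rw [ddeg_add, ddeg_nd, nd_single, ddeg_single]
      have : ((edeg r + m * e : ℕ) : ℤ) = d := by exact_mod_cast hr
      push_cast at this
      exact this
    have h3 := ell_le_deg P₀ (D r) (by rw [h2]; positivity)
    unfold ell at h3
    rw [h2] at h3
    have : ((finrank k (LL (D r)) : ℕ) : ℤ) ≤ ((d + e : ℕ) : ℤ) := by push_cast; exact h3
    exact_mod_cast this
  have hfinal : AA k F d ≤ R.card * Nat.card k ^ (d + e) := by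
    unfold AA
    have h1 : (⋃ r ∈ R.filter (fun r => edeg r + m * e = d), Set.range (G r)).Finite :=
      Set.Finite.biUnion (Finset.finite_toSet _) (fun r _ => Set.finite_range _)
    refine (Set.ncard_le_ncard hcov h1).trans ?_
    refine (Finset.set_ncard_biUnion_le _ _).trans ?_
    refine (Finset.sum_le_card_nsmul _ _ (Nat.card k ^ (d + e)) ?_).trans ?_
    · intro r hr
      exact hcard r (Finset.mem_filter.1 hr).2
    · rw [smul_eq_mul]
      exact Nat.mul_le_mul_right _ (Finset.card_filter_le _ _)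
  calc (AA k F d : ℝ) ≤ ((R.card * Nat.card k ^ (d + e) : ℕ) : ℝ) := by exact_mod_cast hfinal
    _ = _ := by push_cast; ring

/-- Lower bound for the number of effective divisors. -/
theorem lower : ∃ (c : ℝ) (e m₀ : ℕ), 0 < c ∧ 0 < e ∧ ∀ m : ℕ, m₀ ≤ m →
    c * (Nat.card k : ℝ) ^ (m * e) ≤ AA k F (m * e) := by
  classical
  obtain ⟨P₀, -⟩ := exists_place (k := k) (K := F)
  obtain ⟨γ, -, hγ, -⟩ := riemann k F
  have he := deg_pos P₀
  let e := P₀.deg
  have hq : 2 ≤ Nat.card k := two_le
  let l : ℕ := finrank k (LL (0 : Place k F →₀ ℤ))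
  let g : ℕ := γ.toNat
  refine ⟨((Nat.card k : ℝ) ^ l * (Nat.card k : ℝ) ^ (g + 1))⁻¹, e, g + 1, by positivity, he, ?_⟩
  intro m hm
  let D : Place k F →₀ ℤ := nd (Finsupp.single P₀ m)
  have hDdeg : ddeg D = m * e := by
    simp only [D]; rw [nd_single, ddeg_single]
  have hge : (g : ℤ) + 1 ≤ m * e := by
    have h1 : (m : ℤ) * 1 ≤ m * e := mul_le_mul_of_nonneg_left (by exact_mod_cast he) (by positivity)
    omega
  have hell : m * e - g ≤ finrank k (LL D) := by
    have h1 := hγ D
    rw [hDdeg] at h1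
    unfold ell at h1
    have := Int.self_le_toNat γ
    have h2 : ((m * e : ℕ) : ℤ) = (m : ℤ) * e := by push_cast; ring
    omega
  letI : Fintype (LL D) := Fintype.ofFinite _
  let S : Finset (LL D) := Finset.univ.filter (fun f => f ≠ 0)
  let G : LL D → (Place k F →₀ ℕ) := fun f => (divisor k (f : F) + D).mapRange Int.toNat rfl
  have hG : ∀ f : LL D, f ≠ 0 → nd (G f) = divisor k (f : F) + D := by
    intro f hf
    have hf0 : (f : F) ≠ 0 := fun h => hf (Subtype.ext h)
    exact nd_toNat ((mem_LL' hf0).1 f.2)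
  have himg : ∀ f ∈ S, edeg (G f) = m * e := by
    intro f hf
    have h1 := hG f (Finset.mem_filter.1 hf).2
    have h2 : (edeg (G f) : ℤ) = ((m * e : ℕ) : ℤ) := by
      rw [← ddeg_nd, h1, ddeg_add, ddeg_divisor, hDdeg]; push_cast; ring
    exact_mod_cast h2
  have hfib : S.card ≤ Nat.card k ^ l * (S.image G).card := by
    apply Finset.card_le_mul_card_image
    intro E hE
    obtain ⟨f₀, hf₀, rfl⟩ := Finset.mem_image.1 hE
    have hf₀' := (Finset.mem_filter.1 hf₀).2
    have hf₀0 : (f₀ : F) ≠ 0 := fun h => hf₀' (Subtype.ext h)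
    letI : Fintype (LL (0 : Place k F →₀ ℤ)) := Fintype.ofFinite _
    have hc : Nat.card k ^ l = (Finset.univ : Finset (LL (0 : Place k F →₀ ℤ))).card := by
      rw [Finset.card_univ, ← Nat.card_eq_fintype_card, card_LL]
    rw [hc]
    have hmem : ∀ f ∈ S.filter (fun f => G f = G f₀), (f : F) / (f₀ : F) ∈ LL (0 : Place k F →₀ ℤ) := by
      intro f hf
      rw [Finset.mem_filter] at hf
      have hf' := (Finset.mem_filter.1 hf.1).2
      have hf0 : (f : F) ≠ 0 := fun h => hf' (Subtype.ext h)
      have h1 : divisor k (f : F) = divisor k (f₀ : F) := by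
        have h2 := hG f hf'
        rw [hf.2, hG f₀ hf₀'] at h2
        exact (add_right_cancel h2).symm
      right
      intro P
      have h2 := DFunLike.congr_fun h1 P
      rw [divisor_apply, divisor_apply] at h2
      rw [P.ord_div hf0 hf₀0, h2]; simp
    refine Finset.card_le_card_of_injOn
      (fun f => if h : (f : F) / (f₀ : F) ∈ LL (0 : Place k F →₀ ℤ) then ⟨_, h⟩ else 0)
      (fun f _ => Finset.mem_coe.2 (Finset.mem_univ _)) ?_
    intro f hf f' hf' hff
    simp only at hff
    rw [dif_pos (hmem f (by simpa using hf)), dif_pos (hmem f' (by simpa using hf'))] at hff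
    have h1 := congrArg Subtype.val hff
    simp only at h1
    rw [div_left_inj' hf₀0] at h1
    exact Subtype.ext h1
  have hcardS : S.card + 1 = Nat.card k ^ finrank k (LL D) := by
    rw [← card_LL, Nat.card_eq_fintype_card, ← Finset.card_univ]
    have h1 := Finset.card_filter_add_card_filter_not (s := (Finset.univ : Finset (LL D))) (fun f => f ≠ 0)
    have h2 : (Finset.univ.filter (fun f : LL D => ¬ (f ≠ 0))).card = 1 := by
      rw [Finset.card_eq_one]
      refine ⟨0, ?_⟩
      ext f; simp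
    rw [← h1, h2]
  have himage : (S.image G).card ≤ AA k F (m * e) := by
    unfold AA
    rw [← Set.ncard_coe_finset]
    apply Set.ncard_le_ncard _ (finite_eff _)
    intro E hE
    simp only [Finset.coe_image, Set.mem_image, Finset.mem_coe] at hE
    obtain ⟨f, hf, rfl⟩ := hE
    exact himg f hf
  -- conclusion
  have h1 : Nat.card k ^ (m * e - g) ≤ Nat.card k ^ l * AA k F (m * e) + 1 := by
    calc Nat.card k ^ (m * e - g) ≤ Nat.card k ^ finrank k (LL D) :=
          Nat.pow_le_pow_right (by omega) hell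
      _ = S.card + 1 := hcardS.symm
      _ ≤ Nat.card k ^ l * (S.image G).card + 1 := by omega
      _ ≤ _ := by
        have := Nat.mul_le_mul_left (Nat.card k ^ l) himage
        omega
  have hme : g + 1 ≤ m * e := by
    have : ((g + 1 : ℕ) : ℤ) ≤ ((m * e : ℕ) : ℤ) := by push_cast; exact hge
    exact_mod_cast this
  have h2 : Nat.card k ^ (m * e - g) = Nat.card k * Nat.card k ^ (m * e - g - 1) := by
    rw [← pow_succ']
    congr 1
    omega
  have h3 : Nat.card k ^ (m * e - g - 1) ≤ Nat.card k ^ l * AA k F (m * e) := by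
    have h4 : 1 ≤ Nat.card k ^ (m * e - g - 1) := Nat.one_le_pow _ _ (by omega)
    rw [h2] at h1
    have h5 : 2 * Nat.card k ^ (m * e - g - 1) ≤ Nat.card k * Nat.card k ^ (m * e - g - 1) :=
      Nat.mul_le_mul_right _ hq
    omega
  have h4 : Nat.card k ^ (m * e) ≤ Nat.card k ^ l * Nat.card k ^ (g + 1) * AA k F (m * e) := by
    calc Nat.card k ^ (m * e) = Nat.card k ^ (g + 1) * Nat.card k ^ (m * e - g - 1) := by
          rw [← pow_add]; congr 1; omega
      _ ≤ Nat.card k ^ (g + 1) * (Nat.card k ^ l * AA k F (m * e)) := Nat.mul_le_mul_left _ h3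
      _ = _ := by ring
  have hpos : (0 : ℝ) < (Nat.card k : ℝ) ^ l * (Nat.card k : ℝ) ^ (g + 1) := by
    have : (0 : ℝ) < Nat.card k := by exact_mod_cast (by omega : 0 < Nat.card k)
    positivity
  rw [inv_mul_le_iff₀ hpos]
  exact_mod_cast h4

end Pool.Agent.H467.MR.Zeta

namespace Pool.Agent.H467.MR.Zeta

section

variable {k F : Type*} [Field k] [Finite k] [Field F] [Algebra k F] [IsFF k F]

/-- Sums over finite sets of effective divisors. -/
theorem sum_divisors : ∃ C : ℝ, 0 < C ∧ ∀ u : ℝ, 0 < u → (Nat.card k : ℝ) * u < 1 →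
    ∀ T : Finset (Place k F →₀ ℕ), ∑ E ∈ T, u ^ edeg E ≤ C * (1 / (1 - Nat.card k * u)) := by
  classical
  obtain ⟨C, hC, h⟩ := upper (k := k) (F := F)
  refine ⟨C, hC, ?_⟩
  intro u hu hqu T
  have hq0 : 0 < (Nat.card k : ℝ) := by exact_mod_cast (by have := two_le (k := k); omega : 0 < Nat.card k)
  have h0 : 0 ≤ (Nat.card k : ℝ) * u := by positivity
  rw [Finset.sum_comp (fun d : ℕ => u ^ d) edeg]
  have h1 : ∀ d ∈ T.image edeg, (T.filter (fun E => edeg E = d)).card • u ^ d ≤
      C * ((Nat.card k : ℝ) * u) ^ d := by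
    intro d _
    rw [nsmul_eq_mul, mul_pow, ← mul_assoc]
    apply mul_le_mul_of_nonneg_right _ (by positivity)
    refine le_trans ?_ (h d)
    have : (T.filter (fun E => edeg E = d)).card ≤ AA k F d := by
      unfold AA
      rw [← Set.ncard_coe_finset]
      apply Set.ncard_le_ncard _ (finite_eff _)
      intro E hE
      simp only [Finset.coe_filter, Set.mem_setOf_eq] at hE ⊢
      exact hE.2
    exact_mod_cast this
  refine (Finset.sum_le_sum h1).trans ?_
  rw [← Finset.mul_sum]
  apply mul_le_mul_of_nonneg_left _ hC.le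
  have h2 : Summable (fun d : ℕ => ((Nat.card k : ℝ) * u) ^ d) := summable_geometric_of_lt_one h0 hqu
  refine (h2.sum_le_tsum _ (fun d _ => by positivity)).trans ?_
  rw [tsum_geometric_of_lt_one h0 hqu, one_div]

/-- Sums over finite sets of places at the point `u = q ^ (-2)`. -/
theorem sum_sq : ∃ C : ℝ, 0 < C ∧ ∀ u : ℝ, 0 < u → (Nat.card k : ℝ) * u < 1 →
    ∀ S : Finset (Place k F), ∑ P ∈ S, (u ^ P.deg) ^ 2 ≤ C := by
  classical
  obtain ⟨C, hC, h⟩ := sum_divisors (k := k) (F := F)
  have hq2 : (2 : ℝ) ≤ Nat.card k := by exact_mod_cast two_le (k := k)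
  have hq0 : (0 : ℝ) < Nat.card k := by linarith
  refine ⟨2 * C, by positivity, ?_⟩
  intro u hu hqu S
  have hu2 : 0 < u ^ 2 := by positivity
  have h1 : (Nat.card k : ℝ) * u ^ 2 ≤ 1 / 2 := by
    have h2 : u ≤ 1 / 2 := by
      by_contra hc
      push Not at hc
      nlinarith
    nlinarith
  have h2 := h (u ^ 2) hu2 (by linarith) (S.image (fun P => Finsupp.single P 1))
  rw [Finset.sum_image (fun P _ Q _ hPQ => Finsupp.single_left_injective one_ne_zero hPQ)] at h2
  have h2' : ∑ P ∈ S, (u ^ 2) ^ edeg (Finsupp.single P 1) = ∑ P ∈ S, (u ^ 2) ^ P.deg := by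
    refine Finset.sum_congr rfl fun P _ => ?_
    rw [edeg_single, one_mul]
  rw [h2'] at h2
  have h3 : ∑ P ∈ S, (u ^ P.deg) ^ 2 = ∑ P ∈ S, (u ^ 2) ^ P.deg := by
    refine Finset.sum_congr rfl fun P _ => ?_
    rw [← pow_mul, ← pow_mul, mul_comm]
  rw [h3]
  refine h2.trans ?_
  rw [mul_comm 2 C]
  apply mul_le_mul_of_nonneg_left _ hC.le
  rw [div_le_iff₀ (by linarith)]
  linarith

theorem log_lower {x : ℝ} (h0 : 0 ≤ x) (h1 : x ≤ 1) : x - x ^ 2 ≤ Real.log (1 + x) := by
  have h2 : 0 < 1 + x := by linarith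
  have h3 := Real.one_sub_inv_le_log_of_pos h2
  refine le_trans ?_ h3
  have h4 : (1 : ℝ) - (1 + x)⁻¹ = x / (1 + x) := by field_simp; ring
  rw [h4, le_div_iff₀ h2]
  nlinarith [mul_nonneg h0 h0, mul_nonneg h0 (sub_nonneg.2 h1), pow_nonneg h0 3]

theorem log_upper {x : ℝ} (h0 : 0 ≤ x) (h1 : x ≤ 1 / 2) : Real.log (1 - x)⁻¹ ≤ x + 2 * x ^ 2 := by
  have h2 : 0 < 1 - x := by linarith
  have h3 := Real.log_le_sub_one_of_pos (inv_pos.2 h2)
  refine h3.trans ?_
  have h4 : (1 - x)⁻¹ - 1 = x / (1 - x) := by field_simp; ring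
  rw [h4, div_le_iff₀ h2]
  nlinarith [mul_nonneg h0 h0, mul_nonneg (mul_nonneg h0 h0) (by linarith : (0:ℝ) ≤ 1 / 2 - x)]

theorem pow_deg_le {u : ℝ} (hu : 0 < u) (hqu : (Nat.card k : ℝ) * u < 1) (P : Place k F) :
    u ^ P.deg ≤ 1 / 2 := by
  have hq2 : (2 : ℝ) ≤ Nat.card k := by exact_mod_cast two_le (k := k)
  have h2 : u ≤ 1 / 2 := by
    by_contra hc
    push Not at hc
    nlinarith
  have h3 := deg_pos P
  calc u ^ P.deg ≤ u ^ 1 := pow_le_pow_of_le_one hu.le (by linarith) h3
    _ ≤ 1 / 2 := by rw [pow_one]; exact h2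

/-- Upper bound for the sums over places. -/
theorem places_upper : ∃ C : ℝ, ∀ u : ℝ, 0 < u → (Nat.card k : ℝ) * u < 1 →
    ∀ S : Finset (Place k F), ∑ P ∈ S, u ^ P.deg ≤ Real.log (1 / (1 - Nat.card k * u)) + C := by
  classical
  obtain ⟨C, hC, h⟩ := sum_divisors (k := k) (F := F)
  obtain ⟨C₂, hC₂, h₂⟩ := sum_sq (k := k) (F := F)
  refine ⟨Real.log C + C₂, ?_⟩
  intro u hu hqu S
  have hpos : 0 < 1 / (1 - (Nat.card k : ℝ) * u) := by
    apply one_div_pos.2; linarith
  have h1 : ∏ P ∈ S, (1 + u ^ P.deg) ≤ C * (1 / (1 - Nat.card k * u)) := by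
    rw [Finset.prod_one_add]
    let G : Finset (Place k F) → (Place k F →₀ ℕ) := fun T => ∑ P ∈ T, Finsupp.single P 1
    have hGa : ∀ (T : Finset (Place k F)) (P : Place k F), G T P = if P ∈ T then 1 else 0 := by
      intro T P
      simp only [G, Finsupp.finset_sum_apply, Finsupp.single_apply]
      simp
    have hGi : Set.InjOn G (S.powerset : Set (Finset (Place k F))) := by
      intro T _ T' _ hTT
      ext P
      have := DFunLike.congr_fun hTT P
      rw [hGa, hGa] at this
      by_cases h1 : P ∈ T <;> by_cases h2 : P ∈ T' <;> simp_all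
    have hGd : ∀ T : Finset (Place k F), edeg (G T) = ∑ P ∈ T, P.deg := by
      intro T
      induction T using Finset.induction_on with
      | empty => simp [G, edeg]
      | insert P T hP ih =>
        have : G (insert P T) = Finsupp.single P 1 + G T := by
          simp only [G]; rw [Finset.sum_insert hP]
        rw [this, edeg_add, edeg_single, ih, Finset.sum_insert hP, one_mul]
    have h3 := h u hu hqu (S.powerset.image G)
    rw [Finset.sum_image hGi] at h3
    refine le_trans (le_of_eq ?_) h3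
    refine Finset.sum_congr rfl fun T _ => ?_
    rw [hGd, Finset.prod_pow_eq_pow_sum]
  have h3 : Real.log (∏ P ∈ S, (1 + u ^ P.deg)) ≤ Real.log (C * (1 / (1 - Nat.card k * u))) := by
    apply Real.log_le_log _ h1
    apply Finset.prod_pos
    intro P _; positivity
  rw [Real.log_mul hC.ne' hpos.ne', Real.log_prod (fun P _ => by positivity)] at h3
  have h4 : ∑ P ∈ S, (u ^ P.deg - (u ^ P.deg) ^ 2) ≤ ∑ P ∈ S, Real.log (1 + u ^ P.deg) := by
    apply Finset.sum_le_sum
    intro P _
    exact log_lower (by positivity) ((pow_deg_le hu hqu P).trans (by norm_num))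
  rw [Finset.sum_sub_distrib] at h4
  have h5 := h₂ u hu hqu S
  linarith

theorem euler_le {u : ℝ} (hu : 0 < u) (hqu : (Nat.card k : ℝ) * u < 1)
    (T : Finset (Place k F →₀ ℕ)) (S : Finset (Place k F)) (hS : ∀ E ∈ T, E.support ⊆ S) :
    ∑ E ∈ T, u ^ edeg E ≤ ∏ P ∈ S, (1 - u ^ P.deg)⁻¹ := by
  classical
  -- bound for the multiplicities
  let M : ℕ := ∑ E ∈ T, edeg E
  have hM : ∀ E ∈ T, ∀ P, E P ≤ M := by
    intro E hE P
    have h1 := le_edeg E P
    have h2 : E P * 1 ≤ E P * P.deg := Nat.mul_le_mul_left _ (deg_pos P)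
    have h3 : edeg E ≤ M := Finset.single_le_sum (f := fun E => edeg E) (fun _ _ => Nat.zero_le _) hE
    omega
  have hval : ∀ E ∈ T, u ^ edeg E = ∏ P : S, (u ^ P.1.deg) ^ (E P.1) := by
    intro E hE
    unfold edeg
    rw [Finsupp.sum_of_support_subset E (hS E hE) _ (fun P _ => by simp), ← Finset.prod_pow_eq_pow_sum,
      ← Finset.prod_coe_sort]
    refine Finset.prod_congr rfl fun P _ => ?_
    rw [← pow_mul, mul_comm]
  rw [Finset.sum_congr rfl hval]
  have h1 : ∑ E ∈ T, ∏ P : S, (u ^ P.1.deg) ^ (E P.1) ≤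
      ∑ f ∈ Fintype.piFinset (fun _ : S => Finset.range (M + 1)), ∏ P : S, (u ^ P.1.deg) ^ (f P) := by
    let G : (Place k F →₀ ℕ) → (S → ℕ) := fun E P => E P.1
    have hGi : Set.InjOn G (T : Set (Place k F →₀ ℕ)) := by
      intro E hE E' hE' hEE
      ext P
      by_cases hP : P ∈ S
      · exact congrFun hEE ⟨P, hP⟩
      · rw [Finsupp.notMem_support_iff.1 (fun hh => hP (hS E hE hh)),
          Finsupp.notMem_support_iff.1 (fun hh => hP (hS E' hE' hh))]
    rw [← Finset.sum_image (f := fun f : S → ℕ => ∏ P : S, (u ^ P.1.deg) ^ (f P)) hGi]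
    apply Finset.sum_le_sum_of_subset_of_nonneg
    · intro f hf
      obtain ⟨E, hE, rfl⟩ := Finset.mem_image.1 hf
      rw [Fintype.mem_piFinset]
      intro P
      rw [Finset.mem_range]
      have := hM E hE P.1
      simp only [G]
      omega
    · intro f _ _
      apply Finset.prod_nonneg
      intro P _; positivity
  refine h1.trans ?_
  rw [← Finset.prod_univ_sum, ← Finset.prod_coe_sort S]
  apply Finset.prod_le_prod
  · intro P _
    apply Finset.sum_nonneg
    intro j _; positivity
  · intro P _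
    have h2 := pow_deg_le hu hqu P.1
    have h3 : 0 ≤ u ^ P.1.deg := by positivity
    rw [← tsum_geometric_of_lt_one h3 (by linarith)]
    exact (summable_geometric_of_lt_one h3 (by linarith)).sum_le_tsum _ (fun j _ => by positivity)

/-- Lower bound for the sums over places. -/
theorem places_lower : ∃ C : ℝ, ∀ u : ℝ, 0 < u → (Nat.card k : ℝ) * u < 1 →
    ∀ A : ℝ, (∀ S : Finset (Place k F), ∑ P ∈ S, u ^ P.deg ≤ A) →
      Real.log (1 / (1 - Nat.card k * u)) ≤ A + C := by
  classical
  obtain ⟨c, e, m₀, hc, he, h⟩ := lower (k := k) (F := F)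
  obtain ⟨C₂, hC₂, h₂⟩ := sum_sq (k := k) (F := F)
  have hq2 : (2 : ℝ) ≤ Nat.card k := by exact_mod_cast two_le (k := k)
  have hq0 : (0 : ℝ) < Nat.card k := by linarith
  refine ⟨Real.log 2 + 2 * C₂ + |Real.log (c * (1 / 2) ^ (e * m₀) / e)|, ?_⟩
  intro u hu hqu A hA
  have hA0 : 0 ≤ A := by simpa using hA ∅
  have hlog2 : 0 ≤ Real.log 2 := Real.log_nonneg (by norm_num)
  set y : ℝ := (Nat.card k : ℝ) * u with hy
  have hy0 : 0 < y := by positivity
  have h1y : 0 < 1 - y := by linarith
  by_cases hsmall : y ≤ 1 / 2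
  · have h1 : Real.log (1 / (1 - y)) ≤ Real.log 2 := by
      apply Real.log_le_log (by positivity)
      rw [div_le_iff₀ h1y]; linarith
    have := abs_nonneg (Real.log (c * (1 / 2) ^ (e * m₀) / e))
    linarith
  push Not at hsmall
  -- the bound for finite sums
  have hfin : ∀ T : Finset (Place k F →₀ ℕ), ∑ E ∈ T, u ^ edeg E ≤ Real.exp (A + 2 * C₂) := by
    intro T
    let S : Finset (Place k F) := T.biUnion (fun E => E.support)
    refine (euler_le hu hqu T S (fun E hE => Finset.subset_biUnion_of_mem (fun E => E.support) hE)).trans ?_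
    have hpos : ∀ P ∈ S, 0 < (1 - u ^ P.deg)⁻¹ := by
      intro P _
      have := pow_deg_le hu hqu P
      apply inv_pos.2; linarith
    rw [← Real.exp_log (Finset.prod_pos hpos)]
    apply Real.exp_le_exp.2
    rw [Real.log_prod (fun P hP => (hpos P hP).ne')]
    calc ∑ P ∈ S, Real.log (1 - u ^ P.deg)⁻¹ ≤ ∑ P ∈ S, (u ^ P.deg + 2 * (u ^ P.deg) ^ 2) := by
          apply Finset.sum_le_sum
          intro P _
          exact log_upper (by positivity) (pow_deg_le hu hqu P)
      _ = ∑ P ∈ S, u ^ P.deg + 2 * ∑ P ∈ S, (u ^ P.deg) ^ 2 := by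
          rw [Finset.sum_add_distrib, Finset.mul_sum]
      _ ≤ A + 2 * C₂ := by
          have := hA S
          have := h₂ u hu hqu S
          linarith
  -- sums over the divisors of degree `m e`
  have hsum : ∀ N : ℕ, ∑ m ∈ Finset.range N, c * (y ^ e) ^ (m + m₀) ≤ Real.exp (A + 2 * C₂) := by
    intro N
    let T : Finset (Place k F →₀ ℕ) := (Finset.range N).biUnion
      (fun m => (finite_eff (k := k) (F := F) ((m + m₀) * e)).toFinset)
    refine le_trans ?_ (hfin T)
    rw [Finset.sum_biUnion]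
    · apply Finset.sum_le_sum
      intro m _
      have h3 : ∑ E ∈ (finite_eff (k := k) (F := F) ((m + m₀) * e)).toFinset, u ^ edeg E =
          AA k F ((m + m₀) * e) * u ^ ((m + m₀) * e) := by
        rw [Finset.sum_congr rfl (g := fun _ => u ^ ((m + m₀) * e))]
        · rw [Finset.sum_const, nsmul_eq_mul]
          congr 2
          unfold AA
          rw [Set.ncard_eq_toFinset_card _ (finite_eff _)]
        · intro E hE
          rw [Set.Finite.mem_toFinset] at hE
          rw [show edeg E = (m + m₀) * e from hE]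
      rw [h3, ← pow_mul, mul_comm e, hy, mul_pow, ← mul_assoc]
      exact mul_le_mul_of_nonneg_right (h _ (by omega)) (by positivity)
    · intro m _ m' _ hmm
      rw [Function.onFun, Finset.disjoint_left]
      intro E hE hE'
      rw [Set.Finite.mem_toFinset] at hE hE'
      simp only [Set.mem_setOf_eq] at hE hE'
      apply hmm
      rw [hE] at hE'
      have := Nat.eq_of_mul_eq_mul_right he hE'
      omega
  have hye0 : 0 ≤ y ^ e := by positivity
  have hye1 : y ^ e < 1 := pow_lt_one₀ hy0.le hqu he.ne'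
  have hlim : c * (y ^ e) ^ m₀ * (1 - y ^ e)⁻¹ ≤ Real.exp (A + 2 * C₂) := by
    rw [← tsum_geometric_of_lt_one hye0 hye1, ← tsum_mul_left]
    apply Real.tsum_le_of_sum_range_le
    · intro n; positivity
    · intro N
      refine le_trans (le_of_eq ?_) (hsum N)
      refine Finset.sum_congr rfl fun m _ => ?_
      rw [pow_add]; ring
  have hbern : 1 - y ^ e ≤ e * (1 - y) := by
    have := one_add_mul_le_pow (a := y - 1) (by linarith) e
    have h2 : (1 : ℝ) + (y - 1) = y := by ring
    rw [h2] at this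
    linarith
  have hkey : c * (1 / 2) ^ (e * m₀) / e * (1 / (1 - y)) ≤ Real.exp (A + 2 * C₂) := by
    refine le_trans ?_ hlim
    have he' : (0 : ℝ) < e := by exact_mod_cast he
    have h3 : (1 / 2 : ℝ) ^ (e * m₀) ≤ (y ^ e) ^ m₀ := by
      rw [← pow_mul]
      exact pow_le_pow_left₀ (by norm_num) hsmall.le _
    have h4 : (e * (1 - y))⁻¹ ≤ (1 - y ^ e)⁻¹ := by
      apply inv_anti₀ _ hbern
      linarith
    calc c * (1 / 2) ^ (e * m₀) / e * (1 / (1 - y)) = c * (1 / 2) ^ (e * m₀) * (e * (1 - y))⁻¹ := by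
          rw [mul_inv]; field_simp
      _ ≤ c * (y ^ e) ^ m₀ * (1 - y ^ e)⁻¹ := by
          apply mul_le_mul _ h4 (by positivity) (by positivity)
          exact mul_le_mul_of_nonneg_left h3 hc.le
  have hlhs : 0 < c * (1 / 2) ^ (e * m₀) / e := by
    have he' : (0 : ℝ) < e := by exact_mod_cast he
    positivity
  have h5 := Real.log_le_log (by positivity) hkey
  rw [Real.log_exp, Real.log_mul hlhs.ne' (by positivity)] at h5
  have h6 := neg_abs_le (Real.log (c * (1 / 2) ^ (e * m₀) / e))
  linarith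

variable (k F) in
/-- The sum over all places. -/
theorem places_sum : ∃ C : ℝ, ∀ u : ℝ, 0 < u → (Nat.card k : ℝ) * u < 1 →
    Summable (fun P : Place k F => u ^ P.deg) ∧
      |∑' P : Place k F, u ^ P.deg - Real.log (1 / (1 - Nat.card k * u))| ≤ C := by
  obtain ⟨C₁, h₁⟩ := places_upper (k := k) (F := F)
  obtain ⟨C₂, h₂⟩ := places_lower (k := k) (F := F)
  refine ⟨max C₁ C₂, ?_⟩
  intro u hu hqu
  have hs : Summable (fun P : Place k F => u ^ P.deg) :=
    summable_of_sum_le (fun P => by positivity) (h₁ u hu hqu)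
  refine ⟨hs, ?_⟩
  have h3 := Real.tsum_le_of_sum_le (fun P => by positivity) (h₁ u hu hqu)
  have h4 := h₂ u hu hqu (∑' P : Place k F, u ^ P.deg)
    (fun S => hs.sum_le_tsum S (fun P _ => by positivity))
  rw [abs_le]
  have := le_max_left C₁ C₂
  have := le_max_right C₁ C₂
  constructor <;> linarith

end

end Pool.Agent.H467.MR.Zeta

end

section
open Module FF Pool.Agent.H525R3.FFp Polynomial IsDedekindDomain IntermediateField

namespace Pool.Agent.H467.MR.Zeta

section cnt

variable {k : Type} [Field k] [Finite k]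

theorem sum_monic {u : ℝ} (hu : 0 < u) (hqu : (Nat.card k : ℝ) * u < 1) (S : Finset (Pr k)) :
    ∑ Q ∈ S, (u ^ Q.1.natDegree) ^ 2 ≤ 2 := by
  classical
  have hq2 : (2 : ℝ) ≤ Nat.card k := by exact_mod_cast two_le (k := k)
  have h2 : u ≤ 1 / 2 := by
    by_contra hc
    push Not at hc
    nlinarith
  have h1 : (Nat.card k : ℝ) * u ^ 2 ≤ 1 / 2 := by nlinarith
  have h0 : 0 ≤ (Nat.card k : ℝ) * u ^ 2 := by positivity
  rw [Finset.sum_comp (fun d : ℕ => (u ^ d) ^ 2) (fun Q : Pr k => Q.1.natDegree)]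
  have h3 : ∀ d ∈ S.image (fun Q : Pr k => Q.1.natDegree),
      (S.filter (fun Q => Q.1.natDegree = d)).card • (u ^ d) ^ 2 ≤ ((Nat.card k : ℝ) * u ^ 2) ^ d := by
    intro d _
    letI : Fintype k := Fintype.ofFinite k
    have h4 : (S.filter (fun Q => Q.1.natDegree = d)).card ≤ Nat.card k ^ d := by
      have h5 : Nat.card k ^ d = (Finset.univ : Finset (Fin d → k)).card := by
        rw [Finset.card_univ, Fintype.card_fun, Fintype.card_fin, Nat.card_eq_fintype_card]
      rw [h5]
      refine Finset.card_le_card_of_injOn (fun Q => fun i : Fin d => Q.1.coeff i)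
        (fun f _ => Finset.mem_coe.2 (Finset.mem_univ _)) ?_
      intro Q hQ Q' hQ' h
      simp only [Finset.coe_filter, Set.mem_setOf_eq] at hQ hQ'
      apply Subtype.ext
      ext n
      rcases lt_trichotomy n d with hn | hn | hn
      · exact congrFun h ⟨n, hn⟩
      · subst hn
        have e1 := Q.2.1.coeff_natDegree
        have e2 := Q'.2.1.coeff_natDegree
        rw [hQ.2] at e1
        rw [hQ'.2] at e2
        rw [e1, e2]
      · rw [coeff_eq_zero_of_natDegree_lt (by omega), coeff_eq_zero_of_natDegree_lt (by omega)]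
    rw [nsmul_eq_mul, mul_pow, ← pow_mul, ← pow_mul, mul_comm 2 d]
    apply mul_le_mul_of_nonneg_right _ (by positivity)
    exact_mod_cast h4
  refine (Finset.sum_le_sum h3).trans ?_
  have h4 : Summable (fun d : ℕ => ((Nat.card k : ℝ) * u ^ 2) ^ d) :=
    summable_geometric_of_lt_one h0 (by linarith)
  refine (h4.sum_le_tsum _ (fun d _ => by positivity)).trans ?_
  rw [tsum_geometric_of_lt_one h0 (by linarith), ← one_div, div_le_iff₀ (by linarith)]
  linarith

end cnt

section

variable {k K F O : Type} [Field k] [Finite k] [Field K] [Algebra k[X] K]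
  [IsFractionRing k[X] K] [Field F] [Algebra K F] [FiniteDimensional K F]
  [Algebra.IsSeparable K F] [Algebra k[X] F] [IsScalarTower k[X] K F] [CommRing O]
  [Algebra k[X] O] [Algebra O F] [IsScalarTower k[X] O F] [IsIntegralClosure O k[X] F]
  [Algebra k F] [IsScalarTower k k[X] F] [Algebra k O] [IsScalarTower k k[X] O] [IsScalarTower k O F]

variable (K) in
include K in
theorem inj_F : Function.Injective (algebraMap k[X] F) := by
  rw [IsScalarTower.algebraMap_eq k[X] K F]
  exact (algebraMap K F).injective.comp (IsFractionRing.injective k[X] K)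

theorem aeval_t (p : k[X]) : aeval (algebraMap k[X] F X) p = algebraMap k[X] F p := by
  have h : aeval (algebraMap k[X] F X) = IsScalarTower.toAlgHom k k[X] F := by
    apply Polynomial.algHom_ext
    simp
  rw [h]; rfl

variable (K) in
include K in
theorem isFF : IsFF k F := by
  have htr : Transcendental k (algebraMap k[X] F X) := by
    rw [transcendental_iff]
    intro p hp
    rw [aeval_t] at hp
    exact inj_F K (hp.trans (map_zero _).symm)
  refine IsFF.of_finite htr ?_
  have h0 : ∀ p : k[X], algebraMap k[X] F p ∈ k⟮algebraMap k[X] F X⟯ := by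
    intro p
    have h1 := IntermediateField.algebra_adjoin_le_adjoin k {algebraMap k[X] F X}
      (aeval_mem_adjoin_singleton k (algebraMap k[X] F X) (p := p))
    rwa [aeval_t] at h1
  have hrange : ∀ c : K, algebraMap K F c ∈ k⟮algebraMap k[X] F X⟯ := by
    intro c
    obtain ⟨a, b, hb, rfl⟩ := IsFractionRing.div_surjective (A := k[X]) c
    rw [map_div₀, ← IsScalarTower.algebraMap_apply, ← IsScalarTower.algebraMap_apply]
    exact div_mem (h0 a) (h0 b)
  let φ : K →+* k⟮algebraMap k[X] F X⟯ := (algebraMap K F).codRestrict _ hrange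
  letI : Algebra K k⟮algebraMap k[X] F X⟯ := φ.toAlgebra
  haveI : IsScalarTower K k⟮algebraMap k[X] F X⟯ F := IsScalarTower.of_algebraMap_eq (fun _ => rfl)
  exact Module.Finite.of_restrictScalars_finite K _ F

theorem surj_Kp (Q : Pr k) : Function.Surjective (algebraMap k[X] (Kp Q)) :=
  Ideal.Quotient.mk_surjective

theorem Kp_eq_zero (Q : Pr k) (p : k[X]) : algebraMap k[X] (Kp Q) p = 0 ↔ Q.1 ∣ p := by
  rw [← Ideal.mem_span_singleton]
  exact Ideal.Quotient.eq_zero_iff_mem

theorem surj_phi {Q : Pr k} (φ : O →ₐ[k[X]] Kp Q) : Function.Surjective φ := by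
  intro c
  obtain ⟨p, rfl⟩ := surj_Kp Q c
  exact ⟨algebraMap k[X] O p, φ.commutes p⟩

variable (K F) in
include K F in
/-- The prime of `O` of a homomorphism. -/
noncomputable def hos {Q : Pr k} (φ : O →ₐ[k[X]] Kp Q) : HeightOneSpectrum O where
  asIdeal := RingHom.ker φ
  isPrime := RingHom.ker_isPrime φ
  ne_bot := by
    intro h
    have h1 : algebraMap k[X] O Q.1 ∈ RingHom.ker φ := by
      rw [RingHom.mem_ker, φ.commutes, Kp_eq_zero]
    rw [h, Ideal.mem_bot] at h1
    have h2 : algebraMap k[X] F Q.1 = 0 := by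
      rw [IsScalarTower.algebraMap_apply k[X] O F, h1, map_zero]
    exact Q.2.2.ne_zero (inj_F K (h2.trans (map_zero _).symm))

theorem mem_hos {Q : Pr k} (φ : O →ₐ[k[X]] Kp Q) (x : O) : x ∈ (hos K F φ).asIdeal ↔ φ x = 0 :=
  RingHom.mem_ker

variable [IsDedekindDomain O] [IsFractionRing O F]

variable (K F) in
/-- The place of a homomorphism. -/
noncomputable def plc {Q : Pr k} (φ : O →ₐ[k[X]] Kp Q) : Place k F := placeOf (hos K F φ)

theorem deg_plc {Q : Pr k} (φ : O →ₐ[k[X]] Kp Q) : (plc K F φ).deg = Q.1.natDegree := by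
  let g : O →+* (plc K F φ).RF :=
    (placeOf (k := k) (L := F) (hos K F φ)).redHom (algebraMap O F) (placeOf_reg _)
  have hg : Function.Surjective g := placeOf_redHom_surjective (k := k) (L := F) (hos K F φ)
  have hgk : ∀ x, g x = 0 ↔ φ x = 0 := by
    intro x
    rw [← mem_hos (K := K) (F := F)]
    exact placeOf_red_eq_zero (k := k) (L := F) _ x
  let f : O →+* Kp Q := φ
  have hf : Function.Surjective f := surj_phi φ
  have hker : RingHom.ker f = RingHom.ker g := by
    ext x
    rw [RingHom.mem_ker, RingHom.mem_ker, hgk]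
    rfl
  let e : Kp Q ≃+* (plc K F φ).RF :=
    (RingHom.quotientKerEquivOfSurjective hf).symm.trans
      ((Ideal.quotEquivOfEq hker).trans (RingHom.quotientKerEquivOfSurjective hg))
  have he : ∀ x, e (f x) = g x := by
    intro x
    simp only [e, RingEquiv.trans_apply]
    rw [RingHom.quotientKerEquivOfSurjective_symm_apply]
    rfl
  letI : Algebra k (Kp Q) := (inferInstance : Algebra k (k[X] ⧸ Ideal.span {Q.1}))
  have h1 : finrank k (Kp Q) = finrank k (plc K F φ).RF := by
    refine Algebra.finrank_eq_of_equiv_equiv (RingEquiv.refl k) e ?_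
    ext c
    have h2 : algebraMap k (Kp Q) c = f (algebraMap k O c) := by
      rw [IsScalarTower.algebraMap_apply k k[X] O]
      exact (φ.commutes _).symm
    simp only [RingHom.coe_comp, Function.comp_apply]
    have h3 : (e.toRingHom : Kp Q →+* _) (algebraMap k (Kp Q) c) = g (algebraMap k O c) := by
      rw [h2]; exact he _
    refine Eq.trans ?_ h3.symm
    change (plc K F φ).red (algebraMap k F c) = (plc K F φ).red (algebraMap O F (algebraMap k O c))
    rw [← IsScalarTower.algebraMap_apply]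
  have h4 : finrank k (Kp Q) = Q.1.natDegree := finrank_quotient_span_eq_natDegree
  unfold Place.deg
  rw [← h1, h4]

variable (K F O) in
/-- The homomorphisms of all primes. -/
abbrev Hm : Type := Σ Q : Pr k, O →ₐ[k[X]] Kp Q

theorem plc_injective : Function.Injective (fun h : Σ Q : Pr k, O →ₐ[k[X]] Kp Q => plc K F h.2) := by
  rintro ⟨Q, φ⟩ ⟨Q', φ'⟩ h
  simp only at h
  have h1 : hos K F φ = hos K F φ' := placeOf_injective h
  have h2 : ∀ x, φ x = 0 ↔ φ' x = 0 := by
    intro x
    rw [← mem_hos (K := K) (F := F), ← mem_hos (K := K) (F := F), h1]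
  have hQ : Q = Q' := by
    apply Subtype.ext
    have h3 : Q.1 ∣ Q'.1 := by
      rw [← Kp_eq_zero, ← φ.commutes, h2, φ'.commutes, Kp_eq_zero]
    exact eq_of_monic_of_associated Q.2.1 Q'.2.1 (Q.2.2.associated_of_dvd Q'.2.2 h3)
  subst hQ
  congr 1
  ext x
  obtain ⟨p, hp⟩ := surj_Kp Q (φ x)
  have h3 : φ (x - algebraMap k[X] O p) = 0 := by
    rw [map_sub, φ.commutes, hp, sub_self]
  have h4 := (h2 _).1 h3
  rw [map_sub, φ'.commutes, hp, sub_eq_zero] at h4
  exact h4.symm

/-- A finite place. -/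
theorem reg_poly {w : Place k F} (hw : w.Reg (algebraMap k[X] F X)) (p : k[X]) :
    w.Reg (algebraMap k[X] F p) := by
  induction p using Polynomial.induction_on' with
  | add p q hp hq => rw [map_add]; exact w.reg_add hp hq
  | monomial n c =>
    rw [← C_mul_X_pow_eq_monomial, map_mul, map_pow]
    have h1 : w.Reg (algebraMap k[X] F (C c)) := by
      have : algebraMap k[X] F (C c) = algebraMap k F c := by
        rw [IsScalarTower.algebraMap_apply k k[X] F]; rfl
      rw [this]; exact w.reg_const c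
    apply w.reg_mul h1
    induction n with
    | zero => rw [pow_zero]; exact w.reg_one
    | succ n ih => rw [pow_succ]; exact w.reg_mul ih hw

theorem reg_O {w : Place k F} (hw : w.Reg (algebraMap k[X] F X)) (x : O) :
    w.Reg (algebraMap O F x) :=
  w.reg_of_isIntegral (A := k[X]) (reg_poly hw)
    ((IsIntegralClosure.isIntegral_iff (A := O)).2 ⟨x, rfl⟩)

end

end Pool.Agent.H467.MR.Zeta

namespace Pool.Agent.H467.MR.Zeta

section

variable {k K F O : Type} [Field k] [Finite k] [Field K] [Algebra k[X] K]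
  [IsFractionRing k[X] K] [Field F] [Algebra K F] [FiniteDimensional K F]
  [Algebra.IsSeparable K F] [Algebra k[X] F] [IsScalarTower k[X] K F] [CommRing O]
  [Algebra k[X] O] [Algebra O F] [IsScalarTower k[X] O F] [IsIntegralClosure O k[X] F]
  [Algebra k F] [IsScalarTower k k[X] F] [Algebra k O] [IsScalarTower k k[X] O] [IsScalarTower k O F]
  [IsFF k F]

/-- The prime below a place. -/
noncomputable def bel (w : Place k F) : Pr k :=
  ⟨minpoly k (w.red (algebraMap k[X] F X)),
    minpoly.monic (Algebra.IsIntegral.isIntegral (R := k) (A := w.RF) _),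
    minpoly.irreducible (Algebra.IsIntegral.isIntegral (R := k) (A := w.RF) _)⟩

theorem red_poly {w : Place k F} (hw : w.Reg (algebraMap k[X] F X)) (p : k[X]) :
    w.red (algebraMap k[X] F p) = aeval (w.red (algebraMap k[X] F X)) p := by
  induction p using Polynomial.induction_on' with
  | add p q hp hq =>
    rw [map_add, w.red_add (reg_poly hw p) (reg_poly hw q), hp, hq, map_add]
  | monomial n c =>
    have h1 : algebraMap k[X] F (C c) = algebraMap k F c := by
      rw [IsScalarTower.algebraMap_apply k k[X] F]; rfl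
    have h2 : w.Reg (algebraMap k[X] F (C c)) := reg_poly hw _
    have h3 : w.Reg (algebraMap k[X] F X ^ n) := by
      rw [← map_pow]; exact reg_poly hw _
    rw [← C_mul_X_pow_eq_monomial, map_mul, map_pow, w.red_mul h2 h3, w.red_pow hw, map_mul, map_pow,
      aeval_X, aeval_C, h1]
    rfl

theorem red_poly_eq_zero {w : Place k F} (hw : w.Reg (algebraMap k[X] F X)) (p : k[X]) :
    w.red (algebraMap k[X] F p) = 0 ↔ (bel w).1 ∣ p := by
  rw [red_poly hw]
  exact (minpoly.dvd_iff).symm

theorem deg_eq (w : Place k F) :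
    w.deg = (bel w).1.natDegree * finrank k⟮w.red (algebraMap k[X] F X)⟯ w.RF := by
  unfold Place.deg
  rw [← Module.finrank_mul_finrank k k⟮w.red (algebraMap k[X] F X)⟯ w.RF,
    IntermediateField.adjoin.finrank (Algebra.IsIntegral.isIntegral (R := k) (A := w.RF) _)]
  rfl

theorem natDegree_le (w : Place k F) : (bel w).1.natDegree ≤ w.deg := by
  apply Nat.le_of_dvd (deg_pos w)
  rw [deg_eq]
  exact dvd_mul_right _ _

theorem two_mul_le [IsDedekindDomain O] [IsFractionRing O F] (w : Place k F)
    (hw : w.Reg (algebraMap k[X] F X))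
    (h : ∀ i : Σ Q : Pr k, O →ₐ[k[X]] Kp Q, plc K F i.2 ≠ w) :
    2 * (bel w).1.natDegree ≤ w.deg := by
  by_contra hc
  push Not at hc
  have hpos := deg_pos w
  have hdeg := deg_eq w
  set θ := w.red (algebraMap k[X] F X) with hθ
  have hn : 0 < (bel w).1.natDegree := (bel w).2.2.natDegree_pos
  have hf : finrank k⟮θ⟯ w.RF = 1 := by
    have h1 : finrank k⟮θ⟯ w.RF < 2 := by
      by_contra h2
      push Not at h2
      have := Nat.mul_le_mul_left (bel w).1.natDegree h2
      omega
    have h2 : finrank k⟮θ⟯ w.RF ≠ 0 := by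
      intro h2
      rw [h2, mul_zero] at hdeg
      omega
    omega
  have htop : k⟮θ⟯ = ⊤ := IntermediateField.finrank_eq_one_iff_eq_top.1 hf
  let rd : k[X] →+* w.RF := w.redHom (algebraMap k[X] F) (reg_poly hw)
  have hrd : ∀ p, rd p = aeval θ p := fun p => red_poly hw p
  have hsurj : Function.Surjective rd := by
    intro c
    have h1 : c ∈ k⟮θ⟯ := by rw [htop]; trivial
    rw [← IntermediateField.mem_toSubalgebra,
      IntermediateField.adjoin_simple_toSubalgebra_of_isAlgebraic
        (Algebra.IsAlgebraic.isAlgebraic (R := k) (A := w.RF) θ)] at h1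
    rw [Algebra.adjoin_singleton_eq_range_aeval] at h1
    obtain ⟨p, hp⟩ := h1
    exact ⟨p, by rw [hrd]; exact hp⟩
  have hker : Ideal.span {(bel w).1} = RingHom.ker rd := by
    ext p
    rw [Ideal.mem_span_singleton, RingHom.mem_ker, ← red_poly_eq_zero hw]
    rfl
  let e : Kp (bel w) ≃+* w.RF :=
    (Ideal.quotEquivOfEq hker).trans (RingHom.quotientKerEquivOfSurjective hsurj)
  have he : ∀ p, e (algebraMap k[X] (Kp (bel w)) p) = rd p := fun p => rfl
  let g : O →+* w.RF := w.redHom (algebraMap O F) (reg_O hw)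
  let φ : O →ₐ[k[X]] Kp (bel w) :=
    { toRingHom := (e.symm : w.RF →+* Kp (bel w)).comp g
      commutes' := by
        intro p
        change e.symm (g (algebraMap k[X] O p)) = _
        rw [RingEquiv.symm_apply_eq, he]
        change w.red (algebraMap O F (algebraMap k[X] O p)) = w.red (algebraMap k[X] F p)
        rw [← IsScalarTower.algebraMap_apply] }
  have hφ : ∀ x, φ x = 0 ↔ w.red (algebraMap O F x) = 0 := by
    intro x
    change e.symm (g x) = 0 ↔ _
    rw [map_eq_zero_iff _ e.symm.injective]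
    rfl
  apply h ⟨bel w, φ⟩
  obtain ⟨P, hP⟩ := exists_placeOf_eq (k := k) (L := F) (B := O) w (reg_O hw)
  have h1 : hos K F φ = P := by
    ext x
    rw [mem_hos, hφ, ← placeOf_red_eq_zero (k := k) (L := F) P, hP]
  change placeOf (hos K F φ) = w
  rw [h1, hP]

theorem reg_sum {ι : Type} (w : Place k F) (s : Finset ι) (f : ι → F) (h : ∀ i ∈ s, w.Reg (f i)) :
    w.Reg (∑ i ∈ s, f i) := by
  classical
  induction s using Finset.induction_on with
  | empty => rw [Finset.sum_empty]; exact w.reg_zero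
  | insert i s hi ih =>
    rw [Finset.sum_insert hi]
    exact w.reg_add (h i (Finset.mem_insert_self _ _)) (ih (fun j hj => h j (Finset.mem_insert_of_mem hj)))

theorem reg_pow' (w : Place k F) {f : F} (h : w.Reg f) (n : ℕ) : w.Reg (f ^ n) := by
  induction n with
  | zero => rw [pow_zero]; exact w.reg_one
  | succ n ih => rw [pow_succ]; exact w.reg_mul ih h

variable (K) in
include K in
theorem reg_inf (w : Place k F) (hw : w.ord (algebraMap k[X] F X) < 0) (p : k[X]) :
    w.Reg (algebraMap k[X] F p * (algebraMap k[X] F X)⁻¹ ^ p.natDegree) := by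
  have ht0 : algebraMap k[X] F X ≠ 0 := by
    intro h; rw [h, w.ord_zero] at hw; exact lt_irrefl _ hw
  have hi : w.Reg (algebraMap k[X] F X)⁻¹ := Or.inr (by rw [w.ord_inv]; omega)
  have h1 : algebraMap k[X] F p * (algebraMap k[X] F X)⁻¹ ^ p.natDegree =
      ∑ i ∈ Finset.range (p.natDegree + 1), algebraMap k F (p.coeff i) *
        (algebraMap k[X] F X)⁻¹ ^ (p.natDegree - i) := by
    have e1 : algebraMap k[X] F p = ∑ i ∈ Finset.range (p.natDegree + 1),
        algebraMap k[X] F (C (p.coeff i) * X ^ i) := by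
      rw [← map_sum, ← p.as_sum_range_C_mul_X_pow]
    rw [e1, Finset.sum_mul]
    refine Finset.sum_congr rfl fun i hi => ?_
    rw [Finset.mem_range] at hi
    have h2 : algebraMap k[X] F (C (p.coeff i)) = algebraMap k F (p.coeff i) := by
      rw [IsScalarTower.algebraMap_apply k k[X] F]; rfl
    rw [map_mul, map_pow, h2, mul_assoc]
    congr 1
    obtain ⟨j, hj⟩ : ∃ j, p.natDegree = i + j := ⟨p.natDegree - i, by omega⟩
    rw [hj, pow_add, Nat.add_sub_cancel_left, ← mul_assoc, ← mul_pow, mul_inv_cancel₀ ht0, one_pow, one_mul]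
  rw [h1]
  apply reg_sum
  intro i _
  exact w.reg_mul (w.reg_const _) (reg_pow' w hi _)

variable (K) in
include K in
theorem card_fiber (Q : Pr k) (S : Finset (Place k F))
    (hS : ∀ w ∈ S, w.Reg (algebraMap k[X] F X) ∧ bel w = Q) :
    (S.card : ℤ) ≤ ddeg (polar (k := k) (algebraMap k[X] F X)) := by
  classical
  set t := algebraMap k[X] F X with ht
  let f : F := algebraMap k[X] F Q.1
  have hf : f ≠ 0 := by
    intro h
    exact Q.2.2.ne_zero (inj_F K (h.trans (map_zero _).symm))
  have hn : 0 < Q.1.natDegree := Q.2.2.natDegree_pos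
  let D : Place k F →₀ ℤ := divisor k f + Q.1.natDegree • polar (k := k) t
  have hDw : ∀ w, D w = w.ord f + Q.1.natDegree * max (- w.ord t) 0 := by
    intro w
    simp only [D, Finsupp.add_apply, Finsupp.smul_apply, divisor_apply, polar_apply, nsmul_eq_mul]
  have hD0 : ∀ w, 0 ≤ D w := by
    intro w
    rw [hDw]
    by_cases hw : 0 ≤ w.ord t
    · have h1 : 0 ≤ w.ord f := (w.reg_iff hf).1 (reg_poly (Or.inr hw) Q.1)
      positivity
    · push Not at hw
      have h1 := reg_inf K w hw Q.1
      have ht0 : t ≠ 0 := by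
        intro h; rw [h, w.ord_zero] at hw; exact lt_irrefl _ hw
      have h2 := (w.reg_iff (mul_ne_zero hf (pow_ne_zero _ (inv_ne_zero ht0)))).1 h1
      rw [w.ord_mul hf (pow_ne_zero _ (inv_ne_zero ht0)), w.ord_pow, w.ord_inv] at h2
      rw [max_eq_left (by omega)]
      exact h2
  have hD1 : ∀ w ∈ S, 1 ≤ D w := by
    intro w hw
    obtain ⟨h1, h2⟩ := hS w hw
    have h3 : w.red f = 0 := by
      rw [red_poly_eq_zero h1, h2]
    rw [w.red_eq_zero_iff (reg_poly h1 _)] at h3
    have h4 : 0 < w.ord f := h3.resolve_left hf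
    rw [hDw]
    have : (0 : ℤ) ≤ Q.1.natDegree * max (- w.ord t) 0 := by positivity
    omega
  have h1 : ∑ w ∈ S, (Q.1.natDegree : ℤ) ≤ ddeg D := by
    have h2 : ∑ w ∈ S, (Q.1.natDegree : ℤ) ≤ ∑ w ∈ S, D w * w.deg := by
      apply Finset.sum_le_sum
      intro w hw
      have h3 := hD1 w hw
      have h4 := natDegree_le w
      rw [(hS w hw).2] at h4
      have h5 : (Q.1.natDegree : ℤ) ≤ w.deg := by exact_mod_cast h4
      nlinarith
    refine h2.trans ?_
    unfold ddeg Finsupp.sum
    apply Finset.sum_le_sum_of_subset_of_nonneg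
    · intro w hw
      rw [Finsupp.mem_support_iff]
      have := hD1 w hw
      omega
    · intro w _ _
      exact mul_nonneg (hD0 w) (by positivity)
  have h2 : ddeg D = Q.1.natDegree * ddeg (polar (k := k) t) := by
    simp only [D]
    rw [ddeg_add, ddeg_divisor, zero_add, ddeg_nsmul]
  rw [Finset.sum_const, nsmul_eq_mul, h2, mul_comm] at h1
  exact le_of_mul_le_mul_left h1 (by exact_mod_cast hn)

variable (K F O) in
include K F in
theorem main [IsDedekindDomain O] [IsFractionRing O F] :
    LogD (fun Q : Pr k => (Nat.card (O →ₐ[k[X]] Kp Q) : ℝ)) 1 := by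
  classical
  obtain ⟨C, hC⟩ := places_sum k F
  let t := algebraMap k[X] F X
  let Inf : Finset (Place k F) := (finite_support (k := k) t).toFinset
  let H : ℝ := (ddeg (polar (k := k) t) : ℤ)
  have hH : 0 ≤ H := by
    have : (0 : ℤ) ≤ ddeg (polar (k := k) t) := ddeg_nonneg (polar_nonneg t)
    simp only [H]
    exact_mod_cast this
  let j : (Σ Q : Pr k, O →ₐ[k[X]] Kp Q) → Place k F := fun i => plc K F i.2
  have hj : Function.Injective j := plc_injective
  refine ⟨C + (Inf.card + H * 2), ?_⟩
  intro u hu hqu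
  have hq2 : (2 : ℝ) ≤ Nat.card k := by exact_mod_cast two_le (k := k)
  have hu1 : u ≤ 1 := by
    by_contra hc
    push Not at hc
    nlinarith
  obtain ⟨hs, hb⟩ := hC u hu hqu
  -- the sum over the homomorphisms
  have hs1 : Summable (fun i : Σ Q : Pr k, O →ₐ[k[X]] Kp Q => u ^ (j i).deg) :=
    hs.comp_injective hj
  have hs1' : Summable (fun i : Σ Q : Pr k, O →ₐ[k[X]] Kp Q => u ^ i.1.1.natDegree) := by
    refine hs1.congr ?_
    intro i
    simp only [j, deg_plc]
  have hfib : ∀ Q : Pr k, Finite (O →ₐ[k[X]] Kp Q) := by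
    intro Q
    have h1 : {P : Place k F | P.deg ≤ Q.1.natDegree}.Finite := finite_deg _
    have := h1.to_subtype
    refine Finite.of_injective (fun φ : O →ₐ[k[X]] Kp Q =>
      (⟨plc K F φ, by simp only [Set.mem_setOf_eq, deg_plc, le_refl]⟩ :
        {P : Place k F | P.deg ≤ Q.1.natDegree})) ?_
    intro φ φ' h
    have h2 := congrArg Subtype.val h
    simp only at h2
    have h3 : (⟨Q, φ⟩ : Σ Q : Pr k, O →ₐ[k[X]] Kp Q) = ⟨Q, φ'⟩ := plc_injective h2
    exact eq_of_heq (Sigma.mk.inj h3).2
  have hval : ∀ Q : Pr k, ∑' φ : O →ₐ[k[X]] Kp Q, u ^ Q.1.natDegree =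
      (Nat.card (O →ₐ[k[X]] Kp Q) : ℝ) * u ^ Q.1.natDegree := by
    intro Q
    rw [tsum_const, nsmul_eq_mul]
  have hs2 : Summable (fun Q : Pr k => (Nat.card (O →ₐ[k[X]] Kp Q) : ℝ) * u ^ Q.1.natDegree) := by
    have h1 := hs1'.sigma
    refine h1.congr ?_
    intro Q
    exact hval Q
  refine ⟨hs2, ?_⟩
  have hsum : ∑' Q : Pr k, (Nat.card (O →ₐ[k[X]] Kp Q) : ℝ) * u ^ Q.1.natDegree =
      ∑' i : Σ Q : Pr k, O →ₐ[k[X]] Kp Q, u ^ (j i).deg := by
    have h1 : ∑' i : Σ Q : Pr k, O →ₐ[k[X]] Kp Q, u ^ (j i).deg =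
        ∑' i : Σ Q : Pr k, O →ₐ[k[X]] Kp Q, u ^ i.1.1.natDegree := by
      refine tsum_congr fun i => ?_
      simp only [j, deg_plc]
    rw [h1, hs1'.tsum_sigma]
    exact tsum_congr fun Q => (hval Q).symm
  rw [hsum]
  -- split the sum over the places
  have hsplit := (hs.subtype (Set.range j)).tsum_add_tsum_compl (s := Set.range j)
    (f := fun P : Place k F => u ^ P.deg) (hs.subtype _)
  have hrange : ∑' P : Set.range j, u ^ P.1.deg = ∑' i : Σ Q : Pr k, O →ₐ[k[X]] Kp Q, u ^ (j i).deg :=
    tsum_range (fun P : Place k F => u ^ P.deg) hj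
  have hcompl : ∀ S : Finset ((Set.range j)ᶜ : Set (Place k F)),
      ∑ P ∈ S, u ^ P.1.deg ≤ Inf.card + H * 2 := by
    intro S
    have h1 : ∑ P ∈ S, u ^ P.1.deg = ∑ P ∈ S.map (Function.Embedding.subtype _), u ^ P.deg := by
      rw [Finset.sum_map]; rfl
    rw [h1]
    set S' := S.map (Function.Embedding.subtype _) with hS'
    have hmem : ∀ P ∈ S', P ∉ Set.range j := by
      intro P hP
      obtain ⟨P', -, rfl⟩ := Finset.mem_map.1 hP
      exact P'.2
    rw [← Finset.sum_filter_add_sum_filter_not S' (fun P => ¬ P.Reg t)]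
    apply add_le_add
    · have h2 : ∀ P ∈ S'.filter (fun P => ¬ P.Reg t), u ^ P.deg ≤ 1 := by
        intro P _
        exact pow_le_one₀ hu.le hu1
      refine (Finset.sum_le_card_nsmul _ _ _ h2).trans ?_
      rw [nsmul_eq_mul, mul_one]
      have h3 : (S'.filter (fun P => ¬ P.Reg t)).card ≤ Inf.card := by
        apply Finset.card_le_card
        intro P hP
        have h4 := (Finset.mem_filter.1 hP).2
        simp only [Inf, Set.Finite.mem_toFinset, Set.mem_setOf_eq]
        intro h5
        exact h4 (Or.inr h5.ge)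
      exact_mod_cast h3
    · have h2 : ∀ P ∈ S'.filter (fun P => ¬ ¬ P.Reg t), u ^ P.deg ≤ (u ^ (bel P).1.natDegree) ^ 2 := by
        intro P hP
        have h3 := Finset.mem_filter.1 hP
        have h4 := two_mul_le (K := K) (O := O) P (not_not.1 h3.2) (fun i hi => hmem P h3.1 ⟨i, hi⟩)
        rw [← pow_mul]
        exact pow_le_pow_of_le_one hu.le hu1 (by omega)
      refine (Finset.sum_le_sum h2).trans ?_
      rw [Finset.sum_comp (fun Q : Pr k => (u ^ Q.1.natDegree) ^ 2) bel]
      have h3 : ∀ Q ∈ (S'.filter (fun P => ¬ ¬ P.Reg t)).image bel,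
          ((S'.filter (fun P => ¬ ¬ P.Reg t)).filter (fun P => bel P = Q)).card •
            (u ^ Q.1.natDegree) ^ 2 ≤ H * (u ^ Q.1.natDegree) ^ 2 := by
        intro Q _
        rw [nsmul_eq_mul]
        apply mul_le_mul_of_nonneg_right _ (by positivity)
        have h4 := card_fiber K Q ((S'.filter (fun P => ¬ ¬ P.Reg t)).filter (fun P => bel P = Q))
          (by
            intro w hw
            rw [Finset.mem_filter, Finset.mem_filter] at hw
            exact ⟨not_not.1 hw.1.2, hw.2⟩)
        simp only [H]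
        exact_mod_cast h4
      refine (Finset.sum_le_sum h3).trans ?_
      rw [← Finset.mul_sum]
      exact mul_le_mul_of_nonneg_left (sum_monic hu hqu _) hH
  have hc1 : ∑' P : ((Set.range j)ᶜ : Set (Place k F)), u ^ P.1.deg ≤ Inf.card + H * 2 :=
    Real.tsum_le_of_sum_le (fun P => by positivity) hcompl
  have hc0 : 0 ≤ ∑' P : ((Set.range j)ᶜ : Set (Place k F)), u ^ P.1.deg :=
    tsum_nonneg (fun P => by positivity)
  rw [one_mul]
  rw [abs_le] at hb ⊢
  have hsplit' : ∑' P : Set.range j, u ^ P.1.deg + ∑' P : ((Set.range j)ᶜ : Set (Place k F)), u ^ P.1.deg =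
      ∑' P : Place k F, u ^ P.deg := hsplit
  rw [hrange] at hsplit'
  have hInf : (0 : ℝ) ≤ Inf.card := by positivity
  constructor <;> nlinarith

end

/-- **S_ZETA**. -/
theorem zeta : S_ZETA := by
  intro k K F O _ _ _ _ _ _ _ _ _ _ _ _ _ _ _ _
  letI : Algebra k F := ((algebraMap k[X] F).comp C).toAlgebra
  haveI : IsScalarTower k k[X] F := IsScalarTower.of_algebraMap_eq (fun _ => rfl)
  letI : Algebra k O := ((algebraMap k[X] O).comp C).toAlgebra
  haveI : IsScalarTower k k[X] O := IsScalarTower.of_algebraMap_eq (fun _ => rfl)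
  haveI : IsScalarTower k O F := IsScalarTower.of_algebraMap_eq (fun c => by
    change algebraMap k[X] F (C c) = algebraMap O F (algebraMap k[X] O (C c))
    rw [← IsScalarTower.algebraMap_apply])
  haveI : IsDomain O := (IsIntegralClosure.algebraMap_injective O k[X] F).isDomain (algebraMap O F)
  haveI : IsDedekindDomain O := IsIntegralClosure.isDedekindDomain k[X] K F O
  haveI : IsFractionRing O F := IsIntegralClosure.isFractionRing_of_finite_extension k[X] K F O
  haveI : IsFF k F := isFF K
  exact main K F O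

end Pool.Agent.H467.MR.Zeta

end
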