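import Pool.Graph.R_pool_sql_team_seeded_63374d34.N874.PP.Gal

/-!
# Simultaneous quadratic twists with trivial 2-Selmer groups over `k(t)`: statements of the parts

Project MR (helper467).
-/

set_option autoImplicit false
set_option linter.all false

open Polynomial IsDedekindDomain WeierstrassCurve WeierstrassCurve.Affine
open Pool.Agent.N874.PP Pool.Agent.TH115.GD
open scoped Classical

namespace Pool.Agent.H467.MR

/-! ### Primes of `k[X]`, residue fields -/

/-- The monic irreducible polynomials. -/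
def Pr (k : Type) [Field k] : Type := {Q : k[X] // Q.Monic ∧ Irreducible Q}

section res

variable {k : Type} [Field k]

theorem isMax (Q : Pr k) : (Ideal.span {Q.1}).IsMaximal :=
  PrincipalIdealRing.isMaximal_of_irreducible Q.2.2

/-- The residue field of `Q`. -/
def Kp (Q : Pr k) : Type := k[X] ⧸ Ideal.span {Q.1}

noncomputable instance (Q : Pr k) : Field (Kp Q) :=
  haveI := isMax Q
  (Ideal.Quotient.field (Ideal.span {Q.1}) : Field (k[X] ⧸ Ideal.span {Q.1}))

noncomputable instance (Q : Pr k) : Algebra k[X] (Kp Q) :=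
  (inferInstance : Algebra k[X] (k[X] ⧸ Ideal.span {Q.1}))

/-- An algebraic closure of the residue field of `Q`. -/
abbrev Om (Q : Pr k) : Type := AlgebraicClosure (Kp Q)

/-- `f` has the logarithmic density `c` (with a bounded error term). -/
def LogD (f : Pr k → ℝ) (c : ℝ) : Prop :=
  ∃ C : ℝ, ∀ u : ℝ, 0 < u → (Nat.card k : ℝ) * u < 1 →
    Summable (fun Q : Pr k => f Q * u ^ Q.1.natDegree) ∧
    |∑' Q : Pr k, f Q * u ^ Q.1.natDegree - c * Real.log (1 / (1 - Nat.card k * u))| ≤ C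

end res

/-- The number of primes of degree one over `Q` has logarithmic density one, for every finite
separable extension `F` of `K = k(t)`. -/
def S_ZETA : Prop := ∀ (k K F O : Type) [Field k] [Finite k] [Field K] [Algebra k[X] K]
  [IsFractionRing k[X] K] [Field F] [Algebra K F] [FiniteDimensional K F]
  [Algebra.IsSeparable K F] [Algebra k[X] F] [IsScalarTower k[X] K F] [CommRing O]
  [Algebra k[X] O] [Algebra O F] [IsScalarTower k[X] O F] [IsIntegralClosure O k[X] F],
  LogD (fun Q : Pr k => (Nat.card (O →ₐ[k[X]] Kp Q) : ℝ)) 1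

section frob

variable {k K M : Type} [Field k] [Field K] [Algebra k[X] K] [Field M] [Algebra K M]
  [Algebra k[X] M] [IsScalarTower k[X] K M]

/-- The geometric points over `Q` of the integral closure of `k[X]` in `M`. -/
abbrev XX (M : Type) [Field M] [Algebra k[X] M] (Q : Pr k) : Type :=
  integralClosure k[X] M →ₐ[k[X]] Om Q

/-- `σ` is the Frobenius element at the point `φ`. -/
def IsFr {Q : Pr k} (φ : XX M Q) (σ : M ≃ₐ[K] M) : Prop :=
  ∀ x y : integralClosure k[X] M, (y : M) = σ (x : M) → φ y = φ x ^ Nat.card (Kp Q)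

/-- The Galois group acts simply transitively on the points over `Q`, and the Frobenius elements
exist and are unique. -/
structure Tor (K M : Type) [Field K] [Algebra k[X] K] [Field M] [Algebra K M] [Algebra k[X] M]
    [IsScalarTower k[X] K M] (Q : Pr k) : Prop where
  card : Nat.card (XX M Q) = Nat.card (M ≃ₐ[K] M)
  frob : ∀ φ : XX M Q, ∃! σ : M ≃ₐ[K] M, IsFr φ σ
  trans : ∀ φ ψ : XX M Q, ∃ τ : M ≃ₐ[K] M, ∀ x y : integralClosure k[X] M,
    (y : M) = τ (x : M) → ψ x = φ y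

end frob

/-- Chebotarev's theorem in logarithmic form. -/
def S_CHEB : Prop := ∀ (k K M : Type) [Field k] [Finite k] [Field K] [Algebra k[X] K]
  [IsFractionRing k[X] K] [Field M] [Algebra K M] [FiniteDimensional K M] [IsGalois K M]
  [Algebra k[X] M] [IsScalarTower k[X] K M],
  {Q : Pr k | ¬ Tor K M Q}.Finite ∧
  ∀ T : Set (M ≃ₐ[K] M),
    (∀ σ τ : M ≃ₐ[K] M, Subgroup.zpowers σ = Subgroup.zpowers τ → σ ∈ T → τ ∈ T) →
    LogD (fun Q : Pr k => (Nat.card {φ : XX M Q // ∃ σ ∈ T, IsFr φ σ} : ℝ)) (Nat.card T)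

/-! ### The compositum of the 2-division fields -/

/-- The data: cubic polynomials `X ^ 3 + a i X + b i`, irreducible over `K`, with primes `P i` of
multiplicative reduction (`P i ∤ a i`) dividing `4 (a i) ^ 3 + 27 (b i) ^ 2` to an odd power and not
dividing `4 (a j) ^ 3 + 27 (b j) ^ 2` for `j ≠ i`. -/
structure Dat {k : Type} [Field k] (K : Type) [Field K] [Algebra k[X] K] {m : ℕ}
    (a b P : Fin m → k[X]) : Prop where
  irr : ∀ i, Irreducible (X ^ 3 + C (algebraMap k[X] K (a i)) * X +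
    C (algebraMap k[X] K (b i)) : K[X])
  prm : ∀ i, Irreducible (P i)
  mul : ∀ i, ¬ P i ∣ a i
  odd : ∀ i, ∃ (n : ℕ) (c : k[X]), dsc (a i) (b i) = P i ^ (2 * n + 1) * c ∧ ¬ P i ∣ c
  oth : ∀ i j, i ≠ j → ¬ P i ∣ dsc (a j) (b j)

/-- The Galois group of the compositum of the 2-division fields (contained in the Galois extension
`M`). -/
def S_GRP : Prop := ∀ (k K M : Type) [Field k] [Finite k] [Field K] [Algebra k[X] K]
  [IsFractionRing k[X] K] [Field M] [Algebra K M] [FiniteDimensional K M] [IsGalois K M]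
  [Algebra k[X] M] [IsScalarTower k[X] K M] (m : ℕ) (a b P : Fin m → k[X])
  (t : Fin m → Fin 3 → M), (6 : k) ≠ 0 → Dat K a b P →
  (∀ i, Function.Injective (t i)) →
  (∀ i j, t i j ^ 3 + algebraMap k[X] M (a i) * t i j + algebraMap k[X] M (b i) = 0) →
  -- the proportion of the 3-cycles
  (Nat.card {σ : M ≃ₐ[K] M // ∀ i j, σ (t i j) ≠ t i j} * 3 ^ m = Nat.card (M ≃ₐ[K] M)) ∧
  -- 3-cycles with given action on a square root
  (∀ (d : k[X]) (s : M), ¬ IsSquare (algebraMap k[X] K d) → (∀ i, ¬ P i ∣ d) →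
    s ^ 2 = algebraMap k[X] M d →
    ∃ σ : M ≃ₐ[K] M, (∀ i j, σ (t i j) ≠ t i j) ∧ σ s = -s) ∧
  -- a transposition at one place and 3-cycles at the other places, with given action on the square
  -- root of an element of the cubic field
  (∀ (i : Fin m) (h : K[X]) (n : K) (s : M), ∏ j, aeval (t i j) h = algebraMap K M n ^ 2 →
    aeval (t i 0) h ≠ 0 →
    (∀ g : K[X], aeval (t i 0) h ≠ aeval (t i 0) g ^ 2) → s ^ 2 = aeval (t i 0) h →
    ∃ σ : M ≃ₐ[K] M, (∀ i', i' ≠ i → ∀ j, σ (t i' j) ≠ t i' j) ∧ σ (t i 0) = t i 0 ∧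
      σ (t i 1) ≠ t i 1 ∧ σ (t i 2) ≠ t i 2 ∧ σ s = -s)

/-! ### Finiteness -/

/-- Finitely many classes modulo squares of elements whose valuations are even outside `B`. -/
def S_FINT : Prop := ∀ (k K L O : Type) [Field k] [Finite k] [Field K] [Algebra k[X] K]
  [IsFractionRing k[X] K] [Field L] [Algebra K L] [FiniteDimensional K L]
  [Algebra.IsSeparable K L] [Algebra k[X] L] [IsScalarTower k[X] K L] [CommRing O]
  [IsDedekindDomain O] [Algebra O L] [IsFractionRing O L] [Algebra k[X] O]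
  [IsScalarTower k[X] O L] [IsIntegralClosure O k[X] L] (B : Finset k[X]), (∀ P ∈ B, P ≠ 0) →
  ∃ R : Finset L, (∀ ρ ∈ R, ρ ≠ 0) ∧ ∀ α : L, α ≠ 0 →
    (∀ 𝔓 : HeightOneSpectrum O, (∀ P ∈ B, ¬ Ov P 𝔓) → Ev 𝔓 α) →
    ∃ ρ ∈ R, ∃ y : L, y ≠ 0 ∧ α = ρ * y ^ 2

/-! ### Counting -/

/-- Squarefree products of primes in a set of density `δ` with a given class. -/
def S_CNT : Prop := ∀ (k : Type) [Field k] [Finite k] (T : Set (Pr k)) (δ : ℝ), 0 < δ →
  LogD (fun Q : Pr k => if Q ∈ T then 1 else 0) δ →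
  ∀ (r : ℕ) (χ : Pr k → (Fin r → ZMod 2)) (g : Fin r → ZMod 2),
  (∃ A : Finset (Pr k), (∀ Q ∈ A, Q ∈ T) ∧ ∑ Q ∈ A, χ Q = g) →
  ∃ c : ℝ, 0 < c ∧ ∃ n₀ : ℕ, ∀ n : ℕ, n₀ ≤ n →
    {A : Finset (Pr k) | (∀ Q ∈ A, Q ∈ T) ∧ ∑ Q ∈ A, χ Q = g ∧
      ∑ Q ∈ A, Q.1.natDegree ≤ n}.Finite ∧
    c * (n : ℝ) ^ δ ≤ ∑ᶠ A ∈ {A : Finset (Pr k) | (∀ Q ∈ A, Q ∈ T) ∧ ∑ Q ∈ A, χ Q = g ∧
      ∑ Q ∈ A, Q.1.natDegree ≤ n}, ((Nat.card k : ℝ) ^ (∑ Q ∈ A, Q.1.natDegree))⁻¹

/-! ### Local conditions at a field, closure -/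

section loc

variable {E : Type} [Field E]

/-- The cubic polynomial. -/
noncomputable def cub (A B : E) : E[X] := X ^ 3 + C A * X + C B

/-- The class of a point: the polynomial `1`, `x - X`, or `(e - X) + (X ^ 2 + e X + e ^ 2 + A)` for a
point at infinity, a point `(x, y)`, `y ≠ 0`, a point `(e, 0)`. -/
inductive IsMu (A B : E) : E[X] → Prop
  | one : IsMu A B 1
  | pt (x y : E) (hy : y ≠ 0) (h : y ^ 2 = x ^ 3 + A * x + B) : IsMu A B (C x - X)
  | tor (e : E) (h : e ^ 3 + A * e + B = 0) :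
      IsMu A B ((C e - X) + (X ^ 2 + C e * X + C (e ^ 2 + A)))

/-- The class of `h` modulo `X ^ 3 + A X + B` comes from a point. -/
def Wc (A B : E) (h : E[X]) : Prop := ∃ μ g : E[X], IsMu A B μ ∧ cub A B ∣ μ * h - g ^ 2

/-- The set of the classes of points is a group. -/
def S_CLO : Prop := ∀ (E : Type) [Field E] (A B : E), (6 : E) ≠ 0 → 4 * A ^ 3 + 27 * B ^ 2 ≠ 0 →
  ∀ h h' : E[X], Wc A B h → Wc A B h' → Wc A B (h * h')

/-- `PolyLoc` over an arbitrary extension field `E` of `K`. -/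
def PolyLocE {K : Type} [Field K] (E : Type) [Field E] [Algebra K E] (A B : K) (h : K[X]) : Prop :=
  (∃ g : E[X], cub (algebraMap K E A) (algebraMap K E B) ∣ h.map (algebraMap K E) - g ^ 2) ∨
  ∃ x y : E, y ^ 2 = x ^ 3 + algebraMap K E A * x + algebraMap K E B ∧
    ∃ g : E[X], cub (algebraMap K E A) (algebraMap K E B) ∣
      (C x - X) * h.map (algebraMap K E) - g ^ 2

end loc

/-! ### Galois cohomology, with the place at infinity -/

/-- If there are no nontrivial classes satisfying the local conditions at all places (the place at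
infinity included), then the curve has finitely many rational points, of odd number, and the 2-primary
part of the Tate-Shafarevich group is trivial. -/
def S_GALI : Prop := ∀ (k K L : Type) [Field k] [Finite k] [Field K] [Algebra k[X] K]
  [IsFractionRing k[X] K] [Field L] [Algebra K L] (A B : k[X]) (Θ : L), (6 : k) ≠ 0 →
  4 * A ^ 3 + 27 * B ^ 2 ≠ 0 →
  Irreducible (X ^ 3 + C (algebraMap k[X] K A) * X + C (algebraMap k[X] K B) : K[X]) →
  Rt (algebraMap k[X] K A) (algebraMap k[X] K B) Θ → Module.finrank K L = 3 →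
  (∀ h : K[X], aeval Θ h ≠ 0 → IsSquare (Algebra.norm K (aeval Θ h)) →
    (∀ v : HeightOneSpectrum k[X], PolyLoc v A B h) →
    PolyLocE (CompInf k K) (algebraMap k[X] K A) (algebraMap k[X] K B) h →
    IsSquare (aeval Θ h)) →
  Finite (Pt (sW (algebraMap k[X] K A) (algebraMap k[X] K B)) K) ∧
    Odd (Nat.card (Pt (sW (algebraMap k[X] K A) (algebraMap k[X] K B)) K)) ∧
    ShaTwo k (sW (algebraMap k[X] K A) (algebraMap k[X] K B))

end Pool.Agent.H467.MR
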