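import Pool.Agent.H467.MR.Spec
import Pool.Graph.R_seed8.H525R3.FFp.Riemann

/-! Finitely many classes modulo squares (S_FINT), by Riemann's theorem. -/

set_option autoImplicit false
set_option linter.all false

open Polynomial IsDedekindDomain
open Pool.Agent.N874.PP

namespace Pool.Agent.H467.MR.Fint

open FF Pool.Agent.H525R3.FFp IntermediateField

section core

variable {k L : Type} [Field k] [Finite k] [Field L] [Algebra k L] [IsFF k L]

theorem core (S : Set (Place k L)) (hS : S.Finite) :
    ∃ R : Finset L, (∀ ρ ∈ R, ρ ≠ 0) ∧ ∀ α : L, α ≠ 0 → (∀ P : Place k L, P ∉ S → Even (P.ord α)) →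
      ∃ ρ ∈ R, ∃ y : L, y ≠ 0 ∧ α = ρ * y ^ 2 := by
  classical
  haveI : PerfectField k := inferInstance
  obtain ⟨γ, N, h1, -⟩ := riemann k L
  obtain ⟨P0, -⟩ := exists_place (k := k) (K := L)
  have hP0 : 0 < P0.deg := deg_pos P0
  let ES : Place k L →₀ ℤ := ∑ P ∈ hS.toFinset, Finsupp.single P 1
  have hES : ∀ P, P ∈ S → ES P = 1 := by
    intro P hP
    simp only [ES, Finsupp.finset_sum_apply]
    rw [Finset.sum_eq_single P]
    · simp
    · intro Q _ hQ; simp [Finsupp.single_apply, hQ]
    · intro h; exact absurd (hS.mem_toFinset.2 hP) h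
  have hES0 : ∀ P, 0 ≤ ES P := by
    intro P
    simp only [ES, Finsupp.finset_sum_apply]
    refine Finset.sum_nonneg fun Q _ => ?_
    rw [Finsupp.single_apply]; split_ifs <;> norm_num
  let C : ℤ := ddeg ES
  have hC : 0 ≤ C := ddeg_nonneg (fun P => by simpa using hES0 P)
  let M : ℕ := (|γ| + C + 1).toNat
  have hM : (M : ℤ) = |γ| + C + 1 := Int.toNat_of_nonneg (by positivity)
  let A0 : Place k L →₀ ℤ := Finsupp.single P0 (M : ℤ)
  have hfd : FiniteDimensional k (LL (A0 + A0)) := inferInstance
  have hfin : Finite (LL (A0 + A0)) := Module.finite_of_finite k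
  have hfin2 : ({x : L | x ∈ LL (A0 + A0)} \ {0}).Finite := by
    refine Set.Finite.subset ?_ Set.diff_subset
    exact Set.toFinite (LL (A0 + A0) : Set L)
  refine ⟨hfin2.toFinset, ?_, ?_⟩
  · intro ρ hρ
    rw [Set.Finite.mem_toFinset] at hρ
    exact hρ.2
  · intro α hα hev
    let D : Place k L →₀ ℤ := (divisor k α).mapRange (fun n => n / 2) (by simp)
    let E : Place k L →₀ ℤ := (divisor k α).mapRange (fun n => n % 2) (by simp)
    have hDE : divisor k α = D + D + E := by
      ext P
      simp only [D, E, Finsupp.add_apply, Finsupp.mapRange_apply]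
      omega
    have hE : E ≤ ES := by
      intro P
      simp only [E, Finsupp.mapRange_apply]
      by_cases hP : P ∈ S
      · rw [hES P hP]; omega
      · have := hev P hP
        rw [divisor_apply]
        have h2 : P.ord α % 2 = 0 := by
          obtain ⟨m, hm⟩ := this
          omega
        rw [h2]; exact hES0 P
    have hE0 : ∀ P, 0 ≤ E P := by
      intro P
      simp only [E, Finsupp.mapRange_apply]
      omega
    have hdeg : ddeg D + ddeg D + ddeg E = 0 := by
      rw [← ddeg_add, ← ddeg_add, ← hDE, ddeg_divisor]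
    have hdE : ddeg E ≤ C := ddeg_mono hE
    have hpos : 0 < ell (D + A0) := by
      have h2 := h1 (D + A0)
      rw [ddeg_add] at h2
      have h3 : ddeg A0 = M * P0.deg := ddeg_single P0 M
      have h4 : (M : ℤ) * 1 ≤ M * P0.deg := by
        apply mul_le_mul_of_nonneg_left _ (by positivity)
        exact_mod_cast hP0
      have h5 := le_abs_self γ
      omega
    obtain ⟨y0, hy0, hy00⟩ := exists_ne_zero_of_ell_pos hpos
    refine ⟨α * y0 ^ 2, ?_, y0⁻¹, inv_ne_zero hy00, ?_⟩
    · rw [Set.Finite.mem_toFinset]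
      refine ⟨?_, ?_⟩
      · show α * y0 ^ 2 ∈ LL (A0 + A0)
        rw [mem_LL]
        right
        intro P
        rw [P.ord_mul hα (pow_ne_zero _ hy00), P.ord_pow]
        have h6 : P.ord α = D P + D P + E P := by
          have := congrArg (fun F => F P) hDE
          simpa [divisor_apply] using this
        rw [mem_LL] at hy0
        have h7 := (hy0.resolve_left hy00) P
        have h8 := hE0 P
        rw [Finsupp.add_apply] at h7 ⊢
        push_cast
        omega
      · simp only [Set.mem_singleton_iff]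
        exact mul_ne_zero hα (pow_ne_zero _ hy00)
    · field_simp

end core

theorem isFF (k K L : Type) [Field k] [Field K] [Algebra k[X] K]
    [IsFractionRing k[X] K] [Field L] [Algebra K L] [FiniteDimensional K L]
    [Algebra k[X] L] [IsScalarTower k[X] K L] [Algebra k L] [IsScalarTower k k[X] L] : IsFF k L := by
  let x : L := algebraMap k[X] L X
  have hinj : Function.Injective (algebraMap k[X] L) := by
    rw [IsScalarTower.algebraMap_eq k[X] K L]
    exact (algebraMap K L).injective.comp (IsFractionRing.injective k[X] K)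
  have htr : Transcendental k x := (transcendental_algebraMap_iff hinj).2 (transcendental_X k)
  refine IsFF.of_finite htr ?_
  have hp : ∀ p : k[X], algebraMap k[X] L p ∈ k⟮x⟯ := by
    intro p
    have : algebraMap k[X] L p = aeval x p := by
      have h := (aeval_algebraMap_apply L (X : k[X]) p)
      rw [aeval_X_left_apply] at h
      exact h.symm
    rw [this]
    have h2 : x ∈ k⟮x⟯.toSubalgebra := mem_adjoin_simple_self k x
    exact Algebra.adjoin_le (S := k⟮x⟯.toSubalgebra) (Set.singleton_subset_iff.2 h2)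
      (aeval_mem_adjoin_singleton k x)
  have hc : ∀ c : K, algebraMap K L c ∈ k⟮x⟯ := by
    intro c
    obtain ⟨p, q, hq, rfl⟩ := IsFractionRing.div_surjective (A := k[X]) c
    rw [map_div₀, ← IsScalarTower.algebraMap_apply, ← IsScalarTower.algebraMap_apply]
    exact div_mem (hp p) (hp q)
  letI : Algebra K k⟮x⟯ := ((algebraMap K L).codRestrict k⟮x⟯ hc).toAlgebra
  haveI : IsScalarTower K k⟮x⟯ L := IsScalarTower.of_algebraMap_eq (fun _ => rfl)
  exact FiniteDimensional.right K k⟮x⟯ L

theorem fint : S_FINT := by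
  intro k K L O _ _ _ _ _ _ _ _ _ _ _ _ _ _ _ _ _ _ B hB
  letI : Algebra k L := ((algebraMap k[X] L).comp (C : k →+* k[X])).toAlgebra
  haveI : IsScalarTower k k[X] L := IsScalarTower.of_algebraMap_eq (fun _ => rfl)
  letI : Algebra k O := ((algebraMap k[X] O).comp (C : k →+* k[X])).toAlgebra
  haveI : IsScalarTower k O L := IsScalarTower.of_algebraMap_eq (fun c => by
    show algebraMap k[X] L (C c) = algebraMap O L (algebraMap k[X] O (C c))
    rw [← IsScalarTower.algebraMap_apply])
  haveI : IsFF k L := isFF k K L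
  let x : L := algebraMap k[X] L X
  have hinj : Function.Injective (algebraMap k[X] L) := by
    rw [IsScalarTower.algebraMap_eq k[X] K L]
    exact (algebraMap K L).injective.comp (IsFractionRing.injective k[X] K)
  let S : Set (Place k L) := {P | P.ord x ≠ 0} ∪ ⋃ Q ∈ B, {P | P.ord (algebraMap k[X] L Q) ≠ 0}
  have hS : S.Finite := (finite_support x).union
    (Set.Finite.biUnion B.finite_toSet fun Q _ => finite_support _)
  obtain ⟨R, hR0, hR⟩ := core S hS
  refine ⟨R, hR0, fun α hα hev => hR α hα ?_⟩
  intro P hP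
  have hx : P.ord x = 0 := by
    by_contra h
    exact hP (Or.inl h)
  have hQ : ∀ Q ∈ B, P.ord (algebraMap k[X] L Q) = 0 := by
    intro Q hQ
    by_contra h
    refine hP (Or.inr ?_)
    simp only [Set.mem_iUnion]
    exact ⟨Q, hQ, h⟩
  have hreg : ∀ p : k[X], P.Reg (algebraMap k[X] L p) := by
    intro p
    induction p using Polynomial.induction_on' with
    | add p q hp hq => rw [map_add]; exact P.reg_add hp hq
    | monomial n a =>
      have : algebraMap k[X] L (monomial n a) = algebraMap k L a * x ^ n := by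
        rw [← C_mul_X_pow_eq_monomial, map_mul, map_pow]; rfl
      rw [this]
      refine P.reg_mul (P.reg_const a) (Or.inr ?_)
      rw [P.ord_pow, hx, mul_zero]
  have hregO : ∀ b : O, P.Reg (algebraMap O L b) := by
    intro b
    refine P.reg_of_isIntegral hreg ?_
    exact (IsIntegralClosure.isIntegral_iff (A := O)).2 ⟨b, rfl⟩
  obtain ⟨𝔓, rfl⟩ := exists_placeOf_eq (k := k) (B := O) P hregO
  obtain ⟨y, hy⟩ := hev 𝔓 (by
    intro Q hQB hov
    have h1 : 𝔓.valuation L (algebraMap O L (algebraMap k[X] O Q)) < 1 :=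
      (𝔓.valuation_lt_one_iff_mem _).2 hov
    have hne : algebraMap O L (algebraMap k[X] O Q) ≠ 0 := by
      rw [← IsScalarTower.algebraMap_apply]
      exact (map_ne_zero_iff _ hinj).2 (hB Q hQB)
    have h2 := (placeOf_pos (k := k) (L := L) 𝔓 hne).2 h1
    rw [← IsScalarTower.algebraMap_apply, hQ Q hQB] at h2
    exact lt_irrefl _ h2)
  rw [placeOf_ord, hy, sq]
  have hy0 : 𝔓.valuation L y ≠ 0 := by
    intro h0
    rw [h0] at hy
    have : 𝔓.valuation L α ≠ 0 := (Valuation.ne_zero_iff _).2 hα
    apply this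
    rw [hy]; simp
  rw [WithZero.log_mul hy0 hy0]
  exact ⟨-WithZero.log (𝔓.valuation L y), by ring⟩

end Pool.Agent.H467.MR.Fint
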