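import Pool.Agent.H467.MR.Spec

/-!
# Chebotarev's theorem in logarithmic form over `k(t)` (project MR, helper467; this part: helper627)
-/

set_option autoImplicit false
set_option linter.all false

open Polynomial IsDedekindDomain
open scoped Classical

namespace Pool.Agent.H467.MR.Cheb

section General

/-- Two homomorphisms to a domain which agree on the invariants of a finite group differ by
an element of the group. -/
theorem trans {B k : Type} [CommRing B] [CommRing k] [IsDomain k]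
    {H : Type} [Group H] [Finite H] [MulSemiringAction H B] (f f' : B →+* k)
    (hinv : ∀ b : B, (∀ h : H, h • b = b) → f b = f' b) :
    ∃ h : H, ∀ b, f' b = f (h • b) := by
  classical
  have := Fintype.ofFinite H
  by_contra hcon
  push Not at hcon
  choose x hx using hcon
  let e := Fintype.equivFin H
  let α : B[X] := ∑ h : H, monomial (e h : ℕ) (x h)
  have hcoef : ∀ h, α.coeff (e h) = x h := by
    intro h
    simp only [α, finsetSum_coeff, coeff_monomial]
    rw [Finset.sum_eq_single h]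
    · simp
    · intro g _ hg
      rw [if_neg]
      intro hh
      exact hg (e.injective (Fin.ext hh))
    · simp
  let P := MulSemiringAction.charpoly H α
  have h1 : ∀ n, (P.coeff n).map f = (P.coeff n).map f' := by
    intro n
    ext m
    rw [coeff_map, coeff_map]
    apply hinv
    intro h
    have h0 := congrArg (fun q : B[X] => q.coeff m) (MulSemiringAction.smul_coeff_charpoly α n h)
    simpa only [coeff_smul] using h0
  have h2 : P.map (mapRingHom f) = P.map (mapRingHom f') := by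
    ext1 n
    rw [coeff_map, coeff_map]
    exact h1 n
  have h3 : eval ((mapRingHom f') α) (P.map (mapRingHom f)) = 0 := by
    rw [h2, eval_map, eval₂_at_apply, MulSemiringAction.eval_charpoly, map_zero]
  have h4 : eval ((mapRingHom f') α) (P.map (mapRingHom f)) =
      ∏ g : H, ((mapRingHom f') α - (mapRingHom f) (g • α)) := by
    simp only [P, MulSemiringAction.charpoly_eq, Polynomial.map_prod, eval_prod, Polynomial.map_sub,
      map_X, map_C, eval_sub, eval_X, eval_C]
  rw [h4, Finset.prod_eq_zero_iff] at h3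
  obtain ⟨g, -, hg⟩ := h3
  have h5 := congrArg (fun q : k[X] => q.coeff (e g)) (sub_eq_zero.mp hg)
  simp only [coe_mapRingHom, coeff_map, coeff_smul, hcoef] at h5
  exact hx g h5

/-- Extension of a surjective homomorphism to a field along an integral extension. -/
theorem exists_ext {A B κ Z : Type} [CommRing A] [CommRing B] [Algebra A B]
    [Algebra.IsIntegral A B] (hinj : Function.Injective (algebraMap A B)) [Field κ] [Field Z]
    [Algebra κ Z] [IsAlgClosed Z] (ψ : A →+* κ) (hψ : Function.Surjective ψ) :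
    ∃ f : B →+* Z, ∀ a, f (algebraMap A B a) = algebraMap κ Z (ψ a) := by
  have hPmax : (RingHom.ker ψ).IsMaximal := RingHom.ker_isMaximal_of_surjective ψ hψ
  obtain ⟨Q, hQ, hQP⟩ := Ideal.exists_ideal_over_maximal_of_isIntegral (S := B) (RingHom.ker ψ) (by
    rw [(RingHom.injective_iff_ker_eq_bot _).mp hinj]; exact bot_le)
  let : Field (B ⧸ Q) := Ideal.Quotient.field Q
  let e : κ ≃+* A ⧸ RingHom.ker ψ := (RingHom.quotientKerEquivOfSurjective hψ).symm
  let j : κ →+* B ⧸ Q := (Ideal.quotientMap (I := RingHom.ker ψ) Q (algebraMap A B)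
    (by rw [hQP])).comp e.toRingHom
  have key : ∀ a, j (ψ a) = Ideal.Quotient.mk Q (algebraMap A B a) := by
    intro a
    have h1 : e (ψ a) = Ideal.Quotient.mk _ a := by
      rw [RingEquiv.symm_apply_eq]
      rfl
    show (Ideal.quotientMap (I := RingHom.ker ψ) Q (algebraMap A B) (by rw [hQP])) (e (ψ a)) = _
    rw [h1, Ideal.quotientMap_mk]
  let : Algebra κ (B ⧸ Q) := j.toAlgebra
  have : Algebra.IsAlgebraic κ (B ⧸ Q) := by
    constructor
    intro y
    obtain ⟨b, rfl⟩ := Ideal.Quotient.mk_surjective y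
    obtain ⟨q, hq, hq'⟩ := Algebra.IsIntegral.isIntegral (R := A) b
    apply IsIntegral.isAlgebraic
    refine ⟨q.map ψ, hq.map ψ, ?_⟩
    rw [eval₂_map]
    have h3 : (algebraMap κ (B ⧸ Q)).comp ψ =
        (Ideal.Quotient.mk Q).comp (algebraMap A B) := RingHom.ext key
    rw [h3, ← hom_eval₂, hq', map_zero]
  let ℓ : (B ⧸ Q) →ₐ[κ] Z := IsAlgClosed.lift
  refine ⟨(ℓ : (B ⧸ Q) →+* Z).comp (Ideal.Quotient.mk Q), fun a => ?_⟩
  rw [RingHom.comp_apply, ← key]
  exact ℓ.commutes (ψ a)

/-- fixed points of Frobenius -/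
theorem frob_fixed {κ Z : Type} [Field κ] [Finite κ] [Field Z] [Algebra κ Z] (y : Z)
    (hy : y ^ Nat.card κ = y) : ∃ z : κ, algebraMap κ Z z = y := by
  classical
  have := Fintype.ofFinite κ
  have hp1 : 1 < Nat.card κ := Finite.one_lt_card
  obtain ⟨Q, hQ⟩ : ∃ Q : Z[X], Q = X ^ (Nat.card κ) - X := ⟨_, rfl⟩
  have hdeg : Q.natDegree = Nat.card κ := by
    rw [hQ]
    exact FiniteField.X_pow_card_sub_X_natDegree_eq Z hp1
  have hQ0 : Q ≠ 0 := by
    intro h
    rw [h, natDegree_zero] at hdeg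
    omega
  have h1 : Finset.image (algebraMap κ Z) Finset.univ ⊆ Q.roots.toFinset := by
    intro z hz
    obtain ⟨w, -, rfl⟩ := Finset.mem_image.mp hz
    rw [Multiset.mem_toFinset, mem_roots hQ0, IsRoot.def, hQ, eval_sub, eval_pow, eval_X,
      ← map_pow, Nat.card_eq_fintype_card, FiniteField.pow_card, sub_self]
  have h2 : (Finset.image (algebraMap κ Z) Finset.univ).card = Nat.card κ := by
    rw [Finset.card_image_of_injective _ (algebraMap κ Z).injective, Finset.card_univ,
      Nat.card_eq_fintype_card]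
  have h3 : Q.roots.toFinset.card ≤ Nat.card κ :=
    (Multiset.toFinset_card_le _).trans ((card_roots' Q).trans hdeg.le)
  have h4 : Finset.image (algebraMap κ Z) Finset.univ = Q.roots.toFinset :=
    Finset.eq_of_subset_of_card_le h1 (by rw [h2]; exact h3)
  have h5 : y ∈ Q.roots.toFinset := by
    rw [Multiset.mem_toFinset, mem_roots hQ0, IsRoot.def, hQ, eval_sub, eval_pow, eval_X, hy,
      sub_self]
  rw [← h4] at h5
  obtain ⟨z, -, hz⟩ := Finset.mem_image.mp h5
  exact ⟨z, hz⟩

/-- Descent of a homomorphism to a subfield. -/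
theorem descend {A R κ Z : Type} [CommRing A] [CommRing R] [Algebra A R] [Field κ] [Field Z]
    [Algebra κ Z] [Algebra A κ] [Algebra A Z] [IsScalarTower A κ Z] (f : R →ₐ[A] Z)
    (h : ∀ z, ∃ w : κ, algebraMap κ Z w = f z) :
    ∃ ψ : R →ₐ[A] κ, ∀ z, algebraMap κ Z (ψ z) = f z := by
  choose w hw using h
  have hinj := (algebraMap κ Z).injective
  refine ⟨{ toFun := w
            map_one' := hinj (by rw [hw 1, map_one, map_one])
            map_mul' := fun a b => hinj (by rw [hw (a * b), map_mul, map_mul, hw a, hw b])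
            map_zero' := hinj (by rw [hw 0, map_zero, map_zero])
            map_add' := fun a b => hinj (by rw [hw (a + b), map_add, map_add, hw a, hw b])
            commutes' := fun r => hinj (by
              rw [hw (algebraMap A R r), AlgHom.commutes, IsScalarTower.algebraMap_apply A κ Z]) },
    hw⟩

end General

section act

variable {k K M : Type} [Field k] [Field K] [Algebra k[X] K] [Field M]
  [Algebra K M] [Algebra k[X] M] [IsScalarTower k[X] K M]

/-- the action of the Galois group on the integral closure -/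
@[reducible] noncomputable def act : MulSemiringAction (M ≃ₐ[K] M) (integralClosure k[X] M) where
  smul σ x := ⟨σ (x : M), IsIntegral.map ((σ : M →ₐ[K] M).restrictScalars k[X]) x.2⟩
  one_smul x := Subtype.ext rfl
  mul_smul σ τ x := Subtype.ext rfl
  smul_zero σ := Subtype.ext (map_zero σ)
  smul_add σ x y := Subtype.ext (map_add σ _ _)
  smul_one σ := Subtype.ext (map_one σ)
  smul_mul σ x y := Subtype.ext (map_mul σ _ _)

attribute [local instance] act

theorem coe_smul (σ : M ≃ₐ[K] M) (x : integralClosure k[X] M) :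
    ((σ • x : integralClosure k[X] M) : M) = σ (x : M) := rfl

theorem isFr_iff {Q : Pr k} (φ : XX M Q) (σ : M ≃ₐ[K] M) :
    IsFr φ σ ↔ ∀ x : integralClosure k[X] M, φ (σ • x) = φ x ^ Nat.card (Kp Q) := by
  constructor
  · intro h x
    exact h x (σ • x) rfl
  · intro h x y hxy
    rw [← h x]
    congr 1
    exact Subtype.ext hxy

theorem surj (Q : Pr k) : Function.Surjective (algebraMap k[X] (Kp Q)) :=
  Ideal.Quotient.mk_surjective

theorem dvd_of_eq_zero (Q : Pr k) (c : k[X]) (h : algebraMap k[X] (Om Q) c = 0) : Q.1 ∣ c := by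
  rw [IsScalarTower.algebraMap_apply k[X] (Kp Q) (Om Q)] at h
  have h1 : algebraMap k[X] (Kp Q) c = 0 :=
    (map_eq_zero_iff _ (algebraMap (Kp Q) (Om Q)).injective).mp h
  have h2 : Ideal.Quotient.mk (Ideal.span {Q.1}) c = 0 := h1
  rw [Ideal.Quotient.eq_zero_iff_mem, Ideal.mem_span_singleton] at h2
  exact h2

theorem fin_div (D : k[X]) (hD : D ≠ 0) : {Q : Pr k | Q.1 ∣ D}.Finite := by
  have h1 : ((UniqueFactorizationMonoid.normalizedFactors D).toFinset : Set k[X]).Finite :=
    Finset.finite_toSet _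
  refine Set.Finite.of_finite_image (f := fun Q : Pr k => Q.1) (h1.subset ?_)
    (fun a _ b _ h => Subtype.ext h)
  rintro _ ⟨Q, hQ, rfl⟩
  have hQ' : Q.1 ∣ D := hQ
  show Q.1 ∈ ((UniqueFactorizationMonoid.normalizedFactors D).toFinset : Set k[X])
  rw [Finset.mem_coe, Multiset.mem_toFinset, UniqueFactorizationMonoid.mem_normalizedFactors_iff' hD]
  exact ⟨Q.2.2, Q.2.1.normalize_eq_self, hQ'⟩

theorem fin_Kp [Finite k] (Q : Pr k) : Finite (Kp Q) := by
  haveI : Module.Finite k (AdjoinRoot Q.1) := Q.2.1.finite_adjoinRoot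
  have : Finite (AdjoinRoot Q.1) := Module.finite_of_finite k
  exact this

theorem eq_one_of_fix [IsFractionRing k[X] K] [FiniteDimensional K M] (σ : M ≃ₐ[K] M)
    (h : ∀ x : integralClosure k[X] M, σ • x = x) : σ = 1 := by
  haveI : IsFractionRing (integralClosure k[X] M) M :=
    integralClosure.isFractionRing_of_finite_extension K M
  ext y
  obtain ⟨a, b, hb, rfl⟩ := IsFractionRing.div_surjective (A := integralClosure k[X] M) y
  rw [map_div₀]
  have e1 : σ (algebraMap (integralClosure k[X] M) M a) = algebraMap (integralClosure k[X] M) M a :=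
    congrArg (fun z : integralClosure k[X] M => (z : M)) (h a)
  have e2 : σ (algebraMap (integralClosure k[X] M) M b) = algebraMap (integralClosure k[X] M) M b :=
    congrArg (fun z : integralClosure k[X] M => (z : M)) (h b)
  rw [e1, e2]
  rfl

theorem exists_D [IsFractionRing k[X] K] [FiniteDimensional K M] :
    ∃ D : k[X], D ≠ 0 ∧ ∀ Q : Pr k, ¬ Q.1 ∣ D → ∀ (φ : XX M Q) (σ : M ≃ₐ[K] M),
      (∀ x, φ (σ • x) = φ x) → σ = 1 := by
  classical
  have hex : ∀ σ : M ≃ₐ[K] M, ∃ x : integralClosure k[X] M, σ ≠ 1 → σ • x ≠ x := by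
    intro σ
    by_cases h : ∃ x : integralClosure k[X] M, σ • x ≠ x
    · obtain ⟨x, hx⟩ := h
      exact ⟨x, fun _ => hx⟩
    · push Not at h
      exact ⟨0, fun h1 => absurd (eq_one_of_fix σ h) h1⟩
  choose x hx using hex
  have hc : ∀ σ : M ≃ₐ[K] M, ∃ c : k[X], c ≠ 0 ∧
      (σ ≠ 1 → (σ • x σ - x σ) ∣ algebraMap k[X] (integralClosure k[X] M) c) := by
    intro σ
    by_cases hσ : σ = 1
    · exact ⟨1, one_ne_zero, fun h => absurd hσ h⟩
    · have hy : σ • x σ - x σ ≠ 0 := sub_ne_zero.mpr (hx σ hσ)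
      have h1 := Ideal.comap_ne_bot_of_integral_mem (R := k[X]) hy
        (Ideal.mem_span_singleton_self (σ • x σ - x σ)) (Algebra.IsIntegral.isIntegral _)
      obtain ⟨c, hc, hc0⟩ := Submodule.exists_mem_ne_zero_of_ne_bot h1
      refine ⟨c, hc0, fun _ => ?_⟩
      exact Ideal.mem_span_singleton.mp hc
  choose c hc0 hcd using hc
  have : Fintype (M ≃ₐ[K] M) := Fintype.ofFinite _
  refine ⟨∏ σ : M ≃ₐ[K] M, c σ, Finset.prod_ne_zero_iff.mpr fun σ _ => hc0 σ, ?_⟩
  intro Q hQ φ σ h
  by_contra hσ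
  have h1 : φ (σ • x σ - x σ) = 0 := by rw [map_sub, h, sub_self]
  obtain ⟨z, hz⟩ := hcd σ hσ
  have h2 : φ (algebraMap k[X] (integralClosure k[X] M) (c σ)) = 0 := by
    rw [hz, map_mul, h1, zero_mul]
  rw [AlgHom.commutes] at h2
  exact hQ ((dvd_of_eq_zero Q _ h2).trans (Finset.dvd_prod_of_mem _ (Finset.mem_univ σ)))

/-- the Frobenius map of the algebraic closure of the residue field -/
noncomputable def fr [Finite k] (Q : Pr k) : Om Q →ₐ[k[X]] Om Q :=
  haveI := fin_Kp Q
  letI := Fintype.ofFinite (Kp Q)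
  (FiniteField.frobeniusAlgHom (Kp Q) (Om Q)).restrictScalars k[X]

theorem fr_apply [Finite k] (Q : Pr k) (z : Om Q) : fr Q z = z ^ Nat.card (Kp Q) := by
  haveI := fin_Kp Q
  letI := Fintype.ofFinite (Kp Q)
  rw [Nat.card_eq_fintype_card]
  rfl

theorem tr [IsFractionRing k[X] K] [FiniteDimensional K M] [IsGalois K M] {Q : Pr k}
    (φ φ' : XX M Q) : ∃ σ : M ≃ₐ[K] M, ∀ x, φ' x = φ (σ • x) := by
  obtain ⟨σ, hσ⟩ := trans (H := M ≃ₐ[K] M) (φ : integralClosure k[X] M →+* Om Q)
    (φ' : integralClosure k[X] M →+* Om Q) (by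
      intro b hb
      have hb1 : ∀ σ : M ≃ₐ[K] M, σ (b : M) = (b : M) := fun σ =>
        congrArg (fun z : integralClosure k[X] M => (z : M)) (hb σ)
      have hb2 : (b : M) ∈ (⊥ : IntermediateField K M) :=
        (IsGalois.mem_bot_iff_fixed (F := K) (E := M) (b : M)).mpr hb1
      obtain ⟨q, hq⟩ := IntermediateField.mem_bot.mp hb2
      have hint : IsIntegral k[X] q := by
        rw [← isIntegral_algebraMap_iff (algebraMap K M).injective, hq]
        exact b.2
      obtain ⟨n, hn⟩ := IsIntegrallyClosed.isIntegral_iff.mp hint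
      have hbn : b = algebraMap k[X] (integralClosure k[X] M) n := by
        apply Subtype.ext
        rw [← hq, ← hn, ← IsScalarTower.algebraMap_apply k[X] K M]
        rfl
      rw [hbn]
      exact (φ.commutes n).trans (φ'.commutes n).symm)
  exact ⟨σ, hσ⟩

theorem ext0 (Q : Pr k) (hinj : Function.Injective (algebraMap k[X] M)) : Nonempty (XX M Q) := by
  have hinj' : Function.Injective (algebraMap k[X] (integralClosure k[X] M)) := by
    intro a b h
    exact hinj (congrArg (fun z : integralClosure k[X] M => (z : M)) h)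
  obtain ⟨f, hf⟩ := exists_ext (A := k[X]) (B := integralClosure k[X] M) hinj'
    (Z := Om Q) (algebraMap k[X] (Kp Q)) (surj Q)
  refine ⟨{ f with commutes' := fun r => ?_ }⟩
  rw [IsScalarTower.algebraMap_apply k[X] (Kp Q) (Om Q)]
  exact hf r

end act

section sub

variable {k K M : Type} [Field k] [Field K] [Algebra k[X] K] [Field M]
  [Algebra K M] [Algebra k[X] M] [IsScalarTower k[X] K M]

attribute [local instance] act

/-- composition with an element of the Galois group -/
noncomputable def cmp {Q : Pr k} (φ : XX M Q) (σ : M ≃ₐ[K] M) : XX M Q :=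
  { (φ : integralClosure k[X] M →+* Om Q).comp
      (MulSemiringAction.toRingHom (M ≃ₐ[K] M) (integralClosure k[X] M) σ) with
    commutes' := fun r => by
      have h : σ • (algebraMap k[X] (integralClosure k[X] M) r) =
          algebraMap k[X] (integralClosure k[X] M) r := by
        apply Subtype.ext
        rw [coe_smul]
        show σ (algebraMap k[X] M r) = algebraMap k[X] M r
        rw [IsScalarTower.algebraMap_apply k[X] K M, AlgEquiv.commutes]
      show φ (σ • (algebraMap k[X] (integralClosure k[X] M) r)) = _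
      rw [h, AlgHom.commutes] }

theorem cmp_apply {Q : Pr k} (φ : XX M Q) (σ : M ≃ₐ[K] M) (x : integralClosure k[X] M) :
    cmp φ σ x = φ (σ • x) := rfl

instance tower_FM (F : IntermediateField K M) : IsScalarTower k[X] F M :=
  IsScalarTower.of_algebraMap_eq fun _ => rfl

/-- inclusion of the integral closure in the fixed field -/
noncomputable def inc (H : Subgroup (M ≃ₐ[K] M)) :
    integralClosure k[X] (IntermediateField.fixedField H) →ₐ[k[X]] integralClosure k[X] M :=
  AlgHom.mapIntegralClosure (IsScalarTower.toAlgHom k[X] (IntermediateField.fixedField H) M)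

theorem coe_inc (H : Subgroup (M ≃ₐ[K] M))
    (x : integralClosure k[X] (IntermediateField.fixedField H)) :
    ((inc H x : integralClosure k[X] M) : M) = ((x : IntermediateField.fixedField H) : M) := rfl

theorem inc_inj (H : Subgroup (M ≃ₐ[K] M)) :
    Function.Injective (inc (k := k) H) := by
  intro a b h
  apply Subtype.ext
  apply Subtype.ext
  exact congrArg (fun z : integralClosure k[X] M => (z : M)) h

variable [Finite k] [IsFractionRing k[X] K] [FiniteDimensional K M] [IsGalois K M]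

theorem card_H (H : Subgroup (M ≃ₐ[K] M)) (Q : Pr k)
    (hfree : ∀ (φ : XX M Q) (σ : M ≃ₐ[K] M), (∀ x, φ (σ • x) = φ x) → σ = 1) :
    Nat.card H * Nat.card (integralClosure k[X] (IntermediateField.fixedField H) →ₐ[k[X]] Kp Q) =
      Nat.card {φ : XX M Q // ∃ σ ∈ H, IsFr φ σ} := by
  classical
  haveI := fin_Kp Q
  letI := Fintype.ofFinite (Kp Q)
  have free' : ∀ (φ : XX M Q) (σ τ : M ≃ₐ[K] M), (∀ y, φ (σ • y) = φ (τ • y)) → σ = τ := by
    intro φ σ τ h
    have := hfree φ (σ * τ⁻¹) (fun y => by rw [mul_smul, h, smul_inv_smul])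
    rwa [mul_inv_eq_one] at this
  have hι : ∀ (h : H) (z : integralClosure k[X] (IntermediateField.fixedField H)),
      (h : M ≃ₐ[K] M) • (inc H z) = inc H z := by
    intro h z
    apply Subtype.ext
    rw [coe_smul, coe_inc]
    exact (z : IntermediateField.fixedField H).2 h
  have hinvE : ∀ b : integralClosure k[X] M, (∀ h : H, h • b = b) →
      ∃ z : integralClosure k[X] (IntermediateField.fixedField H), inc H z = b := by
    intro b hb
    have hbE : (b : M) ∈ IntermediateField.fixedField H := by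
      rw [IntermediateField.mem_fixedField_iff]
      intro h hh
      exact congrArg (fun z : integralClosure k[X] M => (z : M)) (hb ⟨h, hh⟩)
    have hint : IsIntegral k[X] (⟨(b : M), hbE⟩ : IntermediateField.fixedField H) := by
      rw [← isIntegral_algebraMap_iff (B := M)
        (algebraMap (IntermediateField.fixedField H) M).injective]
      exact b.2
    exact ⟨⟨⟨(b : M), hbE⟩, hint⟩, Subtype.ext rfl⟩
  have trH : ∀ φ φ' : XX M Q, (∀ z, φ (inc H z) = φ' (inc H z)) →
      ∃ h : H, ∀ y, φ' y = φ ((h : M ≃ₐ[K] M) • y) := by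
    intro φ φ' hh
    obtain ⟨h, hh'⟩ := trans (H := H) (φ : integralClosure k[X] M →+* Om Q)
      (φ' : integralClosure k[X] M →+* Om Q) (fun b hb => by
        obtain ⟨z, rfl⟩ := hinvE b hb
        exact hh z)
    exact ⟨h, fun y => hh' y⟩
  have hext : ∀ ψ : integralClosure k[X] (IntermediateField.fixedField H) →ₐ[k[X]] Kp Q,
      ∃ f : XX M Q, ∀ a, f (inc H a) = algebraMap (Kp Q) (Om Q) (ψ a) := by
    intro ψ
    letI : Algebra (integralClosure k[X] (IntermediateField.fixedField H))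
      (integralClosure k[X] M) := (inc H).toRingHom.toAlgebra
    haveI : IsScalarTower k[X] (integralClosure k[X] (IntermediateField.fixedField H))
      (integralClosure k[X] M) := IsScalarTower.of_algebraMap_eq fun x => ((inc H).commutes x).symm
    haveI : Algebra.IsIntegral (integralClosure k[X] (IntermediateField.fixedField H))
      (integralClosure k[X] M) := ⟨fun b =>
        IsIntegral.tower_top (R := k[X]) (Algebra.IsIntegral.isIntegral b)⟩
    have hs : Function.Surjective ψ := by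
      intro y
      obtain ⟨c, rfl⟩ := surj Q y
      exact ⟨algebraMap _ _ c, ψ.commutes c⟩
    obtain ⟨f, hf⟩ := exists_ext (A := integralClosure k[X] (IntermediateField.fixedField H))
      (B := integralClosure k[X] M) (inc_inj H) (Z := Om Q) (ψ : _ →+* Kp Q) hs
    refine ⟨{ f with commutes' := fun r => ?_ }, hf⟩
    have h1 := hf (algebraMap k[X] (integralClosure k[X] (IntermediateField.fixedField H)) r)
    have h2 : (ψ : integralClosure k[X] (IntermediateField.fixedField H) →+* Kp Q)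
      (algebraMap k[X] (integralClosure k[X] (IntermediateField.fixedField H)) r) =
        algebraMap k[X] (Kp Q) r := ψ.commutes r
    rw [h2, ← IsScalarTower.algebraMap_apply k[X] (Kp Q) (Om Q)] at h1
    exact h1
  choose F hF using hext
  have hFrob : ∀ ψ, ∃ h0 : H, ∀ y, (F ψ y) ^ Nat.card (Kp Q) = F ψ ((h0 : M ≃ₐ[K] M) • y) := by
    intro ψ
    obtain ⟨h, hh⟩ := trH (F ψ) ((fr Q).comp (F ψ)) (fun z => by
      rw [AlgHom.comp_apply, fr_apply, hF, ← map_pow, Nat.card_eq_fintype_card,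
        FiniteField.pow_card])
    refine ⟨h, fun y => ?_⟩
    rw [← hh, AlgHom.comp_apply, fr_apply]
  have hmem : ∀ (h : H) (ψ), ∃ g ∈ H, IsFr (cmp (F ψ) (h : M ≃ₐ[K] M)) g := by
    intro h ψ
    obtain ⟨h0, hh0⟩ := hFrob ψ
    refine ⟨(h : M ≃ₐ[K] M)⁻¹ * h0 * h, ?_, ?_⟩
    · exact (h⁻¹ * h0 * h).2
    · rw [isFr_iff]
      intro y
      rw [cmp_apply, cmp_apply, hh0]
      congr 1
      rw [mul_smul, mul_smul, smul_inv_smul]
  have key : Nat.card (H × (integralClosure k[X] (IntermediateField.fixedField H) →ₐ[k[X]] Kp Q)) =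
      Nat.card {φ : XX M Q // ∃ σ ∈ H, IsFr φ σ} := by
    refine Nat.card_congr (Equiv.ofBijective
      (fun q => (⟨cmp (F q.2) (q.1 : M ≃ₐ[K] M), hmem q.1 q.2⟩ :
        {φ : XX M Q // ∃ σ ∈ H, IsFr φ σ})) ⟨?_, ?_⟩)
    · rintro ⟨h, ψ⟩ ⟨h', ψ'⟩ hh
      have h1 : cmp (F ψ) (h : M ≃ₐ[K] M) = cmp (F ψ') (h' : M ≃ₐ[K] M) := congrArg Subtype.val hh
      have h2 : ψ = ψ' := by
        ext z
        apply (algebraMap (Kp Q) (Om Q)).injective
        have := DFunLike.congr_fun h1 (inc H z)
        rw [cmp_apply, cmp_apply, hι, hι, hF, hF] at this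
        exact this
      subst h2
      have h3 : (h : M ≃ₐ[K] M) = h' := free' (F ψ) _ _ fun y => DFunLike.congr_fun h1 y
      exact Prod.ext (Subtype.ext h3) rfl
    · rintro ⟨φ, g, hg, hφ⟩
      rw [isFr_iff] at hφ
      have h1 : ∀ z, ∃ w : Kp Q, algebraMap (Kp Q) (Om Q) w = φ (inc H z) := by
        intro z
        apply frob_fixed
        rw [← hφ, hι ⟨g, hg⟩]
      obtain ⟨ψ, hw⟩ := descend (φ.comp (inc H)) h1
      obtain ⟨h, hh⟩ := trH (F ψ) φ (fun z => by
        rw [hF]
        exact hw z)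
      refine ⟨(h, ψ), ?_⟩
      apply Subtype.ext
      exact AlgHom.ext fun y => (hh y).symm
  rw [Nat.card_prod] at key
  exact key

theorem tor_of_free (Q : Pr k)
    (hfree : ∀ (φ : XX M Q) (σ : M ≃ₐ[K] M), (∀ x, φ (σ • x) = φ x) → σ = 1) : Tor K M Q := by
  have hinj : Function.Injective (algebraMap k[X] M) := by
    rw [IsScalarTower.algebraMap_eq k[X] K M]
    exact (algebraMap K M).injective.comp (IsFractionRing.injective k[X] K)
  obtain ⟨φ₀⟩ := ext0 (M := M) Q hinj
  have free' : ∀ (φ : XX M Q) (σ τ : M ≃ₐ[K] M), (∀ y, φ (σ • y) = φ (τ • y)) → σ = τ := by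
    intro φ σ τ h
    have := hfree φ (σ * τ⁻¹) (fun y => by rw [mul_smul, h, smul_inv_smul])
    rwa [mul_inv_eq_one] at this
  refine ⟨?_, ?_, ?_⟩
  · refine (Nat.card_congr (Equiv.ofBijective (fun σ => cmp φ₀ σ) ⟨?_, ?_⟩)).symm
    · intro σ τ h
      exact free' φ₀ σ τ fun y => DFunLike.congr_fun h y
    · intro φ
      obtain ⟨σ, hσ⟩ := tr (K := K) φ₀ φ
      exact ⟨σ, AlgHom.ext fun x => (hσ x).symm⟩
  · intro φ
    obtain ⟨σ, hσ⟩ := tr (K := K) φ ((fr Q).comp φ)
    have h1 : IsFr φ σ := by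
      rw [isFr_iff]
      intro x
      rw [← hσ x, AlgHom.comp_apply, fr_apply]
    refine ⟨σ, h1, fun τ hτ => ?_⟩
    have hτ' : IsFr φ τ := hτ
    rw [isFr_iff] at h1 hτ'
    exact free' φ τ σ fun y => by rw [h1, hτ']
  · intro φ ψ
    obtain ⟨σ, hσ⟩ := tr (K := K) φ ψ
    refine ⟨σ, fun x y hxy => ?_⟩
    rw [hσ x]
    congr 1
    exact Subtype.ext hxy.symm

theorem fin_XX (Q : Pr k)
    (hfree : ∀ (φ : XX M Q) (σ : M ≃ₐ[K] M), (∀ x, φ (σ • x) = φ x) → σ = 1) :
    Finite (XX M Q) := by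
  have h := (tor_of_free (K := K) Q hfree).card
  exact Nat.finite_of_card_ne_zero (by rw [h]; exact Nat.card_pos.ne')

theorem card_T (T : Finset (M ≃ₐ[K] M)) (Q : Pr k)
    (hfree : ∀ (φ : XX M Q) (σ : M ≃ₐ[K] M), (∀ x, φ (σ • x) = φ x) → σ = 1) :
    Nat.card {φ : XX M Q // ∃ σ ∈ T, IsFr φ σ} =
      ∑ σ ∈ T, Nat.card {φ : XX M Q // IsFr φ σ} := by
  classical
  haveI := fin_XX (K := K) Q hfree
  letI := Fintype.ofFinite (XX M Q)
  have hu := (tor_of_free (K := K) Q hfree).frob
  have h1 : ∀ p : XX M Q → Prop, Nat.card {φ : XX M Q // p φ} =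
      (Finset.univ.filter p).card := by
    intro p
    rw [Nat.card_eq_fintype_card, Fintype.card_subtype]
  rw [h1]
  simp only [h1]
  rw [← Finset.card_biUnion]
  · congr 1
    ext φ
    simp
  · intro σ _ τ _ hστ
    rw [Function.onFun, Finset.disjoint_left]
    intro φ h2 h3
    rw [Finset.mem_filter] at h2 h3
    exact hστ ((hu φ).unique h2.2 h3.2)

end sub

section logd

variable {k : Type} [Field k]

theorem ld_add {f g : Pr k → ℝ} {c d : ℝ} (hf : LogD f c) (hg : LogD g d) :
    LogD (fun Q => f Q + g Q) (c + d) := by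
  obtain ⟨C, hC⟩ := hf
  obtain ⟨C', hC'⟩ := hg
  refine ⟨C + C', fun u hu hu1 => ?_⟩
  obtain ⟨s1, b1⟩ := hC u hu hu1
  obtain ⟨s2, b2⟩ := hC' u hu hu1
  have e : (fun Q : Pr k => (f Q + g Q) * u ^ Q.1.natDegree) =
      fun Q : Pr k => f Q * u ^ Q.1.natDegree + g Q * u ^ Q.1.natDegree := by
    funext Q
    ring
  rw [e]
  refine ⟨s1.add s2, ?_⟩
  rw [s1.tsum_add s2]
  have e2 : ∑' Q : Pr k, f Q * u ^ Q.1.natDegree + ∑' Q : Pr k, g Q * u ^ Q.1.natDegree -
      (c + d) * Real.log (1 / (1 - Nat.card k * u)) =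
      (∑' Q : Pr k, f Q * u ^ Q.1.natDegree - c * Real.log (1 / (1 - Nat.card k * u))) +
      (∑' Q : Pr k, g Q * u ^ Q.1.natDegree - d * Real.log (1 / (1 - Nat.card k * u))) := by
    ring
  rw [e2]
  exact (abs_add_le _ _).trans (add_le_add b1 b2)

theorem ld_mul {f : Pr k → ℝ} {c : ℝ} (a : ℝ) (hf : LogD f c) :
    LogD (fun Q => a * f Q) (a * c) := by
  obtain ⟨C, hC⟩ := hf
  refine ⟨|a| * C, fun u hu hu1 => ?_⟩
  obtain ⟨s1, b1⟩ := hC u hu hu1
  have e : (fun Q : Pr k => (a * f Q) * u ^ Q.1.natDegree) =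
      fun Q : Pr k => a * (f Q * u ^ Q.1.natDegree) := by
    funext Q
    ring
  rw [e]
  refine ⟨s1.mul_left a, ?_⟩
  rw [tsum_mul_left]
  have e2 : a * ∑' Q : Pr k, f Q * u ^ Q.1.natDegree -
      a * c * Real.log (1 / (1 - Nat.card k * u)) =
      a * (∑' Q : Pr k, f Q * u ^ Q.1.natDegree - c * Real.log (1 / (1 - Nat.card k * u))) := by
    ring
  rw [e2, abs_mul]
  exact mul_le_mul_of_nonneg_left b1 (abs_nonneg a)

theorem ld_zero : LogD (fun _ : Pr k => (0 : ℝ)) 0 := by
  refine ⟨0, fun u hu hu1 => ?_⟩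
  simp only [zero_mul, tsum_zero, sub_zero, abs_zero, le_refl, and_true]
  exact summable_zero

theorem ld_fin [Finite k] (e : Pr k → ℝ) (S : Finset (Pr k)) (h : ∀ Q ∉ S, e Q = 0) :
    LogD e 0 := by
  refine ⟨∑ Q ∈ S, |e Q|, fun u hu hu1 => ?_⟩
  have hz : ∀ Q ∉ S, e Q * u ^ Q.1.natDegree = 0 := fun Q hQ => by rw [h Q hQ, zero_mul]
  refine ⟨summable_of_ne_finset_zero hz, ?_⟩
  rw [tsum_eq_sum hz, zero_mul, sub_zero]
  refine (Finset.abs_sum_le_sum_abs _ _).trans (Finset.sum_le_sum fun Q _ => ?_)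
  have hq : (1 : ℝ) ≤ Nat.card k := by
    exact_mod_cast Nat.card_pos
  have hu2 : u ≤ 1 := by nlinarith
  rw [abs_mul, abs_of_nonneg (pow_nonneg hu.le _)]
  exact mul_le_of_le_one_right (abs_nonneg _) (pow_le_one₀ hu.le hu2)

theorem ld_congr [Finite k] {f g : Pr k → ℝ} {c : ℝ} (hf : LogD f c) (S : Set (Pr k))
    (hS : S.Finite) (h : ∀ Q ∉ S, f Q = g Q) : LogD g c := by
  have h1 := ld_fin (fun Q => g Q - f Q) hS.toFinset (fun Q hQ => by
    rw [h Q (fun hh => hQ (hS.mem_toFinset.mpr hh)), sub_self])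
  have h2 := ld_add hf h1
  rw [add_zero] at h2
  have e : (fun Q => f Q + (g Q - f Q)) = g := by
    funext Q
    ring
  rwa [e] at h2

end logd

section main

variable {k K M : Type} [Field k] [Field K] [Algebra k[X] K] [Field M]
  [Algebra K M] [Algebra k[X] M] [IsScalarTower k[X] K M]

attribute [local instance] act

variable [Finite k] [IsFractionRing k[X] K] [FiniteDimensional K M] [IsGalois K M]

theorem ld_H (hZ : S_ZETA) (H : Subgroup (M ≃ₐ[K] M)) :
    LogD (fun Q : Pr k => (Nat.card {φ : XX M Q // ∃ σ ∈ H, IsFr φ σ} : ℝ)) (Nat.card H) := by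
  obtain ⟨D, hD, hDf⟩ := exists_D (k := k) (K := K) (M := M)
  have h1 := hZ k K (IntermediateField.fixedField H)
    (integralClosure k[X] (IntermediateField.fixedField H))
  have h2 := ld_mul (Nat.card H : ℝ) h1
  rw [mul_one] at h2
  refine ld_congr h2 {Q | Q.1 ∣ D} (fin_div D hD) (fun Q hQ => ?_)
  rw [← card_H H Q (hDf Q hQ)]
  push_cast
  rfl

theorem ind_gen {G : Type} [Group G] [Finite G] (V : Submodule ℝ (G → ℝ))
    (hV : ∀ H : Subgroup G, (fun σ => if σ ∈ H then (1 : ℝ) else 0) ∈ V) (C : Subgroup G) :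
    (fun σ => if Subgroup.zpowers σ = C then (1 : ℝ) else 0) ∈ V := by
  classical
  letI : Fintype (Subgroup G) := Fintype.ofFinite _
  induction C using WellFoundedLT.induction with
  | ind C ih =>
    have e : (fun σ : G => if Subgroup.zpowers σ = C then (1 : ℝ) else 0) =
        (fun σ : G => if σ ∈ C then (1 : ℝ) else 0) -
          ∑ C' ∈ Finset.univ.filter (fun C' => C' < C),
            (fun σ : G => if Subgroup.zpowers σ = C' then (1 : ℝ) else 0) := by
      funext σ
      rw [Pi.sub_apply, Finset.sum_apply, Finset.sum_ite_eq]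
      by_cases h1 : Subgroup.zpowers σ = C
      · have h2 : σ ∈ C := by
          rw [← h1]
          exact Subgroup.mem_zpowers σ
        have h3 : Subgroup.zpowers σ ∉ Finset.univ.filter (fun C' => C' < C) := by
          rw [Finset.mem_filter, h1]
          exact fun h => lt_irrefl _ h.2
        rw [if_pos h1, if_pos h2, if_neg h3, sub_zero]
      · by_cases h2 : σ ∈ C
        · have h3 : Subgroup.zpowers σ ∈ Finset.univ.filter (fun C' => C' < C) := by
            rw [Finset.mem_filter]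
            exact ⟨Finset.mem_univ _, lt_of_le_of_ne (Subgroup.zpowers_le.mpr h2) h1⟩
          rw [if_neg h1, if_pos h2, if_pos h3, sub_self]
        · have h3 : Subgroup.zpowers σ ∉ Finset.univ.filter (fun C' => C' < C) := by
            rw [Finset.mem_filter]
            exact fun h => h2 (h.2.le (Subgroup.mem_zpowers σ))
          rw [if_neg h1, if_neg h2, if_neg h3, sub_zero]
    rw [e]
    refine V.sub_mem (hV C) (V.sum_mem fun C' hC' => ?_)
    exact ih C' (Finset.mem_filter.mp hC').2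

theorem ind_T {G : Type} [Group G] [Finite G] (V : Submodule ℝ (G → ℝ))
    (hV : ∀ H : Subgroup G, (fun σ => if σ ∈ H then (1 : ℝ) else 0) ∈ V) (T : Set G)
    (hT : ∀ σ τ : G, Subgroup.zpowers σ = Subgroup.zpowers τ → σ ∈ T → τ ∈ T) :
    (fun σ => if σ ∈ T then (1 : ℝ) else 0) ∈ V := by
  classical
  letI : Fintype (Subgroup G) := Fintype.ofFinite _
  have e : (fun σ : G => if σ ∈ T then (1 : ℝ) else 0) =
      ∑ C ∈ Finset.univ.filter (fun C => ∃ τ ∈ T, Subgroup.zpowers τ = C),
        (fun σ : G => if Subgroup.zpowers σ = C then (1 : ℝ) else 0) := by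
    funext σ
    rw [Finset.sum_apply, Finset.sum_ite_eq]
    by_cases h1 : σ ∈ T
    · rw [if_pos h1, if_pos]
      rw [Finset.mem_filter]
      exact ⟨Finset.mem_univ _, σ, h1, rfl⟩
    · rw [if_neg h1, if_neg]
      rw [Finset.mem_filter]
      rintro ⟨-, τ, hτ, h2⟩
      exact h1 (hT τ σ h2 hτ)
  rw [e]
  exact V.sum_mem fun C _ => ind_gen V hV C

theorem ld_T (hZ : S_ZETA) (T : Set (M ≃ₐ[K] M))
    (hT : ∀ σ τ : M ≃ₐ[K] M, Subgroup.zpowers σ = Subgroup.zpowers τ → σ ∈ T → τ ∈ T) :
    LogD (fun Q : Pr k => (Nat.card {φ : XX M Q // ∃ σ ∈ T, IsFr φ σ} : ℝ)) (Nat.card T) := by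
  classical
  letI : Fintype (M ≃ₐ[K] M) := Fintype.ofFinite _
  obtain ⟨D, hD, hDf⟩ := exists_D (k := k) (K := K) (M := M)
  have key : ∀ (S : Set (M ≃ₐ[K] M)) (Q : Pr k), ¬ Q.1 ∣ D →
      (Nat.card {φ : XX M Q // ∃ σ ∈ S, IsFr φ σ} : ℝ) =
      ∑ σ : M ≃ₐ[K] M, (if σ ∈ S then (1 : ℝ) else 0) * Nat.card {φ : XX M Q // IsFr φ σ} := by
    intro S Q hQ
    have h1 := card_T (k := k) (K := K) (M := M) (Finset.univ.filter fun σ => σ ∈ S) Q (hDf Q hQ)
    have h2 : Nat.card {φ : XX M Q // ∃ σ ∈ S, IsFr φ σ} =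
        Nat.card {φ : XX M Q // ∃ σ ∈ Finset.univ.filter (fun σ => σ ∈ S), IsFr φ σ} := by
      congr 1
      simp only [Finset.mem_filter, Finset.mem_univ, true_and]
    rw [h2, h1, Finset.sum_filter]
    push_cast
    refine Finset.sum_congr rfl fun σ _ => ?_
    split_ifs <;> simp
  have keyc : ∀ S : Set (M ≃ₐ[K] M), (Nat.card S : ℝ) =
      ∑ σ : M ≃ₐ[K] M, (if σ ∈ S then (1 : ℝ) else 0) := by
    intro S
    rw [Finset.sum_boole, Nat.card_eq_fintype_card, Fintype.card_subtype]
  let V : Submodule ℝ ((M ≃ₐ[K] M) → ℝ) :=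
    { carrier := {w | LogD (fun Q : Pr k => ∑ σ : M ≃ₐ[K] M,
        w σ * (Nat.card {φ : XX M Q // IsFr φ σ} : ℝ)) (∑ σ, w σ)}
      add_mem' := by
        intro v w hv hw
        have h := ld_add hv hw
        show LogD _ _
        have e1 : (fun Q : Pr k => ∑ σ : M ≃ₐ[K] M,
            (v + w) σ * (Nat.card {φ : XX M Q // IsFr φ σ} : ℝ)) = fun Q : Pr k =>
            ∑ σ : M ≃ₐ[K] M, v σ * (Nat.card {φ : XX M Q // IsFr φ σ} : ℝ) +
            ∑ σ : M ≃ₐ[K] M, w σ * (Nat.card {φ : XX M Q // IsFr φ σ} : ℝ) := by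
          funext Q
          rw [← Finset.sum_add_distrib]
          exact Finset.sum_congr rfl fun σ _ => by rw [Pi.add_apply, add_mul]
        have e2 : ∑ σ, (v + w) σ = ∑ σ, v σ + ∑ σ, w σ := by
          rw [← Finset.sum_add_distrib]
          exact Finset.sum_congr rfl fun σ _ => by rw [Pi.add_apply]
        rw [e1, e2]
        exact h
      zero_mem' := by
        show LogD _ _
        simp only [Pi.zero_apply, zero_mul, Finset.sum_const_zero]
        exact ld_zero
      smul_mem' := by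
        intro a w hw
        have h := ld_mul a hw
        show LogD _ _
        have e1 : (fun Q : Pr k => ∑ σ : M ≃ₐ[K] M,
            (a • w) σ * (Nat.card {φ : XX M Q // IsFr φ σ} : ℝ)) = fun Q : Pr k =>
            a * ∑ σ : M ≃ₐ[K] M, w σ * (Nat.card {φ : XX M Q // IsFr φ σ} : ℝ) := by
          funext Q
          rw [Finset.mul_sum]
          exact Finset.sum_congr rfl fun σ _ => by rw [Pi.smul_apply, smul_eq_mul, mul_assoc]
        have e2 : ∑ σ, (a • w) σ = a * ∑ σ, w σ := by
          rw [Finset.mul_sum]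
          exact Finset.sum_congr rfl fun σ _ => by rw [Pi.smul_apply, smul_eq_mul]
        rw [e1, e2]
        exact h }
  have hV : ∀ H : Subgroup (M ≃ₐ[K] M), (fun σ => if σ ∈ H then (1 : ℝ) else 0) ∈ V := by
    intro H
    show LogD _ _
    have h1 := ld_H (k := k) (K := K) (M := M) hZ H
    have h2 : (Nat.card H : ℝ) = ∑ σ : M ≃ₐ[K] M, (if σ ∈ H then (1 : ℝ) else 0) :=
      keyc (H : Set (M ≃ₐ[K] M))
    rw [h2] at h1
    exact ld_congr h1 {Q | Q.1 ∣ D} (fin_div D hD) (fun Q hQ => key (H : Set (M ≃ₐ[K] M)) Q hQ)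
  have h3 : LogD (fun Q : Pr k => ∑ σ : M ≃ₐ[K] M,
        (if σ ∈ T then (1 : ℝ) else 0) * (Nat.card {φ : XX M Q // IsFr φ σ} : ℝ))
        (∑ σ : M ≃ₐ[K] M, (if σ ∈ T then (1 : ℝ) else 0)) := ind_T V hV T hT
  rw [← keyc] at h3
  exact ld_congr h3 {Q | Q.1 ∣ D} (fin_div D hD) (fun Q hQ => (key T Q hQ).symm)

end main

/-- Chebotarev's theorem. -/
theorem cheb (hZ : S_ZETA) : S_CHEB := by
  intro k K M _ _ _ _ _ _ _ _ _ _ _
  obtain ⟨D, hD, hDf⟩ := exists_D (k := k) (K := K) (M := M)
  refine ⟨(fin_div D hD).subset ?_, fun T hT => ld_T hZ T hT⟩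
  intro Q hQ
  by_contra h
  exact hQ (tor_of_free Q (hDf Q h))

end Pool.Agent.H467.MR.Cheb
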