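import Pool.Agent.H467.MR.Spec

set_option autoImplicit false
set_option linter.all false

open Polynomial IsDedekindDomain
open Pool.Agent.N874.PP

namespace Pool.Agent.H467.MR.Grp

theorem hfq (k : Type) [Field k] [Finite k] : Ring.HasFiniteQuotients k[X] where
  finiteQuotient {I} hI := by
    obtain ⟨g, rfl⟩ := (IsPrincipalIdealRing.principal I).principal
    have hg : g ≠ 0 := by
      rintro rfl
      exact hI (by simp)
    have : Module.Finite k (AdjoinRoot g) := (AdjoinRoot.powerBasis hg).finite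
    have : Finite (AdjoinRoot g) := Module.finite_of_finite k
    exact this

/-- A finite ring generated by simple roots of polynomials over a finite field: Frobenius. -/
theorem frob {R F : Type} [CommRing R] [Finite R] [Field F] [Finite F] [Algebra F R]
    (S : Set R) (hS : Algebra.adjoin F S = ⊤)
    (h : ∀ s ∈ S, ∃ f : F[X], aeval s f = 0 ∧ IsUnit (aeval s (derivative f))) :
    ∃ Q : ℕ, 2 ≤ Q ∧ ∀ x : R, x ^ Q = x := by
  classical
  haveI := Fintype.ofFinite F
  obtain ⟨p, hp⟩ := CharP.exists F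
  haveI := hp
  obtain ⟨⟨n, hn⟩, hpr, hc⟩ := FiniteField.card F p
  haveI : Fact p.Prime := ⟨hpr⟩
  rcases subsingleton_or_nontrivial R with hR | hR
  · exact ⟨2, le_rfl, fun x => Subsingleton.elim _ _⟩
  haveI : CharP R p := charP_of_injective_algebraMap (algebraMap F R).injective p
  haveI : ExpChar R p := ExpChar.prime hpr
  -- the Frobenius
  let Fr : R →ₐ[F] R :=
    { toRingHom := iterateFrobenius R p n
      commutes' := by
        intro c
        simp only [RingHom.toMonoidHom_eq_coe, OneHom.toFun_eq_coe, MonoidHom.toOneHom_coe,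
          MonoidHom.coe_coe, iterateFrobenius_def]
        rw [← map_pow]
        congr 1
        have := FiniteField.pow_card c
        rw [hc] at this
        exact this }
  have hFr : ∀ x, Fr x = x ^ (p ^ n) := fun x => iterateFrobenius_def p n x
  have hit : ∀ m : ℕ, ∀ x, (Fr ^ m) x = x ^ ((p ^ n) ^ m) := by
    intro m
    induction m with
    | zero => intro x; simp
    | succ m ih =>
      intro x
      rw [pow_succ', AlgHom.mul_apply, ih, hFr, ← pow_mul]
      congr 1
  have hq2 : 2 ≤ p ^ n := by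
    calc 2 ≤ p := hpr.two_le
      _ = p ^ 1 := (pow_one p).symm
      _ ≤ p ^ n := Nat.pow_le_pow_right hpr.pos hn
  have hfin : Finite (R →ₐ[F] R) := Finite.of_injective (fun f => (f : R → R)) DFunLike.coe_injective
  obtain ⟨a, b, hab, he⟩ := Finite.exists_ne_map_eq_of_infinite (fun m : ℕ => Fr ^ m)
  wlog hlt : a < b generalizing a b with H
  · exact H b a hab.symm he.symm (lt_of_le_of_ne (not_lt.mp hlt) hab.symm)
  obtain ⟨d, rfl⟩ := Nat.exists_eq_add_of_lt hlt
  have hd : ∀ s ∈ S, (Fr ^ (d + 1)) s = s := by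
    intro s hs
    obtain ⟨f, hf0, hfu⟩ := h s hs
    set y := (Fr ^ (d + 1)) s with hy
    have hy0 : aeval y f = 0 := by
      rw [hy, aeval_algHom_apply, hf0, map_zero]
    have hnil : IsNilpotent (y - s) := by
      refine ⟨(p ^ n) ^ a, ?_⟩
      rw [← hit, map_sub, hy, ← AlgHom.mul_apply, ← pow_add]
      have : Fr ^ (a + (d + 1)) = Fr ^ a := by
        rw [← add_assoc]; exact he.symm
      rw [this, sub_self]
    obtain ⟨c, hc'⟩ := binomExpansion (f.map (algebraMap F R)) s (y - s)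
    rw [add_sub_cancel, eval_map_algebraMap, eval_map_algebraMap, derivative_map,
      eval_map_algebraMap, hy0, hf0, zero_add] at hc'
    have hu : IsUnit (aeval s (derivative f) + c * (y - s)) := by
      have : IsNilpotent (c * (y - s)) := (Commute.all _ _).isNilpotent_mul_left hnil
      exact this.isUnit_add_left_of_commute hfu (Commute.all _ _)
    have h0 : (y - s) * (aeval s (derivative f) + c * (y - s)) = 0 := by
      linear_combination -hc'
    have := (hu.mul_left_eq_zero).mp h0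
    exact sub_eq_zero.mp this
  have hall : Fr ^ (d + 1) = AlgHom.id F R := by
    apply AlgHom.ext_of_adjoin_eq_top hS
    intro s hs
    exact hd s hs
  refine ⟨(p ^ n) ^ (d + 1), ?_, fun x => ?_⟩
  · calc 2 ≤ p ^ n := hq2
      _ = (p ^ n) ^ 1 := (pow_one _).symm
      _ ≤ (p ^ n) ^ (d + 1) := Nat.pow_le_pow_right (by omega) (by omega)
  · rw [← hit, hall]; rfl


/-- The same for a quotient. -/
theorem frobQ {A B : Type} [CommRing A] [CommRing B] [Algebra A B] (I : Ideal A) (hI : I.IsMaximal)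
    (J : Ideal B) (hle : I ≤ J.comap (algebraMap A B)) (hA : Finite (A ⧸ I)) (hB : Finite (B ⧸ J))
    (S : Set B) (hS : ∀ x, x ∈ Algebra.adjoin A S)
    (h : ∀ s ∈ S, ∃ f : A[X], aeval s f = 0 ∧ ∃ (v : A[X]) (c : A), c ∉ I ∧
      aeval s v * aeval s (derivative f) = algebraMap A B c) :
    ∃ Q : ℕ, 2 ≤ Q ∧ ∀ x : B, x ^ Q - x ∈ J := by
  obtain ⟨F, iF, iF', π, hπ, hker⟩ : ∃ (F : Type) (_ : Field F) (_ : Finite F) (π : A →+* F),
      Function.Surjective π ∧ RingHom.ker π = I :=
    ⟨A ⧸ I, Ideal.Quotient.field I, hA, Ideal.Quotient.mk I, Ideal.Quotient.mk_surjective,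
      Ideal.mk_ker⟩
  have hsur : Function.Surjective π := hπ
  let φ : F →+* B ⧸ J := π.liftOfSurjective hπ ⟨(Ideal.Quotient.mk J).comp (algebraMap A B), by
    rw [hker]
    intro x hx
    rw [RingHom.mem_ker, RingHom.comp_apply, Ideal.Quotient.eq_zero_iff_mem]
    exact hle hx⟩
  have hφ : ∀ a, φ (π a) = Ideal.Quotient.mk J (algebraMap A B a) := fun a =>
    RingHom.liftOfRightInverse_comp_apply π _ _ _ a
  letI : Algebra F (B ⧸ J) := φ.toAlgebra
  have hcomp : (algebraMap F (B ⧸ J)).comp π = (Ideal.Quotient.mk J).comp (algebraMap A B) := by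
    ext x
    exact hφ x
  obtain ⟨Q, hQ2, hQ⟩ := frob (R := B ⧸ J) (F := F) ((Ideal.Quotient.mk J) '' S) (by
      rw [eq_top_iff]
      rintro x -
      obtain ⟨y, rfl⟩ := Ideal.Quotient.mk_surjective x
      have hy := hS y
      induction hy using Algebra.adjoin_induction with
      | mem x hx => exact Algebra.subset_adjoin ⟨x, hx, rfl⟩
      | algebraMap r =>
        have := Subalgebra.algebraMap_mem (Algebra.adjoin F ((Ideal.Quotient.mk J) '' S)) (π r)
        rw [← hφ r]
        exact this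
      | add x y hx hy ihx ihy => rw [map_add]; exact Subalgebra.add_mem _ ihx ihy
      | mul x y hx hy ihx ihy => rw [map_mul]; exact Subalgebra.mul_mem _ ihx ihy) (by
      rintro _ ⟨s, hs, rfl⟩
      obtain ⟨f, hf0, v, c, hPc, hv⟩ := h s hs
      have haev : ∀ g : A[X], aeval (Ideal.Quotient.mk J s) (g.map π) =
          Ideal.Quotient.mk J (aeval s g) := by
        intro g
        rw [aeval_def, eval₂_map, hcomp, aeval_def, hom_eval₂]
      refine ⟨f.map π, ?_, ?_⟩
      · rw [haev, hf0, map_zero]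
      · rw [derivative_map, haev]
        have h2 : IsUnit (Ideal.Quotient.mk J (algebraMap A B c)) := by
          have h3 : π c ≠ 0 := by
            intro h0
            exact hPc (by rw [← hker]; exact h0)
          rw [← hφ]
          exact (IsUnit.mk0 _ h3).map φ
        rw [← hv, map_mul] at h2
        exact isUnit_of_mul_isUnit_right h2)
  refine ⟨Q, hQ2, fun x => ?_⟩
  rw [← Ideal.Quotient.eq, map_pow]
  exact hQ _

/-- `P` is a uniformiser at every prime over `P` of a ring generated by simple roots modulo `P`. -/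
theorem notsq {k K M : Type} [Field k] [Finite k] [Field K] [Algebra k[X] K]
    [IsFractionRing k[X] K] [Field M] [Algebra K M] [Algebra k[X] M] [IsScalarTower k[X] K M]
    (S : Set M) (hfin : S.Finite) (P : k[X]) (hP : Irreducible P)
    (h : ∀ s ∈ S, ∃ f : k[X][X], f.Monic ∧ aeval s f = 0 ∧ ∃ (v : k[X][X]) (c : k[X]), ¬ P ∣ c ∧
      aeval s v * aeval s (derivative f) = algebraMap k[X] M c)
    (n : ℕ) (c : k[X]) (hc : ¬ P ∣ c) (δ : M)
    (hδ : δ ^ 2 = algebraMap k[X] M (P ^ (2 * n + 1) * c)) :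
    δ ∉ IntermediateField.adjoin K S := by
  classical
  intro hmem
  have hinjM : Function.Injective (algebraMap k[X] M) := by
    rw [IsScalarTower.algebraMap_eq k[X] K M]
    exact (algebraMap K M).injective.comp (IsFractionRing.injective k[X] K)
  have hint : ∀ s ∈ S, IsIntegral k[X] s := by
    intro s hs
    obtain ⟨f, hf, hf0, -⟩ := h s hs
    exact ⟨f, hf, by simpa [aeval_def] using hf0⟩
  -- denominators
  set B : Subalgebra k[X] M := Algebra.adjoin k[X] S with hB
  have hden : ∀ x ∈ Algebra.adjoin K S, ∃ d : k[X], d ≠ 0 ∧ algebraMap k[X] M d * x ∈ B := by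
    intro x hx
    induction hx using Algebra.adjoin_induction with
    | mem x hx => exact ⟨1, one_ne_zero, by simpa using Algebra.subset_adjoin hx⟩
    | algebraMap r =>
      obtain ⟨a, b, hb, rfl⟩ := IsFractionRing.div_surjective (A := k[X]) r
      refine ⟨b, nonZeroDivisors.ne_zero hb, ?_⟩
      have hb0 : algebraMap k[X] K b ≠ 0 := by
        simpa using nonZeroDivisors.ne_zero hb
      rw [IsScalarTower.algebraMap_apply k[X] K M b, ← map_mul, mul_div_cancel₀ _ hb0,
        ← IsScalarTower.algebraMap_apply]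
      exact Subalgebra.algebraMap_mem _ _
    | add x y hx hy ihx ihy =>
      obtain ⟨a, ha, ha'⟩ := ihx
      obtain ⟨b, hb, hb'⟩ := ihy
      refine ⟨a * b, mul_ne_zero ha hb, ?_⟩
      have : algebraMap k[X] M (a * b) * (x + y) = algebraMap k[X] M b * (algebraMap k[X] M a * x)
          + algebraMap k[X] M a * (algebraMap k[X] M b * y) := by
        rw [map_mul]; ring
      rw [this]
      exact B.add_mem (B.mul_mem (Subalgebra.algebraMap_mem _ _) ha')
        (B.mul_mem (Subalgebra.algebraMap_mem _ _) hb')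
    | mul x y hx hy ihx ihy =>
      obtain ⟨a, ha, ha'⟩ := ihx
      obtain ⟨b, hb, hb'⟩ := ihy
      refine ⟨a * b, mul_ne_zero ha hb, ?_⟩
      have : algebraMap k[X] M (a * b) * (x * y) = (algebraMap k[X] M a * x)
          * (algebraMap k[X] M b * y) := by
        rw [map_mul]; ring
      rw [this]
      exact B.mul_mem ha' hb'
  have hmem' : δ ∈ Algebra.adjoin K S := by
    have hal : ∀ x ∈ S, IsAlgebraic K x := fun x hx =>
      ((hint x hx).tower_top (A := K)).isAlgebraic
    rw [← IntermediateField.mem_toSubalgebra,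
      IntermediateField.adjoin_toSubalgebra_of_isAlgebraic hal] at hmem
    exact hmem
  obtain ⟨d, hd0, hdB⟩ := hden δ hmem'
  -- the ring
  haveI hfinB : Module.Finite k[X] B :=
    Module.Finite.iff_fg.mpr (fg_adjoin_of_finite hfin hint)
  haveI : Ring.HasFiniteQuotients k[X] := hfq k
  haveI : Ring.HasFiniteQuotients B := Ring.HasFiniteQuotients.of_module_finite k[X] B
  have hinjB : Function.Injective (algebraMap k[X] B) := by
    intro x y hxy
    apply hinjM
    have := congrArg (fun z : B => (z : M)) hxy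
    exact this
  haveI hmaxP : (Ideal.span {P}).IsMaximal := PrincipalIdealRing.isMaximal_of_irreducible hP
  obtain ⟨q, hqmax, hqcomap⟩ := Ideal.exists_ideal_over_maximal_of_isIntegral
    (R := k[X]) (S := B) (P := Ideal.span {P}) (by
      rw [(RingHom.injective_iff_ker_eq_bot _).mp hinjB]; exact bot_le)
  haveI := hqmax
  have hqmem : ∀ x : k[X], algebraMap k[X] B x ∈ q ↔ P ∣ x := by
    intro x
    rw [← Ideal.mem_comap, hqcomap, Ideal.mem_span_singleton]
  -- the Frobenius
  obtain ⟨Q, hQ2, hQ⟩ : ∃ Q : ℕ, 2 ≤ Q ∧ ∀ x : B, x ^ Q - x ∈ Ideal.span {algebraMap k[X] B P} := by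
    have hmaxP' : (Ideal.span {P}).IsMaximal := hmaxP
    refine frobQ (Ideal.span {P}) hmaxP' (Ideal.span {algebraMap k[X] B P}) ?_ ?_ ?_
      {x : B | (x : M) ∈ S} ?_ ?_
    · rw [Ideal.span_singleton_le_iff_mem, Ideal.mem_comap]
      exact Ideal.mem_span_singleton_self _
    · exact Ring.HasFiniteQuotients.finiteQuotient (by simpa using hP.ne_zero)
    · refine Ring.HasFiniteQuotients.finiteQuotient ?_
      rw [Ne, Ideal.span_singleton_eq_bot]
      intro h0
      exact hP.ne_zero (hinjB (by rw [h0, map_zero]))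
    · rintro ⟨y, hy⟩
      induction hy using Algebra.adjoin_induction with
      | mem x hx => exact Algebra.subset_adjoin hx
      | algebraMap r => exact Subalgebra.algebraMap_mem _ r
      | add x y hx hy ihx ihy => exact Subalgebra.add_mem _ ihx ihy
      | mul x y hx hy ihx ihy => exact Subalgebra.mul_mem _ ihx ihy
    · intro s hs
      obtain ⟨f, hf, hf0, v, c, hPc, hv⟩ := h s hs
      have hcoe : ∀ g : k[X][X], ((aeval s g : B) : M) = aeval (s : M) g := by
        intro g
        exact (aeval_algHom_apply B.val s g).symm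
      refine ⟨f, ?_, v, c, by rwa [Ideal.mem_span_singleton], ?_⟩
      · apply Subtype.ext
        rw [hcoe, hf0]; rfl
      · apply Subtype.ext
        have := hv
        rw [← hcoe, ← hcoe] at this
        exact this
  -- the local ring
  obtain ⟨L, iL1, iL2, iL3⟩ : ∃ (L : Type) (_ : CommRing L) (_ : Algebra B L),
      IsLocalization.AtPrime L q := ⟨Localization.AtPrime q, inferInstance, inferInstance,
        inferInstance⟩
  haveI : IsDomain L := IsLocalization.isDomain_of_le_nonZeroDivisors L (M := q.primeCompl)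
    (Ideal.primeCompl_le_nonZeroDivisors q)
  haveI : IsLocalRing L := IsLocalization.AtPrime.isLocalRing L q
  haveI : IsNoetherianRing L := IsLocalization.isNoetherianRing q.primeCompl L inferInstance
  have hinjL : Function.Injective (algebraMap B L) :=
    IsLocalization.injective L (Ideal.primeCompl_le_nonZeroDivisors q)
  have hunit : ∀ x : B, x ∉ q → IsUnit (algebraMap B L x) := fun x hx =>
    IsLocalization.map_units L (⟨x, hx⟩ : q.primeCompl)
  set ϖ : L := algebraMap B L (algebraMap k[X] B P) with hϖ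
  have hmaxL : IsLocalRing.maximalIdeal L = Ideal.span {ϖ} := by
    apply le_antisymm
    · rw [← IsLocalization.AtPrime.map_eq_maximalIdeal q L, Ideal.map_le_iff_le_comap]
      intro x hx
      rw [Ideal.mem_comap, Ideal.mem_span_singleton]
      obtain ⟨y, hy⟩ := Ideal.mem_span_singleton.mp (hQ x)
      have h1 : x * (x ^ (Q - 1) - 1) = algebraMap k[X] B P * y := by
        rw [← hy, mul_sub, mul_one, ← pow_succ', Nat.sub_add_cancel (by omega)]
      have h2 : IsUnit (algebraMap B L (x ^ (Q - 1) - 1)) := by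
        apply hunit
        intro h3
        have h4 : x ^ (Q - 1) ∈ q := q.pow_mem_of_mem hx _ (by omega)
        have h5 : (1 : B) ∈ q := by
          have := q.sub_mem h4 h3
          simpa using this
        exact hqmax.ne_top ((Ideal.eq_top_iff_one _).mpr h5)
      have h3 : algebraMap B L x * algebraMap B L (x ^ (Q - 1) - 1) = ϖ * algebraMap B L y := by
        rw [← map_mul, h1, map_mul]
      obtain ⟨u, hu⟩ := h2
      rw [← hu] at h3
      refine ⟨algebraMap B L y * (u⁻¹ : Lˣ), ?_⟩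
      rw [← mul_assoc, ← h3, mul_assoc, Units.mul_inv, mul_one]
    · rw [Ideal.span_singleton_le_iff_mem, hϖ, ← IsLocalization.AtPrime.map_eq_maximalIdeal q L]
      exact Ideal.mem_map_of_mem _ ((hqmem P).mpr dvd_rfl)
  have hϖ0 : ϖ ≠ 0 := by
    rw [hϖ]
    intro h0
    exact hP.ne_zero (hinjB (hinjL (by rw [h0, map_zero, map_zero])))
  have hϖu : ¬ IsUnit ϖ := by
    intro hu
    have : ϖ ∈ IsLocalRing.maximalIdeal L := by
      rw [hmaxL]; exact Ideal.mem_span_singleton_self _
    exact (IsLocalRing.mem_maximalIdeal _).mp this hu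
  have hnf : ¬ IsField L := by
    intro hf
    letI := hf.toField
    exact hϖu (isUnit_iff_ne_zero.mpr hϖ0)
  haveI hdvr : IsDiscreteValuationRing L := by
    have := (IsDiscreteValuationRing.TFAE L hnf).out 4 0
    exact this.mp ⟨⟨ϖ, hmaxL⟩⟩
  have hirr : Irreducible ϖ := (IsDiscreteValuationRing.irreducible_iff_uniformizer ϖ).mpr hmaxL
  -- parity
  set a : B := ⟨algebraMap k[X] M d * δ, hdB⟩ with ha
  have hsq : a ^ 2 = algebraMap k[X] B (d ^ 2 * (P ^ (2 * n + 1) * c)) := by
    apply Subtype.ext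
    show (algebraMap k[X] M d * δ) ^ 2 = algebraMap k[X] M _
    rw [mul_pow, hδ]
    simp only [map_mul, map_pow]
  have hd1 : algebraMap B L (algebraMap k[X] B d) ≠ 0 := by
    intro h0
    exact hd0 (hinjB (hinjL (by rw [h0, map_zero, map_zero])))
  have hcu : IsUnit (algebraMap B L (algebraMap k[X] B c)) := by
    apply hunit
    rw [hqmem]; exact hc
  have hsq' : algebraMap B L a ^ 2 = (algebraMap B L (algebraMap k[X] B d)) ^ 2 *
      (ϖ ^ (2 * n + 1) * algebraMap B L (algebraMap k[X] B c)) := by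
    rw [← map_pow, hsq]
    simp only [map_mul, map_pow, hϖ]
  have ha0 : algebraMap B L a ≠ 0 := by
    intro h0
    rw [h0] at hsq'
    have : (algebraMap B L (algebraMap k[X] B d)) ^ 2 *
      (ϖ ^ (2 * n + 1) * algebraMap B L (algebraMap k[X] B c)) ≠ 0 :=
      mul_ne_zero (pow_ne_zero _ hd1) (mul_ne_zero (pow_ne_zero _ hϖ0) hcu.ne_zero)
    exact this (by rw [← hsq']; simp)
  obtain ⟨m, hm⟩ := IsDiscreteValuationRing.associated_pow_irreducible ha0 hirr
  obtain ⟨l, hl⟩ := IsDiscreteValuationRing.associated_pow_irreducible hd1 hirr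
  have h1 : Associated (ϖ ^ (2 * m)) (ϖ ^ (2 * l + (2 * n + 1))) := by
    have e1 : Associated (algebraMap B L a ^ 2) (ϖ ^ (2 * m)) := by
      have := hm.pow_pow (n := 2)
      rwa [← pow_mul, mul_comm m 2] at this
    have e2 : Associated ((algebraMap B L (algebraMap k[X] B d)) ^ 2 *
      (ϖ ^ (2 * n + 1) * algebraMap B L (algebraMap k[X] B c))) (ϖ ^ (2 * l + (2 * n + 1))) := by
      rw [pow_add ϖ (2 * l) (2 * n + 1)]
      apply Associated.mul_mul
      · have := hl.pow_pow (n := 2)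
        rwa [← pow_mul, mul_comm l 2] at this
      · exact associated_mul_unit_left _ _ hcu
    rw [hsq'] at e1
    exact e1.symm.trans e2
  have h2 := (pow_dvd_pow_iff hϖ0 hϖu).mp h1.dvd
  have h3 := (pow_dvd_pow_iff hϖ0 hϖu).mp h1.symm.dvd
  omega


theorem vieta {M : Type} [Field M] {a b x y z : M} (hxy : x ≠ y) (hxz : x ≠ z) (hyz : y ≠ z)
    (hx : x ^ 3 + a * x + b = 0) (hy : y ^ 3 + a * y + b = 0) (hz : z ^ 3 + a * z + b = 0) :
    z = -x - y ∧ a = -(x ^ 2 + x * y + y ^ 2) ∧ b = x * y * (x + y) := by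
  have h1 : x ^ 2 + x * y + y ^ 2 + a = 0 := by
    have : (x - y) * (x ^ 2 + x * y + y ^ 2 + a) = 0 := by linear_combination hx - hy
    exact (mul_eq_zero.mp this).resolve_left (sub_ne_zero.mpr hxy)
  have h2 : x ^ 2 + x * z + z ^ 2 + a = 0 := by
    have : (x - z) * (x ^ 2 + x * z + z ^ 2 + a) = 0 := by linear_combination hx - hz
    exact (mul_eq_zero.mp this).resolve_left (sub_ne_zero.mpr hxz)
  have h3 : x + y + z = 0 := by
    have : (y - z) * (x + y + z) = 0 := by linear_combination h1 - h2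
    exact (mul_eq_zero.mp this).resolve_left (sub_ne_zero.mpr hyz)
  refine ⟨by linear_combination h3, by linear_combination h1, ?_⟩
  linear_combination hx - x * h1

theorem disc_sq {M : Type} [Field M] {a b x y z : M} (hxy : x ≠ y) (hxz : x ≠ z) (hyz : y ≠ z)
    (hx : x ^ 3 + a * x + b = 0) (hy : y ^ 3 + a * y + b = 0) (hz : z ^ 3 + a * z + b = 0) :
    ((x - y) * (x - z) * (y - z)) ^ 2 = -(4 * a ^ 3 + 27 * b ^ 2) := by
  obtain ⟨rfl, rfl, rfl⟩ := vieta hxy hxz hyz hx hy hz
  ring

theorem root_eq {M : Type} [Field M] {a b x y z w : M} (hxy : x ≠ y) (hxz : x ≠ z) (hyz : y ≠ z)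
    (hx : x ^ 3 + a * x + b = 0) (hy : y ^ 3 + a * y + b = 0) (hz : z ^ 3 + a * z + b = 0)
    (hw : w ^ 3 + a * w + b = 0) : w = x ∨ w = y ∨ w = z := by
  obtain ⟨rfl, rfl, rfl⟩ := vieta hxy hxz hyz hx hy hz
  have : (w - x) * ((w - y) * (w - (-x - y))) = 0 := by linear_combination hw
  rcases mul_eq_zero.mp this with h | h
  · exact Or.inl (sub_eq_zero.mp h)
  · rcases mul_eq_zero.mp h with h | h
    · exact Or.inr (Or.inl (sub_eq_zero.mp h))
    · exact Or.inr (Or.inr (sub_eq_zero.mp h))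

section rho

variable {K M : Type} [Field K] [Field M] [Algebra K M]

theorem exists_rho (t : Fin 3 → M) (ht : Function.Injective t) (a b : K)
    (h : ∀ j, t j ^ 3 + algebraMap K M a * t j + algebraMap K M b = 0) :
    ∃ ρ : (M ≃ₐ[K] M) →* Equiv.Perm (Fin 3), ∀ σ j, σ (t j) = t (ρ σ j) := by
  have key : ∀ (σ : M ≃ₐ[K] M) (j : Fin 3), ∃ j', σ (t j) = t j' := by
    intro σ j
    have hw : (σ (t j)) ^ 3 + algebraMap K M a * σ (t j) + algebraMap K M b = 0 := by
      have := congrArg σ (h j)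
      simpa using this
    rcases root_eq (ht.ne (by decide : (0 : Fin 3) ≠ 1)) (ht.ne (by decide : (0 : Fin 3) ≠ 2))
      (ht.ne (by decide : (1 : Fin 3) ≠ 2)) (h 0) (h 1) (h 2) hw with h | h | h
    · exact ⟨0, h⟩
    · exact ⟨1, h⟩
    · exact ⟨2, h⟩
  choose r hr using key
  let f : (M ≃ₐ[K] M) →* Function.End (Fin 3) :=
    { toFun := r
      map_one' := by
        funext j
        apply ht
        rw [← hr]; rfl
      map_mul' := by
        intro σ τ
        funext j
        apply ht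
        show t (r (σ * τ) j) = t (r σ (r τ j))
        rw [← hr, ← hr, ← hr]; rfl }
  exact ⟨f.toHomPerm, fun σ j => hr σ j⟩

end rho

theorem evenP : ∀ p : Equiv.Perm (Fin 3), Equiv.Perm.sign p = 1 →
    (p 0 = 0 ∧ p 1 = 1 ∧ p 2 = 2) ∨ (p 0 = 1 ∧ p 1 = 2 ∧ p 2 = 0) ∨
      (p 0 = 2 ∧ p 1 = 0 ∧ p 2 = 1) := by decide

theorem allP : ∀ x : Equiv.Perm (Fin 3), x = 1 ∨ x = Equiv.swap 1 2 ∨ x = Equiv.swap 0 2 ∨
    x = Equiv.swap 0 1 ∨ x = Equiv.swap 1 2 * Equiv.swap 0 2 ∨
      x = Equiv.swap 0 2 * Equiv.swap 1 2 := by decide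

theorem oddP : ∀ p : Equiv.Perm (Fin 3), Equiv.Perm.sign p = -1 → ∃ f, p f = f := by decide

theorem oddU' : ∀ p : Equiv.Perm (Fin 3), Equiv.Perm.sign p = -1 → (p = Equiv.swap 1 2 ∧ p 1 ≠ 1 ∧ p 2 ≠ 2) ∨ (p = Equiv.swap 0 2 ∧ p 0 ≠ 0 ∧ p 2 ≠ 2) ∨ (p = Equiv.swap 0 1 ∧ p 0 ≠ 0 ∧ p 1 ≠ 1) := by decide
theorem oddU : ∀ f : Fin 3, ∀ p q : Equiv.Perm (Fin 3), Equiv.Perm.sign p = -1 → p f = f →
    Equiv.Perm.sign q = -1 → q f = f → p = q := by
  intro f p q hp hpf hq hqf
  rcases oddU' p hp with ⟨h, h1, h2⟩ | ⟨h, h1, h2⟩ | ⟨h, h1, h2⟩ <;>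
  rcases oddU' q hq with ⟨h', h1', h2'⟩ | ⟨h', h1', h2'⟩ | ⟨h', h1', h2'⟩ <;>
  fin_cases f <;> first | exact h.trans h'.symm | exact absurd hpf h1 | exact absurd hpf h2 | exact absurd hqf h1' | exact absurd hqf h2'

/-- A subgroup of `S₃` containing an odd element and normalised by a transitive group. -/
theorem S3top (T R : Subgroup (Equiv.Perm (Fin 3))) (hodd : ∃ p ∈ T, Equiv.Perm.sign p = -1)
    (hconj : ∀ g ∈ R, ∀ p ∈ T, g * p * g⁻¹ ∈ T) (htr : ∀ f f' : Fin 3, ∃ g ∈ R, g f = f') :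
    ∀ p, p ∈ T := by
  obtain ⟨p, hpT, hp⟩ := hodd
  obtain ⟨f, hf⟩ := oddP p hp
  have key : ∀ (f' : Fin 3) (q : Equiv.Perm (Fin 3)), Equiv.Perm.sign q = -1 → q f' = f' →
      q ∈ T := by
    intro f' q hq hqf
    obtain ⟨g, hg, hgf⟩ := htr f f'
    have h1 : q = g * p * g⁻¹ := by
      apply oddU f' q _ hq hqf
      · simp [hp]
      · rw [← hgf]; simp [hf]
    rw [h1]
    exact hconj g hg p hpT
  have k0 : Equiv.swap (1 : Fin 3) 2 ∈ T := key 0 _ (by decide) (by decide)
  have k1 : Equiv.swap (0 : Fin 3) 2 ∈ T := key 1 _ (by decide) (by decide)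
  have k2 : Equiv.swap (0 : Fin 3) 1 ∈ T := key 2 _ (by decide) (by decide)
  intro x
  rcases allP x with h | h | h | h | h | h <;> rw [h]
  · exact T.one_mem
  · exact k0
  · exact k1
  · exact k2
  · exact T.mul_mem k0 k1
  · exact T.mul_mem k1 k0


section main

variable {k K M : Type} [Field k] [Finite k] [Field K] [Algebra k[X] K]
  [IsFractionRing k[X] K] [Field M] [Algebra K M] [FiniteDimensional K M] [IsGalois K M]
  [Algebra k[X] M] [IsScalarTower k[X] K M] {m : ℕ} {a b P : Fin m → k[X]}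
  {t : Fin m → Fin 3 → M}

theorem exists_rhos (ht : ∀ i, Function.Injective (t i))
    (hr : ∀ i j, t i j ^ 3 + algebraMap k[X] M (a i) * t i j + algebraMap k[X] M (b i) = 0) :
    ∃ ρ : (M ≃ₐ[K] M) →* (Fin m → Equiv.Perm (Fin 3)), ∀ σ i j, σ (t i j) = t i (ρ σ i j) := by
  have h1 : ∀ i, ∃ ρ : (M ≃ₐ[K] M) →* Equiv.Perm (Fin 3), ∀ σ j, σ (t i j) = t i (ρ σ j) := by
    intro i
    apply exists_rho (t i) (ht i) (algebraMap k[X] K (a i)) (algebraMap k[X] K (b i))
    intro j
    rw [← IsScalarTower.algebraMap_apply, ← IsScalarTower.algebraMap_apply]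
    exact hr i j
  choose ρ hρ using h1
  exact ⟨Pi.monoidHom ρ, fun σ i j => hρ i σ j⟩

/-- The action is transitive. -/
theorem trans (hD : Dat K a b P) (ht : ∀ i, Function.Injective (t i))
    (hr : ∀ i j, t i j ^ 3 + algebraMap k[X] M (a i) * t i j + algebraMap k[X] M (b i) = 0)
    (i : Fin m) (f f' : Fin 3) : ∃ σ : M ≃ₐ[K] M, σ (t i f) = t i f' := by
  have hpoly : ∀ j, aeval (t i j) (X ^ 3 + C (algebraMap k[X] K (a i)) * X +
      C (algebraMap k[X] K (b i)) : K[X]) = 0 := by
    intro j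
    have := hr i j
    simpa [← IsScalarTower.algebraMap_apply] using this
  have hmon : (X ^ 3 + C (algebraMap k[X] K (a i)) * X +
      C (algebraMap k[X] K (b i)) : K[X]).Monic := by
    monicity!
  have hmin : minpoly K (t i f) = X ^ 3 + C (algebraMap k[X] K (a i)) * X +
      C (algebraMap k[X] K (b i)) :=
    (minpoly.eq_of_irreducible_of_monic (hD.irr i) (hpoly f) hmon).symm
  have h1 : aeval (t i f') (minpoly K (t i f)) = 0 := by
    rw [hmin]; exact hpoly f'
  exact minpoly.exists_algEquiv_of_root' (Algebra.IsAlgebraic.isAlgebraic (t i f)) h1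

/-- Inertia. -/
theorem inertia (h6 : (6 : k) ≠ 0) (hD : Dat K a b P) (ht : ∀ i, Function.Injective (t i))
    (hr : ∀ i j, t i j ^ 3 + algebraMap k[X] M (a i) * t i j + algebraMap k[X] M (b i) = 0)
    (d : k[X]) (s : M) (hd : ∀ i, ¬ P i ∣ d) (hs : s ^ 2 = algebraMap k[X] M d) (i : Fin m) :
    ∃ τ : M ≃ₐ[K] M, τ s = s ∧ (∀ j, j ≠ i → ∀ l, τ (t j l) = t j l) ∧
      τ ((t i 0 - t i 1) * (t i 0 - t i 2) * (t i 1 - t i 2)) ≠
        (t i 0 - t i 1) * (t i 0 - t i 2) * (t i 1 - t i 2) := by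
  set δ := (t i 0 - t i 1) * (t i 0 - t i 2) * (t i 1 - t i 2) with hδ
  set S : Set M := {s} ∪ ⋃ j ∈ {j : Fin m | j ≠ i}, Set.range (t j) with hS
  have h01 : (0 : Fin 3) ≠ 1 := by decide
  have h02 : (0 : Fin 3) ≠ 2 := by decide
  have h12 : (1 : Fin 3) ≠ 2 := by decide
  have hδ2 : δ ^ 2 = algebraMap k[X] M (-(dsc (a i) (b i))) := by
    rw [hδ, disc_sq ((ht i).ne h01) ((ht i).ne h02) ((ht i).ne h12) (hr i 0) (hr i 1) (hr i 2)]
    simp only [dsc, map_neg, map_add, map_mul, map_pow, map_ofNat]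
  have h2 : (2 : k) ≠ 0 := by
    intro h0
    exact h6 (by linear_combination (3 : k) * h0)
  have hnot : δ ∉ IntermediateField.adjoin K S := by
    obtain ⟨n, c, hnc, hPc⟩ := hD.odd i
    refine notsq S ?_ (P i) (hD.prm i) ?_ n (-c) (by rwa [dvd_neg]) δ ?_
    · rw [hS]
      apply Set.Finite.union (Set.finite_singleton s)
      apply Set.Finite.biUnion (Set.toFinite _)
      intro j _
      exact Set.finite_range _
    · intro x hx
      rcases hx with hx | hx
      · rw [Set.mem_singleton_iff] at hx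
        subst hx
        refine ⟨X ^ 2 - C d, ?_, ?_, X, C 2 * d, ?_, ?_⟩
        · monicity!
        · simp [hs]
        · intro h0
          apply hd i
          have hu : IsUnit (C 2 : k[X]) := by
            rw [isUnit_C]; exact isUnit_iff_ne_zero.mpr h2
          exact (hu.dvd_mul_left).mp h0
        · simp only [aeval_X, derivative_sub, derivative_X_pow, derivative_C, sub_zero, map_mul,
            Nat.cast_ofNat]
          have e2 : algebraMap k[X] M 2 = 2 := map_ofNat _ 2
          have e3 : algebraMap k[X] M (C 2) = 2 := by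
            rw [C_ofNat, map_ofNat]
          simp only [e2, e3, map_pow, aeval_X, aeval_C, map_natCast, Nat.cast_ofNat, ← hs]
          simp only [Nat.add_one_sub_one, pow_one, e2]
          ring
      · simp only [Set.mem_iUnion] at hx
        obtain ⟨j, hj, l, rfl⟩ := hx
        refine ⟨X ^ 3 + C (a j) * X + C (b j), ?_, ?_, C 6 * C (a j) * X ^ 2 - C 9 * C (b j) * X +
          C 4 * C (a j) ^ 2, dsc (a j) (b j), hD.oth i j (fun h => hj h.symm), ?_⟩
        · monicity!
        · simpa using hr j l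
        · have h3 := hr j l
          simp only [derivative_add, derivative_X_pow, derivative_mul, derivative_C, zero_mul,
            derivative_X, mul_one, zero_add, add_zero, dsc]
          simp only [map_add, map_sub, map_mul, map_pow, aeval_X, aeval_C, map_ofNat, C_ofNat,
            Nat.cast_ofNat]
          have e3 : (3 - 1 : ℕ) = 2 := rfl
          simp only [e3]
          linear_combination (-18 * algebraMap k[X] M (a j) * t j l +
            27 * algebraMap k[X] M (b j)) * (-h3)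
    · rw [hδ2, hnc]
      congr 1
      ring
  -- Galois theory
  by_contra hcon
  push Not at hcon
  apply hnot
  have hfix : IntermediateField.fixedField (IntermediateField.adjoin K S).fixingSubgroup =
      IntermediateField.adjoin K S := IsGalois.fixedField_fixingSubgroup _
  rw [← hfix]
  intro ⟨τ, hτ⟩
  have hτ' : ∀ x ∈ S, τ x = x := by
    intro x hx
    exact hτ ⟨x, IntermediateField.subset_adjoin K S hx⟩
  show τ δ = δ
  apply hcon τ (hτ' s (Or.inl rfl))
  intro j hj l
  apply hτ'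
  refine Or.inr ?_
  simp only [Set.mem_iUnion]
  exact ⟨j, hj, l, rfl⟩

end main


section main2

variable {k K M : Type} [Field k] [Finite k] [Field K] [Algebra k[X] K]
  [IsFractionRing k[X] K] [Field M] [Algebra K M] [FiniteDimensional K M] [IsGalois K M]
  [Algebra k[X] M] [IsScalarTower k[X] K M] {m : ℕ} {a b P : Fin m → k[X]}
  {t : Fin m → Fin 3 → M}

/-- An automorphism maps a square root of an element of the base to plus or minus itself. -/
theorem pm {s x : M} (hs : s ^ 2 = x) (σ : M ≃ₐ[K] M) (hx : σ x = x) : σ s = s ∨ σ s = -s := by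
  have h1 : (σ s) ^ 2 = s ^ 2 := by rw [← map_pow, hs, hx]
  exact sq_eq_sq_iff_eq_or_eq_neg.mp h1

/-- The stabiliser of `s` surjects. -/
theorem surj (h6 : (6 : k) ≠ 0) (hD : Dat K a b P) (ht : ∀ i, Function.Injective (t i))
    (hr : ∀ i j, t i j ^ 3 + algebraMap k[X] M (a i) * t i j + algebraMap k[X] M (b i) = 0)
    (ρ : (M ≃ₐ[K] M) →* (Fin m → Equiv.Perm (Fin 3))) (hρ : ∀ σ i j, σ (t i j) = t i (ρ σ i j))
    (d : k[X]) (s : M) (hd : ∀ i, ¬ P i ∣ d) (hs : s ^ 2 = algebraMap k[X] M d)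
    (p : Fin m → Equiv.Perm (Fin 3)) : ∃ τ : M ≃ₐ[K] M, ρ τ = p ∧ τ s = s := by
  classical
  have hbase : ∀ (σ : M ≃ₐ[K] M) (x : k[X]), σ (algebraMap k[X] M x) = algebraMap k[X] M x := by
    intro σ x
    rw [IsScalarTower.algebraMap_apply k[X] K M, σ.commutes]
  let St : Subgroup (M ≃ₐ[K] M) := MulAction.stabilizer (M ≃ₐ[K] M) s
  have hSt : ∀ τ, τ ∈ St ↔ τ s = s := fun τ => Iff.rfl
  let H : Subgroup (Fin m → Equiv.Perm (Fin 3)) := St.map ρ
  suffices hH : p ∈ H by
    obtain ⟨τ, hτ, rfl⟩ := hH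
    exact ⟨τ, rfl, hτ⟩
  apply Subgroup.pi_mem_of_mulSingle_mem
  intro i
  let T : Subgroup (Equiv.Perm (Fin 3)) := H.comap (MonoidHom.mulSingle (fun _ => Equiv.Perm (Fin 3)) i)
  have hT : ∀ q, q ∈ T ↔ ∃ τ : M ≃ₐ[K] M, τ s = s ∧ ρ τ = Pi.mulSingle i q := by
    intro q
    constructor
    · rintro ⟨τ, hτ, h⟩
      exact ⟨τ, hτ, h⟩
    · rintro ⟨τ, hτ, h⟩
      exact ⟨τ, hτ, h⟩
  let R : Subgroup (Equiv.Perm (Fin 3)) := (⊤ : Subgroup (M ≃ₐ[K] M)).map
    ((Pi.evalMonoidHom (fun _ => Equiv.Perm (Fin 3)) i).comp ρ)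
  have hR : ∀ q, q ∈ R ↔ ∃ τ : M ≃ₐ[K] M, ρ τ i = q := by
    intro q
    constructor
    · rintro ⟨τ, hτ, h⟩
      exact ⟨τ, h⟩
    · rintro ⟨τ, h⟩
      exact ⟨τ, trivial, h⟩
  show p i ∈ T
  refine S3top T R ?_ ?_ ?_ (p i)
  · obtain ⟨τ, h1, h2, h3⟩ := inertia h6 hD ht hr d s hd hs i
    refine ⟨ρ τ i, (hT _).mpr ⟨τ, h1, ?_⟩, ?_⟩
    · funext j
      by_cases hj : j = i
      · subst hj; simp
      · rw [Pi.mulSingle_eq_of_ne hj]
        ext l
        have := h2 j hj l
        rw [hρ] at this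
        rw [ht j this]; rfl
    · rcases Int.units_eq_one_or (Equiv.Perm.sign (ρ τ i)) with h | h
      · exfalso
        apply h3
        simp only [map_mul, map_sub, hρ]
        rcases evenP _ h with ⟨e0, e1, e2⟩ | ⟨e0, e1, e2⟩ | ⟨e0, e1, e2⟩ <;>
        · rw [e0, e1, e2]
          try ring
      · exact h
  · intro g hg q hq
    obtain ⟨γ, rfl⟩ := (hR g).mp hg
    obtain ⟨τ, hτ, hτ'⟩ := (hT q).mp hq
    refine (hT _).mpr ⟨γ * τ * γ⁻¹, ?_, ?_⟩
    · have h1 : γ⁻¹ s = s ∨ γ⁻¹ s = -s := pm hs _ (hbase _ _)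
      show γ (τ (γ⁻¹ s)) = s
      have h2 : τ (γ⁻¹ s) = γ⁻¹ s := by
        rcases h1 with h1 | h1 <;> rw [h1]
        · exact hτ
        · rw [map_neg, hτ]
      rw [h2]
      exact γ.apply_symm_apply s
    · rw [map_mul, map_mul, hτ', map_inv]
      funext j
      by_cases hj : j = i
      · subst hj; simp
      · rw [Pi.mulSingle_eq_of_ne hj]
        simp [Pi.mulSingle_eq_of_ne hj]
  · intro f f'
    obtain ⟨σ, hσ⟩ := trans hD ht hr i f f'
    refine ⟨ρ σ i, (hR _).mpr ⟨σ, rfl⟩, ?_⟩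
    rw [hρ] at hσ
    exact ht i hσ

theorem card_der : Fintype.card {p : Equiv.Perm (Fin 3) // ∀ j, p j ≠ j} = 2 := by decide

theorem claim1 (h6 : (6 : k) ≠ 0) (hD : Dat K a b P) (ht : ∀ i, Function.Injective (t i))
    (hr : ∀ i j, t i j ^ 3 + algebraMap k[X] M (a i) * t i j + algebraMap k[X] M (b i) = 0)
    (ρ : (M ≃ₐ[K] M) →* (Fin m → Equiv.Perm (Fin 3))) (hρ : ∀ σ i j, σ (t i j) = t i (ρ σ i j)) :
    Nat.card {σ : M ≃ₐ[K] M // ∀ i j, σ (t i j) ≠ t i j} * 3 ^ m = Nat.card (M ≃ₐ[K] M) := by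
  classical
  have hsur : Function.Surjective ρ := by
    intro p
    obtain ⟨τ, hτ, -⟩ := surj h6 hD ht hr ρ hρ 1 1 (fun i h => (hD.prm i).not_isUnit
      (isUnit_of_dvd_one h)) (by simp) p
    exact ⟨τ, hτ⟩
  haveI : Fintype (M ≃ₐ[K] M) := Fintype.ofFinite _
  let X : Finset (Fin m → Equiv.Perm (Fin 3)) :=
    Fintype.piFinset (fun _ => Finset.univ.filter (fun p : Equiv.Perm (Fin 3) => ∀ j, p j ≠ j))
  have hX : X.card = 2 ^ m := by
    rw [Fintype.card_piFinset]
    have : (Finset.univ.filter (fun p : Equiv.Perm (Fin 3) => ∀ j, p j ≠ j)).card = 2 := by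
      decide
    simp [this]
  obtain ⟨c, hc⟩ : ∃ c : ℕ, ∀ p, (Finset.univ.filter (fun σ => ρ σ = p)).card = c := by
    refine ⟨(Finset.univ.filter (fun σ => ρ σ = 1)).card, fun p => ?_⟩
    exact MonoidHom.card_fiber_eq_of_mem_range ρ (hsur p) (hsur 1)
  have h1 : Nat.card {σ : M ≃ₐ[K] M // ∀ i j, σ (t i j) ≠ t i j} = 2 ^ m * c := by
    rw [Nat.card_eq_fintype_card, Fintype.card_subtype]
    have h2 : (Finset.univ.filter (fun σ : M ≃ₐ[K] M => ∀ i j, σ (t i j) ≠ t i j)) =
        Finset.univ.filter (fun σ => ρ σ ∈ X) := by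
      apply Finset.filter_congr
      intro σ _
      simp only [X, Fintype.mem_piFinset, Finset.mem_filter, Finset.mem_univ, true_and, hρ]
      constructor
      · intro h i j h'
        exact h i j (by rw [h'])
      · intro h i j h'
        exact h i j (ht i h')
    rw [h2, Finset.card_eq_sum_card_fiberwise (f := ρ) (t := X) (by
      intro σ hσ
      simpa using hσ)]
    rw [← hX, ← smul_eq_mul, ← Finset.sum_const]
    apply Finset.sum_congr rfl
    intro p hp
    rw [← hc p]
    congr 1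
    ext σ
    simp only [Finset.mem_filter, Finset.mem_univ, true_and]
    constructor
    · exact fun h => h.2
    · exact fun h => ⟨h ▸ hp, h⟩
  have h2 : Nat.card (M ≃ₐ[K] M) = 6 ^ m * c := by
    rw [Nat.card_eq_fintype_card, ← Finset.card_univ,
      Finset.card_eq_sum_card_fiberwise (f := ρ) (t := Finset.univ) (by intro σ _; simp)]
    rw [Finset.sum_congr rfl (fun p _ => hc p), Finset.sum_const, smul_eq_mul, Finset.card_univ,
      Fintype.card_pi]
    congr 1
    simp [Fintype.card_perm]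
    rfl
  rw [h1, h2]
  have : (6 : ℕ) ^ m = 2 ^ m * 3 ^ m := by rw [← mul_pow]; norm_num
  rw [this]; ring

/-- The 3-cycle `j ↦ j + 1`. -/
def cyc : Equiv.Perm (Fin 3) := Equiv.swap 0 1 * Equiv.swap 1 2

theorem cyc_ne : ∀ j, cyc j ≠ j := by decide

theorem claim2 (h6 : (6 : k) ≠ 0) (hD : Dat K a b P) (ht : ∀ i, Function.Injective (t i))
    (hr : ∀ i j, t i j ^ 3 + algebraMap k[X] M (a i) * t i j + algebraMap k[X] M (b i) = 0)
    (ρ : (M ≃ₐ[K] M) →* (Fin m → Equiv.Perm (Fin 3))) (hρ : ∀ σ i j, σ (t i j) = t i (ρ σ i j))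
    (d : k[X]) (s : M) (hsq : ¬ IsSquare (algebraMap k[X] K d)) (hd : ∀ i, ¬ P i ∣ d)
    (hs : s ^ 2 = algebraMap k[X] M d) :
    ∃ σ : M ≃ₐ[K] M, (∀ i j, σ (t i j) ≠ t i j) ∧ σ s = -s := by
  have h1 : ∃ σ : M ≃ₐ[K] M, σ s ≠ s := by
    by_contra hcon
    push Not at hcon
    have h2 : s ∈ (⊥ : IntermediateField K M) := by
      rw [IsGalois.mem_bot_iff_fixed]
      exact hcon
    obtain ⟨x, hx⟩ := IntermediateField.mem_bot.mp h2
    apply hsq
    refine ⟨x, (algebraMap K M).injective ?_⟩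
    rw [map_mul, hx, ← IsScalarTower.algebraMap_apply, ← hs, sq]
  obtain ⟨σ, hσ⟩ := h1
  have h2 : σ s = -s := (pm hs σ (by
    rw [IsScalarTower.algebraMap_apply k[X] K M, σ.commutes])).resolve_left hσ
  obtain ⟨τ, hτ, hτs⟩ := surj h6 hD ht hr ρ hρ d s hd hs (fun i => cyc * (ρ σ i)⁻¹)
  refine ⟨τ * σ, ?_, ?_⟩
  · intro i j h
    rw [hρ] at h
    have := ht i h
    rw [map_mul, hτ] at this
    apply cyc_ne j
    simpa using this
  · show τ (σ s) = -s
    rw [h2, map_neg, hτs]



theorem cycA : Equiv.swap 1 2 * cyc * (Equiv.swap 1 2)⁻¹ = cyc * cyc := by decide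

theorem cycB : (Equiv.swap 1 2 * cyc * (Equiv.swap 1 2)⁻¹) *
    (Equiv.swap 1 2 * cyc * (Equiv.swap 1 2)⁻¹) = cyc := by decide

theorem swap12 : ∀ p : Equiv.Perm (Fin 3), p 0 = 0 → p = 1 ∨ p = Equiv.swap 1 2 := by decide

theorem claim3 (h6 : (6 : k) ≠ 0) (hD : Dat K a b P) (ht : ∀ i, Function.Injective (t i))
    (hr : ∀ i j, t i j ^ 3 + algebraMap k[X] M (a i) * t i j + algebraMap k[X] M (b i) = 0)
    (ρ : (M ≃ₐ[K] M) →* (Fin m → Equiv.Perm (Fin 3))) (hρ : ∀ σ i j, σ (t i j) = t i (ρ σ i j))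
    (i : Fin m) (h : K[X]) (n : K) (s : M)
    (hn : ∏ j, aeval (t i j) h = algebraMap K M n ^ 2) (h0 : aeval (t i 0) h ≠ 0)
    (hns : ∀ g : K[X], aeval (t i 0) h ≠ aeval (t i 0) g ^ 2) (hs : s ^ 2 = aeval (t i 0) h) :
    ∃ σ : M ≃ₐ[K] M, (∀ i', i' ≠ i → ∀ j, σ (t i' j) ≠ t i' j) ∧ σ (t i 0) = t i 0 ∧
      σ (t i 1) ≠ t i 1 ∧ σ (t i 2) ≠ t i 2 ∧ σ s = -s := by
  classical
  have h2k : (2 : k) ≠ 0 := by
    intro h0
    exact h6 (by linear_combination (3 : k) * h0)
  have h2M : (2 : M) ≠ 0 := by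
    have hinj : Function.Injective (algebraMap k[X] M) := by
      rw [IsScalarTower.algebraMap_eq k[X] K M]
      exact (algebraMap K M).injective.comp (IsFractionRing.injective k[X] K)
    have e1 : algebraMap k[X] M (C 2) = 2 := by rw [C_ofNat, map_ofNat]
    rw [← e1]
    intro h0
    have := hinj (h0.trans (map_zero _).symm)
    exact h2k (by simpa using this)
  have hsur : ∀ p : Fin m → Equiv.Perm (Fin 3), ∃ τ : M ≃ₐ[K] M, ρ τ = p := by
    intro p
    obtain ⟨τ, hτ, -⟩ := surj h6 hD ht hr ρ hρ 1 1 (fun i h => (hD.prm i).not_isUnit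
      (isUnit_of_dvd_one h)) (by simp) p
    exact ⟨τ, hτ⟩
  have hae : ∀ (σ : M ≃ₐ[K] M) (x : M), σ (aeval x h) = aeval (σ x) h := by
    intro σ x
    exact (aeval_algHom_apply (σ : M →ₐ[K] M) x h).symm
  have hs0 : s ≠ 0 := by
    rintro rfl
    apply h0
    rw [← hs]; simp
  have hpm : ∀ σ : M ≃ₐ[K] M, σ (t i 0) = t i 0 → σ s = s ∨ σ s = -s := by
    intro σ hσ
    exact pm hs σ (by rw [hae, hσ])
  -- an element of the kernel moving `s`
  have hv : ∃ v : M ≃ₐ[K] M, ρ v = 1 ∧ v s ≠ s := by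
    by_contra hcon
    push Not at hcon
    have hdep : ∀ w w' : M ≃ₐ[K] M, ρ w = ρ w' → w s = w' s := by
      intro w w' hw
      have := hcon (w'⁻¹ * w) (by rw [map_mul, map_inv, hw, inv_mul_cancel])
      have h3 : w' ((w'⁻¹ * w) s) = w' s := by rw [this]
      rw [← h3]
      show w s = w' (w'.symm (w s))
      rw [w'.apply_symm_apply]
    obtain ⟨c, hc⟩ := hsur (Pi.mulSingle i cyc)
    have hci : ρ c i = cyc := by rw [hc]; simp
    have hc0 : c (t i 0) = t i 1 := by
      rw [hρ, hci]; congr 1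
    have hc1 : c (t i 1) = t i 2 := by
      rw [hρ, hci]; congr 1
    set n' : M := s * c s * c (c s) with hn'
    have hn2 : n' ^ 2 = algebraMap K M n ^ 2 := by
      rw [← hn, Fin.prod_univ_three, hn', mul_pow, mul_pow, ← map_pow, hs, hae, hc0]
      have : (c (c s)) ^ 2 = aeval (t i 2) h := by
        rw [← map_pow, ← map_pow, hs, hae, hc0, hae, hc1]
      rw [this]
    have hnfix : ∀ g : M ≃ₐ[K] M, g n' = n' := by
      intro g
      rcases sq_eq_sq_iff_eq_or_eq_neg.mp hn2 with h3 | h3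
      · rw [h3, g.commutes]
      · rw [h3, map_neg, g.commutes]
    have hn0 : n' ≠ 0 := by
      rw [hn']
      have h4 : c s ≠ 0 := by
        intro h5
        exact hs0 (c.injective (by rw [h5, map_zero]))
      have h5 : c (c s) ≠ 0 := by
        intro h6
        exact h4 (c.injective (by rw [h6, map_zero]))
      exact mul_ne_zero (mul_ne_zero hs0 h4) h5
    have hstab : ∀ g : M ≃ₐ[K] M, g (t i 0) = t i 0 → g s = s := by
      intro g hg
      rcases hpm g hg with h3 | h3
      · exact h3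
      · exfalso
        have hg0 : ρ g i 0 = 0 := by
          rw [hρ] at hg
          exact ht i hg
        obtain ⟨c', hc'⟩ : ∃ c' : M ≃ₐ[K] M, c' = g * c * g⁻¹ := ⟨_, rfl⟩
        have e1 : g (c s) = - c' s := by
          have : c' (g s) = g (c s) := by
            rw [hc']
            show g (c (g.symm (g s))) = _
            rw [g.symm_apply_apply]
          rw [← this, h3, map_neg]
        have e2 : g (c (c s)) = - c' (c' s) := by
          have : c' (g (c s)) = g (c (c s)) := by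
            rw [hc']
            show g (c (g.symm (g (c s)))) = _
            rw [g.symm_apply_apply]
          rw [← this, e1, map_neg]
        have e3 : ρ c' = Pi.mulSingle i (ρ g i * cyc * (ρ g i)⁻¹) := by
          rw [hc', map_mul, map_mul, map_inv, hc]
          funext j
          by_cases hj : j = i
          · subst hj; simp
          · rw [Pi.mulSingle_eq_of_ne hj]
            simp [Pi.mulSingle_eq_of_ne hj]
        have e4 : g n' = -n' := by
          rcases swap12 _ hg0 with h4 | h4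
          · have e5 : ρ c' = ρ c := by rw [e3, hc, h4]; simp
            have e6 : c' s = c s := hdep _ _ e5
            have e7 : c' (c' s) = c (c s) := by
              have := hdep (c' * c') (c * c) (by rw [map_mul, map_mul, e5])
              exact this
            rw [hn', map_mul, map_mul, h3, e1, e2, e7, e6]
            ring
          · have e5 : ρ c' = ρ (c * c) := by
              rw [e3, map_mul, hc, ← Pi.mulSingle_mul, h4, cycA]
            have e6 : c' s = c (c s) := hdep _ _ e5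
            have e7 : c' (c' s) = c s := by
              have := hdep (c' * c') c (by
                rw [map_mul, e3, hc, ← Pi.mulSingle_mul, h4, cycB])
              exact this
            rw [hn', map_mul, map_mul, h3, e1, e2, e7, e6]
            ring
        rw [hnfix] at e4
        have e8 : (2 : M) * n' = 0 := by linear_combination e4
        rcases mul_eq_zero.mp e8 with e9 | e9
        · exact h2M e9
        · exact hn0 e9
    -- so `s` lies in the cubic field
    have hsmem : s ∈ IntermediateField.adjoin K {t i 0} := by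
      have hfix : IntermediateField.fixedField (IntermediateField.adjoin K {t i 0}).fixingSubgroup =
          IntermediateField.adjoin K {t i 0} := IsGalois.fixedField_fixingSubgroup _
      rw [← hfix]
      intro ⟨τ, hτ⟩
      show τ s = s
      apply hstab
      exact hτ ⟨t i 0, IntermediateField.mem_adjoin_simple_self K (t i 0)⟩
    rw [← IntermediateField.mem_toSubalgebra,
      IntermediateField.adjoin_simple_toSubalgebra_of_isAlgebraic
        (Algebra.IsAlgebraic.isAlgebraic (t i 0)), Algebra.adjoin_singleton_eq_range_aeval] at hsmem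
    obtain ⟨g, hg⟩ := hsmem
    apply hns g
    rw [← hs]
    congr 1
    exact hg.symm
  obtain ⟨v, hv1, hv2⟩ := hv
  have hv0 : v (t i 0) = t i 0 := by rw [hρ, hv1]; rfl
  have hvs : v s = -s := (hpm v hv0).resolve_left hv2
  obtain ⟨σ, hσ⟩ := hsur (fun i' => if i' = i then Equiv.swap 1 2 else cyc)
  have hσi : ρ σ i = Equiv.swap 1 2 := by rw [hσ]; simp
  have hσ0 : σ (t i 0) = t i 0 := by
    rw [hρ, hσi]
    congr 1
  have key : ∀ τ : M ≃ₐ[K] M, ρ τ = ρ σ → τ s = -s →
    ∃ σ : M ≃ₐ[K] M, (∀ i', i' ≠ i → ∀ j, σ (t i' j) ≠ t i' j) ∧ σ (t i 0) = t i 0 ∧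
      σ (t i 1) ≠ t i 1 ∧ σ (t i 2) ≠ t i 2 ∧ σ s = -s := by
    intro τ hτ hτs
    refine ⟨τ, ?_, ?_, ?_, ?_, hτs⟩
    · intro i' hi' j hj
      rw [hρ, hτ, hσ] at hj
      have := ht i' hj
      simp only [if_neg hi'] at this
      exact cyc_ne j this
    · rw [hρ, hτ, ← hρ, hσ0]
    · rw [hρ, hτ, hσi]
      exact (ht i).ne (by decide)
    · rw [hρ, hτ, hσi]
      exact (ht i).ne (by decide)
  rcases hpm σ hσ0 with h3 | h3
  · apply key (σ * v)
    · rw [map_mul, hv1, mul_one]
    · show σ (v s) = -s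
      rw [hvs, map_neg, h3]
  · exact key σ rfl h3

end main2

theorem grp : S_GRP := by
  intro k K M _ _ _ _ _ _ _ _ _ _ _ m a b P t h6 hD ht hr
  obtain ⟨ρ, hρ⟩ := exists_rhos (K := K) ht hr
  refine ⟨claim1 h6 hD ht hr ρ hρ, ?_, ?_⟩
  · intro d s hsq hd hs
    exact claim2 h6 hD ht hr ρ hρ d s hsq hd hs
  · intro i h n s hn h0 hns hs
    exact claim3 h6 hD ht hr ρ hρ i h n s hn h0 hns hs

end Pool.Agent.H467.MR.Grp
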