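import Pool.Agent.H467.MR.Spec2
import Pool.Agent.H467.MR.Cheb
import Pool.Agent.H467.MR.Grp
import Pool.Graph.R_pool_sql_team_seeded_63374d34.N187.PP.GN

/-!
# Primes of mixed type where a given element of the cubic field is a nonsquare

Project MR (helper467), part Stq (helper582).
-/

set_option autoImplicit false
set_option linter.all false

open Polynomial IsDedekindDomain WeierstrassCurve WeierstrassCurve.Affine
open Pool.Agent.N874.PP Pool.Agent.TH115.GD
open scoped Classical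

namespace Pool.Agent.H467.MR.Stq

open Pool.Agent.H467.MR

/-- A positive logarithmic density implies infinitely many primes. -/
theorem infinite_of_logD {k : Type} [Field k] [Finite k] {f : Pr k → ℝ} {c : ℝ} (hc : 0 < c)
    (hf : LogD f c) : {Q : Pr k | f Q ≠ 0}.Infinite := by
  intro hfin
  obtain ⟨C, hC⟩ := hf
  obtain ⟨C', hC'⟩ := Cheb.ld_fin f hfin.toFinset (fun Q hQ => by
    by_contra h
    exact hQ (hfin.mem_toFinset.2 h))
  have hq : (1 : ℝ) ≤ Nat.card k := by exact_mod_cast Nat.card_pos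
  set t : ℝ := (|C| + |C'| + 1) / c with ht
  have ht0 : 0 < t := by positivity
  have he : Real.exp (-t) < 1 := by
    have := Real.exp_lt_exp.2 (show -t < 0 by linarith)
    rwa [Real.exp_zero] at this
  have he0 := Real.exp_pos (-t)
  obtain ⟨u, hu⟩ : ∃ u : ℝ, u = (1 - Real.exp (-t)) / Nat.card k := ⟨_, rfl⟩
  have hqu : (Nat.card k : ℝ) * u = 1 - Real.exp (-t) := by
    rw [hu]; field_simp
  have hu0 : 0 < u := by rw [hu]; apply div_pos <;> linarith
  have h1 := (hC u hu0 (by rw [hqu]; linarith)).2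
  have h2 := (hC' u hu0 (by rw [hqu]; linarith)).2
  have hlog : Real.log (1 / (1 - Nat.card k * u)) = t := by
    rw [hqu, sub_sub_cancel, one_div, ← Real.exp_neg, neg_neg, Real.log_exp]
  rw [hlog] at h1
  rw [zero_mul, sub_zero] at h2
  have hct : c * t = |C| + |C'| + 1 := by rw [ht]; field_simp
  rw [hct] at h1
  have h3 := le_abs_self C
  have h4 := le_abs_self C'
  rw [abs_le] at h1 h2
  linarith [h1.1, h2.2]

/-- The finite Galois extension with all the elements needed. -/
theorem exists_M {K : Type} [Field K] (h6 : (6 : K) ≠ 0) {m : ℕ} (A B : Fin m → K)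
    (hirr : ∀ i, Irreducible (X ^ 3 + C (A i) * X + C (B i) : K[X])) (i : Fin m) {L : Type}
    [Field L] [Algebra K L] {θ : L} (hθ : Rt (A i) (B i) θ) (h3 : Module.finrank K L = 3)
    (p : K[X]) :
    ∃ (M : Type) (_ : Field M) (_ : Algebra K M) (_ : FiniteDimensional K M) (_ : IsGalois K M)
      (t : Fin m → Fin 3 → M) (s : M), (∀ i, Function.Injective (t i)) ∧
      (∀ i j, Rt (A i) (B i) (t i j)) ∧ s ^ 2 = aeval (t i 0) p ∧
      ∏ j, aeval (t i j) p = algebraMap K M (Algebra.norm K (aeval θ p)) := by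
  have hrt := fun i => N187.PP.exists_roots h6 (hirr i)
  choose t₁ t₂ t₃ n12 n13 n23 r1 r2 r3 _ using hrt
  have h2 : (2 : Sep K) ≠ 0 := by
    intro h
    apply h6
    apply (algebraMap K (Sep K)).injective
    rw [map_zero, map_ofNat]
    linear_combination 3 * h
  haveI : NeZero ((2 : ℕ) : Sep K) := ⟨by exact_mod_cast h2⟩
  haveI : IsSepClosed (Sep K) := IsSepClosure.sep_closed K
  obtain ⟨s, hs⟩ := IsSepClosed.exists_pow_nat_eq (aeval (t₁ i) p : Sep K) 2
  haveI : IsGalois K (Sep K) := IsSepClosure.isGalois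
  set S : Set (Sep K) := Set.range t₁ ∪ Set.range t₂ ∪ Set.range t₃ ∪ {s} with hS
  haveI : Finite S := by
    rw [hS]
    exact Set.Finite.to_subtype ((((Set.finite_range t₁).union (Set.finite_range t₂)).union
      (Set.finite_range t₃)).union (Set.finite_singleton s))
  set M := FiniteGaloisIntermediateField.adjoin K S with hM
  have hsub : ∀ x ∈ S, x ∈ M.toIntermediateField := fun x hx =>
    FiniteGaloisIntermediateField.subset_adjoin K S hx
  have m1 : ∀ i, t₁ i ∈ M.toIntermediateField := fun i =>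
    hsub _ (Or.inl (Or.inl (Or.inl ⟨i, rfl⟩)))
  have m2 : ∀ i, t₂ i ∈ M.toIntermediateField := fun i => hsub _ (Or.inl (Or.inl (Or.inr ⟨i, rfl⟩)))
  have m3 : ∀ i, t₃ i ∈ M.toIntermediateField := fun i => hsub _ (Or.inl (Or.inr ⟨i, rfl⟩))
  have ms : s ∈ M.toIntermediateField := hsub _ (Or.inr rfl)
  let v : M.toIntermediateField →ₐ[K] Sep K := M.toIntermediateField.val
  have vinj : Function.Injective v := (v : M.toIntermediateField →+* Sep K).injective
  refine ⟨M.toIntermediateField, inferInstance, inferInstance, M.finiteDimensional, M.isGalois,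
    fun i => ![⟨t₁ i, m1 i⟩, ⟨t₂ i, m2 i⟩, ⟨t₃ i, m3 i⟩], ⟨s, ms⟩, ?_, ?_, ?_, ?_⟩
  · intro i x y h
    have h' := congrArg v h
    fin_cases x <;> fin_cases y <;> first | rfl | (exfalso; revert h'; simp [v]; first | exact n12 i | exact n13 i | exact n23 i | exact (n12 i).symm | exact (n13 i).symm | exact (n23 i).symm)
  · intro i j
    have key : ∀ x : M.toIntermediateField, Rt (A i) (B i) (v x) → Rt (A i) (B i) x := by
      intro x hx
      apply vinj
      have hx' : (v x) ^ 3 + algebraMap K (Sep K) (A i) * v x + algebraMap K (Sep K) (B i) = 0 := hx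
      rw [map_add, map_add, map_mul, map_pow, AlgHom.commutes, AlgHom.commutes, map_zero]
      exact hx'
    fin_cases j
    · exact key _ (r1 i)
    · exact key _ (r2 i)
    · exact key _ (r3 i)
  · apply vinj
    rw [map_pow, ← aeval_algHom_apply]
    exact hs
  · apply vinj
    rw [map_prod, AlgHom.commutes, N187.PP.norm_poly h6 (hirr i) hθ h3 (n12 i) (n13 i) (n23 i) (r1 i)
      (r2 i) (r3 i) p, Fin.prod_univ_three, ← aeval_algHom_apply, ← aeval_algHom_apply,
      ← aeval_algHom_apply]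
    rfl

section frob

variable {k K M : Type} [Field k] [Field K] [Algebra k[X] K] [Field M] [Algebra K M]
  [Algebra k[X] M] [IsScalarTower k[X] K M]

theorem two_ne (h6 : (6 : k) ≠ 0) (Q : Pr k) : (2 : Om Q) ≠ 0 := by
  intro h
  have h1 : algebraMap k[X] (Om Q) 2 = 0 := by rw [map_ofNat]; exact h
  have h2 := Cheb.dvd_of_eq_zero Q 2 h1
  have h3 : IsUnit (2 : k[X]) := by
    have : (2 : k) ≠ 0 := by
      intro h'
      apply h6
      linear_combination 3 * h'
    have h4 : (2 : k[X]) = C 2 := (map_ofNat C 2).symm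
    rw [h4]
    exact isUnit_C.2 this.isUnit
  exact Q.2.2.not_isUnit (isUnit_of_dvd_unit h2 h3)

theorem fixed_of_res [Finite k] {Q : Pr k} {φ : XX M Q} {τ : M ≃ₐ[K] M} (hF : IsFr φ τ)
    {x y : integralClosure k[X] M} (hy : (y : M) = τ (x : M))
    (hx : ∃ c : k[X], φ x = algebraMap k[X] (Om Q) c) : φ y = φ x := by
  obtain ⟨c, hc⟩ := hx
  haveI := Cheb.fin_Kp Q
  letI := Fintype.ofFinite (Kp Q)
  rw [hF x y hy, hc, IsScalarTower.algebraMap_apply k[X] (Kp Q) (Om Q), ← map_pow,
    Nat.card_eq_fintype_card, FiniteField.pow_card]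

theorem res_of_fixed [Finite k] {Q : Pr k} {φ : XX M Q} {τ : M ≃ₐ[K] M} (hF : IsFr φ τ)
    {x : integralClosure k[X] M} (hx : τ (x : M) = x) :
    ∃ c : k[X], φ x = algebraMap k[X] (Om Q) c := by
  haveI := Cheb.fin_Kp Q
  obtain ⟨z, hz⟩ := Cheb.frob_fixed (κ := Kp Q) (φ x) (hF x x hx.symm).symm
  obtain ⟨c, hc⟩ := Cheb.surj Q z
  exact ⟨c, by rw [IsScalarTower.algebraMap_apply k[X] (Kp Q) (Om Q), hc, hz]⟩

variable {a b : k[X]} {t : Fin 3 → M}

theorem dist {Q : Pr k} (hQ : ¬ Q.1 ∣ dsc a b) (φ : XX M Q) (ht : Function.Injective t)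
    (hr : ∀ j, t j ^ 3 + algebraMap k[X] M a * t j + algebraMap k[X] M b = 0)
    (x : Fin 3 → integralClosure k[X] M) (hx : ∀ j, (x j : M) = t j) :
    Function.Injective fun j => φ (x j) := by
  have h1 := Grp.disc_sq (ht.ne (by decide : (0 : Fin 3) ≠ 1)) (ht.ne (by decide : (0 : Fin 3) ≠ 2))
    (ht.ne (by decide : (1 : Fin 3) ≠ 2)) (hr 0) (hr 1) (hr 2)
  have h2 : ((x 0 - x 1) * (x 0 - x 2) * (x 1 - x 2)) ^ 2 =
      -algebraMap k[X] (integralClosure k[X] M) (dsc a b) := by
    apply Subtype.ext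
    push_cast
    rw [hx, hx, hx, h1, dsc, map_add, map_mul, map_mul, map_pow, map_pow, map_ofNat, map_ofNat]
  have h3 := congrArg φ h2
  rw [map_pow, map_mul, map_mul, map_sub, map_sub, map_sub, map_neg, AlgHom.commutes] at h3
  have h4 : algebraMap k[X] (Om Q) (dsc a b) ≠ 0 := fun h => hQ (Cheb.dvd_of_eq_zero Q _ h)
  have h5 : (φ (x 0) - φ (x 1)) * (φ (x 0) - φ (x 2)) * (φ (x 1) - φ (x 2)) ≠ 0 := by
    intro h
    rw [h] at h3
    apply h4
    linear_combination h3
  have n01 : φ (x 0) ≠ φ (x 1) := fun h => h5 (by rw [h]; ring)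
  have n02 : φ (x 0) ≠ φ (x 2) := fun h => h5 (by rw [h]; ring)
  have n12 : φ (x 1) ≠ φ (x 2) := fun h => h5 (by rw [h]; ring)
  intro j j' h
  fin_cases j <;> fin_cases j' <;> first | rfl | (exact absurd h n01) | (exact absurd h n02) | (exact absurd h n12) | (exact absurd h.symm n01) | (exact absurd h.symm n02) | (exact absurd h.symm n12)

/-- A root whose reduction is rational is fixed by Frobenius. -/
theorem tau_fix [Finite k] {Q : Pr k} (hQ : ¬ Q.1 ∣ dsc a b) {φ : XX M Q} {τ : M ≃ₐ[K] M}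
    (hF : IsFr φ τ) (ht : Function.Injective t)
    (hr : ∀ j, t j ^ 3 + algebraMap k[X] M a * t j + algebraMap k[X] M b = 0)
    (x : Fin 3 → integralClosure k[X] M) (hx : ∀ j, (x j : M) = t j) (j : Fin 3)
    (hc : ∃ c : k[X], φ (x j) = algebraMap k[X] (Om Q) c) : τ (t j) = t j := by
  have hw : (τ (t j)) ^ 3 + algebraMap k[X] M a * τ (t j) + algebraMap k[X] M b = 0 := by
    have := congrArg τ (hr j)
    rw [map_add, map_add, map_mul, map_pow, map_zero,
      IsScalarTower.algebraMap_apply k[X] K M, IsScalarTower.algebraMap_apply k[X] K M,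
      AlgEquiv.commutes, AlgEquiv.commutes] at this
    rw [IsScalarTower.algebraMap_apply k[X] K M, IsScalarTower.algebraMap_apply k[X] K M]
    exact this
  have h1 : ∃ j', τ (t j) = t j' := by
    rcases Grp.root_eq (ht.ne (by decide : (0 : Fin 3) ≠ 1)) (ht.ne (by decide : (0 : Fin 3) ≠ 2))
      (ht.ne (by decide : (1 : Fin 3) ≠ 2)) (hr 0) (hr 1) (hr 2) hw with h | h | h
    · exact ⟨0, h⟩
    · exact ⟨1, h⟩
    · exact ⟨2, h⟩
  obtain ⟨j', hj'⟩ := h1
  have h2 : φ (x j') = φ (x j) := fixed_of_res hF (by rw [hx, hx, hj']) hc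
  have h3 : j' = j := dist hQ φ ht hr x hx h2
  rw [hj', h3]

end frob

/-- The theorem of Chebotarev for the primes of mixed type. -/
theorem stq (hC : S_CHEB) (hG : S_GRP) : S_STQ := by
  intro k K _ _ _ _ _ m a b P h6 hD i L _ _ _ _ θ hθ h hne hsq hnsq N hN
  have hinjK : Function.Injective (algebraMap k[X] K) := IsFractionRing.injective k[X] K
  have h6K : (6 : K) ≠ 0 := by
    intro h'
    have h1 : algebraMap k[X] K (C 6) = 0 := by
      rw [show (C (6 : k) : k[X]) = 6 from map_ofNat C 6, map_ofNat]; exact h'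
    rw [map_eq_zero_iff _ hinjK, C_eq_zero] at h1
    exact h6 h1
  set p : K[X] := h.map (algebraMap k[X] K) with hp
  have hpev : ∀ (E : Type) [Field E] [Algebra K E] [Algebra k[X] E] [IsScalarTower k[X] K E] (x : E),
      eval₂ (algebraMap k[X] E) x h = aeval x p := by
    intro E _ _ _ _ x
    rw [hp, aeval_def, eval₂_map, ← IsScalarTower.algebraMap_eq]
  rw [hpev] at hne hsq hnsq
  obtain ⟨n, hn⟩ := hsq
  have hθ' : Rt (algebraMap k[X] K (a i)) (algebraMap k[X] K (b i)) θ := by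
    have := hθ.root
    rw [IsScalarTower.algebraMap_apply k[X] K L, IsScalarTower.algebraMap_apply k[X] K L] at this
    exact this
  obtain ⟨M, _, _, _, _, t, s, tinj, trt, hs, hprod⟩ := exists_M h6K
    (fun i => algebraMap k[X] K (a i)) (fun i => algebraMap k[X] K (b i)) hD.irr i hθ' hθ.rank p
  letI : Algebra k[X] M := ((algebraMap K M).comp (algebraMap k[X] K)).toAlgebra
  haveI : IsScalarTower k[X] K M := IsScalarTower.of_algebraMap_eq' rfl
  have trt' : ∀ i j, t i j ^ 3 + algebraMap k[X] M (a i) * t i j + algebraMap k[X] M (b i) = 0 := trt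
  -- the minimal polynomial
  have hmin : ∀ q : K[X], aeval (t i 0) q = 0 → aeval θ q = 0 := by
    intro q hq
    have h1 := minpoly.dvd K (t i 0) hq
    rw [N187.PP.minpoly_eq (hD.irr i) (trt i 0), ← N187.PP.minpoly_eq (hD.irr i) hθ'] at h1
    obtain ⟨r, rfl⟩ := h1
    rw [map_mul, minpoly.aeval, zero_mul]
  have hne' : aeval (t i 0) p ≠ 0 := fun h' => hne (hmin p h')
  have hnsq' : ∀ g : K[X], aeval (t i 0) p ≠ aeval (t i 0) g ^ 2 := by
    intro g hg
    have h1 := hmin (p - g ^ 2) (by rw [map_sub, map_pow, hg, sub_self])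
    rw [map_sub, map_pow, sub_eq_zero] at h1
    exact hnsq ⟨aeval θ g, by rw [h1, sq]⟩
  have hprod' : ∏ j, aeval (t i j) p = algebraMap K M n ^ 2 := by
    rw [hprod, hn, map_mul, sq]
  obtain ⟨σ, hσ1, hσ0, hσ2, hσ3, hσs⟩ := (hG k K M m a b P t h6 hD tinj trt').2.2 i p n s hprod' hne'
    hnsq' hs
  have hs0 : s ≠ 0 := by
    rintro rfl
    apply hne'
    rw [← hs]; simp
  have h2M : (2 : M) ≠ 0 := by
    intro h'
    apply h6K
    apply (algebraMap K M).injective
    rw [map_zero, map_ofNat]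
    linear_combination 3 * h'
  -- elements generating the same subgroup have the same fixed points
  have hfix : ∀ τ : M ≃ₐ[K] M, Subgroup.zpowers σ = Subgroup.zpowers τ → ∀ x : M, τ x = x ↔ σ x = x := by
    have key : ∀ τ τ' : M ≃ₐ[K] M, τ' ∈ Subgroup.zpowers τ → ∀ x : M, τ x = x → τ' x = x := by
      intro τ τ' h x hx
      have hsub : Subgroup.zpowers τ ≤ MulAction.stabilizer (M ≃ₐ[K] M) x := by
        rw [Subgroup.zpowers_le]
        exact hx
      exact hsub h
    intro τ hτ x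
    exact ⟨key τ σ (hτ ▸ Subgroup.mem_zpowers σ) x, key σ τ (hτ.symm ▸ Subgroup.mem_zpowers τ) x⟩
  obtain ⟨hTor, hLog⟩ := hC k K M
  have hLog := hLog {τ | Subgroup.zpowers σ = Subgroup.zpowers τ} (fun τ τ' h1 h2 => h2.trans h1)
  have hcard : (0 : ℝ) < Nat.card {τ : M ≃ₐ[K] M | Subgroup.zpowers σ = Subgroup.zpowers τ} := by
    have : Nonempty {τ : M ≃ₐ[K] M | Subgroup.zpowers σ = Subgroup.zpowers τ} := ⟨⟨σ, rfl⟩⟩
    exact_mod_cast Nat.card_pos
  have hinf := infinite_of_logD hcard hLog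
  -- integral elements
  have hint : ∀ i j, IsIntegral k[X] (t i j) := by
    intro i j
    refine ⟨X ^ 3 + C (a i) * X + C (b i), by monicity!, ?_⟩
    simp only [eval₂_add, eval₂_mul, eval₂_pow, eval₂_X, eval₂_C]
    exact trt' i j
  have hsint : IsIntegral k[X] s := by
    apply IsIntegral.of_pow (n := 2) (by norm_num)
    rw [hs, ← hpev M (t i 0)]
    have h1 : aeval (⟨t i 0, hint i 0⟩ : integralClosure k[X] M) h ∈ (⊤ : Subalgebra k[X] _) :=
      trivial
    have h2 : ((aeval (⟨t i 0, hint i 0⟩ : integralClosure k[X] M) h : integralClosure k[X] M) : M) =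
        eval₂ (algebraMap k[X] M) (t i 0) h := by
      rw [← aeval_def]
      exact (aeval_algHom_apply (integralClosure k[X] M).val ⟨t i 0, hint i 0⟩ h).symm
    rw [← h2]
    exact (aeval (⟨t i 0, hint i 0⟩ : integralClosure k[X] M) h).2
  set x : Fin m → Fin 3 → integralClosure k[X] M := fun i j => ⟨t i j, hint i j⟩ with hx
  set y : integralClosure k[X] M := ⟨s, hsint⟩ with hy
  have hy2 : y ^ 2 = aeval (x i 0) h := by
    apply Subtype.ext
    have h2 : ((aeval (x i 0) h : integralClosure k[X] M) : M) =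
        eval₂ (algebraMap k[X] M) (t i 0) h := by
      rw [← aeval_def]
      exact (aeval_algHom_apply (integralClosure k[X] M).val ⟨t i 0, hint i 0⟩ h).symm
    rw [h2, hpev M (t i 0), ← hs]
    rfl
  have hy0 : y ≠ 0 := fun h' => hs0 (congrArg (fun z : integralClosure k[X] M => (z : M)) h')
  obtain ⟨c, hc0, hcd⟩ : ∃ c : k[X], c ≠ 0 ∧ y ∣ algebraMap k[X] (integralClosure k[X] M) c := by
    have h1 := Ideal.comap_ne_bot_of_integral_mem (R := k[X]) hy0
      (Ideal.mem_span_singleton_self y) (Algebra.IsIntegral.isIntegral _)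
    obtain ⟨c, hc, hc0⟩ := Submodule.exists_mem_ne_zero_of_ne_bot h1
    exact ⟨c, hc0, Ideal.mem_span_singleton.mp hc⟩
  have hdsc : ∀ j, dsc (a j) (b j) ≠ 0 := by
    intro j h'
    obtain ⟨n', c', h1, h2⟩ := hD.odd j
    rw [h'] at h1
    have h3 := mul_eq_zero.1 h1.symm
    rcases h3 with h3 | h3
    · exact (hD.prm j).ne_zero (pow_eq_zero_iff (by omega) |>.1 h3)
    · exact h2 (h3 ▸ dvd_zero _)
  have hbad : {Q : Pr k | Q.1 ∣ N * c * ∏ j, dsc (a j) (b j)}.Finite :=
    Cheb.fin_div _ (mul_ne_zero (mul_ne_zero hN hc0) (Finset.prod_ne_zero_iff.2 fun j _ => hdsc j))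
  obtain ⟨Q, hQ, hQb⟩ := (hinf.diff hbad).nonempty
  have hQ' : Nat.card {φ : XX M Q // ∃ τ ∈ {τ : M ≃ₐ[K] M | Subgroup.zpowers σ = Subgroup.zpowers τ},
      IsFr φ τ} ≠ 0 := by
    intro h'
    apply hQ
    show ((Nat.card {φ : XX M Q // ∃ τ ∈ {τ : M ≃ₐ[K] M | Subgroup.zpowers σ = Subgroup.zpowers τ},
      IsFr φ τ} : ℕ) : ℝ) = 0
    rw [h', Nat.cast_zero]
  obtain ⟨⟨φ, τ, hτ, hF⟩⟩ := (Nat.card_ne_zero.1 hQ').1
  have hτ' : Subgroup.zpowers σ = Subgroup.zpowers τ := hτ
  have hf := hfix τ hτ'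
  have hQN : ¬ Q.1 ∣ N := fun h' => hQb ((h'.mul_right c).mul_right _)
  have hQc : ¬ Q.1 ∣ c := fun h' => hQb ((h'.mul_left N).mul_right _)
  have hQd : ∀ j, ¬ Q.1 ∣ dsc (a j) (b j) := fun j h' =>
    hQb ((h'.trans (Finset.dvd_prod_of_mem (fun j => dsc (a j) (b j)) (Finset.mem_univ j))).mul_left _)
  have hφy : φ y ≠ 0 := by
    intro h'
    obtain ⟨w, hw⟩ := hcd
    have h1 := congrArg φ hw
    rw [AlgHom.commutes, map_mul, h', zero_mul] at h1
    exact hQc (Cheb.dvd_of_eq_zero Q _ h1)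
  have h2O := two_ne h6 Q
  have hτs : τ s = -s := by
    have h1 : τ s = s ∨ τ s = -s := Grp.pm hs τ (by
      have h5 := aeval_algHom_apply (τ : M →ₐ[K] M) (t i 0) p
      simp only [AlgEquiv.coe_algHom] at h5
      rw [← h5, (hf _).2 hσ0])
    refine h1.resolve_left fun h' => ?_
    have h2 := (hf s).1 h'
    rw [hσs] at h2
    apply hs0
    have : (2 : M) * s = 0 := by linear_combination -h2
    exact (mul_eq_zero.1 this).resolve_left h2M
  have hτ0 : τ (t i 0) = t i 0 := (hf _).2 hσ0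
  obtain ⟨R, hR⟩ := res_of_fixed (x := x i 0) hF hτ0
  have hroot : ∀ i' j, φ (x i' j) ^ 3 + algebraMap k[X] (Om Q) (a i') * φ (x i' j) +
      algebraMap k[X] (Om Q) (b i') = 0 := by
    intro i' j
    have h1 : x i' j ^ 3 + algebraMap k[X] _ (a i') * x i' j + algebraMap k[X] _ (b i') = 0 :=
      Subtype.ext (trt' i' j)
    have h2 := congrArg φ h1
    rw [map_add, map_add, map_mul, map_pow, AlgHom.commutes, AlgHom.commutes, map_zero] at h2
    exact h2
  have hdist := fun i' => dist (hQd i') φ (tinj i') (trt' i') (x i') (fun _ => rfl)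
  refine ⟨Q, R, hQN, hQd i, ?_, ?_, ?_, ?_⟩
  · apply Cheb.dvd_of_eq_zero
    rw [map_add, map_add, map_mul, map_pow, ← hR]
    exact hroot i 0
  · rintro z hz
    have e1 : algebraMap k[X] (Om Q) (z ^ 2 + (3 * R ^ 2 + 4 * a i)) = 0 := by
      obtain ⟨w, hw⟩ := hz
      have h0 : algebraMap k[X] (Om Q) Q.1 = 0 := by
        rw [IsScalarTower.algebraMap_apply k[X] (Kp Q) (Om Q)]
        have : algebraMap k[X] (Kp Q) Q.1 = 0 :=
          Ideal.Quotient.eq_zero_iff_mem.2 (Ideal.mem_span_singleton_self Q.1)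
        rw [this, map_zero]
      rw [hw, map_mul, h0, zero_mul]
    simp only [map_add, map_mul, map_pow, map_ofNat] at e1
    have v := Grp.vieta ((hdist i).ne (by decide : (0 : Fin 3) ≠ 1))
      ((hdist i).ne (by decide : (0 : Fin 3) ≠ 2)) ((hdist i).ne (by decide : (1 : Fin 3) ≠ 2))
      (hroot i 0) (hroot i 1) (hroot i 2)
    rw [hR] at v
    have e2 : (2 * φ (x i 1) + algebraMap k[X] (Om Q) R - algebraMap k[X] (Om Q) z) *
        (2 * φ (x i 1) + algebraMap k[X] (Om Q) R + algebraMap k[X] (Om Q) z) = 0 := by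
      linear_combination (-1 : Om Q) * e1 + 4 * v.2.1
    have h2k : ∃ w : k, (2 : k) * w = 1 := by
      have : (2 : k) ≠ 0 := by
        intro h'
        apply h6
        linear_combination 3 * h'
      exact ⟨2⁻¹, mul_inv_cancel₀ this⟩
    obtain ⟨w, hw⟩ := h2k
    have hw' : (2 : Om Q) * algebraMap k[X] (Om Q) (C w) = 1 := by
      have : algebraMap k[X] (Om Q) (C (2 * w)) = 1 := by rw [hw, C_1, map_one]
      rw [C_mul, map_mul, show (C (2 : k) : k[X]) = 2 from map_ofNat C 2, map_ofNat] at this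
      exact this
    have hex : ∃ c : k[X], φ (x i 1) = algebraMap k[X] (Om Q) c := by
      rcases mul_eq_zero.1 e2 with e | e
      · refine ⟨C w * (z - R), ?_⟩
        rw [map_mul, map_sub]
        linear_combination algebraMap k[X] (Om Q) (C w) * e - φ (x i 1) * hw'
      · refine ⟨C w * (-z - R), ?_⟩
        rw [map_mul, map_sub, map_neg]
        linear_combination algebraMap k[X] (Om Q) (C w) * e - φ (x i 1) * hw'
    exact hσ2 ((hf _).1 (tau_fix (hQd i) hF (tinj i) (trt' i) (x i) (fun _ => rfl) 1 hex))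
  · rintro j hj c' hc'
    have e1 : algebraMap k[X] (Om Q) (c' ^ 3 + a j * c' + b j) = 0 := by
      obtain ⟨w, hw⟩ := hc'
      have h0 : algebraMap k[X] (Om Q) Q.1 = 0 := by
        rw [IsScalarTower.algebraMap_apply k[X] (Kp Q) (Om Q)]
        have : algebraMap k[X] (Kp Q) Q.1 = 0 :=
          Ideal.Quotient.eq_zero_iff_mem.2 (Ideal.mem_span_singleton_self Q.1)
        rw [this, map_zero]
      rw [hw, map_mul, h0, zero_mul]
    rw [map_add, map_add, map_mul, map_pow] at e1
    have e2 : ∃ l, φ (x j l) = algebraMap k[X] (Om Q) c' := by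
      rcases Grp.root_eq ((hdist j).ne (by decide : (0 : Fin 3) ≠ 1))
        ((hdist j).ne (by decide : (0 : Fin 3) ≠ 2)) ((hdist j).ne (by decide : (1 : Fin 3) ≠ 2))
        (hroot j 0) (hroot j 1) (hroot j 2) e1 with h' | h' | h'
      · exact ⟨0, h'.symm⟩
      · exact ⟨1, h'.symm⟩
      · exact ⟨2, h'.symm⟩
    obtain ⟨l, hl⟩ := e2
    exact hσ1 j hj l ((hf _).1 (tau_fix (hQd j) hF (tinj j) (trt' j) (x j) (fun _ => rfl) l ⟨c', hl⟩))
  · rintro z hz
    have e1 : algebraMap k[X] (Om Q) (z ^ 2 - h.eval R) = 0 := by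
      obtain ⟨w, hw⟩ := hz
      have h0 : algebraMap k[X] (Om Q) Q.1 = 0 := by
        rw [IsScalarTower.algebraMap_apply k[X] (Kp Q) (Om Q)]
        have : algebraMap k[X] (Kp Q) Q.1 = 0 :=
          Ideal.Quotient.eq_zero_iff_mem.2 (Ideal.mem_span_singleton_self Q.1)
        rw [this, map_zero]
      rw [hw, map_mul, h0, zero_mul]
    have e2 : φ y ^ 2 = algebraMap k[X] (Om Q) (h.eval R) := by
      rw [← map_pow, hy2, ← aeval_algHom_apply, hR, aeval_algebraMap_apply, coe_aeval_eq_eval]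
    rw [map_sub, map_pow, ← e2] at e1
    have e3 : (φ y - algebraMap k[X] (Om Q) z) * (φ y + algebraMap k[X] (Om Q) z) = 0 := by
      linear_combination -e1
    have hex : ∃ c : k[X], φ y = algebraMap k[X] (Om Q) c := by
      rcases mul_eq_zero.1 e3 with e | e
      · exact ⟨z, by linear_combination e⟩
      · exact ⟨-z, by rw [map_neg]; linear_combination e⟩
    have e4 : φ (-y) = φ y := fixed_of_res hF (by
      show -s = τ s
      rw [hτs]) hex
    rw [map_neg] at e4
    apply hφy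
    have : (2 : Om Q) * φ y = 0 := by linear_combination -e4
    exact (mul_eq_zero.1 this).resolve_left h2O

end Pool.Agent.H467.MR.Stq
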