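import Pool.Agent.H467.MR.Spec2

/-!
# From a count of products of primes to a count of polynomials (S_ASM)

Project MR (owner helper467); this part by helper580.
-/

set_option autoImplicit false
set_option linter.all false

open Polynomial IsDedekindDomain WeierstrassCurve WeierstrassCurve.Affine
open Pool.Agent.N874.PP Pool.Agent.TH115.GD
open scoped Classical

namespace Pool.Agent.H467.MR.Asm

theorem fin_deg (k : Type) [Field k] [Finite k] (n : ℕ) : {D : k[X] | D.natDegree ≤ n}.Finite := by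
  have hsub : {D : k[X] | D.natDegree ≤ n} ⊆ (degreeLT k (n + 1) : Set k[X]) := by
    intro D hD
    simp only [Set.mem_setOf_eq] at hD
    rw [SetLike.mem_coe, mem_degreeLT]
    by_cases h0 : D = 0
    · rw [h0, degree_zero]; exact WithBot.bot_lt_coe _
    · rw [degree_eq_natDegree h0]
      exact_mod_cast Nat.lt_succ_of_le hD
  have hfin : Finite (degreeLT k (n + 1)) := Finite.of_equiv _ (degreeLTEquiv k (n + 1)).symm.toEquiv
  exact (Set.toFinite (degreeLT k (n + 1) : Set k[X])).subset hsub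

theorem mem_of_dvd {k : Type} [Field k] {A : Finset (Pr k)} {Q : Pr k}
    (h : Q.1 ∣ ∏ R ∈ A, R.1) : Q ∈ A := by
  obtain ⟨R, hR, hd⟩ := (Prime.dvd_finset_prod_iff Q.2.2.prime _).1 h
  have hass : Associated Q.1 R.1 := (Q.2.2.associated_of_dvd R.2.2 hd)
  have : Q.1 = R.1 := eq_of_monic_of_associated Q.2.1 R.2.1 hass
  have hQR : Q = R := Subtype.ext this
  rw [hQR]; exact hR

theorem prod_inj {k : Type} [Field k] {A B : Finset (Pr k)}
    (h : ∏ R ∈ A, R.1 = ∏ R ∈ B, R.1) : A = B := by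
  ext Q
  constructor
  · intro hQ
    exact mem_of_dvd (h ▸ Finset.dvd_prod_of_mem (fun R : Pr k => R.1) hQ)
  · intro hQ
    exact mem_of_dvd (h.symm ▸ Finset.dvd_prod_of_mem (fun R : Pr k => R.1) hQ)

theorem asm : S_ASM := by
  intro k _ _ T D₀ G Cd δ c n₀ hδ hc hD₀ H hG
  set q : ℝ := (Nat.card k : ℝ) with hq
  have hq0 : 0 < q := by
    have : 0 < Nat.card k := Nat.card_pos
    rw [hq]
    exact Nat.cast_pos.2 this
  set d0 := D₀.natDegree with hd0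
  refine ⟨c * (q ^ d0)⁻¹ * (1 / 2 : ℝ) ^ δ, by positivity, max (n₀ + d0) (2 * d0), ?_⟩
  intro n hn
  have hn1 : n₀ + d0 ≤ n := (le_max_left _ _).trans hn
  have hn2 : 2 * d0 ≤ n := (le_max_right _ _).trans hn
  have hfin : {D : k[X] | D.Monic ∧ D.natDegree ≤ n ∧ G D}.Finite :=
    (fin_deg k n).subset (fun D hD => hD.2.1)
  refine ⟨hfin, ?_⟩
  obtain ⟨hfA, hle⟩ := H (n - d0) (by omega)
  rw [finsum_mem_eq_finite_toFinset_sum _ hfA] at hle
  rw [finsum_mem_eq_finite_toFinset_sum _ hfin]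
  have hmon : ∀ A : Finset (Pr k), (∏ Q ∈ A, Q.1).Monic := fun A =>
    monic_prod_of_monic A (fun Q : Pr k => Q.1) (fun Q _ => Q.2.1)
  have hdeg : ∀ A : Finset (Pr k), (D₀ * ∏ Q ∈ A, Q.1).natDegree =
      d0 + ∑ Q ∈ A, Q.1.natDegree := by
    intro A
    rw [hD₀.natDegree_mul (hmon A), natDegree_prod_of_monic A (fun Q : Pr k => Q.1)
      (fun Q _ => Q.2.1)]
  have hinj : Set.InjOn (fun A : Finset (Pr k) => D₀ * ∏ Q ∈ A, Q.1) (hfA.toFinset : Set _) := by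
    intro A _ B _ hAB
    exact prod_inj (mul_left_cancel₀ hD₀.ne_zero hAB)
  have hsub : hfA.toFinset.image (fun A : Finset (Pr k) => D₀ * ∏ Q ∈ A, Q.1) ⊆
      hfin.toFinset := by
    intro D hD
    rw [Finset.mem_image] at hD
    obtain ⟨A, hA, rfl⟩ := hD
    rw [Set.Finite.mem_toFinset] at hA ⊢
    refine ⟨hD₀.mul (hmon A), ?_, hG A hA.1 hA.2.1⟩
    rw [hdeg]
    have := hA.2.2
    omega
  have h1 : ∑ A ∈ hfA.toFinset, (q ^ (d0 + ∑ Q ∈ A, Q.1.natDegree))⁻¹ ≤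
      ∑ D ∈ hfin.toFinset, (q ^ D.natDegree)⁻¹ := by
    calc ∑ A ∈ hfA.toFinset, (q ^ (d0 + ∑ Q ∈ A, Q.1.natDegree))⁻¹
        = ∑ A ∈ hfA.toFinset, (q ^ (D₀ * ∏ Q ∈ A, Q.1).natDegree)⁻¹ := by
          apply Finset.sum_congr rfl
          intro A _
          rw [hdeg]
      _ = ∑ D ∈ hfA.toFinset.image (fun A : Finset (Pr k) => D₀ * ∏ Q ∈ A, Q.1),
            (q ^ D.natDegree)⁻¹ := by
          rw [Finset.sum_image hinj]
      _ ≤ _ := Finset.sum_le_sum_of_subset_of_nonneg hsub (fun D _ _ => by positivity)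
  have h2 : ∑ A ∈ hfA.toFinset, (q ^ (d0 + ∑ Q ∈ A, Q.1.natDegree))⁻¹ =
      (q ^ d0)⁻¹ * ∑ A ∈ hfA.toFinset, (q ^ (∑ Q ∈ A, Q.1.natDegree))⁻¹ := by
    rw [Finset.mul_sum]
    apply Finset.sum_congr rfl
    intro A _
    rw [pow_add, mul_inv]
  have h3 : ((n : ℝ) / 2) ^ δ ≤ ((n - d0 : ℕ) : ℝ) ^ δ := by
    apply Real.rpow_le_rpow (by positivity) _ hδ.le
    have : (n : ℝ) ≤ 2 * ((n - d0 : ℕ) : ℝ) := by
      have : n ≤ 2 * (n - d0) := by omega
      exact_mod_cast this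
    linarith
  have h4 : ((n : ℝ) / 2) ^ δ = (n : ℝ) ^ δ * (1 / 2 : ℝ) ^ δ := by
    rw [← Real.mul_rpow (by positivity) (by norm_num)]
    congr 1
    ring
  calc c * (q ^ d0)⁻¹ * (1 / 2 : ℝ) ^ δ * (n : ℝ) ^ δ
      = (q ^ d0)⁻¹ * (c * ((n : ℝ) / 2) ^ δ) := by rw [h4]; ring
    _ ≤ (q ^ d0)⁻¹ * (c * ((n - d0 : ℕ) : ℝ) ^ δ) := by
        apply mul_le_mul_of_nonneg_left _ (by positivity)
        exact mul_le_mul_of_nonneg_left h3 hc.le
    _ ≤ (q ^ d0)⁻¹ * ∑ A ∈ hfA.toFinset, (q ^ (∑ Q ∈ A, Q.1.natDegree))⁻¹ :=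
        mul_le_mul_of_nonneg_left hle (by positivity)
    _ = ∑ A ∈ hfA.toFinset, (q ^ (d0 + ∑ Q ∈ A, Q.1.natDegree))⁻¹ := h2.symm
    _ ≤ _ := h1

end Pool.Agent.H467.MR.Asm
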