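import Pool.Agent.H467.MR.Spec

/-!
# Counting squarefree products of primes in a set of positive density
-/

set_option autoImplicit false
set_option linter.all false

open Polynomial Filter
open Pool.Agent.H467.MR
open scoped Classical

namespace Pool.Agent.H467.MR.Cnt

variable {k : Type} [Field k]

/-- total degree -/
noncomputable def G (A : Finset (Pr k)) : ℕ := ∑ Q ∈ A, Q.1.natDegree

/-- the indicator series -/
noncomputable def f (T : Set (Pr k)) (u : ℝ) (Q : Pr k) : ℝ :=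
  (if Q ∈ T then (1:ℝ) else 0) * u ^ Q.1.natDegree

lemma f_nonneg (T : Set (Pr k)) {u : ℝ} (hu : 0 ≤ u) (Q : Pr k) : 0 ≤ f T u Q := by
  unfold f
  positivity

lemma f_mem {T : Set (Pr k)} {u : ℝ} {Q : Pr k} (h : Q ∈ T) : f T u Q = u ^ Q.1.natDegree := by
  simp [f, h]

lemma G_mem {A : Finset (Pr k)} {Q : Pr k} (h : Q ∈ A) : Q.1.natDegree ≤ G A :=
  Finset.single_le_sum (f := fun Q : Pr k => Q.1.natDegree) (fun _ _ => Nat.zero_le _) h

lemma fin_deg {T : Set (Pr k)} {u : ℝ} (hu : 0 < u) (hu1 : u ≤ 1) (hs : Summable (f T u)) (n : ℕ) :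
    {Q : Pr k | Q ∈ T ∧ Q.1.natDegree ≤ n}.Finite := by
  have h := hs.tendsto_cofinite_zero.eventually (gt_mem_nhds (show (0:ℝ) < u ^ n by positivity))
  rw [Filter.eventually_cofinite] at h
  refine h.subset ?_
  rintro Q ⟨h1, h2⟩
  simp only [Set.mem_setOf_eq, not_lt]
  rw [f_mem h1]
  exact pow_le_pow_of_le_one hu.le hu1 h2

lemma prod_eq (S : Finset (Pr k)) (u : ℝ) :
    ∏ Q ∈ S, (1 + u ^ Q.1.natDegree) = ∑ A ∈ S.powerset, u ^ G A := by
  rw [Finset.prod_one_add]
  refine Finset.sum_congr rfl fun A _ => ?_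
  rw [G, Finset.prod_pow_eq_pow_sum]

lemma one_add_ge {x : ℝ} (hx : 0 ≤ x) : Real.exp (x - x ^ 2 / 2) ≤ 1 + x := by
  have h := Real.le_log_one_add_of_nonneg hx
  have h2 : x - x ^ 2 / 2 ≤ 2 * x / (x + 2) := by
    rw [le_div_iff₀ (by linarith)]
    nlinarith [pow_nonneg hx 3]
  rw [← Real.le_log_iff_exp_le (by linarith)]
  linarith

/-- the weights of all finite subsets of `T` of total degree at most `n` -/
noncomputable def W (q : ℝ) (S : Finset (Pr k)) (n : ℕ) : ℝ :=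
  ∑ A ∈ S.powerset.filter (fun A => G A ≤ n), (q ^ G A)⁻¹

lemma split {q : ℝ} (hq : 1 ≤ q) {S S' : Finset (Pr k)} {n : ℕ} {l : ℝ} (hl : 0 ≤ l)
    (hS : ∀ Q ∈ S, Q.1.natDegree ≤ n → Q ∈ S') :
    ∏ Q ∈ S, (1 + (Real.exp (-l) / q) ^ Q.1.natDegree) ≤ W q S' n +
      Real.exp (-(l * n) / 2) * ∏ Q ∈ S, (1 + (Real.exp (-l / 2) / q) ^ Q.1.natDegree) := by
  rw [prod_eq, prod_eq, ← Finset.sum_filter_add_sum_filter_not S.powerset (fun A => G A ≤ n)]
  have e1 : ∀ (t : ℝ) (m : ℕ), (Real.exp t / q) ^ m = Real.exp (t * m) * (q ^ m)⁻¹ := by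
    intro t m
    rw [div_pow, ← Real.exp_nat_mul, div_eq_mul_inv, mul_comm t]
  refine add_le_add ?_ ?_
  · unfold W
    refine (Finset.sum_le_sum (g := fun A => (q ^ G A)⁻¹) fun A hA => ?_).trans
      (Finset.sum_le_sum_of_subset_of_nonneg ?_ fun A _ _ => by positivity)
    · rw [e1]
      refine mul_le_of_le_one_left (by positivity) ?_
      rw [Real.exp_le_one_iff]
      have : (0:ℝ) ≤ G A := Nat.cast_nonneg _
      nlinarith
    · intro A hA
      rw [Finset.mem_filter, Finset.mem_powerset] at hA ⊢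
      exact ⟨fun Q hQ => hS Q (hA.1 hQ) ((G_mem hQ).trans hA.2), hA.2⟩
  · rw [Finset.mul_sum]
    refine (Finset.sum_le_sum (g := fun A => Real.exp (-(l * n) / 2) *
      (Real.exp (-l / 2) / q) ^ G A) fun A hA => ?_).trans
      (Finset.sum_le_sum_of_subset_of_nonneg (Finset.filter_subset _ _)
        fun A _ _ => by positivity)
    rw [e1, e1, ← mul_assoc, ← Real.exp_add]
    refine mul_le_mul_of_nonneg_right ?_ (by positivity)
    rw [Real.exp_le_exp]
    rw [Finset.mem_filter, not_le] at hA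
    have : (n:ℝ) ≤ G A := by exact_mod_cast hA.2.le
    nlinarith

/-- lower bound for the number of all finite subsets -/
theorem lower {T : Set (Pr k)} {δ q : ℝ} (hδ : 0 < δ) (hq : 2 ≤ q) {C : ℝ}
    (h : ∀ u : ℝ, 0 < u → q * u < 1 → Summable (f T u) ∧
      |∑' Q : Pr k, f T u Q - δ * Real.log (1 / (1 - q * u))| ≤ C) :
    ∃ c : ℝ, 0 < c ∧ ∃ n₀ : ℕ, ∀ n : ℕ, n₀ ≤ n → ∀ S' : Finset (Pr k),
      (∀ Q ∈ T, Q.1.natDegree ≤ n → Q ∈ S') → c * (n : ℝ) ^ δ ≤ W q S' n := by
  have q0 : 0 < q := by linarith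
  -- second moment
  obtain ⟨s2, -⟩ := h (1 / q ^ 2) (by positivity) (by
    rw [show q * (1 / q ^ 2) = 1 / q by field_simp]
    rw [div_lt_one q0]; linarith)
  obtain ⟨C2, hC2⟩ : ∃ C2, C2 = ∑' Q : Pr k, f T (1 / q ^ 2) Q := ⟨_, rfl⟩
  have hC2n : 0 ≤ C2 := hC2 ▸ tsum_nonneg (f_nonneg T (by positivity))
  have hCn : 0 ≤ C := (abs_nonneg _).trans (h (1 / q ^ 2) (by positivity) (by
    rw [show q * (1 / q ^ 2) = 1 / q by field_simp]
    rw [div_lt_one q0]; linarith)).2
  -- the constant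
  obtain ⟨a, ha⟩ : ∃ a, a = Real.exp (-(C + 1 + C2)) := ⟨_, rfl⟩
  have a0 : 0 < a := ha ▸ Real.exp_pos _
  obtain ⟨b, hb⟩ : ∃ b, b = Real.exp C * 4 ^ δ := ⟨_, rfl⟩
  have b0 : 0 < b := by rw [hb]; positivity
  obtain ⟨K, K1, hK⟩ : ∃ K : ℝ, 1 ≤ K ∧ Real.exp (-K / 2) * b ≤ a / 2 := by
    have : Tendsto (fun K : ℝ => Real.exp (-K / 2) * b) atTop (nhds (0 * b)) := by
      refine Tendsto.mul_const b (Real.tendsto_exp_atBot.comp ?_)
      have : Tendsto (fun K : ℝ => K / 2) atTop atTop := tendsto_id.atTop_div_const (by norm_num)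
      have := tendsto_neg_atTop_atBot.comp this
      refine this.congr fun K => ?_
      simp only [Function.comp]; ring
    rw [zero_mul] at this
    obtain ⟨K, h1, h2⟩ := ((this.eventually (gt_mem_nhds (show (0:ℝ) < a / 2 by positivity))).and
      (eventually_ge_atTop 1)).exists
    exact ⟨K, h2, h1.le⟩
  refine ⟨a / 2 / K ^ δ, by positivity, ⌈K⌉₊, fun n hn S' hS' => ?_⟩
  have hn' : K ≤ n := (Nat.le_ceil K).trans (by exact_mod_cast hn)
  have n0 : (0:ℝ) < n := by linarith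
  obtain ⟨l, hl⟩ : ∃ l, l = K / n := ⟨_, rfl⟩
  have l0 : 0 < l := by rw [hl]; positivity
  have l1 : l ≤ 1 := by rw [hl, div_le_one n0]; exact hn'
  -- the two points
  have hu : ∀ t : ℝ, 0 < t → 0 < Real.exp (-t) / q ∧ q * (Real.exp (-t) / q) = Real.exp (-t) ∧
      q * (Real.exp (-t) / q) < 1 := by
    intro t ht
    have : q * (Real.exp (-t) / q) = Real.exp (-t) := by field_simp
    refine ⟨by positivity, this, ?_⟩
    rw [this, Real.exp_lt_one_iff]
    linarith
  obtain ⟨u0, u1, u2⟩ := hu l l0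
  obtain ⟨v0, v1, v2⟩ := hu (l / 2) (by positivity)
  obtain ⟨su, hu'⟩ := h _ u0 u2
  obtain ⟨sv, hv'⟩ := h _ v0 v2
  rw [u1] at hu'
  rw [v1] at hv'
  -- the finite set
  obtain ⟨S0, hS0⟩ := (su.hasSum.eventually (lt_mem_nhds (show
    ∑' Q : Pr k, f T (Real.exp (-l) / q) Q - 1 < ∑' Q : Pr k, f T (Real.exp (-l) / q) Q by
      linarith))).exists
  let S := S0.filter (fun Q => Q ∈ T)
  have hST : ∀ Q ∈ S, Q ∈ T := fun Q hQ => (Finset.mem_filter.mp hQ).2
  have hS0' : ∑' Q : Pr k, f T (Real.exp (-l) / q) Q - 1 < ∑ Q ∈ S, (Real.exp (-l) / q) ^ Q.1.natDegree := by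
    refine hS0.trans_eq ?_
    rw [Finset.sum_filter]
    refine Finset.sum_congr rfl fun Q _ => ?_
    unfold f
    split_ifs <;> simp
  have key := split (q := q) (by linarith) (S := S) (S' := S') (n := n) l0.le
    (fun Q hQ h => hS' Q (hST Q hQ) h)
  -- lower bound
  have low : a * l ^ (-δ) ≤ ∏ Q ∈ S, (1 + (Real.exp (-l) / q) ^ Q.1.natDegree) := by
    have h1 : Real.exp (∑ Q ∈ S, ((Real.exp (-l) / q) ^ Q.1.natDegree -
        ((Real.exp (-l) / q) ^ Q.1.natDegree) ^ 2 / 2)) ≤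
        ∏ Q ∈ S, (1 + (Real.exp (-l) / q) ^ Q.1.natDegree) := by
      rw [Real.exp_sum]
      exact Finset.prod_le_prod (fun _ _ => (Real.exp_pos _).le)
        fun Q _ => one_add_ge (by positivity)
    refine le_trans ?_ h1
    have h2 : ∑ Q ∈ S, ((Real.exp (-l) / q) ^ Q.1.natDegree) ^ 2 / 2 ≤ C2 := by
      have : ∑ Q ∈ S, f T (1 / q ^ 2) Q ≤ C2 := by
        rw [hC2]
        exact s2.sum_le_tsum _ fun Q _ => f_nonneg T (by positivity) Q
      refine le_trans (Finset.sum_le_sum fun Q hQ => ?_) this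
      rw [f_mem (hST Q hQ), ← pow_mul, mul_comm, pow_mul]
      have : (Real.exp (-l) / q) ^ 2 ≤ 1 / q ^ 2 := by
        rw [div_pow]
        refine div_le_div_of_nonneg_right ?_ (by positivity)
        exact pow_le_one₀ (Real.exp_pos _).le (Real.exp_le_one_iff.mpr (by linarith))
      have h3 : ((Real.exp (-l) / q) ^ 2) ^ Q.1.natDegree ≤ (1 / q ^ 2) ^ Q.1.natDegree :=
        pow_le_pow_left₀ (by positivity) this _
      have h4 : 0 ≤ ((Real.exp (-l) / q) ^ 2) ^ Q.1.natDegree := by positivity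
      linarith
    rw [Finset.sum_sub_distrib]
    have h5 : δ * Real.log (1 / (1 - Real.exp (-l))) ≥ -(δ * Real.log l) := by
      have e1 : 1 - Real.exp (-l) ≤ l := by linarith [Real.add_one_le_exp (-l)]
      have e2 : 0 < 1 - Real.exp (-l) := by
        have := Real.exp_lt_one_iff.mpr (show -l < 0 by linarith)
        linarith
      have e3 : Real.log (1 - Real.exp (-l)) ≤ Real.log l := Real.log_le_log e2 e1
      rw [one_div, Real.log_inv]
      nlinarith
    have h6 := (abs_le.mp hu').1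
    rw [ha, Real.rpow_def_of_pos l0, ← Real.exp_add, Real.exp_le_exp]
    have h7 : Real.log l * -δ = -(δ * Real.log l) := by ring
    rw [h7]
    linarith
  -- upper bound
  have upp : ∏ Q ∈ S, (1 + (Real.exp (-l / 2) / q) ^ Q.1.natDegree) ≤ b * l ^ (-δ) := by
    rw [show -l / 2 = -(l / 2) by ring]
    have h1 : ∏ Q ∈ S, (1 + (Real.exp (-(l / 2)) / q) ^ Q.1.natDegree) ≤
        Real.exp (∑ Q ∈ S, f T (Real.exp (-(l / 2)) / q) Q) := by
      rw [Real.exp_sum]
      refine Finset.prod_le_prod (fun _ _ => by positivity) fun Q hQ => ?_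
      rw [f_mem (hST Q hQ), add_comm]
      exact Real.add_one_le_exp _
    refine h1.trans ?_
    have h2 : ∑ Q ∈ S, f T (Real.exp (-(l / 2)) / q) Q ≤
        δ * Real.log (1 / (1 - Real.exp (-(l / 2)))) + C := by
      have := sv.sum_le_tsum S fun Q _ => f_nonneg T v0.le Q
      have := (abs_le.mp hv').2
      linarith
    have h3 : Real.log (1 / (1 - Real.exp (-(l / 2)))) ≤ Real.log (4 / l) := by
      have e1 : l / 4 ≤ 1 - Real.exp (-(l / 2)) := by
        have := Real.exp_bound_div_one_sub_of_interval (show (0:ℝ) ≤ l / 2 by positivity) (by linarith)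
        have e4 : Real.exp (-(l / 2)) ≤ 1 / (1 + l / 2) := by
          rw [Real.exp_neg, ← one_div]
          exact one_div_le_one_div_of_le (by linarith) (by linarith [Real.add_one_le_exp (l / 2)])
        have e5 : 1 / (1 + l / 2) ≤ 1 - l / 4 := by
          rw [div_le_iff₀ (by linarith)]
          nlinarith
        linarith
      refine Real.log_le_log (by
        have : 0 < 1 - Real.exp (-(l / 2)) := by linarith
        positivity) ?_
      rw [show 4 / l = 1 / (l / 4) by field_simp]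
      exact one_div_le_one_div_of_le (by positivity) e1
    have h4 : Real.exp (δ * Real.log (4 / l) + C) = b * l ^ (-δ) := by
      rw [hb, Real.rpow_def_of_pos l0, Real.rpow_def_of_pos (by norm_num : (0:ℝ) < 4),
        Real.log_div (by norm_num) l0.ne', ← Real.exp_add, ← Real.exp_add]
      congr 1
      ring
    rw [← h4, Real.exp_le_exp]
    nlinarith
  have eK : Real.exp (-(l * n) / 2) = Real.exp (-K / 2) := by
    rw [hl, div_mul_cancel₀ _ n0.ne']
  rw [eK] at key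
  have lp : 0 < l ^ (-δ) := by positivity
  have h8 : Real.exp (-K / 2) * ∏ Q ∈ S, (1 + (Real.exp (-l / 2) / q) ^ Q.1.natDegree) ≤
      a / 2 * l ^ (-δ) := by
    calc _ ≤ Real.exp (-K / 2) * (b * l ^ (-δ)) :=
          mul_le_mul_of_nonneg_left upp (Real.exp_pos _).le
      _ = Real.exp (-K / 2) * b * l ^ (-δ) := by ring
      _ ≤ _ := mul_le_mul_of_nonneg_right hK lp.le
  have h9 : a / 2 / K ^ δ * (n:ℝ) ^ δ = a / 2 * l ^ (-δ) := by
    rw [hl, Real.div_rpow (by linarith) n0.le, Real.rpow_neg (by linarith), Real.rpow_neg n0.le]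
    have : (n:ℝ) ^ δ ≠ 0 := by positivity
    have : K ^ δ ≠ 0 := by positivity
    field_simp
  rw [h9]
  linarith

/-- the class of a symmetric difference -/
lemma sum_symmDiff {r : ℕ} (χ : Pr k → (Fin r → ZMod 2)) (A B : Finset (Pr k)) :
    ∑ Q ∈ symmDiff A B, χ Q = ∑ Q ∈ A, χ Q + ∑ Q ∈ B, χ Q := by
  have h1 : ∑ Q ∈ A, χ Q = ∑ Q ∈ A \ B, χ Q + ∑ Q ∈ A ∩ B, χ Q := by
    rw [← Finset.sum_union (Finset.disjoint_sdiff_inter A B), Finset.sdiff_union_inter]
  have h2 : ∑ Q ∈ B, χ Q = ∑ Q ∈ B \ A, χ Q + ∑ Q ∈ A ∩ B, χ Q := by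
    rw [Finset.inter_comm A B, ← Finset.sum_union (Finset.disjoint_sdiff_inter B A),
      Finset.sdiff_union_inter]
  have h3 : ∑ Q ∈ A ∩ B, χ Q + ∑ Q ∈ A ∩ B, χ Q = 0 := by
    funext i
    exact CharTwo.add_self_eq_zero _
  rw [symmDiff, Finset.sup_eq_union, Finset.sum_union disjoint_sdiff_sdiff, h1, h2]
  calc _ = ∑ Q ∈ A \ B, χ Q + ∑ Q ∈ B \ A, χ Q + (∑ Q ∈ A ∩ B, χ Q + ∑ Q ∈ A ∩ B, χ Q) := by
        rw [h3, add_zero]
    _ = _ := by abel

lemma G_symmDiff (A B : Finset (Pr k)) : G (symmDiff A B) ≤ G A + G B := by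
  unfold G
  calc _ ≤ ∑ Q ∈ A ∪ B, Q.1.natDegree :=
        Finset.sum_le_sum_of_subset (by
          intro Q hQ
          rw [Finset.mem_symmDiff] at hQ
          rw [Finset.mem_union]
          tauto)
    _ ≤ _ := by
      rw [← Finset.sum_union_inter]
      exact Nat.le_add_right _ _

theorem cnt : S_CNT := by
  intro k _ _ T δ hδ hT r χ g hg
  obtain ⟨C, hC⟩ := hT
  have hq2 : 2 ≤ Nat.card k := Finite.one_lt_card
  obtain ⟨q, hq⟩ : ∃ q : ℝ, q = Nat.card k := ⟨_, rfl⟩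
  have q2 : 2 ≤ q := by rw [hq]; exact_mod_cast hq2
  have h : ∀ u : ℝ, 0 < u → q * u < 1 → Summable (f T u) ∧
      |∑' Q : Pr k, f T u Q - δ * Real.log (1 / (1 - q * u))| ≤ C := by
    rw [hq]; exact hC
  have fin : ∀ n : ℕ, {Q : Pr k | Q ∈ T ∧ Q.1.natDegree ≤ n}.Finite := by
    have h1 : q * (1 / q ^ 2) = 1 / q := by field_simp
    have h2 : 1 / q < 1 := by rw [div_lt_one (by linarith)]; linarith
    exact fin_deg (u := 1 / q ^ 2) (by positivity) (by
      rw [div_le_one (by positivity)]; nlinarith) (h _ (by positivity) (by rw [h1]; exact h2)).1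
  -- the finite sets
  let S : ℕ → Finset (Pr k) := fun n => (fin n).toFinset
  have memS : ∀ n Q, Q ∈ S n ↔ Q ∈ T ∧ Q.1.natDegree ≤ n := fun n Q => by
    simp [S]
  have setEq : ∀ n : ℕ, {A : Finset (Pr k) | (∀ Q ∈ A, Q ∈ T) ∧ ∑ Q ∈ A, χ Q = g ∧
      ∑ Q ∈ A, Q.1.natDegree ≤ n} =
      ↑((S n).powerset.filter fun A => ∑ Q ∈ A, χ Q = g ∧ G A ≤ n) := by
    intro n
    ext A
    simp only [Set.mem_setOf_eq, Finset.coe_filter, Finset.mem_powerset]
    constructor
    · rintro ⟨h1, h2, h3⟩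
      exact ⟨fun Q hQ => (memS n Q).mpr ⟨h1 Q hQ, (G_mem hQ).trans h3⟩, h2, h3⟩
    · rintro ⟨h1, h2, h3⟩
      exact ⟨fun Q hQ => ((memS n Q).mp (h1 hQ)).1, h2, h3⟩
  obtain ⟨c, c0, n₀, hn₀⟩ := lower hδ q2 h
  -- representatives
  let R : (Fin r → ZMod 2) → Finset (Pr k) := fun h =>
    if H : ∃ A : Finset (Pr k), (∀ Q ∈ A, Q ∈ T) ∧ ∑ Q ∈ A, χ Q = h then H.choose else ∅
  have RT : ∀ h, ∀ Q ∈ R h, Q ∈ T := by
    intro h Q hQ
    simp only [R] at hQ
    split_ifs at hQ with H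
    · exact H.choose_spec.1 Q hQ
    · simp at hQ
  have Rc : ∀ h, (∃ A : Finset (Pr k), (∀ Q ∈ A, Q ∈ T) ∧ ∑ Q ∈ A, χ Q = h) →
      ∑ Q ∈ R h, χ Q = h := by
    intro h H
    simp only [R, dif_pos H]
    exact H.choose_spec.2
  let D : ℕ := ∑ h, G (R h)
  have hD : ∀ h, G (R h) ≤ D := fun h =>
    Finset.single_le_sum (f := fun h => G (R h)) (fun _ _ => Nat.zero_le _) (Finset.mem_univ h)
  let m : ℕ := Fintype.card (Fin r → ZMod 2)
  have m0 : 0 < m := Fintype.card_pos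
  let V : ℕ → ℝ := fun n => ∑ A ∈ (S n).powerset.filter (fun A => ∑ Q ∈ A, χ Q = g ∧ G A ≤ n),
    (q ^ G A)⁻¹
  have comp : ∀ n : ℕ, W q (S n) n ≤ m * (q ^ D * V (n + D)) := by
    intro n
    have h1 : W q (S n) n = ∑ h : Fin r → ZMod 2,
        ∑ A ∈ ((S n).powerset.filter (fun A => G A ≤ n)).filter (fun A => ∑ Q ∈ A, χ Q = g + h),
          (q ^ G A)⁻¹ := by
      unfold W
      rw [← Finset.sum_fiberwise_of_maps_to (g := fun A => ∑ Q ∈ A, χ Q - g)
        (t := (Finset.univ : Finset (Fin r → ZMod 2))) (fun _ _ => Finset.mem_univ _)]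
      refine Finset.sum_congr rfl fun h _ => ?_
      congr 1
      refine Finset.filter_congr fun A _ => ?_
      rw [sub_eq_iff_eq_add, add_comm]
    rw [h1]
    have h2 : ∀ h : Fin r → ZMod 2,
        ∑ A ∈ ((S n).powerset.filter (fun A => G A ≤ n)).filter (fun A => ∑ Q ∈ A, χ Q = g + h),
          (q ^ G A)⁻¹ ≤ q ^ D * V (n + D) := by
      intro h
      by_cases hne : (((S n).powerset.filter (fun A => G A ≤ n)).filter
        (fun A => ∑ Q ∈ A, χ Q = g + h)).Nonempty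
      swap
      · rw [Finset.not_nonempty_iff_eq_empty] at hne
        rw [hne, Finset.sum_empty]
        have : 0 ≤ V (n + D) := Finset.sum_nonneg fun A _ => by positivity
        positivity
      -- the class `h` is attained
      have hatt : ∃ A : Finset (Pr k), (∀ Q ∈ A, Q ∈ T) ∧ ∑ Q ∈ A, χ Q = h := by
        obtain ⟨A, hA⟩ := hne
        rw [Finset.mem_filter, Finset.mem_filter, Finset.mem_powerset] at hA
        obtain ⟨B, hB1, hB2⟩ := hg
        refine ⟨symmDiff A B, fun Q hQ => ?_, ?_⟩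
        · rw [Finset.mem_symmDiff] at hQ
          rcases hQ with ⟨h1, -⟩ | ⟨h1, -⟩
          · exact ((memS n Q).mp (hA.1.1 h1)).1
          · exact hB1 Q h1
        · rw [sum_symmDiff, hA.2, hB2]
          have : g + g = 0 := by
            funext i
            exact CharTwo.add_self_eq_zero _
          calc g + h + g = h + (g + g) := by abel
            _ = h := by rw [this, add_zero]
      have hR := Rc h hatt
      rw [Finset.mul_sum]
      refine (Finset.sum_le_sum (g := fun A => q ^ D * (q ^ G (symmDiff A (R h)))⁻¹)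
        fun A _ => ?_).trans ?_
      · have e1 : G (symmDiff A (R h)) ≤ G A + D :=
          (G_symmDiff A (R h)).trans (Nat.add_le_add_left (hD h) _)
        have e2 : q ^ G (symmDiff A (R h)) ≤ q ^ G A * q ^ D := by
          rw [← pow_add]
          exact pow_le_pow_right₀ (by linarith) e1
        have e3 : 0 < q ^ G (symmDiff A (R h)) := by positivity
        have e4 : 0 < q ^ G A := by positivity
        rw [inv_eq_one_div, div_le_iff₀ e4, ← div_eq_mul_inv, div_mul_eq_mul_div,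
          le_div_iff₀ e3]
        linarith
      · rw [← Finset.sum_image (f := fun B => q ^ D * (q ^ G B)⁻¹)
          (g := fun A => symmDiff A (R h))
          (fun A _ B _ e => symmDiff_left_injective (R h) e)]
        refine Finset.sum_le_sum_of_subset_of_nonneg ?_ fun B _ _ => by positivity
        intro B hB
        rw [Finset.mem_image] at hB
        obtain ⟨A, hA, rfl⟩ := hB
        rw [Finset.mem_filter, Finset.mem_filter, Finset.mem_powerset] at hA
        have e1 : G (symmDiff A (R h)) ≤ n + D :=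
          (G_symmDiff A (R h)).trans (Nat.add_le_add hA.1.2 (hD h))
        rw [Finset.mem_filter, Finset.mem_powerset]
        refine ⟨fun Q hQ => (memS _ Q).mpr ⟨?_, (G_mem hQ).trans e1⟩, ?_, e1⟩
        · rw [Finset.mem_symmDiff] at hQ
          rcases hQ with ⟨h1, -⟩ | ⟨h1, -⟩
          · exact ((memS n Q).mp (hA.1.1 h1)).1
          · exact RT h Q h1
        · rw [sum_symmDiff, hA.2, hR]
          have : h + h = 0 := by
            funext i
            exact CharTwo.add_self_eq_zero _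
          rw [add_assoc, this, add_zero]
    calc _ ≤ ∑ h : Fin r → ZMod 2, q ^ D * V (n + D) := Finset.sum_le_sum fun h _ => h2 h
      _ = _ := by
        rw [Finset.sum_const, Finset.card_univ, nsmul_eq_mul]
  have mq : 0 < (m:ℝ) * q ^ D := by positivity
  refine ⟨c / (m * q ^ D) / 2 ^ δ, by positivity, n₀ + 2 * D + 1, fun n hn => ?_⟩
  rw [setEq n]
  refine ⟨Finset.finite_toSet _, ?_⟩
  rw [finsum_mem_coe_finset]
  have hV : (∑ A ∈ (S n).powerset.filter (fun A => ∑ Q ∈ A, χ Q = g ∧ G A ≤ n),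
      ((Nat.card k : ℝ) ^ (∑ Q ∈ A, Q.1.natDegree))⁻¹) = V n := by
    simp only [V, hq, G]
  rw [hV]
  obtain ⟨p, rfl⟩ : ∃ p, n = p + D := ⟨n - D, by omega⟩
  have hp := hn₀ p (by omega) (S p) fun Q h1 h2 => (memS p Q).mpr ⟨h1, h2⟩
  have hc := comp p
  have e1 : ((p + D : ℕ) : ℝ) ≤ 2 * p := by
    have : p + D ≤ 2 * p := by omega
    exact_mod_cast this
  have e2 : ((p + D : ℕ) : ℝ) ^ δ ≤ 2 ^ δ * (p:ℝ) ^ δ := by
    rw [← Real.mul_rpow (by norm_num) (Nat.cast_nonneg _)]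
    exact Real.rpow_le_rpow (Nat.cast_nonneg _) e1 hδ.le
  have e3 : c * (p:ℝ) ^ δ / (m * q ^ D) ≤ V (p + D) := by
    rw [div_le_iff₀ mq]
    linarith
  refine le_trans ?_ e3
  rw [div_mul_eq_mul_div, div_mul_eq_mul_div, div_div, div_le_div_iff₀ (by positivity) mq]
  have e4 : c * ((p + D : ℕ) : ℝ) ^ δ * (m * q ^ D) ≤ c * (2 ^ δ * (p:ℝ) ^ δ) * (m * q ^ D) := by
    have := mul_le_mul_of_nonneg_left e2 c0.le
    exact mul_le_mul_of_nonneg_right this mq.le
  linarith

end Pool.Agent.H467.MR.Cnt
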