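import Pool.Agent.H467.MR.Core

/-!
# The choice of the auxiliary primes for one curve

Project MR (helper467).
-/

set_option autoImplicit false
set_option linter.all false

open Polynomial IsDedekindDomain WithZero
open Pool.Agent.N874.PP Pool.Agent.N352.PP Pool.Agent.N765.PP Pool.Agent.TH115.GD
open scoped Classical

namespace Pool.Agent.H467.MR

section pol

variable {k : Type} [Field k] {a b : k[X]}

/-- The root modulo a prime of type `STp` is unique. -/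
theorem root_uniq {Q R R' : k[X]} (hs : STp a b Q R) (h' : Q ∣ fv a b R') : Q ∣ R' - R := by
  have h1 : Q ∣ (R' - R) * (R' ^ 2 + R' * R + R ^ 2 + a) := by
    have e : (R' - R) * (R' ^ 2 + R' * R + R ^ 2 + a) = fv a b R' - fv a b R := by
      unfold fv; ring
    rw [e]
    exact dvd_sub h' hs.root
  rcases hs.irr.prime.dvd_or_dvd h1 with h3 | h3
  · exact h3
  · exfalso
    apply hs.ns (2 * R' + R)
    have e : (2 * R' + R) ^ 2 + (3 * R ^ 2 + 4 * a) = 4 * (R' ^ 2 + R' * R + R ^ 2 + a) := by ring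
    rw [e]
    exact Dvd.dvd.mul_left h3 _

theorem ns_congr {Q R R' : k[X]} {p : k[X][X]} (h : Q ∣ R' - R)
    (hp : ∀ z : k[X], ¬ Q ∣ z ^ 2 - p.eval R) (z : k[X]) : ¬ Q ∣ z ^ 2 - p.eval R' := by
  intro h0
  apply hp z
  have h1 : Q ∣ p.eval R' - p.eval R := h.trans (sub_dvd_eval_sub _ _ _)
  have e : z ^ 2 - p.eval R = (z ^ 2 - p.eval R') + (p.eval R' - p.eval R) := by ring
  rw [e]
  exact dvd_add h0 h1

end pol

section chs

variable {k K L : Type} [Field k] [Field K] [Algebra k[X] K] [IsFractionRing k[X] K]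
  [Field L] [Algebra K L] [Algebra k[X] L] [IsScalarTower k[X] K L] {a b : k[X]} {θ : L}

/-- An element of the cubic field is, up to the square of a polynomial, the value of a polynomial
with polynomial coefficients. -/
theorem exists_pol (h : IsCub K a b θ) (x : L) : ∃ (p : k[X][X]) (c : k[X]), c ≠ 0 ∧
    eval₂ (algebraMap k[X] L) θ p = x * (algebraMap k[X] L c) ^ 2 := by
  obtain ⟨s, hs⟩ := IsLocalization.exist_integer_multiples_of_finite (nonZeroDivisors k[X])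
    (fun i : Fin 3 => cK h x i)
  choose u hu using hs
  have hu' : ∀ i, algebraMap k[X] K (u i) = algebraMap k[X] K s * cK h x i := by
    intro i
    rw [hu i, Algebra.smul_def]
  refine ⟨C ((s : k[X]) * u 0) + C ((s : k[X]) * u 1) * X + C ((s : k[X]) * u 2) * X ^ 2, s,
    nonZeroDivisors.ne_zero s.2, ?_⟩
  have e : ∀ c : k[X], algebraMap k[X] L c = algebraMap K L (algebraMap k[X] K c) := fun c =>
    IsScalarTower.algebraMap_apply k[X] K L c
  simp only [eval₂_add, eval₂_mul, eval₂_C, eval₂_X, eval₂_pow]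
  conv_rhs => rw [cK_sum h x]
  simp only [e, map_mul, hu']
  ring

/-- The auxiliary primes. -/
theorem exists_S [Finite k] (hFINT : S_FINT) (hSTQ : S_STQ) {m : ℕ} {a b P : Fin m → k[X]}
    (h6 : (6 : k) ≠ 0) (hdat : Dat K a b P) (i : Fin m) {θ : L} (h : IsCub K (a i) (b i) θ)
    (O : Type) [CommRing O] [IsDedekindDomain O] [Algebra O L] [IsFractionRing O L]
    [Algebra k[X] O] [IsScalarTower k[X] O L] [IsIntegralClosure O k[X] L]
    [Algebra.IsSeparable K L] (hΔ : dsc (a i) (b i) ≠ 0) :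
    ∃ (S : Finset k[X]) (R : k[X] → k[X]), (∀ Q ∈ S, (Q.Monic ∧ STp (a i) (b i) Q (R Q)) ∧
      ∀ j, j ≠ i → ∀ c : k[X], ¬ Q ∣ c ^ 3 + a j * c + b j) ∧
      ∀ α : L, NS K α → (∀ 𝔓 : HeightOneSpectrum O,
        (∀ P : k[X], Irreducible P → P ∣ dsc (a i) (b i) → ¬ Ov P 𝔓) → Ev 𝔓 α) → ¬ IsSquare α →
      ∃ Q ∈ S, ∃ (p : k[X][X]) (y : L), y ≠ 0 ∧ (∀ z : k[X], ¬ Q ∣ z ^ 2 - p.eval (R Q)) ∧
        NS K (eval₂ (algebraMap k[X] L) θ p) ∧ α = eval₂ (algebraMap k[X] L) θ p * y ^ 2 := by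
  haveI : FiniteDimensional K L := Module.finite_of_finrank_pos (by rw [h.rank]; norm_num)
  obtain ⟨Rr, hR0, hRr⟩ := hFINT k K L O {dsc (a i) (b i)} (by
    intro P hP
    rw [Finset.mem_singleton] at hP
    rw [hP]
    exact hΔ)
  let T : Finset L := Rr.filter fun ρ => NS K ρ ∧ ¬ IsSquare ρ
  have key : ∀ ρ : T, ∃ (Q : k[X]) (R0 : k[X]) (p : k[X][X]) (c : L), c ≠ 0 ∧
      eval₂ (algebraMap k[X] L) θ p = ρ * c ^ 2 ∧ (Q.Monic ∧ STp (a i) (b i) Q R0) ∧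
      (∀ j, j ≠ i → ∀ c : k[X], ¬ Q ∣ c ^ 3 + a j * c + b j) ∧
      ∀ z : k[X], ¬ Q ∣ z ^ 2 - p.eval R0 := by
    intro ρ
    have hρ := (Finset.mem_filter.1 ρ.2).2
    obtain ⟨p, c, hc, hp⟩ := exists_pol h (ρ : L)
    have hc0 : algebraMap k[X] L c ≠ 0 := algL_ne (K := K) hc
    have h1 : eval₂ (algebraMap k[X] L) θ p ≠ 0 := by
      rw [hp]
      exact mul_ne_zero hρ.1.1 (pow_ne_zero 2 hc0)
    have h2 : IsSquare (Algebra.norm K (eval₂ (algebraMap k[X] L) θ p)) := by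
      rw [hp, map_mul, map_pow]
      exact hρ.1.2.mul (IsSquare.sq _)
    have h3 : ¬ IsSquare (eval₂ (algebraMap k[X] L) θ p) := by
      intro h4
      apply hρ.2
      rw [hp, mul_comm] at h4
      exact (sqm ⟨_, pow_two _⟩ (pow_ne_zero 2 hc0)).1 h4
    obtain ⟨Q, R0, -, hd, hr, hns, hj, hz⟩ := hSTQ k K m a b P h6 hdat i L θ h p h1 h2 h3 1
      one_ne_zero
    exact ⟨Q.1, R0, p, algebraMap k[X] L c, hc0, hp, ⟨Q.2.1, ⟨Q.2.2, hd, hr, hns⟩⟩, hj, hz⟩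
  choose Q R0 p c hc hp hQ hj hz using key
  let S : Finset k[X] := Finset.univ.image Q
  have hS : ∀ Q' ∈ S, ∃ ρ : T, Q ρ = Q' := by
    intro Q' hQ'
    obtain ⟨ρ, -, hρ⟩ := Finset.mem_image.1 hQ'
    exact ⟨ρ, hρ⟩
  let R : k[X] → k[X] := fun Q' => if h : Q' ∈ S then R0 (hS Q' h).choose else 0
  have hRs : ∀ Q' ∈ S, Q'.Monic ∧ STp (a i) (b i) Q' (R Q') := by
    intro Q' hQ'
    have h1 := (hS Q' hQ').choose_spec
    have h2 := hQ (hS Q' hQ').choose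
    rw [h1] at h2
    simp only [R, dif_pos hQ']
    exact h2
  refine ⟨S, R, fun Q' hQ' => ⟨hRs Q' hQ', ?_⟩, ?_⟩
  · obtain ⟨ρ, rfl⟩ := hS Q' hQ'
    exact hj ρ
  · intro α hα hev hns
    obtain ⟨ρ, hρ, y, hy, hαy⟩ := hRr α hα.1 (fun 𝔓 h𝔓 => hev 𝔓 fun P hP hPd hP𝔓 => by
      refine h𝔓 _ (Finset.mem_singleton_self _) ?_
      obtain ⟨u, hu⟩ := hPd
      unfold Ov at hP𝔓 ⊢
      rw [hu, map_mul]
      exact Ideal.mul_mem_right _ _ hP𝔓)
    have hy2 : NS K (y ^ 2) := ⟨pow_ne_zero 2 hy, by rw [map_pow]; exact IsSquare.sq _⟩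
    have hρNS : NS K ρ := by
      have e : ρ = α * (y ^ 2)⁻¹ := by
        rw [hαy]
        field_simp
      rw [e]
      exact hα.mul hy2.inv
    have hρn : ¬ IsSquare ρ := by
      rintro ⟨w, hw⟩
      apply hns
      exact ⟨w * y, by rw [hαy, hw]; ring⟩
    have hρT : ρ ∈ T := Finset.mem_filter.2 ⟨hρ, hρNS, hρn⟩
    have hQS : Q ⟨ρ, hρT⟩ ∈ S := Finset.mem_image_of_mem _ (Finset.mem_univ _)
    refine ⟨Q ⟨ρ, hρT⟩, hQS, p ⟨ρ, hρT⟩, y / c ⟨ρ, hρT⟩, div_ne_zero hy (hc _), ?_, ?_, ?_⟩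
    · refine ns_congr ?_ (hz ⟨ρ, hρT⟩)
      exact root_uniq (hQ ⟨ρ, hρT⟩).2 (hRs _ hQS).2.root
    · rw [hp]
      have hc2 : NS K (c ⟨ρ, hρT⟩ ^ 2) :=
        ⟨pow_ne_zero 2 (hc _), by rw [map_pow]; exact IsSquare.sq _⟩
      exact hρNS.mul hc2
    · rw [hp, hαy]
      have := hc ⟨ρ, hρT⟩
      field_simp

end chs

end Pool.Agent.H467.MR
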