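import Pool.Agent.H467.MR.Spec

set_option autoImplicit false
set_option linter.all false

open Polynomial IsDedekindDomain WeierstrassCurve WeierstrassCurve.Affine
open Pool.Agent.N874.PP Pool.Agent.TH115.GD
open scoped Classical

namespace Pool.Agent.H467.MR.Clo

variable {E : Type} [Field E]

/-- The quadratic cofactor of a root. -/
noncomputable def qd (A e : E) : E[X] := X ^ 2 + C e * X + C (e ^ 2 + A)

theorem cub_root {A B e : E} (h : e ^ 3 + A * e + B = 0) :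
    cub A B = (X - C e) * qd A e := by
  have hB : B = -(e ^ 3 + A * e) := by linear_combination h
  subst hB
  unfold cub qd
  simp only [C_neg, C_add, C_mul, C_pow]
  ring

theorem disc_root {A B e : E} (h : e ^ 3 + A * e + B = 0) (hD : 4 * A ^ 3 + 27 * B ^ 2 ≠ 0) :
    3 * e ^ 2 + A ≠ 0 := by
  intro h0
  apply hD
  have hB : B = -(e ^ 3 + A * e) := by linear_combination h
  have hA : A = -(3 * e ^ 2) := by linear_combination h0
  subst hB
  rw [hA]; ring

theorem cop_pt {A B x y : E} (hy : y ≠ 0) (h : y ^ 2 = x ^ 3 + A * x + B) :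
    IsCoprime (C x - X) (cub A B) := by
  have hi : (C (y ^ 2)⁻¹ : E[X]) * C (y ^ 2) = 1 := by
    rw [← C_mul, inv_mul_cancel₀ (pow_ne_zero 2 hy), C_1]
  refine ⟨C (y ^ 2)⁻¹ * qd A x, C (y ^ 2)⁻¹, ?_⟩
  have h1 : (C (y ^ 2) : E[X]) = C x ^ 3 + C A * C x + C B := by
    rw [h]; simp only [C_add, C_mul, C_pow]
  rw [← hi, h1]
  unfold cub qd
  simp only [C_add, C_pow]
  ring

theorem cop_tor {A B e : E} (h : e ^ 3 + A * e + B = 0) (hD : 4 * A ^ 3 + 27 * B ^ 2 ≠ 0) :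
    IsCoprime ((C e - X) + (X ^ 2 + C e * X + C (e ^ 2 + A))) (cub A B) := by
  have h0 := disc_root h hD
  have hi : (C (3 * e ^ 2 + A)⁻¹ : E[X]) * C (3 * e ^ 2 + A) = 1 := by
    rw [← C_mul, inv_mul_cancel₀ h0, C_1]
  have hc : IsCoprime (C e - X : E[X]) (qd A e) := by
    refine ⟨C (3 * e ^ 2 + A)⁻¹ * (X + C (2 * e)), C (3 * e ^ 2 + A)⁻¹, ?_⟩
    rw [← hi]
    unfold qd
    simp only [C_add, C_pow, C_mul]
    have h3 : (C 3 : E[X]) = 3 := rfl
    have h2 : (C 2 : E[X]) = 2 := rfl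
    rw [h3, h2]
    ring
  have e1 : cub A B = (C e - X) * (-qd A e) := by rw [cub_root h]; ring
  rw [e1]
  change IsCoprime (C e - X + qd A e) ((C e - X) * (-qd A e))
  apply IsCoprime.mul_right
  · rw [add_comm]
    have := hc.symm.add_mul_right_left 1
    simpa using this
  · rw [IsCoprime.neg_right_iff]
    have := hc.add_mul_right_left 1
    simpa using this

theorem cop {A B : E} (hD : 4 * A ^ 3 + 27 * B ^ 2 ≠ 0) {μ : E[X]} (h : IsMu A B μ) :
    IsCoprime μ (cub A B) := by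
  cases h with
  | one => exact isCoprime_one_left
  | pt x y hy h => exact cop_pt hy h
  | tor e h => exact cop_tor h hD

/-- The line through two points with different `x`-coordinates. -/
theorem line {A B x₁ y₁ x₂ y₂ l : E} (h₁ : y₁ ^ 2 = x₁ ^ 3 + A * x₁ + B)
    (h₂ : y₂ ^ 2 = x₂ ^ 3 + A * x₂ + B) (hx : x₁ ≠ x₂) (hl : l * (x₁ - x₂) = y₁ - y₂) :
    cub A B - (C l * X + C (y₁ - l * x₁)) ^ 2 =
      (X - C x₁) * (X - C x₂) * (X - C (l ^ 2 - x₁ - x₂)) := by
  have hA : A - 2 * l * (y₁ - l * x₁) = x₁ * x₂ + (x₁ + x₂) * (l ^ 2 - x₁ - x₂) := by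
    apply mul_left_cancel₀ (sub_ne_zero.2 hx)
    linear_combination -h₁ + h₂ + (l * (x₁ - x₂) - y₁ - y₂) * hl
  have hB : B - (y₁ - l * x₁) ^ 2 = -(x₁ * x₂ * (l ^ 2 - x₁ - x₂)) := by
    linear_combination -h₁ - x₁ * hA
  have hA' := congrArg (C : E → E[X]) hA
  have hB' := congrArg (C : E → E[X]) hB
  have h2 : (C 2 : E[X]) = 2 := rfl
  simp only [C_add, C_sub, C_mul, C_pow, C_neg, h2] at hA' hB'
  unfold cub
  simp only [C_add, C_sub, C_mul, C_pow, C_neg]
  linear_combination X * hA' + hB'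

/-- If the third point is a root. -/
theorem line_root {A B x₁ x₂ e l : E} (he : e ^ 3 + A * e + B = 0)
    (h : cub A B - (C l * (X - C e)) ^ 2 = (X - C x₁) * (X - C x₂) * (X - C e)) :
    cub A B ∣ (C x₁ - X) * (C x₂ - X) * ((C e - X) + (X ^ 2 + C e * X + C (e ^ 2 + A))) -
      (C l * (X - C e) + qd A e) ^ 2 := by
  rw [cub_root he] at h ⊢
  have h3 : qd A e - C l ^ 2 * (X - C e) = (X - C x₁) * (X - C x₂) := by
    apply mul_left_cancel₀ (X_sub_C_ne_zero e)
    linear_combination h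
  have h4 : (X - C x₁) * (X - C x₂) = qd A e - C l ^ 2 * (X - C e) := h3.symm
  have h5 : (C x₁ - X) * (C x₂ - X) = qd A e - C l ^ 2 * (X - C e) := by
    rw [← h4]; ring
  change _ ∣ (C x₁ - X) * (C x₂ - X) * ((C e - X) + qd A e) - _
  rw [h5]
  refine ⟨-1 - C l ^ 2 - 2 * C l, ?_⟩
  ring

theorem third {A B : E} (h6 : (6 : E) ≠ 0) (hD : 4 * A ^ 3 + 27 * B ^ 2 ≠ 0) {μ₁ μ₂ : E[X]}
    (h₁ : IsMu A B μ₁) (h₂ : IsMu A B μ₂) :
    ∃ μ₃ G : E[X], IsMu A B μ₃ ∧ cub A B ∣ μ₁ * μ₂ * μ₃ - G ^ 2 := by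
  -- a point and a root
  have key : ∀ (x y : E), y ≠ 0 → y ^ 2 = x ^ 3 + A * x + B → ∀ e : E, e ^ 3 + A * e + B = 0 →
      ∃ μ₃ G : E[X], IsMu A B μ₃ ∧
        cub A B ∣ (C x - X) * ((C e - X) + (X ^ 2 + C e * X + C (e ^ 2 + A))) * μ₃ - G ^ 2 := by
    intro x y hy h e he
    have hxe : x ≠ e := by
      rintro rfl
      apply hy
      have : y ^ 2 = 0 := by rw [h, he]
      exact pow_eq_zero_iff (two_ne_zero) |>.1 this
    have hxe' : x - e ≠ 0 := sub_ne_zero.2 hxe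
    have h0 := disc_root he hD
    have h1 := line (l := y / (x - e)) h (y₂ := 0) (x₂ := e) (by rw [he]; ring) hxe
      (by field_simp; ring)
    set l := y / (x - e) with hl
    have hle : y - l * x = -(l * e) := by
      rw [hl]; field_simp; ring
    set x₃ := l ^ 2 - x - e with hx₃
    have h2 : cub A B - (C l * (X - C e)) ^ 2 = (X - C x) * (X - C x₃) * (X - C e) := by
      rw [hle] at h1
      simp only [C_neg, C_mul] at h1
      linear_combination h1
    have h3 : y ^ 2 = (x - e) * ((x - e) * l ^ 2) := by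
      rw [hl]; field_simp
    have h4 : (x - e) * (x₃ - e) = 3 * e ^ 2 + A := by
      have : (x - e) * ((x - e) * (x₃ - e)) = (x - e) * (3 * e ^ 2 + A) := by
        rw [hx₃]
        have hB : B = -(e ^ 3 + A * e) := by linear_combination he
        have : (x - e) * ((x - e) * l ^ 2) = x ^ 3 + A * x - (e ^ 3 + A * e) := by
          rw [← h3, h, hB]; ring
        linear_combination this
      exact mul_left_cancel₀ hxe' this
    have h5 : x₃ - e ≠ 0 := by
      intro h5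
      rw [h5, mul_zero] at h4
      exact h0 h4.symm
    have hl0 : l ≠ 0 := div_ne_zero hy hxe'
    have h6' : (l * (x₃ - e)) ^ 2 = x₃ ^ 3 + A * x₃ + B := by
      have := congrArg (Polynomial.eval x₃) h2
      simp [cub] at this
      linear_combination -this
    refine ⟨C x₃ - X, C l * (X - C e) + qd A e, IsMu.pt x₃ (l * (x₃ - e)) (mul_ne_zero hl0 h5) h6',
      ?_⟩
    have := line_root he h2
    have e1 : (C x - X) * (C e - X + (X ^ 2 + C e * X + C (e ^ 2 + A))) * (C x₃ - X) -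
      (C l * (X - C e) + qd A e) ^ 2 = (C x - X) * (C x₃ - X) *
        ((C e - X) + (X ^ 2 + C e * X + C (e ^ 2 + A))) - (C l * (X - C e) + qd A e) ^ 2 := by
      ring
    rw [e1]
    exact this
  cases h₁ with
  | one => exact ⟨μ₂, μ₂, h₂, ⟨0, by ring⟩⟩
  | pt x₁ y₁ hy₁ h₁ =>
    cases h₂ with
    | one => exact ⟨C x₁ - X, C x₁ - X, IsMu.pt x₁ y₁ hy₁ h₁, ⟨0, by ring⟩⟩
    | pt x₂ y₂ hy₂ h₂ =>
      by_cases hx : x₁ = x₂
      · subst hx
        exact ⟨1, C x₁ - X, IsMu.one, ⟨0, by ring⟩⟩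
      · have hx' : x₁ - x₂ ≠ 0 := sub_ne_zero.2 hx
        have h3 := line (l := (y₁ - y₂) / (x₁ - x₂)) h₁ h₂ hx (by field_simp)
        set l := (y₁ - y₂) / (x₁ - x₂) with hl
        set x₃ := l ^ 2 - x₁ - x₂ with hx₃
        have h4 : (l * x₃ + (y₁ - l * x₁)) ^ 2 = x₃ ^ 3 + A * x₃ + B := by
          have := congrArg (Polynomial.eval x₃) h3
          simp [cub] at this
          linear_combination -this
        by_cases hy₃ : l * x₃ + (y₁ - l * x₁) = 0
        · rw [hy₃] at h4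
          have he : x₃ ^ 3 + A * x₃ + B = 0 := by rw [← h4]; ring
          have hL : (C l * X + C (y₁ - l * x₁) : E[X]) = C l * (X - C x₃) := by
            have : y₁ - l * x₁ = -(l * x₃) := by linear_combination hy₃
            rw [this]
            simp only [C_neg, C_mul]
            ring
          rw [hL] at h3
          exact ⟨_, _, IsMu.tor x₃ he, line_root he h3⟩
        · refine ⟨C x₃ - X, C l * X + C (y₁ - l * x₁), IsMu.pt x₃ _ hy₃ h4, ⟨-1, ?_⟩⟩
          linear_combination h3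
    | tor e he => exact key x₁ y₁ hy₁ h₁ e he
  | tor e he =>
    cases h₂ with
    | one => exact ⟨_, (C e - X) + (X ^ 2 + C e * X + C (e ^ 2 + A)), IsMu.tor e he, ⟨0, by ring⟩⟩
    | pt x₂ y₂ hy₂ h₂ =>
      obtain ⟨μ₃, G, h3, h4⟩ := key x₂ y₂ hy₂ h₂ e he
      refine ⟨μ₃, G, h3, ?_⟩
      rw [mul_comm (C e - X + _) (C x₂ - X)]
      exact h4
    | tor e' he' =>
      by_cases hee : e = e'
      · subst hee
        exact ⟨1, (C e - X) + (X ^ 2 + C e * X + C (e ^ 2 + A)), IsMu.one, ⟨0, by ring⟩⟩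
      · have hee' : e - e' ≠ 0 := sub_ne_zero.2 hee
        have hA : A = -(e ^ 2 + e * e' + e' ^ 2) := by
          apply mul_left_cancel₀ hee'
          linear_combination he - he'
        have hB : B = e * e' * (e + e') := by
          rw [hA] at he
          linear_combination he
        refine ⟨_, 3 * X ^ 2 + C A, IsMu.tor (-e - e') ?_, ?_⟩
        · rw [hA, hB]; ring
        · rw [hA, hB]
          unfold cub
          simp only [C_add, C_sub, C_mul, C_pow, C_neg]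
          refine ⟨X ^ 3 - (C e ^ 2 + C e * C e' + C e' ^ 2) * X + C e * C e' * (C e + C e')
            - 3 * X ^ 2 - 2 * (C e ^ 2 + C e * C e' + C e' ^ 2) - 1 - 6 * X, ?_⟩
          ring

theorem clo : S_CLO := by
  intro E _ A B h6 hD h h' hh hh'
  obtain ⟨μ₁, g₁, hμ₁, q₁, h₁⟩ := hh
  obtain ⟨μ₂, g₂, hμ₂, q₂, h₂⟩ := hh'
  obtain ⟨μ₃, G, hμ₃, q₃, h₃⟩ := third h6 hD hμ₁ hμ₂
  obtain ⟨w, v, hw⟩ := (cop hD hμ₁).mul_left (cop hD hμ₂)
  refine ⟨μ₃, w * G * g₁ * g₂, hμ₃, ?_⟩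
  have e1 : μ₁ * h = g₁ ^ 2 + cub A B * q₁ := by linear_combination h₁
  have e2 : μ₂ * h' = g₂ ^ 2 + cub A B * q₂ := by linear_combination h₂
  have e3 : μ₁ * μ₂ * μ₃ = G ^ 2 + cub A B * q₃ := by linear_combination h₃
  -- modulo the cubic
  rw [← Ideal.mem_span_singleton, ← Ideal.Quotient.eq_zero_iff_mem, map_sub, sub_eq_zero]
  set φ := Ideal.Quotient.mk (Ideal.span {cub A B}) with hφ
  have hz : φ (cub A B) = 0 := by
    rw [hφ, Ideal.Quotient.eq_zero_iff_mem]; exact Ideal.mem_span_singleton_self _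
  have f1 : φ μ₁ * φ h = φ g₁ ^ 2 := by rw [← map_mul, e1]; simp [hz]
  have f2 : φ μ₂ * φ h' = φ g₂ ^ 2 := by rw [← map_mul, e2]; simp [hz]
  have f3 : φ μ₁ * φ μ₂ * φ μ₃ = φ G ^ 2 := by rw [← map_mul, ← map_mul, e3]; simp [hz]
  have f4 : φ w * (φ μ₁ * φ μ₂) = 1 := by
    rw [← map_mul, ← map_mul, show w * (μ₁ * μ₂) = 1 - v * cub A B by linear_combination hw]
    simp [hz]
  simp only [map_mul, map_pow]
  calc φ μ₃ * (φ h * φ h') = (φ w * (φ μ₁ * φ μ₂)) ^ 2 * (φ μ₃ * (φ h * φ h')) := by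
        rw [f4]; ring
    _ = (φ w) ^ 2 * (φ μ₁ * φ μ₂ * φ μ₃) * (φ μ₁ * φ h) * (φ μ₂ * φ h') := by ring
    _ = (φ w * φ G * φ g₁ * φ g₂) ^ 2 := by rw [f1, f2, f3]; ring

end Pool.Agent.H467.MR.Clo
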