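import Pool.Agent.H467.MR.Loc3
import Pool.Graph.R_pool_sql_team_seeded_63374d34.N352.PP.Loc
import Pool.Graph.R_pool_sql_team_seeded_63374d34.N704.PJ.Hensel
import Pool.Graph.R_pool_sql_team_seeded_63374d34.N765.PP.Form

/-!
# The completions of `K = k(t)` are local fields in the sense of `LF`

Project MR (helper467).
-/

set_option autoImplicit false
set_option linter.all false

open Polynomial IsDedekindDomain WithZero
open Pool.Agent.N874.PP Pool.Agent.N352.PP
open scoped Classical

namespace Pool.Agent.H467.MR

section comp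

variable {k K : Type} [Field k] [Field K] [Algebra k[X] K] [IsFractionRing k[X] K]
  {P : k[X]} {v : HeightOneSpectrum k[X]}

theorem nn_finite {F : Type} [Field F] [Finite F] (h2 : (2 : F) ≠ 0) {x y : F}
    (hx : ¬ IsSquare x) (hy : ¬ IsSquare y) : IsSquare (x * y) := by
  letI : Fintype F := Fintype.ofFinite F
  have hx0 : x ≠ 0 := by rintro rfl; exact hx ⟨0, by simp⟩
  have hy0 : y ≠ 0 := by rintro rfl; exact hy ⟨0, by simp⟩
  have hF : ringChar F ≠ 2 := by
    intro h
    apply h2
    have := ringChar.Nat.cast_ringChar (R := F)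
    rw [h] at this
    exact_mod_cast this
  have h1 := (quadraticChar_neg_one_iff_not_isSquare (F := F)).2 hx
  have h3 := (quadraticChar_neg_one_iff_not_isSquare (F := F)).2 hy
  have h4 : quadraticChar F (x * y) = 1 := by
    rw [map_mul, h1, h3]; norm_num
  exact (quadraticChar_one_iff_isSquare (mul_ne_zero hx0 hy0)).1 h4

theorem two_adj (h2 : (2 : k) ≠ 0) [Fact (Irreducible P)] : (2 : AdjoinRoot P) ≠ 0 := by
  have e : (2 : AdjoinRoot P) = algebraMap k (AdjoinRoot P) 2 := (map_ofNat _ 2).symm
  rw [e, Ne, map_eq_zero]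
  exact h2

/-- The completion at `P` satisfies `LF`. -/
theorem lf [Finite k] (h2 : (2 : k) ≠ 0) (hP : Irreducible P) (hv : v.asIdeal = Ideal.span {P}) :
    LF (vv (F := K) v) where
  two := by
    have h := val_two (K := K) hv hP h2
    rw [← vv_coe, map_ofNat] at h
    exact h
  hens := by
    intro x hx
    obtain ⟨z, hz, -⟩ := sqrt_one v (val_two (K := K) hv hP h2) x hx
    exact ⟨z, by rw [← hz]; ring⟩
  nn := by
    intro x y hx hy hxs hys
    haveI : Fact (Irreducible P) := ⟨hP⟩
    haveI : Finite (AdjoinRoot P) := Pool.Agent.N765.PP.fin_res hP.ne_zero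
    obtain ⟨p, hp⟩ := dense_R v x hx.le
    obtain ⟨r, hr⟩ := dense_R v y hy.le
    change vv v (x - em K v p) < 1 at hp
    change vv v (y - em K v r) < 1 at hr
    have hsq : ∀ (g : k[X]) (z : v.adicCompletion K), vv v z = 1 → vv v (z - em K v g) < 1 →
        (IsSquare z ↔ IsSquare (AdjoinRoot.mk P g)) := by
      intro g z hz hg
      have hg1 : vv v (em K v g) = 1 := by
        have e : em K v g = z - (z - em K v g) := by ring
        rw [e, Valuation.map_sub_eq_of_lt_left _ (by rw [hz]; exact hg), hz]
      have hg0 : ¬ P ∣ g := (vv_em_one hv g).1 hg1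
      have hgn : em K v g ≠ 0 := ne_of_w hg1
      -- hensel
      have hz' : ∃ s, s ^ 2 = z / em K v g ∧ vv v (s - 1) < 1 := by
        refine sqrt_one v (val_two (K := K) hv hP h2) _ ?_
        have e : z / em K v g - 1 = (z - em K v g) / em K v g := by field_simp
        rw [e, map_div₀, hg1, div_one]
        exact hg
      obtain ⟨s, hs, hs1⟩ := hz'
      have hs0 : s ≠ 0 := by
        rintro rfl
        rw [zero_pow two_ne_zero] at hs
        exact (div_ne_zero (ne_of_w hz) hgn) hs.symm
      have hzg : z = s ^ 2 * em K v g := by rw [hs]; field_simp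
      rw [hzg, mul_comm]
      constructor
      · rintro ⟨t, ht⟩
        have ht2 : em K v g = (t / s) ^ 2 := by
          field_simp
          linear_combination ht
        have ht1 : vv v (t / s) = 1 := by
          have := congrArg (vv v) ht2
          rw [hg1, map_pow] at this
          exact (pow_eq_one_iff_of_nonneg zero_le two_ne_zero).1 this.symm
        obtain ⟨q, hq⟩ := dense_R v (t / s) ht1.le
        change vv v (t / s - em K v q) < 1 at hq
        refine ⟨AdjoinRoot.mk P q, ?_⟩
        rw [← map_mul, AdjoinRoot.mk_eq_mk, ← vv_em_lt (K := K) hv]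
        have e : em K v (g - q * q) = (t / s - em K v q) * (t / s + em K v q) := by
          rw [map_sub, map_mul, ht2]; ring
        rw [e, map_mul]
        refine mul_lt_one_of_lt_of_le hq ?_
        exact (Valuation.map_add _ _ _).trans (max_le ht1.le (vv_em_le q))
      · rintro ⟨t, ht⟩
        obtain ⟨q, rfl⟩ := AdjoinRoot.mk_surjective (g := P) t
        rw [← map_mul, AdjoinRoot.mk_eq_mk] at ht
        obtain ⟨u, hu, -⟩ := sq_of_res (K := K) hP hv h2 hg0 (z := q) (by
          have : q ^ 2 - g = -(g - q * q) := by ring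
          rw [this]
          exact (dvd_neg).2 ht)
        exact ⟨u * s, by rw [← hu]; ring⟩
    have hpn := (hsq p x hx hp).not.1 hxs
    have hrn := (hsq r y hy hr).not.1 hys
    have hpr := nn_finite (two_adj (P := P) h2) hpn hrn
    rw [← map_mul] at hpr
    refine (hsq (p * r) (x * y) (by rw [map_mul, hx, hy, one_mul]) ?_).2 hpr
    have e : x * y - em K v (p * r) = (x - em K v p) * y + em K v p * (y - em K v r) := by
      rw [map_mul]; ring
    rw [e]
    refine lt_of_le_of_lt (Valuation.map_add _ _ _) (max_lt ?_ ?_)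
    · rw [map_mul, hy, mul_one]
      exact hp
    · rw [map_mul]
      exact mul_lt_one_of_nonneg_of_lt_one_right (vv_em_le p) zero_le hr
  unif := ⟨em K v P, vv_em_P hP.ne_zero hv⟩

/-- Lifting of a simple root. -/
theorem lift_root {a b R : k[X]} (hv : v.asIdeal = Ideal.span {P}) (hR : P ∣ R ^ 3 + a * R + b)
    (hR' : ¬ P ∣ 3 * R ^ 2 + a) : ∃ r : v.adicCompletion K,
      r ^ 3 + em K v a * r + em K v b = 0 ∧ vv v (r - em K v R) < 1 := by
  set p : (v.adicCompletion K)[X] := X ^ 3 + C (em K v a) * X + C (em K v b) with hp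
  have hev : ∀ z, p.eval z = z ^ 3 + em K v a * z + em K v b := by
    intro z
    rw [hp]; simp
  have hder : (derivative p).eval (em K v R) = em K v (3 * R ^ 2 + a) := by
    rw [hp]
    simp
    left
    rw [map_ofNat]
    norm_num
  have h1 : ∀ i, vv v (p.coeff i) ≤ 1 := by
    intro i
    have e : p = (X ^ 3 + C a * X + C b : k[X][X]).map (em K v) := by
      rw [hp]; simp
    rw [e, coeff_map]
    exact vv_em_le _
  obtain ⟨z, hz, hz1⟩ := Pool.Agent.N704.PJ.hensel p h1 (a := em K v R) (vv_em_le R) (by
    rw [hev]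
    have e : em K v R ^ 3 + em K v a * em K v R + em K v b = em K v (R ^ 3 + a * R + b) := by
      simp
    rw [e]
    exact (vv_em_lt hv _).2 hR) (by
    rw [hder]
    exact (vv_em_one hv _).2 hR')
  exact ⟨z, by rw [← hev]; exact hz, hz1⟩

end comp

end Pool.Agent.H467.MR
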