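import Pool.Agent.H467.MR.Comp
import Pool.Graph.R_pool_sql_team_seeded_63374d34.N862.PP.Nrm
import Pool.Graph.R_pool_sql_team_seeded_63374d34.N765.PP.Unim

/-!
# Coordinates in the cubic field and in its completions

Project MR (helper467).
-/

set_option autoImplicit false
set_option linter.all false

open Polynomial IsDedekindDomain WithZero
open Pool.Agent.N874.PP Pool.Agent.N352.PP Pool.Agent.N765.PP
open scoped Classical

namespace Pool.Agent.H467.MR

section crd

variable {k K L : Type} [Field k] [Field K] [Algebra k[X] K] [IsFractionRing k[X] K]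
  [Field L] [Algebra K L] [Algebra k[X] L] [IsScalarTower k[X] K L] {a b : k[X]} {θ : L}
  (h : IsCub K a b θ)

/-- The coordinates of `x` with respect to `1`, `θ`, `θ ^ 2`. -/
noncomputable def cK (h : IsCub K a b θ) (x : L) : Fin 3 → K := fun i => h.co i x

theorem cK_sum (x : L) : x = algebraMap K L (cK h x 0) + algebraMap K L (cK h x 1) * θ +
    algebraMap K L (cK h x 2) * θ ^ 2 := by
  obtain ⟨r, s, t, hx⟩ := h.gen x
  have e : ∀ i, cK h x i = ![r, s, t] i := by
    intro i
    have := co_sum h ![r, s, t] i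
    simp only [Matrix.cons_val_zero, Matrix.cons_val_one, Matrix.cons_val] at this
    rw [← hx] at this
    exact this
  rw [e 0, e 1, e 2]
  exact hx

theorem cK_of {x : L} {c : Fin 3 → K} (hx : x = algebraMap K L (c 0) + algebraMap K L (c 1) * θ +
    algebraMap K L (c 2) * θ ^ 2) : cK h x = c := by
  funext i
  have := co_sum h c i
  rw [← hx] at this
  exact this

theorem cK_mul (x y : L) :
    cK h (x * y) = mulc (algebraMap k[X] K a) (algebraMap k[X] K b) (cK h x) (cK h y) := by
  refine cK_of h ?_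
  have hr := h.root
  conv_lhs => rw [cK_sum h x, cK_sum h y]
  rw [IsScalarTower.algebraMap_apply k[X] K L, IsScalarTower.algebraMap_apply k[X] K L] at hr
  simp only [mulc, Matrix.cons_val_zero, Matrix.cons_val_one, Matrix.cons_val, map_sub, map_mul,
    map_add]
  generalize algebraMap K L (cK h x 0) = x0
  generalize algebraMap K L (cK h x 1) = x1
  generalize algebraMap K L (cK h x 2) = x2
  generalize algebraMap K L (cK h y 0) = y0
  generalize algebraMap K L (cK h y 1) = y1
  generalize algebraMap K L (cK h y 2) = y2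
  generalize algebraMap K L (algebraMap k[X] K a) = A at *
  generalize algebraMap K L (algebraMap k[X] K b) = B at *
  linear_combination (x1 * y2 + x2 * y1 + x2 * y2 * θ) * hr

theorem cK_inj {x y : L} (e : cK h x = cK h y) : x = y := by
  rw [cK_sum h x, cK_sum h y, e]

theorem cK_one : cK h (1 : L) = ![1, 0, 0] := cK_of h (by simp)

theorem cK_algebraMap (c : K) : cK h (algebraMap K L c) = ![c, 0, 0] := cK_of h (by simp)

theorem cK_theta : cK h θ = ![0, 1, 0] := cK_of h (by simp)

theorem cK_theta2 : cK h (θ ^ 2) = ![0, 0, 1] := cK_of h (by simp)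

theorem norm_cK (x : L) : Algebra.norm K x =
    dnE (algebraMap k[X] K a) (algebraMap k[X] K b) (cK h x) := by
  rw [Algebra.norm_eq_matrix_det h.basis, Matrix.det_fin_three]
  have hrep : ∀ (y : L) (i : Fin 3), h.basis.repr y i = cK h y i := fun y i => rfl
  simp only [Algebra.leftMulMatrix_eq_repr_mul, h.basis_apply, vec, Matrix.cons_val_zero,
    Matrix.cons_val_one, Matrix.cons_val, mul_one, hrep, cK_mul, cK_theta, cK_theta2, mulc, dnE]
  ring

/-- The coordinates in an extension of `K`. -/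
noncomputable def cE {E : Type} [Field E] (φ : K →+* E) (h : IsCub K a b θ) (x : L) : Fin 3 → E :=
  fun i => φ (cK h x i)

variable {E : Type} [Field E] (φ : K →+* E)

theorem cE_mul (x y : L) : cE φ h (x * y) = mulc (φ (algebraMap k[X] K a))
    (φ (algebraMap k[X] K b)) (cE φ h x) (cE φ h y) := by
  funext i
  unfold cE
  rw [cK_mul]
  fin_cases i <;> simp [mulc]

theorem cE_norm (x : L) : φ (Algebra.norm K x) =
    dnE (φ (algebraMap k[X] K a)) (φ (algebraMap k[X] K b)) (cE φ h x) := by
  rw [norm_cK h]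
  simp only [dnE, cE, map_add, map_sub, map_mul, map_neg]

theorem cE_nsq {x : L} (hx : x ≠ 0) (hn : IsSquare (Algebra.norm K x)) :
    Nsq (φ (algebraMap k[X] K a)) (φ (algebraMap k[X] K b)) (cE φ h x) := by
  haveI : FiniteDimensional K L := Module.finite_of_finrank_pos (by rw [h.rank]; norm_num)
  obtain ⟨n, hn⟩ := hn
  refine ⟨φ n, ?_, ?_⟩
  · intro h0
    have : n = 0 := (map_eq_zero φ).1 h0
    rw [this, mul_zero] at hn
    exact (Algebra.norm_ne_zero_iff.2 hx) hn
  · rw [← cE_norm h φ, hn, map_mul, pow_two]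

theorem cE_inv_mul {x : L} (hx : x ≠ 0) : mulc (φ (algebraMap k[X] K a))
    (φ (algebraMap k[X] K b)) (cE φ h x⁻¹) (cE φ h x) = ![1, 0, 0] := by
  rw [← cE_mul, inv_mul_cancel₀ hx]
  funext i
  unfold cE
  rw [cK_one]
  fin_cases i <;> simp

end crd

section iso

variable {k K L : Type} [Field k] [Field K] [Algebra k[X] K] [IsFractionRing k[X] K]
  [Field L] [Algebra K L] [Algebra k[X] L] [IsScalarTower k[X] K L] {a b : k[X]} {θ : L}
  (h : IsCub K a b θ)

/-- The form `c₂(x ^ 2 / α)` in coordinates. -/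
theorem form_eq {E : Type} [Field E] (φ : K →+* E) (α : L) (x : Fin 3 → E) :
    ∑ i : Fin 3, ∑ j : Fin 3, φ (h.co 2 (θ ^ (i : ℕ) * θ ^ (j : ℕ) / α)) * x i * x j =
      mulc (φ (algebraMap k[X] K a)) (φ (algebraMap k[X] K b)) (cE φ h α⁻¹)
        (mulc (φ (algebraMap k[X] K a)) (φ (algebraMap k[X] K b)) x x) 2 := by
  have e : ∀ i j : Fin 3, h.co 2 (θ ^ (i : ℕ) * θ ^ (j : ℕ) / α) =
      mulc (algebraMap k[X] K a) (algebraMap k[X] K b)
        (mulc (algebraMap k[X] K a) (algebraMap k[X] K b) (cK h (θ ^ (i : ℕ)))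
          (cK h (θ ^ (j : ℕ)))) (cK h α⁻¹) 2 := by
    intro i j
    rw [← cK_mul, ← cK_mul, div_eq_mul_inv]
    rfl
  have e0 : cK h (θ ^ ((0 : Fin 3) : ℕ)) = ![1, 0, 0] := by
    rw [show (((0 : Fin 3) : ℕ)) = 0 from rfl, pow_zero]; exact cK_one h
  have e1 : cK h (θ ^ ((1 : Fin 3) : ℕ)) = ![0, 1, 0] := by
    rw [show (((1 : Fin 3) : ℕ)) = 1 from rfl, pow_one]; exact cK_theta h
  have e2 : cK h (θ ^ ((2 : Fin 3) : ℕ)) = ![0, 0, 1] := by
    rw [show (((2 : Fin 3) : ℕ)) = 2 from rfl]; exact cK_theta2 h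
  simp only [e, Fin.sum_univ_three, e0, e1, e2]
  simp only [mulc, Matrix.cons_val_zero, Matrix.cons_val_one, Matrix.cons_val, cE, map_add, map_sub,
    map_mul, map_zero, map_one]
  ring

theorem isoAt_iff (v : HeightOneSpectrum k[X]) (α : L) :
    IsoAt h v α ↔ Iso (em K v a) (em K v b) (cE (algebraMap K (v.adicCompletion K)) h α⁻¹) := by
  unfold IsoAt Iso
  simp only [form_eq h (algebraMap K (v.adicCompletion K)) α]
  rfl

end iso

end Pool.Agent.H467.MR
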