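import Pool.Agent.H467.MR.Spec2
import Pool.Graph.R_pool_sql_team_seeded_63374d34.N26.PP.Diag
import Pool.Graph.R_seed8.TH115.GD.Final

/-! Diagonalisation of a ternary form which is isotropic at infinity (S_DIAGI). -/

set_option autoImplicit false
set_option linter.all false

open Polynomial IsDedekindDomain Matrix
open Pool.Agent.N874.PP Pool.Agent.TH115.GD Pool.Agent.N26.PP

namespace Pool.Agent.H467.MR.Diagi

section second

variable {k K L : Type} [Field k] [Field K] [Algebra k[X] K]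
  [IsFractionRing k[X] K] [Field L] [Algebra K L] [Algebra k[X] L] [IsScalarTower k[X] K L]
  {a b : k[X]} {θ : L}

theorem two_ne (h6 : (6 : k) ≠ 0) : (2 : K) ≠ 0 := by
  have hinj : Function.Injective (algebraMap k[X] K) := IsFractionRing.injective k[X] K
  have h2k : (2 : k) ≠ 0 := by
    intro h0
    apply h6
    have : (6 : k) = 2 * 3 := by norm_num
    rw [this, h0, zero_mul]
  intro h0
  apply h2k
  have h1 : algebraMap k[X] K (C 2) = algebraMap k[X] K 0 := by
    rw [map_zero, ← h0]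
    rw [show (C (2 : k) : k[X]) = 2 by rw [map_ofNat], map_ofNat]
  have h3 := hinj h1
  rwa [C_eq_zero] at h3

theorem scal (h : IsCub K a b θ) (α : L) (t t' : K) (v w : L) :
    h.co 2 ((algebraMap K L t * v) * (algebraMap K L t' * w) / α) =
      t * t' * h.co 2 (v * w / α) := by
  have e1 : (algebraMap K L t * v) * (algebraMap K L t' * w) / α =
      (t * t') • (v * w / α) := by
    rw [Algebra.smul_def, map_mul]; ring
  rw [e1, map_smul, smul_eq_mul]

theorem second (h6 : (6 : k) ≠ 0) (h : IsCub K a b θ) {α : L} (hα : α ≠ 0)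
    (hsq : IsSquare (Algebra.norm K α)) {d : k[X]} (hdmon : d.Monic) (hdsq : Squarefree d)
    (hdeven : Even d.natDegree) {v₀ : L} (hv00 : h.co 2 (v₀ * v₀ / α) = algebraMap k[X] K d) :
    ∃ d e : k[X], d.Monic ∧ Squarefree d ∧ Even d.natDegree ∧ e ≠ 0 ∧ Squarefree e ∧
    ∃ v : Fin 3 → L, LinearIndependent K v ∧ (∀ i j, i ≠ j → h.co 2 (v i * v j / α) = 0) ∧
      h.co 2 (v 0 ^ 2 / α) = algebraMap k[X] K d ∧ h.co 2 (v 1 ^ 2 / α) = algebraMap k[X] K e ∧
      h.co 2 (v 2 ^ 2 / α) = - algebraMap k[X] K (d * e) := by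
  have hinj : Function.Injective (algebraMap k[X] K) := IsFractionRing.injective k[X] K
  have h2K : (2 : K) ≠ 0 := two_ne h6
  obtain ⟨ν, hν⟩ := hsq
  have hnα : Algebra.norm K α ≠ 0 := by
    have : FiniteDimensional K L := Module.finite_of_finrank_pos (by rw [h.rank]; omega)
    exact Algebra.norm_ne_zero_iff.2 hα
  have hν0 : ν ≠ 0 := by
    rintro rfl
    exact hnα (by rw [hν, mul_zero])
  have hne : ∀ q : k[X], q ≠ 0 → algebraMap k[X] K q ≠ 0 := by
    intro q hq h0
    exact hq (hinj (by rw [h0, map_zero]))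
  have hsc := scal h α
  have hd0 : d ≠ 0 := hdmon.ne_zero
  have hdK := hne d hd0
  obtain ⟨v₁, v₂, h01, h02, h12, h11, h22⟩ := orth h hα h2K (v₀ := v₀) (by rw [hv00]; exact hdK)
  -- the second vector
  obtain ⟨p₁, q₁, hq₁, hpq⟩ := IsFractionRing.div_surjective (A := k[X]) (h.co 2 (v₁ * v₁ / α))
  have hq₁0 : q₁ ≠ 0 := nonZeroDivisors.ne_zero hq₁
  have hq₁K := hne q₁ hq₁0
  have hp₁0 : p₁ ≠ 0 := by
    rintro rfl
    rw [map_zero, zero_div] at hpq
    exact h11 hpq.symm
  obtain ⟨e₁, g₂, he₁sq, hg₂0, heg⟩ := sqf_dec _ (p₁ * q₁) le_rfl (mul_ne_zero hp₁0 hq₁0)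
  have he₁0 : e₁ ≠ 0 := he₁sq.ne_zero
  have he₁K := hne e₁ he₁0
  have hg₂K := hne g₂ hg₂0
  set t₁ : K := algebraMap k[X] K q₁ / algebraMap k[X] K g₂ with ht₁
  have hv11 : h.co 2 ((algebraMap K L t₁ * v₁) * (algebraMap K L t₁ * v₁) / α) =
      algebraMap k[X] K e₁ := by
    rw [hsc, ← hpq, ht₁]
    have h1 : algebraMap k[X] K p₁ * algebraMap k[X] K q₁ =
        algebraMap k[X] K e₁ * algebraMap k[X] K g₂ ^ 2 := by
      rw [← map_mul, heg, map_mul, map_pow]
    field_simp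
    linear_combination h1
  -- the determinant
  set w₁ : L := algebraMap K L t₁ * v₁ with hw₁
  have hw01 : h.co 2 (v₀ * w₁ / α) = 0 := by
    have h1 := hsc 1 t₁ v₀ v₁
    rw [map_one, one_mul, h01, mul_zero] at h1
    exact h1
  have hw12 : ∀ t : K, h.co 2 (w₁ * (algebraMap K L t * v₂) / α) = 0 := by
    intro t
    rw [hw₁, hsc, h12, mul_zero]
  have hdet : ∀ t : K, algebraMap k[X] K d * algebraMap k[X] K e₁ *
      (t * t * h.co 2 (v₂ * v₂ / α)) * (ν * ν) =
      -((h.basis.toMatrix ![v₀, w₁, algebraMap K L t * v₂]).det ^ 2) := by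
    intro t
    rw [← hν, ← det_gram h hα, Matrix.det_fin_three]
    have h02' : h.co 2 (v₀ * (algebraMap K L t * v₂) / α) = 0 := by
      have h1 := hsc 1 t v₀ v₂
      rw [map_one, one_mul, h02, mul_zero] at h1
      exact h1
    simp only [Matrix.of_apply, Matrix.cons_val_zero, Matrix.cons_val_one, Matrix.cons_val]
    rw [hv00, hv11, hw12, h02', hw01, mul_comm w₁ v₀, hw01, mul_comm (algebraMap K L t * v₂) v₀,
      h02', mul_comm (algebraMap K L t * v₂) w₁, hw12, hsc]
    ring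
  set Δ : K := (h.basis.toMatrix ![v₀, w₁, algebraMap K L 1 * v₂]).det with hΔ
  have hdet1 := hdet 1
  rw [← hΔ, one_mul, one_mul] at hdet1
  have hΔ0 : Δ ≠ 0 := by
    intro h0
    rw [h0] at hdet1
    have h1 : algebraMap k[X] K d * algebraMap k[X] K e₁ * h.co 2 (v₂ * v₂ / α) * (ν * ν) ≠ 0 :=
      mul_ne_zero (mul_ne_zero (mul_ne_zero hdK he₁K) h22) (mul_ne_zero hν0 hν0)
    exact h1 (by rw [hdet1]; ring)
  set t₂ : K := algebraMap k[X] K d * algebraMap k[X] K e₁ * ν / Δ with ht₂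
  have ht₂0 : t₂ ≠ 0 := div_ne_zero (mul_ne_zero (mul_ne_zero hdK he₁K) hν0) hΔ0
  have hv22 : t₂ * t₂ * h.co 2 (v₂ * v₂ / α) = -(algebraMap k[X] K (d * e₁)) := by
    obtain ⟨β, hβ⟩ : ∃ β, β = h.co 2 (v₂ * v₂ / α) := ⟨_, rfl⟩
    rw [← hβ] at hdet1 ⊢
    rw [map_mul, ht₂]
    have h1 : algebraMap k[X] K d * algebraMap k[X] K e₁ ≠ 0 := mul_ne_zero hdK he₁K
    field_simp
    linear_combination hdet1
  refine ⟨d, e₁, hdmon, hdsq, hdeven, he₁0, he₁sq, ![v₀, w₁, algebraMap K L t₂ * v₂], ?_, ?_, ?_,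
    ?_, ?_⟩
  · have hdt := hdet t₂
    have hne2 : (h.basis.toMatrix ![v₀, w₁, algebraMap K L t₂ * v₂]).det ≠ 0 := by
      intro h0
      rw [h0, hv22, map_mul] at hdt
      have h1 : algebraMap k[X] K d * algebraMap k[X] K e₁ *
          -(algebraMap k[X] K d * algebraMap k[X] K e₁) * (ν * ν) ≠ 0 :=
        mul_ne_zero (mul_ne_zero (mul_ne_zero hdK he₁K) (neg_ne_zero.2 (mul_ne_zero hdK he₁K)))
          (mul_ne_zero hν0 hν0)
      exact h1 (by rw [hdt]; ring)
    exact ((h.basis.is_basis_iff_det).2 (isUnit_iff_ne_zero.2 hne2)).1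
  · have h02' : h.co 2 (v₀ * (algebraMap K L t₂ * v₂) / α) = 0 := by
      have h1 := hsc 1 t₂ v₀ v₂
      rw [map_one, one_mul, h02, mul_zero] at h1
      exact h1
    intro i j hij
    fin_cases i <;> fin_cases j
    · exact absurd rfl hij
    · exact hw01
    · exact h02'
    · show h.co 2 (w₁ * v₀ / α) = 0
      rw [mul_comm]; exact hw01
    · exact absurd rfl hij
    · exact hw12 t₂
    · show h.co 2 (algebraMap K L t₂ * v₂ * v₀ / α) = 0
      rw [mul_comm]; exact h02'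
    · show h.co 2 (algebraMap K L t₂ * v₂ * w₁ / α) = 0
      rw [mul_comm]; exact hw12 t₂
    · exact absurd rfl hij
  · show h.co 2 (v₀ ^ 2 / α) = _
    rw [pow_two]; exact hv00
  · show h.co 2 (w₁ ^ 2 / α) = _
    rw [pow_two]; exact hv11
  · show h.co 2 ((algebraMap K L t₂ * v₂) ^ 2 / α) = _
    rw [pow_two, hsc]; exact hv22

end second

section uni

/-- an isotropic nondegenerate ternary form represents one -/
theorem rep_one {E : Type} [Field E] (h2 : (2 : E) ≠ 0) (M : Matrix (Fin 3) (Fin 3) E)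
    (hM : M.det ≠ 0) (hs : Mᵀ = M) (x : Fin 3 → E) (hx : x ≠ 0)
    (hq : x ⬝ᵥ (M *ᵥ x) = 0) : ∃ z : Fin 3 → E, z ⬝ᵥ (M *ᵥ z) = 1 := by
  have h1 : M *ᵥ x ≠ 0 := fun h => hx (Matrix.eq_zero_of_mulVec_eq_zero hM h)
  obtain ⟨i, hi⟩ := Function.ne_iff.1 h1
  rw [Pi.zero_apply] at hi
  set e : Fin 3 → E := Pi.single i ((M *ᵥ x) i)⁻¹ with he
  have hB : e ⬝ᵥ (M *ᵥ x) = 1 := by
    rw [he, single_dotProduct, inv_mul_cancel₀ hi]
  have hB' : x ⬝ᵥ (M *ᵥ e) = 1 := by
    rw [Matrix.dotProduct_mulVec, ← Matrix.mulVec_transpose, hs, dotProduct_comm, hB]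
  refine ⟨((1 - e ⬝ᵥ (M *ᵥ e)) / 2) • x + e, ?_⟩
  rw [Matrix.mulVec_add, Matrix.mulVec_smul, dotProduct_add, add_dotProduct, add_dotProduct,
    smul_dotProduct, smul_dotProduct, dotProduct_smul, dotProduct_smul, hq, hB, hB']
  simp only [smul_eq_mul]
  field_simp
  ring

end uni

section first

variable {k K L : Type} [Field k] [Field K] [Algebra k[X] K]
  [IsFractionRing k[X] K] [Field L] [Algebra K L] [Algebra k[X] L] [IsScalarTower k[X] K L]
  {a b : k[X]} {θ : L}

/-- the Gram matrix -/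
noncomputable def gm (h : IsCub K a b θ) (α : L) : Matrix (Fin 3) (Fin 3) K :=
  Matrix.of fun i j => h.co 2 (θ ^ (i : ℕ) * θ ^ (j : ℕ) / α)

theorem gm_det (h : IsCub K a b θ) {α : L} (hα : α ≠ 0) : (gm h α).det ≠ 0 := by
  have h1 := det_gram h hα (fun i : Fin 3 => θ ^ (i : ℕ))
  have h2 : (fun i : Fin 3 => θ ^ (i : ℕ)) = h.basis := by
    funext i
    rw [h.basis_apply]
    fin_cases i <;> simp [Pool.Agent.N874.PP.vec]
  rw [h2, Module.Basis.toMatrix_self, Matrix.det_one] at h1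
  intro h0
  have h3 : (Matrix.of fun i j : Fin 3 => h.co 2 (θ ^ (i : ℕ) * θ ^ (j : ℕ) / α)).det = 0 := h0
  rw [h3, zero_mul] at h1
  norm_num at h1

theorem gm_symm (h : IsCub K a b θ) (α : L) : (gm h α)ᵀ = gm h α := by
  ext i j
  simp only [gm, Matrix.transpose_apply, Matrix.of_apply]
  rw [mul_comm]

theorem gm_val (h : IsCub K a b θ) (α : L) (y : Fin 3 → K) :
    h.co 2 ((∑ i : Fin 3, algebraMap K L (y i) * θ ^ (i : ℕ)) *
      (∑ i : Fin 3, algebraMap K L (y i) * θ ^ (i : ℕ)) / α) =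
    ∑ i : Fin 3, ∑ j : Fin 3, gm h α i j * y i * y j := by
  rw [Finset.sum_mul_sum, Finset.sum_div, map_sum]
  refine Finset.sum_congr rfl fun i _ => ?_
  rw [Finset.sum_div, map_sum]
  refine Finset.sum_congr rfl fun j _ => ?_
  rw [scal]
  simp only [gm, Matrix.of_apply]
  ring

/-- elements close to one at infinity -/
theorem near_one {w : K} (hw : vInf k K (w - 1) < 1) : ∃ (d q g : k[X]) (c : k), c ≠ 0 ∧ q ≠ 0 ∧
    g.Monic ∧ d.Monic ∧ Squarefree d ∧ Even d.natDegree ∧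
    w * algebraMap k[X] K q ^ 2 = algebraMap k[X] K (C (c * c) * (d * g ^ 2)) := by
  have hinj : Function.Injective (algebraMap k[X] K) := IsFractionRing.injective k[X] K
  obtain ⟨p, q, hq, rfl⟩ := IsFractionRing.div_surjective (A := k[X]) w
  have hq0 : q ≠ 0 := nonZeroDivisors.ne_zero hq
  have hqK : algebraMap k[X] K q ≠ 0 := fun h => hq0 (hinj (by rw [h, map_zero]))
  have h1 : vInf k K (algebraMap k[X] K (p - q)) < vInf k K (algebraMap k[X] K q) := by
    have e : algebraMap k[X] K (p - q) = (algebraMap k[X] K p / algebraMap k[X] K q - 1) *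
        algebraMap k[X] K q := by
      rw [sub_mul, div_mul_cancel₀ _ hqK, one_mul, map_sub]
    rw [e, map_mul]
    have h2 : 0 < vInf k K (algebraMap k[X] K q) := zero_lt_iff.2 ((Valuation.ne_zero_iff _).2 hqK)
    exact mul_lt_of_lt_one_left h2 hw
  have hdeg : (p - q).degree < q.degree := by
    by_cases h0 : p - q = 0
    · rw [h0, degree_zero]; exact bot_lt_iff_ne_bot.2 (degree_ne_bot.2 hq0)
    · rw [vInf_poly h0, vInf_poly hq0, WithZero.exp_lt_exp] at h1
      rw [degree_eq_natDegree h0, degree_eq_natDegree hq0]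
      exact_mod_cast h1
  have hp : p = (p - q) + q := by ring
  have hdp : p.degree = q.degree := by
    rw [hp]; exact degree_add_eq_right_of_degree_lt hdeg
  have hlp : p.leadingCoeff = q.leadingCoeff := by
    rw [hp]; exact leadingCoeff_add_of_degree_lt hdeg
  have hp0 : p ≠ 0 := by
    intro h
    rw [h, degree_zero] at hdp
    exact hq0 (degree_eq_bot.1 hdp.symm)
  have hnd : p.natDegree = q.natDegree := natDegree_eq_of_degree_eq hdp
  set c := q.leadingCoeff with hc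
  have hc0 : c ≠ 0 := leadingCoeff_ne_zero.2 hq0
  have hcc : c * c ≠ 0 := mul_ne_zero hc0 hc0
  set m : k[X] := C (c * c)⁻¹ * (p * q) with hm
  have hmon : m.Monic := by
    rw [Monic, hm, leadingCoeff_mul, leadingCoeff_C, leadingCoeff_mul, hlp, inv_mul_cancel₀ hcc]
  have hmdeg : m.natDegree = 2 * q.natDegree := by
    rw [hm, natDegree_C_mul (inv_ne_zero hcc), natDegree_mul hp0 hq0, hnd]; ring
  obtain ⟨d, g, hdsq, hdmon, hgmon, hmd⟩ := sqf_dec_monic m hmon
  have hdeven : Even d.natDegree := by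
    have h1 : m.natDegree = d.natDegree + 2 * g.natDegree := by
      rw [hmd, hdmon.natDegree_mul (hgmon.pow 2), hgmon.natDegree_pow]
    rw [hmdeg] at h1
    exact ⟨q.natDegree - g.natDegree, by omega⟩
  refine ⟨d, q, g, c, hc0, hq0, hgmon, hdmon, hdsq, hdeven, ?_⟩
  rw [← hmd, hm, ← mul_assoc, ← C_mul, mul_inv_cancel₀ hcc, C_1, one_mul, map_mul]
  field_simp

theorem exists_close (M : Matrix (Fin 3) (Fin 3) K) (z : Fin 3 → CompInf k K)
    (hz : ∑ i : Fin 3, ∑ j : Fin 3, algebraMap K (CompInf k K) (M i j) * z i * z j = 1) :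
    ∃ y : Fin 3 → K, vInf k K (∑ i : Fin 3, ∑ j : Fin 3, M i j * y i * y j - 1) < 1 := by
  let v : HeightOneSpectrum k[X] := pl (0 : k)
  let E : Type := v.adicCompletion (AtInf K)
  let ι : AtInf K →+* v.adicCompletion (AtInf K) := algebraMap (AtInf K) (v.adicCompletion (AtInf K))
  let F : (Fin 3 → v.adicCompletion (AtInf K)) → v.adicCompletion (AtInf K) :=
    fun z => ∑ i : Fin 3, ∑ j : Fin 3, ι (M i j) * z i * z j - 1
  have hF : Continuous F := by fun_prop
  have hopen : IsOpen {z : Fin 3 → v.adicCompletion (AtInf K) |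
      (Valued.v (R := v.adicCompletion (AtInf K))).restrict (F z) < 1} := by
    have h7 := Valued.isOpen_ball (v.adicCompletion (AtInf K)) (1 : MonoidWithZeroHom.ValueGroup₀
      (.ofClass (Valued.v (R := v.adicCompletion (AtInf K)))))
    exact h7.preimage hF
  have hdense : DenseRange (Pi.map fun (_ : Fin 3) => (ι : AtInf K → v.adicCompletion (AtInf K))) :=
    DenseRange.piMap fun _ => v.denseRange_algebraMap (K := AtInf K)
  let z' : Fin 3 → v.adicCompletion (AtInf K) := z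
  obtain ⟨y', hy⟩ := hdense.exists_mem_open hopen ⟨z', by
    have : F z' = 0 := by
      show (∑ i : Fin 3, ∑ j : Fin 3, ι (M i j) * z' i * z' j) - 1 = 0
      rw [sub_eq_zero]
      exact hz
    show (Valued.v (R := v.adicCompletion (AtInf K))).restrict (F z') < 1
    rw [this, map_zero]
    exact zero_lt_one⟩
  let y : Fin 3 → K := y'
  refine ⟨y, ?_⟩
  have h9 : (Valued.v (R := v.adicCompletion (AtInf K))).restrict
      (F (Pi.map (fun (_ : Fin 3) => (ι : AtInf K → v.adicCompletion (AtInf K))) y')) < 1 := hy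
  rw [Valuation.restrict_lt_one_iff] at h9
  rw [← wInf]
  have e : F (Pi.map (fun (_ : Fin 3) => (ι : AtInf K → v.adicCompletion (AtInf K))) y') =
      algebraMap K (CompInf k K) (∑ i : Fin 3, ∑ j : Fin 3, M i j * y i * y j - 1) := by
    rw [map_sub, map_one, map_sum]
    simp only [map_sum, map_mul]
    rfl
  rw [e] at h9
  exact h9

end first

theorem diagi : S_DIAGI := by
  intro k K L _ _ _ _ _ _ _ _ _ a b θ h6 h α hα hsq hiso
  obtain ⟨x, hx, hq⟩ := hiso
  have hinj : Function.Injective (algebraMap k[X] K) := IsFractionRing.injective k[X] K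
  have h2K : (2 : K) ≠ 0 := two_ne h6
  set ι := algebraMap K (CompInf k K) with hι
  have h2E : (2 : CompInf k K) ≠ 0 := by
    have : (2 : CompInf k K) = ι 2 := (map_ofNat ι 2).symm
    rw [this]
    exact (map_ne_zero ι).2 h2K
  have hconv : ∀ z : Fin 3 → CompInf k K, z ⬝ᵥ ((gm h α).map ι *ᵥ z) =
      ∑ i : Fin 3, ∑ j : Fin 3, ι (gm h α i j) * z i * z j := by
    intro z
    unfold Matrix.mulVec dotProduct
    refine Finset.sum_congr rfl fun i _ => ?_
    rw [Finset.mul_sum]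
    refine Finset.sum_congr rfl fun j _ => ?_
    simp only [Matrix.map_apply]; ring
  obtain ⟨z, hz⟩ := rep_one h2E ((gm h α).map ι) (by
    have h1 : ((gm h α).map ι).det = ι (gm h α).det := (RingHom.map_det ι (gm h α)).symm
    rw [h1]
    exact (map_ne_zero ι).2 (gm_det h hα)) (by
    rw [← Matrix.transpose_map, gm_symm]) x hx (by
    rw [hconv]
    exact hq)
  rw [hconv] at hz
  obtain ⟨y, hy⟩ := exists_close (gm h α) z hz
  obtain ⟨d, q, g, c, hc0, hq0, hgmon, hdmon, hdsq, hdeven, hw⟩ := near_one hy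
  rw [← gm_val] at hw
  set x0 : L := ∑ i : Fin 3, algebraMap K L (y i) * θ ^ (i : ℕ) with hx0
  have hne : ∀ q : k[X], q ≠ 0 → algebraMap k[X] K q ≠ 0 := by
    intro q hq h0
    exact hq (hinj (by rw [h0, map_zero]))
  have hcK : algebraMap k[X] K (C c) ≠ 0 := hne _ (by rwa [Ne, C_eq_zero])
  have hgK := hne g hgmon.ne_zero
  have hqK := hne q hq0
  refine second h6 h hα hsq hdmon hdsq hdeven
    (v₀ := algebraMap K L (algebraMap k[X] K q / (algebraMap k[X] K (C c) * algebraMap k[X] K g)) *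
      x0) ?_
  rw [scal]
  rw [C_mul, map_mul, map_mul, map_mul, map_pow] at hw
  obtain ⟨β, hβ⟩ : ∃ β, β = h.co 2 (x0 * x0 / α) := ⟨_, rfl⟩
  rw [← hβ] at hw ⊢
  field_simp
  linear_combination hw

end Pool.Agent.H467.MR.Diagi
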