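import Pool.Agent.H467.MR.Spec

/-!
# Simultaneous quadratic twists with trivial 2-Selmer groups over `k(t)`: statements, second part

Project MR (helper467).
-/

set_option autoImplicit false
set_option linter.all false

open Polynomial IsDedekindDomain WeierstrassCurve WeierstrassCurve.Affine
open Pool.Agent.N874.PP Pool.Agent.TH115.GD
open scoped Classical

namespace Pool.Agent.H467.MR

/-- At a prime modulo which the cubic polynomial has no root, elements whose norm is a square have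
even valuations. -/
def S_EVI : Prop := ∀ (k K L O : Type) [Field k] [Field K] [Algebra k[X] K] [IsFractionRing k[X] K]
  [Field L] [Algebra K L] [Algebra k[X] L] [IsScalarTower k[X] K L] [CommRing O]
  [IsDedekindDomain O] [Algebra O L] [IsFractionRing O L] [Algebra k[X] O]
  [IsScalarTower k[X] O L] [IsIntegralClosure O k[X] L] [Module.Finite k[X] O]
  [Module.IsTorsionFree k[X] O] (a b : k[X]) (θ : L), (6 : k) ≠ 0 → IsCub K a b θ →
  ∀ P : k[X], Irreducible P → (∀ c : k[X], ¬ P ∣ c ^ 3 + a * c + b) →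
  ∀ α : L, α ≠ 0 → IsSquare (Algebra.norm K α) → ∀ 𝔓 : HeightOneSpectrum O, Ov P 𝔓 → Ev 𝔓 α

/-- Even valuations at a prime not dividing the discriminant: the form is isotropic. -/
def S_UNI : Prop := ∀ (k K L O : Type) [Field k] [Finite k] [Field K] [Algebra k[X] K]
  [IsFractionRing k[X] K]
  [Field L] [Algebra K L] [Algebra k[X] L] [IsScalarTower k[X] K L] [CommRing O]
  [IsDedekindDomain O] [Algebra O L] [IsFractionRing O L] [Algebra k[X] O]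
  [IsScalarTower k[X] O L] [IsIntegralClosure O k[X] L] (a b : k[X]) (θ : L),
  (6 : k) ≠ 0 → ∀ h : IsCub K a b θ,
  ∀ (P : k[X]) (v : HeightOneSpectrum k[X]), Irreducible P → v.asIdeal = Ideal.span {P} →
  ¬ P ∣ dsc a b →
  ∀ α : L, α ≠ 0 → (∀ 𝔓 : HeightOneSpectrum O, Ov P 𝔓 → Ev 𝔓 α) → IsoAt h v α

/-- Diagonalisation over `K`, with the first coefficient a square at infinity, for a form which is
isotropic at infinity. -/
def S_DIAGI : Prop := ∀ (k K L : Type) [Field k] [Finite k] [Field K] [Algebra k[X] K]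
  [IsFractionRing k[X] K] [Field L] [Algebra K L] [Algebra k[X] L] [IsScalarTower k[X] K L]
  (a b : k[X]) (θ : L), (6 : k) ≠ 0 → ∀ h : IsCub K a b θ,
  ∀ α : L, α ≠ 0 → IsSquare (Algebra.norm K α) →
  (∃ x : Fin 3 → CompInf k K, x ≠ 0 ∧
    ∑ i : Fin 3, ∑ j : Fin 3, algebraMap K (CompInf k K)
      (h.co 2 (θ ^ (i : ℕ) * θ ^ (j : ℕ) / α)) * x i * x j = 0) →
  ∃ d e : k[X], d.Monic ∧ Squarefree d ∧ Even d.natDegree ∧ e ≠ 0 ∧ Squarefree e ∧
    ∃ v : Fin 3 → L, LinearIndependent K v ∧ (∀ i j, i ≠ j → h.co 2 (v i * v j / α) = 0) ∧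
      h.co 2 (v 0 ^ 2 / α) = algebraMap k[X] K d ∧ h.co 2 (v 1 ^ 2 / α) = algebraMap k[X] K e ∧
      h.co 2 (v 2 ^ 2 / α) = - algebraMap k[X] K (d * e)

/-- The primes modulo which none of the cubic polynomials has a root. -/
def InS {k : Type} [Field k] {m : ℕ} (a b : Fin m → k[X]) : Set (Pr k) :=
  {Q | ∀ i, ∀ c : k[X], ¬ Q.1 ∣ c ^ 3 + a i * c + b i}

/-- The parity of the degree of `Q`, and the classes of `Q` modulo the primes `B i`. -/
noncomputable def chi {k : Type} [Field k] {r : ℕ} (B : Fin r → k[X]) (Q : Pr k) :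
    Fin (r + 1) → ZMod 2 :=
  Fin.cons (Q.1.natDegree : ZMod 2) (fun i => if ∃ z : k[X], B i ∣ z ^ 2 - Q.1 then 0 else 1)

/-- The density of the set `InS`, and its primes generate all the classes. -/
def S_GEN : Prop := ∀ (k K : Type) [Field k] [Finite k] [Field K] [Algebra k[X] K]
  [IsFractionRing k[X] K] (m : ℕ) (a b P : Fin m → k[X]), (6 : k) ≠ 0 → Dat K a b P →
  LogD (fun Q : Pr k => if Q ∈ InS a b then (1 : ℝ) else 0) ((1 / 3) ^ m) ∧
  ∀ (r : ℕ) (B : Fin r → k[X]), (∀ i, (B i).Monic ∧ Irreducible (B i)) → Function.Injective B →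
    (∀ i j, ¬ P i ∣ B j) → ∀ g : Fin (r + 1) → ZMod 2,
    ∃ A : Finset (Pr k), (∀ Q ∈ A, Q ∈ InS a b) ∧ ∑ Q ∈ A, chi B Q = g

/-- Primes with exactly one simple root `R` of the `i`-th cubic polynomial, no roots of the others,
such that the value at `R` of a given nonsquare of square norm is not a square. -/
def S_STQ : Prop := ∀ (k K : Type) [Field k] [Finite k] [Field K] [Algebra k[X] K]
  [IsFractionRing k[X] K] (m : ℕ) (a b P : Fin m → k[X]), (6 : k) ≠ 0 → Dat K a b P →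
  ∀ (i : Fin m) (L : Type) [Field L] [Algebra K L] [Algebra k[X] L] [IsScalarTower k[X] K L]
  (θ : L), IsCub K (a i) (b i) θ → ∀ h : k[X][X],
  eval₂ (algebraMap k[X] L) θ h ≠ 0 →
  IsSquare (Algebra.norm K (eval₂ (algebraMap k[X] L) θ h)) →
  ¬ IsSquare (eval₂ (algebraMap k[X] L) θ h) → ∀ N : k[X], N ≠ 0 →
  ∃ (Q : Pr k) (R : k[X]), ¬ Q.1 ∣ N ∧ ¬ Q.1 ∣ dsc (a i) (b i) ∧
    Q.1 ∣ R ^ 3 + a i * R + b i ∧ (∀ z : k[X], ¬ Q.1 ∣ z ^ 2 + (3 * R ^ 2 + 4 * a i)) ∧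
    (∀ j, j ≠ i → ∀ c : k[X], ¬ Q.1 ∣ c ^ 3 + a j * c + b j) ∧
    ∀ z : k[X], ¬ Q.1 ∣ z ^ 2 - h.eval R

/-- From products of primes to a set of polynomials. -/
def S_ASM : Prop := ∀ (k : Type) [Field k] [Finite k] (T : Set (Pr k)) (D₀ : k[X])
  (G : k[X] → Prop) (Cd : Finset (Pr k) → Prop) (δ c : ℝ) (n₀ : ℕ), 0 < δ → 0 < c → D₀.Monic →
  (∀ n : ℕ, n₀ ≤ n →
    {A : Finset (Pr k) | (∀ Q ∈ A, Q ∈ T) ∧ Cd A ∧ ∑ Q ∈ A, Q.1.natDegree ≤ n}.Finite ∧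
    c * (n : ℝ) ^ δ ≤ ∑ᶠ A ∈ {A : Finset (Pr k) | (∀ Q ∈ A, Q ∈ T) ∧ Cd A ∧
      ∑ Q ∈ A, Q.1.natDegree ≤ n}, ((Nat.card k : ℝ) ^ (∑ Q ∈ A, Q.1.natDegree))⁻¹) →
  (∀ A : Finset (Pr k), (∀ Q ∈ A, Q ∈ T) → Cd A → G (D₀ * ∏ Q ∈ A, Q.1)) →
  ∃ c' : ℝ, 0 < c' ∧ ∃ n₁ : ℕ, ∀ n : ℕ, n₁ ≤ n →
    {D : k[X] | D.Monic ∧ D.natDegree ≤ n ∧ G D}.Finite ∧
    c' * (n : ℝ) ^ δ ≤ ∑ᶠ D ∈ {D : k[X] | D.Monic ∧ D.natDegree ≤ n ∧ G D},
      ((Nat.card k : ℝ) ^ D.natDegree)⁻¹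

end Pool.Agent.H467.MR
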