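import Pool.Agent.H467.MR.Prm2
import Pool.Agent.H467.MR.Spec2

/-!
# Inert primes of the cubic field (project MR, helper467; this part: helper627)
-/

set_option autoImplicit false
set_option linter.all false

open Polynomial IsDedekindDomain WithZero UniqueFactorizationMonoid
open Pool.Agent.N874.PP Pool.Agent.N352.PP
open scoped Classical

namespace Pool.Agent.H467.MR.Evi

/-- A root of an irreducible cubic polynomial satisfies no relation of degree two. -/
theorem key {κ F : Type} [Field κ] [CommRing F] [Nontrivial F] (φ : κ →+* F) (a b p0 p1 p2 : κ)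
    (t : F) (hirr : ∀ c : κ, c ^ 3 + a * c + b ≠ 0) (ht : t ^ 3 + φ a * t + φ b = 0)
    (hg : φ p0 + φ p1 * t + φ p2 * t ^ 2 = 0) : p0 = 0 ∧ p1 = 0 ∧ p2 = 0 := by
  letI : Algebra κ F := φ.toAlgebra
  have hφ : ∀ x, algebraMap κ F x = φ x := fun x => rfl
  set f : κ[X] := X ^ 3 + (C a * X + C b) with hf
  have hdl : (C a * X + C b : κ[X]).degree < (3 : ℕ) := by
    refine lt_of_le_of_lt (degree_linear_le) ?_
    norm_num
  have hm : f.Monic := monic_X_pow_add (by
    refine (degree_linear_le).trans_lt ?_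
    norm_num)
  have hdeg : f.natDegree = 3 := natDegree_eq_of_degree_eq_some (by
    rw [hf, degree_add_eq_left_of_degree_lt (by rw [degree_X_pow]; exact hdl), degree_X_pow])
  have hirr' : Irreducible f := by
    rw [hm.irreducible_iff_roots_eq_zero_of_degree_le_three (by rw [hdeg]; norm_num)
      (by rw [hdeg])]
    rw [Multiset.eq_zero_iff_forall_notMem]
    intro c hc
    have h1 := (mem_roots hm.ne_zero).1 hc
    rw [IsRoot.def, hf] at h1
    simp only [eval_add, eval_pow, eval_X, eval_mul, eval_C] at h1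
    exact hirr c (by rw [← h1]; ring)
  have hroot : aeval t f = 0 := by
    rw [hf]
    simp only [map_add, map_pow, aeval_X, map_mul, aeval_C, hφ]
    rw [← ht]; ring
  have hmin : f = minpoly κ t := minpoly.eq_of_irreducible_of_monic hirr' hroot hm
  set g : κ[X] := C p0 + C p1 * X + C p2 * X ^ 2 with hgd
  have hgr : aeval t g = 0 := by
    rw [hgd]
    simp only [map_add, map_pow, aeval_X, map_mul, aeval_C, hφ]
    exact hg
  have hg0 : g = 0 := by
    by_contra hne
    have h1 := minpoly.degree_le_of_ne_zero κ t hne hgr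
    rw [← hmin, degree_eq_natDegree hm.ne_zero, hdeg] at h1
    have h2 : g.degree ≤ (2 : ℕ) := by
      rw [hgd]
      compute_degree!
    have h3 := h1.trans h2
    exact absurd h3 (by norm_num)
  have hc : ∀ n, g.coeff n = 0 := fun n => by rw [hg0, coeff_zero]
  refine ⟨?_, ?_, ?_⟩
  · have := hc 0
    simpa [hgd, coeff_X, coeff_C] using this
  · have := hc 1
    simpa [hgd, coeff_X, coeff_C] using this
  · have := hc 2
    simpa [hgd, coeff_X, coeff_C] using this

section evi

variable {k K L O : Type} [Field k] [Field K] [Algebra k[X] K] [IsFractionRing k[X] K]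
  [Field L] [Algebra K L] [Algebra k[X] L] [IsScalarTower k[X] K L] [CommRing O]
  [IsDedekindDomain O] [Algebra O L] [IsFractionRing O L] [Algebra k[X] O]
  [IsScalarTower k[X] O L] [IsIntegralClosure O k[X] L] {a b : k[X]} {θ : L}

/-- A primitive element is a unit at the primes over `P`. -/
theorem unit_at (h : IsCub K a b θ) {P : k[X]} (hP : Irreducible P)
    (hroot : ∀ c : k[X], ¬ P ∣ c ^ 3 + a * c + b) (p : Fin 3 → k[X]) (hp : ∃ i, ¬ P ∣ p i)
    (𝔓 : HeightOneSpectrum O) (h𝔓 : Ov P 𝔓) :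
    𝔓.valuation L (algebraMap k[X] L (p 0) + algebraMap k[X] L (p 1) * θ +
      algebraMap k[X] L (p 2) * θ ^ 2) = 1 := by
  obtain ⟨t, ht⟩ := (IsIntegralClosure.isIntegral_iff (A := O)).1
    (Pool.Agent.N704.PP.theta_int h)
  set z : O := algebraMap k[X] O (p 0) + algebraMap k[X] O (p 1) * t +
    algebraMap k[X] O (p 2) * t ^ 2 with hz
  have hzL : algebraMap k[X] L (p 0) + algebraMap k[X] L (p 1) * θ +
      algebraMap k[X] L (p 2) * θ ^ 2 = algebraMap O L z := by
    rw [hz]
    simp only [map_add, map_mul, map_pow, ht, ← IsScalarTower.algebraMap_apply k[X] O L]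
  rw [hzL]
  refine le_antisymm (𝔓.valuation_le_one z) ?_
  rw [← not_lt, HeightOneSpectrum.valuation_lt_one_iff_mem]
  intro hmem
  have htr : t ^ 3 + algebraMap k[X] O a * t + algebraMap k[X] O b = 0 := by
    apply IsFractionRing.injective O L
    simp only [map_add, map_mul, map_pow, ht, ← IsScalarTower.algebraMap_apply k[X] O L, map_zero]
    exact h.root
  haveI hmax : (Ideal.span {P} : Ideal k[X]).IsMaximal :=
    PrincipalIdealRing.isMaximal_of_irreducible hP
  letI : Field (k[X] ⧸ (Ideal.span {P} : Ideal k[X])) := Ideal.Quotient.field _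
  haveI := 𝔓.isPrime
  let φ : (k[X] ⧸ (Ideal.span {P} : Ideal k[X])) →+* (O ⧸ 𝔓.asIdeal) :=
    Ideal.quotientMap 𝔓.asIdeal (algebraMap k[X] O) (by
      rw [Ideal.span_singleton_le_iff_mem]
      exact h𝔓)
  have hφ : ∀ q : k[X], φ (Ideal.Quotient.mk _ q) = Ideal.Quotient.mk 𝔓.asIdeal
      (algebraMap k[X] O q) := fun q => Ideal.quotientMap_mk
  have hk := key φ (Ideal.Quotient.mk _ a) (Ideal.Quotient.mk _ b) (Ideal.Quotient.mk _ (p 0))
    (Ideal.Quotient.mk _ (p 1)) (Ideal.Quotient.mk _ (p 2)) (Ideal.Quotient.mk 𝔓.asIdeal t)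
    (by
      intro c
      obtain ⟨c, rfl⟩ := Ideal.Quotient.mk_surjective c
      rw [← map_pow, ← map_mul, ← map_add, ← map_add, Ne, Ideal.Quotient.eq_zero_iff_mem,
        Ideal.mem_span_singleton]
      exact hroot c)
    (by
      rw [hφ, hφ, ← map_pow, ← map_mul, ← map_add, ← map_add, htr, map_zero])
    (by
      rw [hφ, hφ, hφ, ← map_pow, ← map_mul, ← map_mul, ← map_add, ← map_add, ← hz,
        Ideal.Quotient.eq_zero_iff_mem]
      exact hmem)
  obtain ⟨i, hi⟩ := hp
  simp only [Ideal.Quotient.eq_zero_iff_mem, Ideal.mem_span_singleton] at hk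
  fin_cases i
  · exact hi hk.1
  · exact hi hk.2.1
  · exact hi hk.2.2

/-- Scaling to a primitive element. -/
theorem exists_prim (h : IsCub K a b θ) {P : k[X]} (hP : Irreducible P) {α : L} (hα : α ≠ 0) :
    ∃ (l : K) (p : Fin 3 → k[X]), l ≠ 0 ∧ (∃ i, ¬ P ∣ p i) ∧
      α = algebraMap K L l * (algebraMap k[X] L (p 0) + algebraMap k[X] L (p 1) * θ +
        algebraMap k[X] L (p 2) * θ ^ 2) := by
  obtain ⟨s, hs⟩ := IsLocalization.exist_integer_multiples_of_finite (nonZeroDivisors k[X])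
    (cK h α)
  choose q hq using hs
  have hs0 : algebraMap k[X] K (s : k[X]) ≠ 0 :=
    IsFractionRing.to_map_ne_zero_of_mem_nonZeroDivisors s.2
  have hc : ∀ i, cK h α i = algebraMap k[X] K (q i) / algebraMap k[X] K (s : k[X]) := by
    intro i
    rw [eq_div_iff hs0, hq i, Algebra.smul_def, mul_comm]
  letI := UniqueFactorizationMonoid.toNormalizedGCDMonoid k[X]
  obtain ⟨p, hp, hp1⟩ := Finset.extract_gcd (s := (Finset.univ : Finset (Fin 3))) q
    Finset.univ_nonempty
  set g := (Finset.univ : Finset (Fin 3)).gcd q with hg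
  have hsum := cK_sum h α
  have hg0 : g ≠ 0 := by
    intro h0
    apply hα
    have hz : ∀ i, cK h α i = 0 := by
      intro i
      rw [hc i, hp i (Finset.mem_univ _), h0, zero_mul, map_zero, zero_div]
    rw [hsum, hz, hz, hz]
    simp
  have hgK : algebraMap k[X] K g ≠ 0 := by
    rw [Ne, IsFractionRing.to_map_eq_zero_iff]
    exact hg0
  refine ⟨algebraMap k[X] K g / algebraMap k[X] K (s : k[X]), p, div_ne_zero hgK hs0, ?_, ?_⟩
  · by_contra hcon
    push Not at hcon
    have h1 : P ∣ (Finset.univ : Finset (Fin 3)).gcd p := Finset.dvd_gcd fun i _ => hcon i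
    rw [hp1] at h1
    exact hP.not_isUnit (isUnit_of_dvd_one h1)
  · have hz : ∀ i, cK h α i = algebraMap k[X] K g / algebraMap k[X] K (s : k[X]) *
        algebraMap k[X] K (p i) := by
      intro i
      rw [hc i, hp i (Finset.mem_univ _), map_mul]
      ring
    conv_lhs => rw [hsum]
    rw [hz, hz, hz]
    simp only [IsScalarTower.algebraMap_apply k[X] K L, map_mul]
    ring

end evi

theorem evi : S_EVI := by
  intro k K L O _ _ _ _ _ _ _ _ _ _ _ _ _ _ _ _ _ a b θ h6 h P hP hroot α hα hsq 𝔓 h𝔓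
  haveI : FiniteDimensional K L := Module.finite_of_finrank_pos (by rw [h.rank]; norm_num)
  obtain ⟨l, p, hl, hp, hαe⟩ := exists_prim h hP hα
  set x := algebraMap k[X] L (p 0) + algebraMap k[X] L (p 1) * θ +
        algebraMap k[X] L (p 2) * θ ^ 2 with hx
  have hx0 : x ≠ 0 := by
    rintro h0
    rw [h0, mul_zero] at hαe
    exact hα hαe
  have hlL : algebraMap K L l ≠ 0 := by rw [Ne, map_eq_zero]; exact hl
  have hunit : ∀ 𝔔 : HeightOneSpectrum O, Ov P 𝔔 → od (𝔔.valuation L) x = 0 := fun 𝔔 h𝔔 =>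
    (w_one_iff hx0).1 (unit_at h hP hroot p hp 𝔔 h𝔔)
  obtain ⟨v, hv⟩ : ∃ v : HeightOneSpectrum k[X], v.asIdeal = Ideal.span {P} :=
    ⟨⟨Ideal.span {P}, (Ideal.span_singleton_prime hP.ne_zero).2 hP.prime,
      by rw [Ne, Ideal.span_singleton_eq_bot]; exact hP.ne_zero⟩, rfl⟩
  have hnx : od (v.valuation K) (Algebra.norm K x) = 0 := by
    rw [normo (K := K) (L := L) (O := O) hP hv hx0]
    refine Finset.sum_eq_zero fun 𝔔 h𝔔 => ?_
    rw [hunit 𝔔 ((mem_SP (K := K) (L := L)).1 h𝔔), mul_zero]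
  have hnx0 : Algebra.norm K x ≠ 0 := Algebra.norm_ne_zero_iff.2 hx0
  -- the valuation of `l` is even
  have hle : Even (od (v.valuation K) l) := by
    obtain ⟨n, hn⟩ := hsq
    have e1 : Algebra.norm K α = l ^ 3 * Algebra.norm K x := by
      rw [hαe, map_mul, Algebra.norm_algebraMap, h.rank]
    have e2 := congrArg (od (v.valuation K)) (e1.symm.trans hn)
    have hn0 : n ≠ 0 := by
      rintro rfl
      rw [mul_zero] at hn
      exact (Algebra.norm_ne_zero_iff.2 hα) hn
    have e3 : l ^ 3 = l * l ^ 2 := by ring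
    rw [od_mul (pow_ne_zero 3 hl) hnx0, hnx, e3, od_mul hl (pow_ne_zero 2 hl), od_sq,
      od_mul hn0 hn0] at e2
    rw [Int.even_iff]
    omega
  rw [ev_iff 𝔓 hα, hαe, od_mul hlL hx0, hunit 𝔓 h𝔓, add_zero]
  obtain ⟨j, hj1, hj2, hj3⟩ := Pool.Agent.N704.PP.cmap (K := K) (L := L) hP hv h𝔓
  have hlv : algebraMap K (v.adicCompletion K) l ≠ 0 := by rw [Ne, map_eq_zero]; exact hl
  have h1 := od_j hP hv h𝔓 j hj1 hj2 hlv
  have h2 : od (vv 𝔓) (j (algebraMap K (v.adicCompletion K) l)) =
      od (𝔓.valuation L) (algebraMap K L l) := by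
    rw [hj1]
    unfold od
    rw [vv_coe]
  have h3 : od (vv v) (algebraMap K (v.adicCompletion K) l) = od (v.valuation K) l := by
    unfold od
    rw [vv_coe]
  rw [h2, h3] at h1
  rw [h1]
  exact hle.mul_left _

end Pool.Agent.H467.MR.Evi
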