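import Pool.Agent.H467.MR.Spec
import Pool.Graph.R_pool_sql_team_seeded_63374d34.N199.PP.GL
import Pool.Graph.R_pool_sql_team_seeded_63374d34.N721.PP.GF
import Pool.Graph.R_pool_sql_team_seeded_63374d34.N187.PP.GB
import Pool.Graph.R_pool_sql_team_seeded_63374d34.N187.PP.GN
import Pool.Graph.R_pool_sql_team_seeded_63374d34.N630.PP.GP
import Pool.Graph.R_pool_sql_team_seeded_63374d34.N273.PP.Fin

/-!
# Galois cohomology side, with the place at infinity

Project MR (helper467), part GALI (helper944).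
-/

set_option autoImplicit false
set_option linter.all false

open Polynomial IsDedekindDomain WeierstrassCurve WeierstrassCurve.Affine
open Pool.Agent.N874.PP Pool.Agent.TH115.GD
open scoped Classical

namespace Pool.Agent.H467.MR.Gali

open Pool.Agent.N199.PP (exists_Z mem_Z exists_res Rt_map interp sg_sq eq_of_nonsing)

/-- The local condition over an arbitrary extension field of `K`. -/
theorem glE (h1 : S_GP1) (h2 : S_GP2) (h3 : S_GP3) (h4 : S_GP4)
    {K E : Type} [Field K] [Field E] [Algebra K E] (A B : K) (h6' : (6 : K) ≠ 0)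
    (hD : 4 * A ^ 3 + 27 * B ^ 2 ≠ 0)
    (f : (Sep K ≃ₐ[K] Sep K) → Pt (sW A B) (Sep K)) (hf : IsCoc (sW A B) f)
    (hf2 : ∀ σ, (2 : ℕ) • f σ = 0) (β : Sep K → Sep K) (h : K[X]) (hβ : IsBeta A B f β)
    (hh : ∀ t : Sep K, Rt A B t → aeval t h = β t ^ 2)
    (hloc : LocTriv (sW A B) E (Sep E) f) : PolyLocE E A B h := by
  obtain ⟨ι, P, hP⟩ := hloc
  obtain ⟨Z, hZ3, hZ⟩ := exists_Z (Ω := Sep K) A B hD
  obtain ⟨ι', hι'⟩ : ∃ ι' : Sep K →ₐ[K] Sep E, ι' = ι.restrictScalars K := ⟨_, rfl⟩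
  have hιx : ∀ x, ι x = ι' x := fun x => by rw [hι']; rfl
  simp only [hιx] at hP
  rw [← hι'] at hP
  have hres : ∀ τ : Sep E ≃ₐ[E] Sep E,
      ∃ σ : Sep K ≃ₐ[K] Sep K, ∀ x, τ (ι' x) = ι' (σ x) := fun τ => exists_res ι' τ
  -- the points of order two
  have hT2 : ∀ σ : Sep K ≃ₐ[K] Sep K,
      (2 : ℕ) • act (sW A B) ι' (f σ) = 0 := by
    intro σ
    rw [← map_nsmul, hf2, map_zero]
  have hTP : ∀ (τ : Sep E ≃ₐ[E] Sep E)
      (σ : Sep K ≃ₐ[K] Sep K), (∀ x, τ (ι' x) = ι' (σ x)) →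
      act (sW A B) (rs K τ) P = P + act (sW A B) ι' (f σ) := by
    intro τ σ hτσ
    rw [hP τ σ hτσ]
    abel
  -- the values of `h`
  have hval : ∀ t ∈ Z, eval (ι' t) ((h.map (algebraMap K E)).map
      (algebraMap E (Sep E))) = ι' (β t) ^ 2 := by
    intro t ht
    rw [Polynomial.map_map, ← IsScalarTower.algebraMap_eq, ← map_pow,
      ← hh t ((mem_Z hZ t).1 ht), eval_map_algebraMap]
    exact aeval_algHom_apply ι' t h
  by_cases hPP : (2 : ℕ) • P = 0
  · -- the point is of order two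
    left
    refine interp hZ hZ3 ι' hres (fun t => sg P (ι' t) * ι' (β t)) ?_
      (h.map (algebraMap K E)) ?_
    · intro τ σ hτσ t ht
      have hR := (mem_Z hZ t).1 ht
      have hR' : Rt A B (σ t) := Rt_map (σ : Sep K →ₐ[K] Sep K) hR
      have hR'' : Rt A B (ι' (σ t)) := Rt_map ι' hR'
      have e1 : τ (sg P (ι' t)) = sg (P + act (sW A B) ι' (f σ)) (ι' (σ t)) := by
        rw [← hTP τ σ hτσ, ← hτσ]
        exact ((h4 K _ _ _ _ (rs K τ) P (ι' t)).1).symm
      have e2 : ∀ T : Pt (sW A B) (Sep E),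
          (2 : ℕ) • T = 0 → sg (P + T) (ι' (σ t)) = sg P (ι' (σ t)) * sg T (ι' (σ t)) := by
        intro T hT
        obtain ⟨a, b, c, hab, hac, hbc, hZe⟩ := Finset.card_eq_three.1 hZ3
        have ma := Rt_map ι' ((mem_Z hZ a).1 (by rw [hZe]; simp))
        have mb := Rt_map ι' ((mem_Z hZ b).1 (by rw [hZe]; simp))
        have mc := Rt_map ι' ((mem_Z hZ c).1 (by rw [hZe]; simp))
        exact (h3 K _ _ _ h6' hD (ι' a) (ι' b) (ι' c) ma mb mc
          (fun e => hab (ι'.injective e)) (fun e => hac (ι'.injective e))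
          (fun e => hbc (ι'.injective e))).2.1 P T _ hPP hT hR''
      have e3 : sg (act (sW A B) ι' (f σ)) (ι' (σ t)) =
          ι' (sg (f σ) (σ t)) := (h4 K _ _ _ _ ι' (f σ) (σ t)).1
      have e4 : τ (ι' (β t)) = ι' (sg (f σ) (σ t)) * ι' (β (σ t)) := by
        rw [hτσ, (hβ t hR).2 σ, map_mul]
      show τ (sg P (ι' t) * ι' (β t)) = sg P (ι' (σ t)) * ι' (β (σ t))
      rw [map_mul, e1, e2 _ (hT2 σ), e3, e4]
      have e5 : ι' (sg (f σ) (σ t)) * ι' (sg (f σ) (σ t)) = 1 := by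
        rw [← map_mul, sg_sq, map_one]
      linear_combination (sg P (ι' (σ t)) * ι' (β (σ t))) * e5
    · intro t ht
      rw [hval t ht]
      have e5 := sg_sq P (ι' t)
      linear_combination (-(ι' (β t)) ^ 2) * e5
  · -- the general case
    right
    obtain ⟨x, y, hxy, h2P, hrr⟩ := h1 K _ _ _ h6' hD P hPP
    obtain ⟨Q, hQ⟩ := fixed_point (K := K) (F := E) (sW A B) ((2 : ℕ) • P) (by
        intro τ
        obtain ⟨σ, hσ⟩ := hres τ
        rw [map_nsmul, hTP τ σ hσ, smul_add, hT2, add_zero])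
    rcases Q with _ | ⟨x0, y0, hq⟩
    · exact absurd hQ.symm hPP
    rw [h2P] at hQ
    have hx0 : algebraMap E (Sep E) x0 = x := (Point.some.inj hQ).1
    obtain ⟨H, hH⟩ : ∃ H : E[X], H = (C x0 - X) * h.map (algebraMap K E) := ⟨_, rfl⟩
    suffices key : ∃ g : E[X], Pool.Agent.N199.PP.cub (algebraMap K E A) (algebraMap K E B) ∣
        H - g ^ 2 by
      rw [hH] at key
      exact ⟨x0, y0, eq_of_nonsing hq, key⟩
    refine interp hZ hZ3 ι' hres (fun t => rr (ι' t) P * ι' (β t)) ?_ H ?_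
    · intro τ σ hτσ t ht
      have hR := (mem_Z hZ t).1 ht
      have hR' : Rt A B (σ t) := Rt_map (σ : Sep K →ₐ[K] Sep K) hR
      have hR'' : Rt A B (ι' (σ t)) := Rt_map ι' hR'
      have e1 : τ (rr (ι' t) P) = rr (ι' (σ t)) (P + act (sW A B) ι' (f σ)) := by
        rw [← hTP τ σ hτσ, ← hτσ]
        exact ((h4 K _ _ _ _ (rs K τ) P (ι' t)).2).symm
      have e2 := h2 K _ _ _ h6' hD P _ hPP (hT2 σ) (ι' (σ t)) hR''
      have e3 : sg (act (sW A B) ι' (f σ)) (ι' (σ t)) =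
          ι' (sg (f σ) (σ t)) := (h4 K _ _ _ _ ι' (f σ) (σ t)).1
      have e4 : τ (ι' (β t)) = ι' (sg (f σ) (σ t)) * ι' (β (σ t)) := by
        rw [hτσ, (hβ t hR).2 σ, map_mul]
      show τ (rr (ι' t) P * ι' (β t)) = rr (ι' (σ t)) P * ι' (β (σ t))
      rw [map_mul, e1, e2, e3, e4]
      have e5 : ι' (sg (f σ) (σ t)) * ι' (sg (f σ) (σ t)) = 1 := by
        rw [← map_mul, sg_sq, map_one]
      linear_combination (rr (ι' (σ t)) P * ι' (β (σ t))) * e5
    · intro t ht
      rw [hH, Polynomial.map_mul, eval_mul, hval t ht, Polynomial.map_sub, map_C, map_X, eval_sub,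
        eval_C, eval_X, hx0]
      have e5 := hrr (ι' t) (Rt_map ι' ((mem_Z hZ t).1 ht))
      linear_combination (-(ι' (β t)) ^ 2) * e5

/-- The 2-Selmer group, with the local condition at infinity, is zero. -/
def SelInf (k : Type) {K : Type} [Field k] [Field K] [Algebra k[X] K] [IsFractionRing k[X] K]
    (W : WeierstrassCurve K) : Prop :=
  ∀ f : (Sep K ≃ₐ[K] Sep K) → Pt W (Sep K), IsCoc W f → (∀ σ, (2 : ℕ) • f σ = 0) →
    (∀ v : HeightOneSpectrum k[X], LocTriv W (Comp k[X] K v) (Sep (Comp k[X] K v)) f) →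
    LocTriv W (CompInf k K) (Sep (CompInf k K)) f →
    ∃ T : Pt W (Sep K), (2 : ℕ) • T = 0 ∧ ∀ σ, f σ = act W (rs K σ) T - T

section descent

variable {k K : Type} [Field k] [Field K] [Algebra k[X] K] [IsFractionRing k[X] K]

open Pool.Agent.N721.PP (half cobLoc ltSub' ltSmul' toSel tr)

theorem cobLocE (W : WeierstrassCurve K) (E : Type) [Field E] [Algebra K E] (R : Pt W (Sep K)) :
    LocTriv W E (Sep E)
      (fun σ : Sep K ≃ₐ[K] Sep K => act W (rs K σ) R - R) := by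
  haveI : Algebra.IsSeparable K (Sep K) := IsSepClosure.separable
  let ι : Sep K →ₐ[K] Sep E := IsSepClosed.lift
  refine ⟨ι, act W (ι.restrictScalars K) R, fun τ σ hτ => ?_⟩
  have h5 : (ι.restrictScalars K).comp (rs K σ) = (rs K τ).comp (ι.restrictScalars K) :=
    AlgHom.ext fun x => (hτ x).symm
  rw [map_sub, act_act, act_act, h5]

theorem toSelInf {W : WeierstrassCurve K} {f : (Sep K ≃ₐ[K] Sep K) → Pt W (Sep K)}
    (h : LocallyTrivial k W f) : LocTriv W (CompInf k K) (Sep (CompInf k K)) f :=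
  tr (L := CompInf k K) (compInfAlgebra k K) (compInfAlgebra' k K K)
    (Algebra.algebra_ext _ _ fun r => rfl) _ _ h.2

variable {A B : K}

theorem gf_aux (h6 : (6 : K) ≠ 0) (hd : 4 * A ^ 3 + 27 * B ^ 2 ≠ 0)
    (hS : SelInf k (sW A B)) :
    (∀ P : Pt (sW A B) K, ∃ Q : Pt (sW A B) K, P = (2 : ℕ) • Q) ∧ ShaTwo k (sW A B) := by
  haveI : Algebra.IsSeparable K (Sep K) := IsSepClosure.separable
  haveI : IsGalois K (Sep K) := inferInstance
  constructor
  · intro P
    obtain ⟨R, hR⟩ := half h6 hd (act (sW A B) (incl K K (Sep K)) P)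
    have hfix : ∀ σ : Sep K ≃ₐ[K] Sep K, act (sW A B) (rs K σ) (R + R) = R + R := fun σ => by
      rw [hR]; exact rs_act_incl _ σ P
    obtain ⟨T, hT2, hT⟩ := hS (fun σ => act (sW A B) (rs K σ) R - R) (cob_isCoc _ R)
      (fun σ => by
        rw [two_nsmul, sub_add_sub_comm, ← map_add, hfix, sub_self])
      (fun v => cobLocE _ _ R) (cobLocE _ _ R)
    obtain ⟨Q, hQ⟩ := fixed_point (K := K) (F := K) (sW A B) (R - T) (fun σ => by
      have h1 := hT σ
      rw [map_sub]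
      have h2 : act (sW A B) (rs K σ) R = R + (act (sW A B) (rs K σ) T - T) := by
        rw [← h1]; abel
      rw [h2]; abel)
    refine ⟨Q, act_inj (sW A B) (incl K K (Sep K)) ?_⟩
    rw [map_nsmul, hQ, smul_sub, hT2, sub_zero, two_nsmul, hR]
  · have key : ∀ g : (Sep K ≃ₐ[K] Sep K) → Pt (sW A B) (Sep K), IsCoc (sW A B) g →
        LocallyTrivial k (sW A B) g →
        (∃ R : Pt (sW A B) (Sep K), ∀ σ, 2 • g σ = act (sW A B) (rs K σ) R - R) →
        ∃ R : Pt (sW A B) (Sep K), ∀ σ, g σ = act (sW A B) (rs K σ) R - R := by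
      rintro g hg hl ⟨R, hR⟩
      obtain ⟨S, hS'⟩ := half h6 hd R
      obtain ⟨T, -, hT⟩ := hS (fun σ => g σ - (act (sW A B) (rs K σ) S - S))
        (hg.sub _ (cob_isCoc _ _))
        (fun σ => by
          rw [smul_sub, hR, two_nsmul, sub_add_sub_comm, ← map_add, hS', sub_self])
        (fun v => toSel (ltSub' hl S) v) (toSelInf (ltSub' hl S))
      refine ⟨T + S, fun σ => ?_⟩
      have h1 := hT σ
      have h2 : g σ = (act (sW A B) (rs K σ) T - T) + (act (sW A B) (rs K σ) S - S) := by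
        rw [← h1]; abel
      rw [h2, map_add]
      abel
    intro f hf hl ⟨n, hn⟩
    induction n with
    | zero =>
      obtain ⟨R, hR⟩ := hn
      exact ⟨R, fun σ => by rw [← hR, pow_zero, one_smul]⟩
    | succ n ih =>
      apply ih
      refine key (fun σ => 2 ^ n • f σ) ?_ ?_ ?_
      · refine ⟨hf.lc.comp (fun a => 2 ^ n • a), fun σ τ => ?_⟩
        show 2 ^ n • f (σ * τ) = 2 ^ n • f σ + act (sW A B) (rs K σ) (2 ^ n • f τ)
        rw [hf.mul, map_nsmul, smul_add]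
      · exact ltSmul' hl _
      · obtain ⟨R, hR⟩ := hn
        refine ⟨R, fun σ => ?_⟩
        rw [← hR, pow_succ', mul_smul]

end descent

/-- A finite group whose elements are divisible by two has odd order. -/
theorem odd_card {G : Type} [AddCommGroup G] [Finite G] (h : ∀ P : G, ∃ Q : G, P = (2 : ℕ) • Q) :
    Odd (Nat.card G) := by
  by_contra hodd
  rw [Nat.not_odd_iff_even, even_iff_two_dvd] at hodd
  haveI := Fact.mk Nat.prime_two
  obtain ⟨T, hT⟩ := exists_prime_addOrderOf_dvd_card' 2 hodd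
  have hs : Function.Surjective (fun Q : G => (2 : ℕ) • Q) := fun P => by
    obtain ⟨Q, hQ⟩ := h P
    exact ⟨Q, hQ.symm⟩
  have hi : Function.Injective (fun Q : G => (2 : ℕ) • Q) := Finite.injective_iff_surjective.2 hs
  have h1 : (2 : ℕ) • T = 0 := by
    rw [← hT]
    exact addOrderOf_nsmul_eq_zero T
  have h2 : T = 0 := hi (by simpa using h1)
  rw [h2, addOrderOf_zero] at hT
  omega

/-- **GALI** -/
theorem gali : S_GALI := by
  intro k K L _ _ _ _ _ _ _ A B Θ h6 hd hirr hΘ hrank hsel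
  have hGP1 : S_GP1 := N630.PP.gp1
  have hGP2 : S_GP2 := N630.PP.gp2
  have hGP3 : S_GP3 := N630.PP.gp3
  have hGP4 : S_GP4 := N630.PP.gp4
  have hGB : S_GB := N187.PP.gb hGP3 hGP4
  have hGN : S_GN := N187.PP.gn hGP3 hGP4
  have hGT : S_GT := N187.PP.gt hGP3 hGP4
  have hGL : S_GL := N199.PP.gl hGP1 hGP2 hGP3 hGP4
  have h6K : (6 : K) ≠ 0 := by
    have e1 : (6 : K) = algebraMap k[X] K (C 6) := by
      rw [show (C (6 : k) : k[X]) = 6 from rfl, map_ofNat]
    rw [e1, Ne, map_eq_zero_iff _ (IsFractionRing.injective k[X] K), C_eq_zero]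
    exact h6
  have hD : 4 * (algebraMap k[X] K A) ^ 3 + 27 * (algebraMap k[X] K B) ^ 2 ≠ 0 := by
    have e1 : 4 * (algebraMap k[X] K A) ^ 3 + 27 * (algebraMap k[X] K B) ^ 2 =
        algebraMap k[X] K (4 * A ^ 3 + 27 * B ^ 2) := by
      simp only [map_add, map_mul, map_pow, map_ofNat]
    rw [e1, Ne, map_eq_zero_iff _ (IsFractionRing.injective k[X] K)]
    exact hd
  have hSel : SelInf k (sW (algebraMap k[X] K A) (algebraMap k[X] K B)) := by
    intro f hf h2f hloc hinf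
    obtain ⟨β, hβ⟩ := hGB K _ _ h6K hD hirr f hf h2f
    obtain ⟨h, hh, hn⟩ := hGN K _ _ h6K hD hirr f hf h2f β hβ
    have hn2 := hn L _ hΘ hrank
    have hsq := hsel h hn2.1 hn2.2
      (fun v => hGL k K _ _ h6 hd f hf h2f β h hβ hh v (hloc v))
      (glE hGP1 hGP2 hGP3 hGP4 _ _ h6K hD f hf h2f β h hβ hh hinf)
    exact hGT K _ _ h6K hD hirr f hf h2f β h hβ hh _ _ hΘ hrank hsq
  obtain ⟨hdiv, hsha⟩ := gf_aux (k := k) h6K hD hSel
  haveI hfin : Finite (Pt (sW (algebraMap k[X] K A) (algebraMap k[X] K B)) K) :=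
    N273.PP.s_fin k K A B h6 hd hdiv
  exact ⟨hfin, odd_card hdiv, hsha⟩

end Pool.Agent.H467.MR.Gali
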