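import Pool.Agent.H467.MR.Spec2
import Pool.Agent.H467.MR.Cheb
import Pool.Agent.H467.MR.Grp
import Pool.Graph.R_pool_sql_team_seeded_63374d34.N368.PP.Hp

/-!
# The primes modulo which no cubic polynomial has a root: density, and they generate all classes
(project MR, helper467; this part: helper215)
-/

set_option autoImplicit false
set_option linter.all false

open Polynomial IsDedekindDomain
open Pool.Agent.N874.PP
open scoped Classical

namespace Pool.Agent.H467.MR.Gen

section basic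

variable {k : Type} [Field k] [Finite k]

theorem pow_card (Q : Pr k) (c : k[X]) :
    (algebraMap k[X] (Om Q) c) ^ Nat.card (Kp Q) = algebraMap k[X] (Om Q) c := by
  haveI := Cheb.fin_Kp Q
  haveI := Fintype.ofFinite (Kp Q)
  rw [IsScalarTower.algebraMap_apply k[X] (Kp Q) (Om Q), ← map_pow, Nat.card_eq_fintype_card,
    FiniteField.pow_card]

theorem exists_of_pow (Q : Pr k) (y : Om Q) (hy : y ^ Nat.card (Kp Q) = y) :
    ∃ c : k[X], algebraMap k[X] (Om Q) c = y := by
  haveI := Cheb.fin_Kp Q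
  obtain ⟨z, hz⟩ := Cheb.frob_fixed y hy
  obtain ⟨c, rfl⟩ := Cheb.surj Q z
  exact ⟨c, by rw [IsScalarTower.algebraMap_apply k[X] (Kp Q) (Om Q), hz]⟩

theorem eq_zero_of_dvd (Q : Pr k) (c : k[X]) (h : Q.1 ∣ c) : algebraMap k[X] (Om Q) c = 0 := by
  have h2 : Ideal.Quotient.mk (Ideal.span {Q.1}) c = 0 := by
    rw [Ideal.Quotient.eq_zero_iff_mem, Ideal.mem_span_singleton]
    exact h
  have h1 : algebraMap k[X] (Kp Q) c = 0 := h2
  rw [IsScalarTower.algebraMap_apply k[X] (Kp Q) (Om Q), h1, map_zero]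

/-- A function of positive logarithmic density does not vanish outside a finite set. -/
theorem ld_pos {f : Pr k → ℝ} {c : ℝ} (hf : LogD f c) (hc : 0 < c) (S : Set (Pr k))
    (hS : S.Finite) : ∃ Q, Q ∉ S ∧ f Q ≠ 0 := by
  by_contra hcon
  push Not at hcon
  have h0 : LogD f 0 := Cheb.ld_fin f hS.toFinset fun Q hQ =>
    hcon Q fun h => hQ (hS.mem_toFinset.2 h)
  obtain ⟨C, hC⟩ := hf
  obtain ⟨C', hC'⟩ := h0
  have hq : (0 : ℝ) < Nat.card k := by exact_mod_cast Nat.card_pos
  have hCC : 0 ≤ C + C' := by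
    have hu : (0 : ℝ) < 1 / (2 * Nat.card k) := by positivity
    have hu1 : (Nat.card k : ℝ) * (1 / (2 * Nat.card k)) < 1 := by
      rw [mul_one_div, div_lt_one (by positivity)]; linarith
    have h1 := (abs_nonneg _).trans (hC _ hu hu1).2
    have h2 := (abs_nonneg _).trans (hC' _ hu hu1).2
    linarith
  set x : ℝ := (C + C' + 1) / c with hx
  have hx0 : 0 < x := by positivity
  set u : ℝ := (1 - Real.exp (-x)) / Nat.card k with hu
  have he : Real.exp (-x) < 1 := by
    rw [Real.exp_lt_one_iff]; linarith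
  have he0 := Real.exp_pos (-x)
  have hu0 : 0 < u := by
    rw [hu]; apply div_pos _ hq; linarith
  have hqu : (Nat.card k : ℝ) * u = 1 - Real.exp (-x) := by
    rw [hu]; field_simp
  have hqu1 : (Nat.card k : ℝ) * u < 1 := by rw [hqu]; linarith
  have hl : Real.log (1 / (1 - Nat.card k * u)) = x := by
    rw [hqu, sub_sub_cancel, Real.exp_neg, one_div, inv_inv, Real.log_exp]
  obtain ⟨-, h1⟩ := hC u hu0 hqu1
  obtain ⟨-, h2⟩ := hC' u hu0 hqu1
  rw [hl] at h1 h2
  rw [zero_mul, sub_zero] at h2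
  have h3 := (abs_le.1 h1).1
  have h4 := (abs_le.1 h2).2
  have h5 : c * x = C + C' + 1 := by rw [hx]; field_simp
  linarith

end basic

section frob

variable {k K M : Type} [Field k] [Finite k] [Field K] [Algebra k[X] K] [Field M]
  [Algebra K M] [Algebra k[X] M] [IsScalarTower k[X] K M]

/-- A root of the cubic polynomial as an element of the integral closure. -/
theorem isInt (A B : k[X]) (x : M) (h : x ^ 3 + algebraMap k[X] M A * x + algebraMap k[X] M B = 0) :
    IsIntegral k[X] x := by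
  refine ⟨X ^ 3 + C A * X + C B, by monicity!, ?_⟩
  simpa using h

theorem isIntS (d : k[X]) (s : M) (h : s ^ 2 = algebraMap k[X] M d) : IsIntegral k[X] s := by
  refine ⟨X ^ 2 - C d, by monicity!, ?_⟩
  simp [h]

theorem inj3 {Z : Type} [Field Z] {u : Fin 3 → Z}
    (h : ((u 0 - u 1) * (u 0 - u 2) * (u 1 - u 2)) ^ 2 ≠ 0) : Function.Injective u := by
  have h0 : (u 0 - u 1) * (u 0 - u 2) * (u 1 - u 2) ≠ 0 := fun hh => h (by rw [hh]; ring)
  have h01 : u 0 ≠ u 1 := fun hh => h0 (by rw [hh]; ring)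
  have h02 : u 0 ≠ u 2 := fun hh => h0 (by rw [hh]; ring)
  have h12 : u 1 ≠ u 2 := fun hh => h0 (by rw [hh]; ring)
  intro i j hij
  fin_cases i <;> fin_cases j <;>
    first
    | rfl
    | exact absurd hij h01
    | exact absurd hij h02
    | exact absurd hij h12
    | exact absurd hij.symm h01
    | exact absurd hij.symm h02
    | exact absurd hij.symm h12

variable {m : ℕ} {a b : Fin m → k[X]} {t : Fin m → Fin 3 → M}

/-- The reductions of the roots. -/
theorem red (ht : ∀ i, Function.Injective (t i))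
    (hr : ∀ i j, t i j ^ 3 + algebraMap k[X] M (a i) * t i j + algebraMap k[X] M (b i) = 0)
    {Q : Pr k} (hQ : ∀ i, ¬ Q.1 ∣ dsc (a i) (b i)) (φ : XX M Q) (i : Fin m) :
    Function.Injective (fun j => φ ⟨t i j, isInt _ _ _ (hr i j)⟩) ∧
    ∀ j, (φ ⟨t i j, isInt _ _ _ (hr i j)⟩) ^ 3 +
      algebraMap k[X] (Om Q) (a i) * (φ ⟨t i j, isInt _ _ _ (hr i j)⟩) +
      algebraMap k[X] (Om Q) (b i) = 0 := by
  constructor
  · apply inj3
    have h1 := Grp.disc_sq ((ht i).ne (by decide : (0 : Fin 3) ≠ 1))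
      ((ht i).ne (by decide : (0 : Fin 3) ≠ 2)) ((ht i).ne (by decide : (1 : Fin 3) ≠ 2))
      (hr i 0) (hr i 1) (hr i 2)
    have h2 : (((⟨t i 0, isInt _ _ _ (hr i 0)⟩ : integralClosure k[X] M) -
        ⟨t i 1, isInt _ _ _ (hr i 1)⟩) * ((⟨t i 0, isInt _ _ _ (hr i 0)⟩ : integralClosure k[X] M) -
        ⟨t i 2, isInt _ _ _ (hr i 2)⟩) * ((⟨t i 1, isInt _ _ _ (hr i 1)⟩ : integralClosure k[X] M) -
        ⟨t i 2, isInt _ _ _ (hr i 2)⟩)) ^ 2 =
        - algebraMap k[X] (integralClosure k[X] M) (dsc (a i) (b i)) := by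
      apply Subtype.ext
      show ((t i 0 - t i 1) * (t i 0 - t i 2) * (t i 1 - t i 2)) ^ 2 =
        - algebraMap k[X] M (dsc (a i) (b i))
      rw [h1, dsc, map_add, map_mul, map_mul, map_pow, map_pow, map_ofNat, map_ofNat]
    have h3 := congrArg φ h2
    rw [map_neg, AlgHom.commutes, map_pow, map_mul, map_mul, map_sub, map_sub, map_sub] at h3
    rw [h3]
    intro h4
    exact hQ i (Cheb.dvd_of_eq_zero Q _ (neg_eq_zero.1 h4))
  · intro j
    have h2 : (⟨t i j, isInt _ _ _ (hr i j)⟩ : integralClosure k[X] M) ^ 3 +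
        algebraMap k[X] (integralClosure k[X] M) (a i) * ⟨t i j, isInt _ _ _ (hr i j)⟩ +
        algebraMap k[X] (integralClosure k[X] M) (b i) = 0 := by
      apply Subtype.ext
      exact hr i j
    have h3 := congrArg φ h2
    simpa using h3

/-- The Frobenius elements at `Q` have no fixed points iff no cubic polynomial has a root
modulo `Q`. -/
theorem fr_iff (ht : ∀ i, Function.Injective (t i))
    (hr : ∀ i j, t i j ^ 3 + algebraMap k[X] M (a i) * t i j + algebraMap k[X] M (b i) = 0)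
    {Q : Pr k} (hQ : ∀ i, ¬ Q.1 ∣ dsc (a i) (b i)) (φ : XX M Q) (σ : M ≃ₐ[K] M)
    (hσ : IsFr φ σ) : (∀ i j, σ (t i j) ≠ t i j) ↔ Q ∈ InS a b := by
  constructor
  · intro h i c hc
    obtain ⟨hi, hz⟩ := red ht hr hQ φ i
    have hw : (algebraMap k[X] (Om Q) c) ^ 3 +
        algebraMap k[X] (Om Q) (a i) * (algebraMap k[X] (Om Q) c) +
        algebraMap k[X] (Om Q) (b i) = 0 := by
      rw [← map_pow, ← map_mul, ← map_add, ← map_add]
      exact eq_zero_of_dvd Q _ hc
    have h1 := Grp.root_eq (hi.ne (by decide : (0 : Fin 3) ≠ 1))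
      (hi.ne (by decide : (0 : Fin 3) ≠ 2)) (hi.ne (by decide : (1 : Fin 3) ≠ 2))
      (hz 0) (hz 1) (hz 2) hw
    obtain ⟨j, hj⟩ : ∃ j, algebraMap k[X] (Om Q) c = φ ⟨t i j, isInt _ _ _ (hr i j)⟩ := by
      rcases h1 with h1 | h1 | h1
      · exact ⟨0, h1⟩
      · exact ⟨1, h1⟩
      · exact ⟨2, h1⟩
    have h2 : (σ (t i j)) ^ 3 + algebraMap k[X] M (a i) * σ (t i j) + algebraMap k[X] M (b i)
        = 0 := by
      have := congrArg σ (hr i j)
      rw [map_zero, map_add, map_add, map_pow, map_mul,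
        IsScalarTower.algebraMap_apply k[X] K M (a i), IsScalarTower.algebraMap_apply k[X] K M (b i),
        σ.commutes, σ.commutes] at this
      rw [IsScalarTower.algebraMap_apply k[X] K M (a i),
        IsScalarTower.algebraMap_apply k[X] K M (b i)]
      exact this
    obtain ⟨j', hj'⟩ : ∃ j', σ (t i j) = t i j' := by
      rcases Grp.root_eq ((ht i).ne (by decide : (0 : Fin 3) ≠ 1))
        ((ht i).ne (by decide : (0 : Fin 3) ≠ 2)) ((ht i).ne (by decide : (1 : Fin 3) ≠ 2))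
        (hr i 0) (hr i 1) (hr i 2) h2 with h1 | h1 | h1
      · exact ⟨0, h1⟩
      · exact ⟨1, h1⟩
      · exact ⟨2, h1⟩
    have h3 := hσ ⟨t i j, isInt _ _ _ (hr i j)⟩ ⟨t i j', isInt _ _ _ (hr i j')⟩ hj'.symm
    rw [← hj, pow_card, hj] at h3
    have h4 : j' = j := hi h3
    exact h i j (by rw [hj', h4])
  · intro h i j hij
    have h3 := hσ ⟨t i j, isInt _ _ _ (hr i j)⟩ ⟨t i j, isInt _ _ _ (hr i j)⟩ hij.symm
    obtain ⟨c, hc⟩ := exists_of_pow Q _ h3.symm
    apply h i c
    apply Cheb.dvd_of_eq_zero Q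
    rw [map_add, map_add, map_pow, map_mul, hc]
    exact (red ht hr hQ φ i).2 j

theorem fix_zp {σ τ : M ≃ₐ[K] M} (h : Subgroup.zpowers σ = Subgroup.zpowers τ) {x : M}
    (hx : τ x = x) : σ x = x := by
  have h1 : τ ∈ MulAction.stabilizer (M ≃ₐ[K] M) x := hx
  have h2 : Subgroup.zpowers τ ≤ MulAction.stabilizer (M ≃ₐ[K] M) x := by
    rw [Subgroup.zpowers_le]; exact h1
  have h3 : σ ∈ Subgroup.zpowers τ := by rw [← h]; exact Subgroup.mem_zpowers σ
  exact h2 h3

theorem dsc_ne {P : Fin m → k[X]} (hD : Dat K a b P) (i : Fin m) : dsc (a i) (b i) ≠ 0 := by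
  obtain ⟨n, c, h1, h2⟩ := hD.odd i
  rw [h1]
  refine mul_ne_zero (pow_ne_zero _ (hD.prm i).ne_zero) ?_
  rintro rfl
  exact h2 (dvd_zero _)

theorem fin_bad {P : Fin m → k[X]} (hD : Dat K a b P) :
    {Q : Pr k | ∃ i, Q.1 ∣ dsc (a i) (b i)}.Finite := by
  have : {Q : Pr k | ∃ i, Q.1 ∣ dsc (a i) (b i)} = ⋃ i, {Q : Pr k | Q.1 ∣ dsc (a i) (b i)} := by
    ext Q; simp
  rw [this]
  exact Set.finite_iUnion fun i => Cheb.fin_div _ (dsc_ne hD i)

end frob

section dens

variable {k K M : Type} [Field k] [Finite k] [Field K] [Algebra k[X] K]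
  [IsFractionRing k[X] K] [Field M] [Algebra K M] [FiniteDimensional K M] [IsGalois K M]
  [Algebra k[X] M] [IsScalarTower k[X] K M] {m : ℕ} {a b P : Fin m → k[X]}
  {t : Fin m → Fin 3 → M}

/-- The density of `InS`. -/
theorem dens (hC : S_CHEB) (hG : S_GRP) (h6 : (6 : k) ≠ 0) (hD : Dat K a b P)
    (ht : ∀ i, Function.Injective (t i))
    (hr : ∀ i j, t i j ^ 3 + algebraMap k[X] M (a i) * t i j + algebraMap k[X] M (b i) = 0) :
    LogD (fun Q : Pr k => if Q ∈ InS a b then (1 : ℝ) else 0) ((1 / 3) ^ m) := by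
  obtain ⟨hfin, hld⟩ := hC k K M
  have hcard := (hG k K M m a b P t h6 hD ht hr).1
  have h1 := hld {σ : M ≃ₐ[K] M | ∀ i j, σ (t i j) ≠ t i j} (by
    intro σ τ h hσ i j hij
    exact hσ i j (fix_zp h hij))
  have hG0 : (Nat.card (M ≃ₐ[K] M) : ℝ) ≠ 0 := by
    exact_mod_cast Nat.card_pos.ne'
  have h2 : LogD (fun Q : Pr k => (Nat.card (M ≃ₐ[K] M) : ℝ) * if Q ∈ InS a b then (1 : ℝ) else 0)
      (Nat.card {σ : M ≃ₐ[K] M | ∀ i j, σ (t i j) ≠ t i j}) := by
    refine Cheb.ld_congr h1 ({Q : Pr k | ¬ Tor K M Q} ∪ {Q : Pr k | ∃ i, Q.1 ∣ dsc (a i) (b i)})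
      (hfin.union (fin_bad hD)) fun Q hQ => ?_
    rw [Set.mem_union, not_or] at hQ
    obtain ⟨hQ1, hQ2⟩ := hQ
    have hT : Tor K M Q := by
      by_contra h; exact hQ1 h
    have hQ3 : ∀ i, ¬ Q.1 ∣ dsc (a i) (b i) := fun i hi => hQ2 ⟨i, hi⟩
    by_cases hin : Q ∈ InS a b
    · rw [if_pos hin, mul_one, ← hT.card]
      have : ∀ φ : XX M Q, ∃ σ ∈ {σ : M ≃ₐ[K] M | ∀ i j, σ (t i j) ≠ t i j}, IsFr φ σ := by
        intro φ
        obtain ⟨σ, hσ, -⟩ := hT.frob φ
        exact ⟨σ, (fr_iff ht hr hQ3 φ σ hσ).2 hin, hσ⟩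
      rw [Nat.card_congr (Equiv.subtypeUnivEquiv this)]
    · rw [if_neg hin, mul_zero]
      have : IsEmpty {φ : XX M Q // ∃ σ ∈ {σ : M ≃ₐ[K] M | ∀ i j, σ (t i j) ≠ t i j}, IsFr φ σ} := by
        refine ⟨fun ⟨φ, σ, hσ, hf⟩ => hin ((fr_iff ht hr hQ3 φ σ hf).1 hσ)⟩
      rw [Nat.card_of_isEmpty]
      simp
  have h3 := Cheb.ld_mul (1 / (Nat.card (M ≃ₐ[K] M) : ℝ)) h2
  have e1 : (fun Q : Pr k => 1 / (Nat.card (M ≃ₐ[K] M) : ℝ) *
      ((Nat.card (M ≃ₐ[K] M) : ℝ) * if Q ∈ InS a b then (1 : ℝ) else 0)) =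
      fun Q : Pr k => if Q ∈ InS a b then (1 : ℝ) else 0 := by
    funext Q
    rw [← mul_assoc, one_div, inv_mul_cancel₀ hG0, one_mul]
  have e2 : 1 / (Nat.card (M ≃ₐ[K] M) : ℝ) *
      (Nat.card {σ : M ≃ₐ[K] M | ∀ i j, σ (t i j) ≠ t i j} : ℝ) = (1 / 3) ^ m := by
    have h4 : (Nat.card {σ : M ≃ₐ[K] M | ∀ i j, σ (t i j) ≠ t i j} : ℝ) * 3 ^ m =
        Nat.card (M ≃ₐ[K] M) := by exact_mod_cast hcard
    rw [← h4]
    have h5 : (Nat.card {σ : M ≃ₐ[K] M | ∀ i j, σ (t i j) ≠ t i j} : ℝ) ≠ 0 := by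
      intro h; rw [h, zero_mul] at h4; exact hG0 h4.symm
    field_simp
    rw [← mul_pow]; norm_num
  rw [e1, e2] at h3
  exact h3

/-- Primes in `InS` modulo which `d` is not a square. -/
theorem exists_Q (hC : S_CHEB) (hG : S_GRP) (h6 : (6 : k) ≠ 0) (hD : Dat K a b P)
    (ht : ∀ i, Function.Injective (t i))
    (hr : ∀ i j, t i j ^ 3 + algebraMap k[X] M (a i) * t i j + algebraMap k[X] M (b i) = 0)
    (d : k[X]) (hd : ¬ IsSquare (algebraMap k[X] K d)) (hPd : ∀ i, ¬ P i ∣ d) (s : M)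
    (hs : s ^ 2 = algebraMap k[X] M d) (N : k[X]) (hN : N ≠ 0) :
    ∃ Q : Pr k, ¬ Q.1 ∣ N ∧ Q ∈ InS a b ∧ ∀ z : k[X], ¬ Q.1 ∣ z ^ 2 - d := by
  have hd0 : d ≠ 0 := by
    rintro rfl
    exact hd (by simp)
  have h2 : (2 : k) ≠ 0 := by
    intro h
    apply h6
    have : (6 : k) = 2 * 3 := by norm_num
    rw [this, h, zero_mul]
  obtain ⟨hfin, hld⟩ := hC k K M
  obtain ⟨σ, hσ1, hσ2⟩ := (hG k K M m a b P t h6 hD ht hr).2.1 d s hd hPd hs
  have h1 := hld {τ : M ≃ₐ[K] M | Subgroup.zpowers τ = Subgroup.zpowers σ} (by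
    intro τ τ' h hτ
    exact h.symm.trans hτ)
  have hpos : (0 : ℝ) < Nat.card {τ : M ≃ₐ[K] M | Subgroup.zpowers τ = Subgroup.zpowers σ} := by
    haveI : Nonempty {τ : M ≃ₐ[K] M | Subgroup.zpowers τ = Subgroup.zpowers σ} := ⟨⟨σ, rfl⟩⟩
    exact_mod_cast Nat.card_pos
  obtain ⟨Q, hQ, hQ0⟩ := ld_pos h1 hpos
    (({Q : Pr k | ¬ Tor K M Q} ∪ {Q : Pr k | ∃ i, Q.1 ∣ dsc (a i) (b i)}) ∪
      {Q : Pr k | Q.1 ∣ N * d})
    ((hfin.union (fin_bad hD)).union (Cheb.fin_div _ (mul_ne_zero hN hd0)))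
  rw [Set.mem_union, Set.mem_union, not_or, not_or] at hQ
  obtain ⟨⟨hQ1, hQ2⟩, hQ3⟩ := hQ
  have hQN : ¬ Q.1 ∣ N := fun h => hQ3 (Dvd.dvd.mul_right h d)
  have hQd : ¬ Q.1 ∣ d := fun h => hQ3 (Dvd.dvd.mul_left h N)
  have hQ4 : ∀ i, ¬ Q.1 ∣ dsc (a i) (b i) := fun i hi => hQ2 ⟨i, hi⟩
  have hne : Nonempty {φ : XX M Q // ∃ τ ∈ {τ : M ≃ₐ[K] M | Subgroup.zpowers τ =
      Subgroup.zpowers σ}, IsFr φ τ} := by
    by_contra h
    rw [not_nonempty_iff] at h
    apply hQ0
    rw [Nat.card_of_isEmpty]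
    simp
  obtain ⟨φ, τ, hτ, hf⟩ := hne
  have hτ' : Subgroup.zpowers τ = Subgroup.zpowers σ := hτ
  have hτ1 : ∀ i j, τ (t i j) ≠ t i j := fun i j h => hσ1 i j (fix_zp hτ'.symm h)
  have hM2 : (2 : M) ≠ 0 := by
    intro h
    apply h2
    have e : algebraMap k[X] M (C 2) = 0 := by
      rw [show (C (2 : k) : k[X]) = 2 from map_ofNat C 2]
      rw [map_ofNat]
      exact h
    have hinj : Function.Injective (algebraMap k[X] M) := by
      rw [IsScalarTower.algebraMap_eq k[X] K M]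
      exact (algebraMap K M).injective.comp (IsFractionRing.injective k[X] K)
    have := (map_eq_zero_iff _ hinj).1 e
    exact C_eq_zero.1 this
  have hs0 : s ≠ 0 := by
    rintro rfl
    have hinj : Function.Injective (algebraMap k[X] M) := by
      rw [IsScalarTower.algebraMap_eq k[X] K M]
      exact (algebraMap K M).injective.comp (IsFractionRing.injective k[X] K)
    have e : algebraMap k[X] M d = 0 := by rw [← hs]; ring
    exact hd0 ((map_eq_zero_iff _ hinj).1 e)
  have hτs : τ s = -s := by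
    have hpm : τ s = s ∨ τ s = -s := Grp.pm hs τ (by
      rw [IsScalarTower.algebraMap_apply k[X] K M, τ.commutes])
    rcases hpm with h | h
    · exfalso
      have h3 : σ s = s := fix_zp hτ'.symm h
      rw [hσ2] at h3
      have h4 : (2 : M) * s = 0 := by linear_combination -h3
      rcases mul_eq_zero.1 h4 with h5 | h5
      · exact hM2 h5
      · exact hs0 h5
    · exact h
  refine ⟨Q, hQN, (fr_iff ht hr hQ4 φ τ hf).1 hτ1, ?_⟩
  intro z hz
  set S : integralClosure k[X] M := ⟨s, isIntS d s hs⟩ with hS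
  have hS2 : S ^ 2 = algebraMap k[X] (integralClosure k[X] M) d := Subtype.ext hs
  have h3 := congrArg φ hS2
  rw [map_pow, AlgHom.commutes] at h3
  have h4 : algebraMap k[X] (Om Q) z ^ 2 = algebraMap k[X] (Om Q) d := by
    have := eq_zero_of_dvd Q _ hz
    rw [map_sub, map_pow] at this
    exact sub_eq_zero.1 this
  have h5 : φ S = algebraMap k[X] (Om Q) z ∨ φ S = - algebraMap k[X] (Om Q) z :=
    sq_eq_sq_iff_eq_or_eq_neg.1 (h3.trans h4.symm)
  have h6' : φ S ^ Nat.card (Kp Q) = φ S := by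
    rcases h5 with h5 | h5
    · rw [h5, pow_card]
    · rw [h5, ← map_neg, pow_card]
  have h7 : φ (-S) = φ S ^ Nat.card (Kp Q) := hf S (-S) (by
    show -s = τ s
    rw [hτs])
  rw [h6', map_neg] at h7
  have h8 : (2 : Om Q) * φ S = 0 := by linear_combination -h7
  have h9 : (2 : Om Q) ≠ 0 := by
    intro h
    have e : algebraMap k[X] (Om Q) (C 2) = 0 := by
      rw [show (C (2 : k) : k[X]) = 2 from map_ofNat C 2]
      rw [map_ofNat]
      exact h
    have h10 := Cheb.dvd_of_eq_zero Q _ e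
    exact Q.2.2.not_isUnit (isUnit_of_dvd_unit h10 (isUnit_C.2 (isUnit_iff_ne_zero.2 h2)))
  have h10 : φ S = 0 := (mul_eq_zero.1 h8).resolve_left h9
  rw [h10] at h3
  apply hQd
  apply Cheb.dvd_of_eq_zero Q
  rw [← h3]; ring

end dens


section ext

variable {k K : Type} [Field k] [Finite k] [Field K] [Algebra k[X] K]
  [IsFractionRing k[X] K] {m : ℕ} {a b P : Fin m → k[X]}

theorem natCast_ne (h6 : (6 : k) ≠ 0) : (2 : K) ≠ 0 ∧ (3 : K) ≠ 0 := by
  have hinj := IsFractionRing.injective k[X] K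
  have h : (6 : K) ≠ 0 := by
    intro h
    have e : algebraMap k[X] K (C 6) = 0 := by
      rw [show (C (6 : k) : k[X]) = 6 from map_ofNat C 6, map_ofNat]
      exact h
    exact h6 (C_eq_zero.1 ((map_eq_zero_iff _ hinj).1 e))
  constructor
  · intro h2
    apply h
    have : (6 : K) = 2 * 3 := by norm_num
    rw [this, h2, zero_mul]
  · intro h2
    apply h
    have : (6 : K) = 2 * 3 := by norm_num
    rw [this, h2, mul_zero]

theorem cubic_sep (h3 : (3 : K) ≠ 0) (A B : K)
    (h : Irreducible (X ^ 3 + C A * X + C B : K[X])) : (X ^ 3 + C A * X + C B : K[X]).Separable := by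
  rw [separable_iff_derivative_ne_zero h]
  intro h0
  have h1 := congrArg (fun p : K[X] => p.coeff 2) h0
  simp only [derivative_add, derivative_X_pow, derivative_mul, derivative_C, derivative_X,
    coeff_add, coeff_zero] at h1
  apply h3
  have e : (C (3 : K) * X ^ 2 : K[X]).coeff 2 = 3 := by simp
  simpa [coeff_X, coeff_C, e] using h1

/-- A finite Galois extension containing the roots of the cubic polynomials and a square root. -/
theorem exists_M (h6 : (6 : k) ≠ 0) (hD : Dat K a b P) (d : k[X]) (hd : d ≠ 0) :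
    ∃ (M : Type) (_ : Field M) (_ : Algebra K M) (_ : FiniteDimensional K M) (_ : IsGalois K M)
      (_ : Algebra k[X] M) (_ : IsScalarTower k[X] K M) (t : Fin m → Fin 3 → M) (s : M),
      (∀ i, Function.Injective (t i)) ∧
      (∀ i j, t i j ^ 3 + algebraMap k[X] M (a i) * t i j + algebraMap k[X] M (b i) = 0) ∧
      s ^ 2 = algebraMap k[X] M d := by
  obtain ⟨h2K, h3K⟩ := natCast_ne (K := K) h6
  set Ω := AlgebraicClosure K with hΩ
  have key : ∀ i, ∃ t : Fin 3 → Ω, Function.Injective t ∧ ∀ j,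
      aeval (t j) (X ^ 3 + C (algebraMap k[X] K (a i)) * X + C (algebraMap k[X] K (b i)) : K[X])
        = 0 := by
    intro i
    have hs := cubic_sep h3K _ _ (hD.irr i)
    have hc := card_rootSet_eq_natDegree (K := Ω) hs (IsAlgClosed.splits _)
    have hdg : (X ^ 3 + C (algebraMap k[X] K (a i)) * X + C (algebraMap k[X] K (b i)) :
        K[X]).natDegree = 3 := by compute_degree!
    rw [hdg] at hc
    obtain ⟨e⟩ := Fintype.card_eq.1 (hc.trans (Fintype.card_fin 3).symm)
    refine ⟨fun j => (e.symm j : Ω), fun x y hxy => e.symm.injective (Subtype.ext hxy), fun j => ?_⟩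
    exact aeval_eq_zero_of_mem_rootSet (e.symm j).2
  choose t ht hr using key
  obtain ⟨s, hs⟩ := IsAlgClosed.exists_pow_nat_eq (algebraMap K Ω (algebraMap k[X] K d))
    (n := 2) (by norm_num)
  set S : Set Ω := (Set.range fun p : Fin m × Fin 3 => t p.1 p.2) ∪ {s} with hS
  have hSfin : S.Finite := (Set.finite_range _).union (Set.finite_singleton s)
  have hSsep : ∀ x ∈ S, IsSeparable K x := by
    rintro x (⟨⟨i, j⟩, rfl⟩ | hx)
    · exact (cubic_sep h3K _ _ (hD.irr i)).of_dvd (minpoly.dvd K _ (hr i j))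
    · rw [Set.mem_singleton_iff] at hx
      subst hx
      have hd' : algebraMap k[X] K d ≠ 0 := by
        rw [Ne, map_eq_zero_iff _ (IsFractionRing.injective k[X] K)]; exact hd
      have hsep : (X ^ 2 - C (algebraMap k[X] K d) : K[X]).Separable :=
        separable_X_pow_sub_C _ (by exact_mod_cast h2K) hd'
      refine hsep.of_dvd (minpoly.dvd K _ ?_)
      simp [hs]
  set E : IntermediateField K Ω := IntermediateField.adjoin K S with hE
  haveI : FiniteDimensional K E := IntermediateField.finiteDimensional_adjoin fun x _ =>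
    Algebra.IsIntegral.isIntegral x
  haveI : Algebra.IsSeparable K E :=
    (IntermediateField.isSeparable_adjoin_iff_isSeparable K Ω).2 hSsep
  set M : IntermediateField K Ω := IntermediateField.normalClosure K E Ω with hM
  have hEM : E ≤ M := IntermediateField.le_normalClosure E
  have hSM : ∀ x ∈ S, x ∈ M := fun x hx => hEM (IntermediateField.subset_adjoin K S hx)
  haveI : FiniteDimensional K M := normalClosure.is_finiteDimensional K E Ω
  haveI : Normal K M := normalClosure.normal K E Ω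
  have hMsep : M ≤ separableClosure K Ω := by
    rw [hM]
    refine normalClosure_le_iff.2 fun i => ?_
    have : Algebra.IsSeparable K i.fieldRange :=
      (AlgEquiv.Algebra.isSeparable (AlgEquiv.ofInjectiveField i))
    exact le_separableClosure K Ω _
  haveI : Algebra.IsSeparable K M := (le_separableClosure_iff K Ω M).1 hMsep
  haveI : IsGalois K M := ⟨⟩
  letI alg : Algebra k[X] M := ((algebraMap K M).comp (algebraMap k[X] K)).toAlgebra
  haveI tow : IsScalarTower k[X] K M := IsScalarTower.of_algebraMap_eq' rfl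
  have halg : ∀ c : k[X], ((algebraMap k[X] M c : M) : Ω) = algebraMap K Ω (algebraMap k[X] K c) :=
    fun c => rfl
  refine ⟨M, inferInstance, inferInstance, inferInstance, inferInstance, alg, tow,
    fun i j => ⟨t i j, hSM _ (Or.inl ⟨(i, j), rfl⟩)⟩, ⟨s, hSM _ (Or.inr rfl)⟩, ?_, ?_, ?_⟩
  · intro i x y hxy
    exact ht i (congrArg Subtype.val hxy)
  · intro i j
    apply Subtype.ext
    have := hr i j
    simpa [halg] using this
  · apply Subtype.ext
    exact hs

end ext

section recip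

open Pool.Agent.H341R2.Sharp Pool.Agent.Y164.PS

variable {k K : Type} [Field k] [Finite k] [Field K] [Algebra k[X] K] [IsFractionRing k[X] K]

theorem monic_irr_eq {x y : k[X]} (hx : x.Monic) (hy : y.Monic) (hxi : Irreducible x)
    (hyi : Irreducible y) (h : x ∣ y) : x = y :=
  eq_of_monic_of_associated hx hy ((hxi.dvd_irreducible_iff_associated hyi).1 h)

/-- A polynomial whose class modulo squares is prescribed by a linear form. -/
theorem exists_d (h2 : (2 : k) ≠ 0) {r : ℕ} (B : Fin r → k[X])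
    (hB : ∀ i, (B i).Monic ∧ Irreducible (B i)) (hBi : Function.Injective B)
    (ε : Fin (r + 1) → ZMod 2) (hε : ε ≠ 0) :
    ∃ d : k[X], ¬ IsSquare (algebraMap k[X] K d) ∧
      (∀ P : k[X], Irreducible P → (∀ j, ¬ P ∣ B j) → ¬ P ∣ d) ∧
      ∀ Q : Pr k, (∀ j, ¬ Q.1 ∣ B j) → (∀ z : k[X], ¬ Q.1 ∣ z ^ 2 - d) →
        ∑ i, ε i * chi B Q i ≠ 0 := by
  haveI : Fintype k := Fintype.ofFinite k
  have hk : ringChar k ≠ 2 := by
    intro h
    apply h2
    have := ringChar.Nat.cast_ringChar (R := k)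
    rw [h] at this
    exact_mod_cast this
  set Λ : Finset (Fin r) := Finset.univ.filter fun j => ε j.succ ≠ 0 with hΛ
  have h01 : ∀ x : ZMod 2, x ≠ 0 → x = 1 := by decide
  -- the constant
  obtain ⟨u, hu0, hu⟩ : ∃ u : k, u ≠ 0 ∧
      ch u = ε 0 + (∑ j ∈ Λ, ((B j).natDegree : ZMod 2)) * ch (-1 : k) := by
    by_cases h : ε 0 + (∑ j ∈ Λ, ((B j).natDegree : ZMod 2)) * ch (-1 : k) = 0
    · refine ⟨1, one_ne_zero, ?_⟩
      rw [h, ch_eq_zero_iff one_ne_zero]
      exact ⟨1, by ring⟩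
    · obtain ⟨u, hu⟩ := FiniteField.exists_nonsquare hk
      have hu0 : u ≠ 0 := by
        rintro rfl
        exact hu ⟨0, by ring⟩
      refine ⟨u, hu0, ?_⟩
      rw [h01 _ h]
      apply h01
      rw [Ne, ch_eq_zero_iff hu0]
      exact hu
  have hprod0 : ∏ j ∈ Λ, B j ≠ 0 := Finset.prod_ne_zero_iff.2 fun j _ => (hB j).1.ne_zero
  have hCu : IsUnit (C u : k[X]) := isUnit_C.2 (isUnit_iff_ne_zero.2 hu0)
  have hCu0 : (C u : k[X]) ≠ 0 := hCu.ne_zero
  have hdiv : ∀ P : k[X], Irreducible P → (∀ j, ¬ P ∣ B j) → ¬ P ∣ C u * ∏ j ∈ Λ, B j := by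
    intro P hP hPB h
    rcases hP.prime.dvd_or_dvd h with h | h
    · exact hP.not_isUnit (isUnit_of_dvd_unit h hCu)
    · obtain ⟨j, -, hj⟩ := (hP.prime.dvd_finset_prod_iff _).1 h
      exact hPB j hj
  refine ⟨C u * ∏ j ∈ Λ, B j, ?_, hdiv, ?_⟩
  · rintro ⟨x, hx⟩
    have hint : IsIntegral k[X] x := by
      refine IsIntegral.of_pow (n := 2) (by norm_num) ?_
      rw [pow_two, ← hx]
      exact isIntegral_algebraMap
    obtain ⟨e, rfl⟩ := IsIntegrallyClosed.isIntegral_iff.mp hint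
    rw [← map_mul] at hx
    have hx' : C u * ∏ j ∈ Λ, B j = e * e := IsFractionRing.injective k[X] K hx
    rcases Λ.eq_empty_or_nonempty with hE | ⟨j0, hj0⟩
    · rw [hE, Finset.prod_empty, mul_one] at hx'
      have hε0 : ε 0 ≠ 0 := by
        intro h
        apply hε
        funext i
        refine Fin.cases h (fun j => ?_) i
        by_contra hj
        have : j ∈ Λ := Finset.mem_filter.2 ⟨Finset.mem_univ _, hj⟩
        rw [hE] at this
        simp at this
      rw [hE, Finset.sum_empty, zero_mul, add_zero, h01 _ hε0] at hu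
      have hus : ¬ IsSquare u := by
        rw [← ch_eq_zero_iff hu0, hu]
        decide
      apply hus
      have hdeg : e.natDegree = 0 := by
        have h1 := congrArg natDegree hx'
        rw [natDegree_C] at h1
        have he0 : e ≠ 0 := by
          rintro rfl
          exact hCu0 (by rw [hx']; ring)
        rw [natDegree_mul he0 he0] at h1
        omega
      rw [eq_C_of_natDegree_eq_zero hdeg, ← C_mul] at hx'
      exact ⟨_, C_injective hx'⟩
    · have hp := (hB j0).2.prime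
      have h1 : B j0 ∣ e * e := by
        rw [← hx']
        exact Dvd.dvd.mul_left (Finset.dvd_prod_of_mem _ hj0) _
      have h2' : B j0 ∣ e := by
        rcases hp.dvd_or_dvd h1 with h | h <;> exact h
      obtain ⟨e', rfl⟩ := h2'
      rw [← Finset.mul_prod_erase _ _ hj0] at hx'
      have h3 : C u * ∏ j ∈ Λ.erase j0, B j = B j0 * (e' * e') := by
        apply mul_left_cancel₀ (hB j0).1.ne_zero
        linear_combination hx'
      have h4 : B j0 ∣ C u * ∏ j ∈ Λ.erase j0, B j := ⟨_, h3⟩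
      rcases hp.dvd_or_dvd h4 with h | h
      · exact (hB j0).2.not_isUnit (isUnit_of_dvd_unit h hCu)
      · obtain ⟨j, hj, hjd⟩ := (hp.dvd_finset_prod_iff _).1 h
        have := monic_irr_eq (hB j0).1 (hB j).1 (hB j0).2 (hB j).2 hjd
        exact (Finset.mem_erase.1 hj).1 (hBi this).symm
  · intro Q hQB hQd
    have hQ0 := Q.2.1.ne_zero
    have hnd := hdiv Q.1 Q.2.2 hQB
    have hL1 : L (C u * ∏ j ∈ Λ, B j) Q.1 ≠ 0 := by
      rw [Ne, L_eq_zero_iff hk Q.2.1 Q.2.2 hnd, not_exists]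
      exact hQd
    have hcop : ∀ j, IsCoprime (B j) Q.1 := fun j => coprime_of_not_dvd Q.2.2 (hQB j)
    have hL2 : L (C u * ∏ j ∈ Λ, B j) Q.1 =
        (Q.1.natDegree : ZMod 2) * ch u + ∑ j ∈ Λ, L (B j) Q.1 := by
      rw [L_mul_left hQ0 hCu0 hprod0 (coprime_C hu0 _)
        (IsCoprime.prod_left fun j _ => hcop j), L_C hu0,
        L_prod_left hQ0 (fun j _ => (hB j).1.ne_zero) (fun j _ => hcop j)]
    have hL3 : ∀ j, L (B j) Q.1 = L Q.1 (B j) +
        (Q.1.natDegree : ZMod 2) * ((B j).natDegree : ZMod 2) * ch (-1 : k) := by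
      intro j
      have h := Pool.Agent.N368.PP.L_recip (hB j).1.ne_zero hQ0 (hcop j)
      have h2' : ∀ x y z w : ZMod 2, x + y = z → x = y + z := by decide
      have h3 := h2' _ _ _ 0 h
      rw [h3]
      ring
    have hL4 : ∀ j, chi B Q j.succ = L Q.1 (B j) := by
      intro j
      have hn : ¬ B j ∣ Q.1 := by
        intro h
        exact hQB j (monic_irr_eq (hB j).1 Q.2.1 (hB j).2 Q.2.2 h ▸ dvd_rfl)
      have h := L_eq_zero_iff hk (hB j).1 (hB j).2 hn
      simp only [chi, Fin.cons_succ]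
      by_cases hz : ∃ z : k[X], B j ∣ z ^ 2 - Q.1
      · rw [if_pos hz, h.2 hz]
      · rw [if_neg hz]
        exact (h01 _ (fun h' => hz (h.1 h'))).symm
    have hL5 : ∑ i, ε i * chi B Q i = L (C u * ∏ j ∈ Λ, B j) Q.1 := by
      rw [hL2, hu, Fin.sum_univ_succ]
      have e1 : ∑ j ∈ Λ, L (B j) Q.1 = ∑ j ∈ Λ, L Q.1 (B j) +
          (Q.1.natDegree : ZMod 2) * (∑ j ∈ Λ, ((B j).natDegree : ZMod 2)) * ch (-1 : k) := by
        rw [Finset.mul_sum, Finset.sum_mul, ← Finset.sum_add_distrib]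
        exact Finset.sum_congr rfl fun j _ => hL3 j
      have e2 : ∑ j : Fin r, ε j.succ * chi B Q j.succ = ∑ j ∈ Λ, L Q.1 (B j) := by
        rw [hΛ, Finset.sum_filter]
        refine Finset.sum_congr rfl fun j _ => ?_
        rw [hL4]
        split_ifs with h
        · rw [h01 _ h, one_mul]
        · rw [not_not] at h
          rw [h, zero_mul]
      have e3 : chi B Q 0 = (Q.1.natDegree : ZMod 2) := rfl
      rw [e1, e2, e3]
      have h5 : ∀ x : ZMod 2, x + x = 0 := by decide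
      have h6 := h5 ((Q.1.natDegree : ZMod 2) * (∑ j ∈ Λ, ((B j).natDegree : ZMod 2)) *
        ch (-1 : k))
      linear_combination -h6
    rw [hL5]
    exact hL1

end recip

/-- The density of the set `InS`, and its primes generate all the classes. -/
theorem gen (hC : S_CHEB) (hG : S_GRP) : S_GEN := by
  intro k K _ _ _ _ _ m a b P h6 hD
  have h2 : (2 : k) ≠ 0 := by
    intro h
    apply h6
    have : (6 : k) = 2 * 3 := by norm_num
    rw [this, h, zero_mul]
  constructor
  · obtain ⟨M, _, _, _, _, _, _, t, s, ht, hr, hs⟩ := exists_M (K := K) h6 hD 1 one_ne_zero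
    exact dens (K := K) (M := M) hC hG h6 hD ht hr
  · intro r B hB hBi hPB g
    -- the sums form a subspace
    let V : Submodule (ZMod 2) (Fin (r + 1) → ZMod 2) :=
      { carrier := {g | ∃ A : Finset (Pr k), (∀ Q ∈ A, Q ∈ InS a b) ∧ ∑ Q ∈ A, chi B Q = g}
        add_mem' := by
          rintro g g' ⟨A, hA, rfl⟩ ⟨A', hA', rfl⟩
          refine ⟨symmDiff A A', fun Q hQ => ?_, ?_⟩
          · rcases Finset.mem_symmDiff.1 hQ with h | h
            · exact hA Q h.1
            · exact hA' Q h.1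
          · have h2z : ∀ x : Fin (r + 1) → ZMod 2, x + x = 0 := by
              intro x
              funext i
              have : ∀ y : ZMod 2, y + y = 0 := by decide
              exact this (x i)
            have e1 : ∑ Q ∈ A, chi B Q = ∑ Q ∈ A \ A', chi B Q + ∑ Q ∈ A ∩ A', chi B Q := by
              rw [← Finset.sum_union (Finset.disjoint_sdiff_inter A A'), Finset.sdiff_union_inter]
            have e2 : ∑ Q ∈ A', chi B Q = ∑ Q ∈ A' \ A, chi B Q + ∑ Q ∈ A ∩ A', chi B Q := by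
              rw [Finset.inter_comm, ← Finset.sum_union (Finset.disjoint_sdiff_inter A' A),
                Finset.sdiff_union_inter]
            have e3 : ∑ Q ∈ symmDiff A A', chi B Q =
                ∑ Q ∈ A \ A', chi B Q + ∑ Q ∈ A' \ A, chi B Q := by
              rw [← Finset.sum_union disjoint_sdiff_sdiff]
              rfl
            rw [e1, e2, e3]
            have h3 := h2z (∑ Q ∈ A ∩ A', chi B Q)
            calc ∑ Q ∈ A \ A', chi B Q + ∑ Q ∈ A' \ A, chi B Q
                = ∑ Q ∈ A \ A', chi B Q + ∑ Q ∈ A' \ A, chi B Q + 0 := by rw [add_zero]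
              _ = _ := by rw [← h3]; abel
        zero_mem' := ⟨∅, by simp, by simp⟩
        smul_mem' := by
          rintro c g ⟨A, hA, rfl⟩
          have hc : ∀ c : ZMod 2, c = 0 ∨ c = 1 := by decide
          rcases hc c with rfl | rfl
          · exact ⟨∅, by simp, by simp⟩
          · exact ⟨A, hA, by simp⟩ }
    have hV : V = ⊤ := by
      by_contra hne
      obtain ⟨f, hf0, hf⟩ := Submodule.exists_dual_map_eq_bot_of_lt_top (lt_top_iff_ne_top.2 hne)
        inferInstance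
      set ε : Fin (r + 1) → ZMod 2 := fun i => f (Pi.single i 1) with hε
      have hfε : ∀ x : Fin (r + 1) → ZMod 2, f x = ∑ i, ε i * x i := by
        intro x
        have : x = ∑ i, x i • (Pi.single i (1 : ZMod 2) : Fin (r + 1) → ZMod 2) := by
          funext j
          simp [Finset.sum_apply, Pi.single_apply]
        conv_lhs => rw [this]
        rw [map_sum]
        refine Finset.sum_congr rfl fun i _ => ?_
        rw [map_smul, smul_eq_mul, mul_comm]
      have hε0 : ε ≠ 0 := by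
        intro h
        apply hf0
        refine LinearMap.ext fun x => ?_
        rw [LinearMap.zero_apply]
        simp [hfε, h]
      obtain ⟨d, hd1, hd2, hd3⟩ := exists_d (K := K) h2 B hB hBi ε hε0
      have hd0 : d ≠ 0 := by
        rintro rfl
        exact hd1 (by simp)
      have hPd : ∀ i, ¬ P i ∣ d := fun i => hd2 (P i) (hD.prm i) fun j => hPB i j
      obtain ⟨M, _, _, _, _, _, _, t, s, ht, hr, hs⟩ := exists_M (K := K) h6 hD d hd0
      obtain ⟨Q, hQ1, hQ2, hQ3⟩ := exists_Q (K := K) (M := M) hC hG h6 hD ht hr d hd1 hPd s hs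
        (∏ j, B j) (Finset.prod_ne_zero_iff.2 fun j _ => (hB j).1.ne_zero)
      have h4 := hd3 Q (fun j hj => hQ1 (hj.trans (Finset.dvd_prod_of_mem _ (Finset.mem_univ j))))
        hQ3
      apply h4
      rw [← hfε]
      have hmem : chi B Q ∈ V := ⟨{Q}, by simpa using hQ2, by simp⟩
      have h5 : f (chi B Q) ∈ V.map f := Submodule.mem_map_of_mem hmem
      rw [hf] at h5
      exact (Submodule.mem_bot _).1 h5
    have : g ∈ V := by rw [hV]; trivial
    exact this

end Pool.Agent.H467.MR.Gen
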