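import Pool.Agent.H467.MR.Spec
import Pool.Graph.R_pool_sql_team_seeded_63374d34.N765.PP.Crdn

/-!
# The local algebra at a place where the cubic polynomial has a root

Project MR (helper467). `E` is a field, `r` a root of `X ^ 3 + a X + b`, `d = - 3 r ^ 2 - 4 a` the
discriminant of the other factor. The algebra `E[X] / (X ^ 3 + a X + b)` is the product of `E` and the
quadratic algebra `E(√d)`; the components of `x` are `c0 r x` and `(cU r d x, cV r x)`.
-/

set_option autoImplicit false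
set_option linter.all false

open Pool.Agent.N765.PP

namespace Pool.Agent.H467.MR

section alg

variable {E : Type} [Field E]

/-- The value at the root. -/
def c0 (r : E) (x : Fin 3 → E) : E := x 0 + x 1 * r + x 2 * r ^ 2

/-- The coordinates of the quadratic component. -/
def cU (r d : E) (x : Fin 3 → E) : E := x 0 - x 1 * r / 2 + x 2 * (r ^ 2 + d) / 4

def cV (r : E) (x : Fin 3 → E) : E := x 1 / 2 - x 2 * r / 2

/-- The norm of the quadratic component. -/
def nq (r d : E) (x : Fin 3 → E) : E := cU r d x ^ 2 - d * cV r x ^ 2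

/-- The norm. -/
def dnE (a b : E) (v : Fin 3 → E) : E :=
  v 0 * ((v 0 - a * v 2) * (v 0 - a * v 2) - (-b * v 2 - a * v 1) * v 1)
    - (-b * v 2) * (v 1 * (v 0 - a * v 2) - (-b * v 2 - a * v 1) * v 2)
    + (-b * v 1) * (v 1 * v 1 - (v 0 - a * v 2) * v 2)

variable {a b r d : E}

theorem c0_mul (hr : r ^ 3 + a * r + b = 0) (x y : Fin 3 → E) :
    c0 r (mulc a b x y) = c0 r x * c0 r y := by
  have hb : b = -r ^ 3 - a * r := by linear_combination hr
  subst hb
  simp only [c0, mulc, Matrix.cons_val_zero, Matrix.cons_val_one, Matrix.cons_val]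
  ring

theorem cU_mul (h2 : (2 : E) ≠ 0) (hr : r ^ 3 + a * r + b = 0) (hd : d = -3 * r ^ 2 - 4 * a)
    (x y : Fin 3 → E) :
    cU r d (mulc a b x y) = cU r d x * cU r d y + d * cV r x * cV r y := by
  have hb : b = -r ^ 3 - a * r := by linear_combination hr
  have h4 : (4 : E) ≠ 0 := by
    rw [show (4 : E) = 2 * 2 by norm_num]; exact mul_ne_zero h2 h2
  have ha : a = -(d + 3 * r ^ 2) / 4 := by
    rw [hd]; field_simp; ring
  subst hb
  rw [ha]
  simp only [cU, cV, mulc, Matrix.cons_val_zero, Matrix.cons_val_one, Matrix.cons_val]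
  field_simp
  ring

theorem cV_mul (h2 : (2 : E) ≠ 0) (hr : r ^ 3 + a * r + b = 0) (hd : d = -3 * r ^ 2 - 4 * a)
    (x y : Fin 3 → E) :
    cV r (mulc a b x y) = cU r d x * cV r y + cV r x * cU r d y := by
  have hb : b = -r ^ 3 - a * r := by linear_combination hr
  have h4 : (4 : E) ≠ 0 := by
    rw [show (4 : E) = 2 * 2 by norm_num]; exact mul_ne_zero h2 h2
  have ha : a = -(d + 3 * r ^ 2) / 4 := by
    rw [hd]; field_simp; ring
  subst hb
  rw [ha]
  simp only [cU, cV, mulc, Matrix.cons_val_zero, Matrix.cons_val_one, Matrix.cons_val]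
  field_simp
  ring

theorem nq_mul (h2 : (2 : E) ≠ 0) (hr : r ^ 3 + a * r + b = 0) (hd : d = -3 * r ^ 2 - 4 * a)
    (x y : Fin 3 → E) : nq r d (mulc a b x y) = nq r d x * nq r d y := by
  unfold nq
  rw [cU_mul h2 hr hd, cV_mul h2 hr hd]
  ring

theorem dn_eq (h2 : (2 : E) ≠ 0) (hr : r ^ 3 + a * r + b = 0) (hd : d = -3 * r ^ 2 - 4 * a)
    (x : Fin 3 → E) : dnE a b x = c0 r x * nq r d x := by
  have hb : b = -r ^ 3 - a * r := by linear_combination hr
  have h4 : (4 : E) ≠ 0 := by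
    rw [show (4 : E) = 2 * 2 by norm_num]; exact mul_ne_zero h2 h2
  have ha : a = -(d + 3 * r ^ 2) / 4 := by
    rw [hd]; field_simp; ring
  subst hb
  rw [ha]
  simp only [nq, c0, cU, cV, dnE]
  field_simp
  ring

theorem co2 (h2 : (2 : E) ≠ 0) (hd : d = -3 * r ^ 2 - 4 * a)
    (x : Fin 3 → E) : x 2 * (3 * r ^ 2 + a) = c0 r x - cU r d x - 3 * r * cV r x := by
  have h4 : (4 : E) ≠ 0 := by
    rw [show (4 : E) = 2 * 2 by norm_num]; exact mul_ne_zero h2 h2
  have ha : a = -(d + 3 * r ^ 2) / 4 := by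
    rw [hd]; field_simp; ring
  rw [ha]
  simp only [c0, cU, cV]
  field_simp
  ring

/-- The element with given components. -/
theorem exists_comp (h2 : (2 : E) ≠ 0) (hd : d = -3 * r ^ 2 - 4 * a)
    (hf : 3 * r ^ 2 + a ≠ 0) (c U V : E) :
    ∃ x : Fin 3 → E, c0 r x = c ∧ cU r d x = U ∧ cV r x = V := by
  have h4 : (4 : E) ≠ 0 := by
    rw [show (4 : E) = 2 * 2 by norm_num]; exact mul_ne_zero h2 h2
  obtain ⟨x2, e2⟩ : ∃ x2, x2 * (3 * r ^ 2 + a) = c - U - 3 * r * V :=
    ⟨(c - U - 3 * r * V) / (3 * r ^ 2 + a), by field_simp⟩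
  refine ⟨![c - (2 * V + r * x2) * r - x2 * r ^ 2, 2 * V + r * x2, x2], ?_, ?_, ?_⟩
  · simp only [c0, Matrix.cons_val_zero, Matrix.cons_val_one, Matrix.cons_val]
    ring
  · simp only [cU, Matrix.cons_val_zero, Matrix.cons_val_one, Matrix.cons_val]
    rw [hd]
    field_simp
    linear_combination (-8) * e2
  · simp only [cV, Matrix.cons_val_zero, Matrix.cons_val_one, Matrix.cons_val]
    field_simp
    ring

/-- The components determine the element. -/
theorem comp_inj (h2 : (2 : E) ≠ 0) (hd : d = -3 * r ^ 2 - 4 * a)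
    (hf : 3 * r ^ 2 + a ≠ 0) {x : Fin 3 → E} (h0 : c0 r x = 0) (hU : cU r d x = 0)
    (hV : cV r x = 0) : x = 0 := by
  have e2 := co2 h2 hd x
  rw [h0, hU, hV] at e2
  have hx2 : x 2 = 0 := by
    have : x 2 * (3 * r ^ 2 + a) = 0 := by rw [e2]; ring
    exact (mul_eq_zero.1 this).resolve_right hf
  have hx1 : x 1 = 0 := by
    simp only [cV, hx2] at hV
    field_simp at hV
    linear_combination hV
  have hx0 : x 0 = 0 := by
    simp only [c0, hx1, hx2] at h0
    linear_combination h0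
  funext i
  fin_cases i
  · exact hx0
  · exact hx1
  · exact hx2

/-- The form `c₂(β x ^ 2)` has a nontrivial zero. -/
def Iso (a b : E) (β : Fin 3 → E) : Prop :=
  ∃ x : Fin 3 → E, x ≠ 0 ∧ mulc a b β (mulc a b x x) 2 = 0

/-- Isotropy if `c0 β f'(r)` is a square. -/
theorem iso_of_sq (h2 : (2 : E) ≠ 0) (hr : r ^ 3 + a * r + b = 0) (hd : d = -3 * r ^ 2 - 4 * a)
    (hf : 3 * r ^ 2 + a ≠ 0) {β : Fin 3 → E} {n w : E} (hn : dnE a b β = n ^ 2) (hn0 : n ≠ 0)
    (hw : c0 r β * (3 * r ^ 2 + a) = w ^ 2) : Iso a b β := by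
  have h4 : (4 : E) ≠ 0 := by
    rw [show (4 : E) = 2 * 2 by norm_num]; exact mul_ne_zero h2 h2
  rw [dn_eq h2 hr hd] at hn
  have hc : c0 r β ≠ 0 := by
    rintro h
    rw [h, zero_mul] at hn
    exact hn0 (pow_eq_zero_iff (two_ne_zero) |>.1 hn.symm)
  have hq : nq r d β ≠ 0 := by
    rintro h
    rw [h, mul_zero] at hn
    exact hn0 (pow_eq_zero_iff (two_ne_zero) |>.1 hn.symm)
  have hw0 : w ≠ 0 := by
    rintro h
    rw [h, zero_pow two_ne_zero] at hw
    exact (mul_ne_zero hc hf) hw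
  -- `δ = (-3 r + √d) / β`, norm `4 f'(r) / nq β = m ^ 2`
  set U := cU r d β with hU
  set V := cV r β with hV
  set N := nq r d β with hN
  have hNU : N = U ^ 2 - d * V ^ 2 := rfl
  -- δ = (-3 r + ρ) (U - V ρ) / N
  set δU := (-3 * r * U - d * V) / N with hδU
  set δV := (U + 3 * r * V) / N with hδV
  set m := 2 * w / n with hm
  have hm0 : m ≠ 0 := div_ne_zero (mul_ne_zero h2 hw0) hn0
  have hδ : δU ^ 2 - d * δV ^ 2 = m ^ 2 := by
    have e1 : δU ^ 2 - d * δV ^ 2 = (9 * r ^ 2 - d) / N := by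
      rw [hδU, hδV]
      field_simp
      rw [hNU]
      ring
    rw [e1, hm, div_pow, mul_pow, ← hn, ← hw, hd]
    field_simp
    ring
  -- choose the sign
  obtain ⟨m', hm', hne⟩ : ∃ m', m' ^ 2 = m ^ 2 ∧ ¬ (δU + m' = 0 ∧ δV = 0) := by
    by_cases h : δU + m = 0 ∧ δV = 0
    · refine ⟨-m, by ring, ?_⟩
      rintro ⟨h1, -⟩
      have : (2 : E) * m = 0 := by linear_combination h.1 - h1
      exact (mul_ne_zero h2 hm0) this
    · exact ⟨m, rfl, h⟩
  obtain ⟨x, hx0, hxU, hxV⟩ := exists_comp (r := r) (d := d) (a := a) h2 hd hf 0 (δU + m') δV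
  refine ⟨x, ?_, ?_⟩
  · rintro rfl
    apply hne
    simp only [cU, cV, Pi.zero_apply, zero_mul, zero_div, sub_zero, add_zero, mul_zero] at hxU hxV
    exact ⟨by linear_combination -hxU, by linear_combination -hxV⟩
  · have e := co2 h2 hd (mulc a b β (mulc a b x x))
    rw [c0_mul hr, c0_mul hr, hx0, cU_mul h2 hr hd, cU_mul h2 hr hd, cV_mul h2 hr hd,
      cV_mul h2 hr hd, cU_mul h2 hr hd, cV_mul h2 hr hd, hxU, hxV] at e
    have e3 : mulc a b β (mulc a b x x) 2 * (3 * r ^ 2 + a) = 0 := by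
      rw [e]
      have hδU' : δU * N = -3 * r * U - d * V := by rw [hδU]; field_simp
      have hδV' : δV * N = U + 3 * r * V := by rw [hδV]; field_simp
      linear_combination ((δU + m') ^ 2 + d * δV ^ 2) * hδV' - (2 * (δU + m') * δV) * hδU' -
        N * δV * hm' + N * δV * hδ
    exact (mul_eq_zero.1 e3).resolve_right hf

end alg

end Pool.Agent.H467.MR
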