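import Pool.Agent.H467.MR.Loc0

/-!
# Local fields: square classes and the quadratic form at a place with an unramified factor

Project MR (helper467).
-/

set_option autoImplicit false
set_option linter.all false

open Pool.Agent.N765.PP WithZero

namespace Pool.Agent.H467.MR

/-- Properties of the completion at a place with finite residue field of odd characteristic. -/
structure LF {E : Type} [Field E] (w : Valuation E (WithZero (Multiplicative ℤ))) : Prop where
  two : w 2 = 1
  hens : ∀ x : E, w (x - 1) < 1 → IsSquare x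
  nn : ∀ x y : E, w x = 1 → w y = 1 → ¬ IsSquare x → ¬ IsSquare y → IsSquare (x * y)
  unif : ∃ p : E, w p = exp (-1)

section val

variable {E : Type} [Field E] {w : Valuation E (WithZero (Multiplicative ℤ))}

/-- The exponent of the valuation (zero for zero). -/
noncomputable def od (w : Valuation E (WithZero (Multiplicative ℤ))) (x : E) : ℤ := log (w x)

theorem w_ne {x : E} (hx : x ≠ 0) : w x ≠ 0 := (Valuation.ne_zero_iff _).2 hx

theorem exp_od {x : E} (hx : x ≠ 0) : exp (od w x) = w x := exp_log (w_ne hx)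

theorem od_mul {x y : E} (hx : x ≠ 0) (hy : y ≠ 0) : od w (x * y) = od w x + od w y := by
  unfold od
  rw [map_mul, log_mul (w_ne hx) (w_ne hy)]

theorem od_inv (x : E) : od w x⁻¹ = - od w x := by
  unfold od
  rw [map_inv₀, log_inv]

theorem od_div {x y : E} (hx : x ≠ 0) (hy : y ≠ 0) : od w (x / y) = od w x - od w y := by
  rw [div_eq_mul_inv, od_mul hx (inv_ne_zero hy), od_inv, sub_eq_add_neg]

theorem od_sq (x : E) : od w (x ^ 2) = 2 * od w x := by
  unfold od
  rw [map_pow, log_pow, nsmul_eq_mul]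
  norm_num

theorem od_neg (x : E) : od w (-x) = od w x := by
  unfold od
  rw [Valuation.map_neg]

theorem od_one : od w (1 : E) = 0 := by
  unfold od
  rw [map_one, log_one]

theorem od_zero : od w (0 : E) = 0 := by
  unfold od
  rw [map_zero, log_zero]

theorem od_lt {x y : E} (hx : x ≠ 0) (hy : y ≠ 0) : od w x < od w y ↔ w x < w y :=
  log_lt_log (w_ne hx) (w_ne hy)

theorem od_le {x y : E} (hx : x ≠ 0) (hy : y ≠ 0) : od w x ≤ od w y ↔ w x ≤ w y :=
  log_le_log (w_ne hx) (w_ne hy)

theorem od_eq {x y : E} (hx : x ≠ 0) (hy : y ≠ 0) : od w x = od w y ↔ w x = w y := by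
  rw [le_antisymm_iff, le_antisymm_iff, od_le hx hy, od_le hy hx]

theorem w_one_iff {x : E} (hx : x ≠ 0) : w x = 1 ↔ od w x = 0 := by
  rw [← od_one (w := w) (E := E), od_eq hx one_ne_zero, map_one]

theorem w_lt_one_iff {x : E} (hx : x ≠ 0) : w x < 1 ↔ od w x < 0 := by
  rw [← od_one (w := w) (E := E), od_lt hx one_ne_zero, map_one]

theorem w_le_one_iff {x : E} (hx : x ≠ 0) : w x ≤ 1 ↔ od w x ≤ 0 := by
  rw [← od_one (w := w) (E := E), od_le hx one_ne_zero, map_one]

theorem ne_of_w {x : E} (h : w x = 1) : x ≠ 0 := by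
  rintro rfl
  rw [map_zero] at h
  exact zero_ne_one h

end val

section lf

variable {E : Type} [Field E] {w : Valuation E (WithZero (Multiplicative ℤ))} (h : LF w)

include h

theorem LF.two_ne : (2 : E) ≠ 0 := ne_of_w h.two

theorem LF.four : w (4 : E) = 1 := by
  rw [show (4 : E) = 2 * 2 by norm_num, map_mul, h.two, one_mul]

theorem LF.half : w ((1 : E) / 2) = 1 := by
  rw [map_div₀, map_one, h.two, div_one]

/-- Elements close to each other have the same square class. -/
theorem LF.near {x y : E} (hx : x ≠ 0) (hxy : w (y - x) < w x) : IsSquare (x * y) ∧ y ≠ 0 := by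
  have hy : y ≠ 0 := by
    rintro rfl
    rw [zero_sub, Valuation.map_neg] at hxy
    exact lt_irrefl _ hxy
  refine ⟨?_, hy⟩
  obtain ⟨z, hz⟩ := h.hens (y / x) (by
    have e : y / x - 1 = (y - x) / x := by field_simp
    rw [e, map_div₀]
    exact (div_lt_one₀ (zero_lt_iff.2 (w_ne hx))).2 hxy)
  refine ⟨x * z, ?_⟩
  have e : x * y = x * x * (y / x) := by field_simp
  rw [e, hz]
  ring

theorem LF.exists_od (n : ℤ) : ∃ z : E, z ≠ 0 ∧ od w z = n := by
  obtain ⟨p, hp⟩ := h.unif
  have hp0 : p ≠ 0 := by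
    rintro rfl
    rw [map_zero] at hp
    exact exp_ne_zero hp.symm
  refine ⟨p ^ (-n), zpow_ne_zero _ hp0, ?_⟩
  unfold od
  rw [map_zpow₀, log_zpow, hp, log_exp]
  simp

omit h in
theorem sqm {x y : E} (hx : IsSquare x) (hx0 : x ≠ 0) : IsSquare (x * y) ↔ IsSquare y := by
  obtain ⟨z, rfl⟩ := hx
  have hz : z ≠ 0 := left_ne_zero_of_mul hx0
  constructor
  · rintro ⟨t, ht⟩
    refine ⟨t / z, ?_⟩
    field_simp
    linear_combination ht
  · rintro ⟨t, rfl⟩
    exact ⟨z * t, by ring⟩

omit h in
theorem sqi {x y : E} (hxy : IsSquare (x * y)) (hx0 : x ≠ 0) (hy0 : y ≠ 0) :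
    IsSquare x ↔ IsSquare y := by
  constructor
  · intro hx
    exact (sqm hx hx0).1 hxy
  · intro hy
    rw [mul_comm] at hxy
    exact (sqm hy hy0).1 hxy

omit h in
theorem sq_tr {x y z : E} (hxy : IsSquare (x * y)) (hyz : IsSquare (y * z)) (hy0 : y ≠ 0) :
    IsSquare (x * z) := by
  have h1 : IsSquare ((y * y) * (x * z)) := by
    have e : (y * y) * (x * z) = (x * y) * (y * z) := by ring
    rw [e]
    exact hxy.mul hyz
  exact (sqm ⟨y, rfl⟩ (mul_ne_zero hy0 hy0)).1 h1

/-- Square classes of elements of even valuation form a group of order two. -/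
theorem LF.ev_mul {x y : E} (hx : x ≠ 0) (hy : y ≠ 0) (hex : Even (od w x)) (hey : Even (od w y)) :
    IsSquare (x * y) ↔ (IsSquare x ↔ IsSquare y) := by
  constructor
  · intro hxy
    exact sqi hxy hx hy
  · intro hi
    by_cases hsx : IsSquare x
    · exact hsx.mul (hi.1 hsx)
    · have hsy : ¬ IsSquare y := fun hh => hsx (hi.2 hh)
      obtain ⟨i, hi'⟩ := hex
      obtain ⟨j, hj'⟩ := hey
      obtain ⟨z, hz, hzi⟩ := h.exists_od i
      obtain ⟨t, ht, htj⟩ := h.exists_od j
      have hx' : w (x / z ^ 2) = 1 := by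
        rw [w_one_iff (div_ne_zero hx (pow_ne_zero 2 hz)), od_div hx (pow_ne_zero 2 hz), od_sq]
        omega
      have hy' : w (y / t ^ 2) = 1 := by
        rw [w_one_iff (div_ne_zero hy (pow_ne_zero 2 ht)), od_div hy (pow_ne_zero 2 ht), od_sq]
        omega
      have h1 : ¬ IsSquare (x / z ^ 2) := by
        rintro ⟨s, hs⟩
        apply hsx
        refine ⟨s * z, ?_⟩
        field_simp at hs
        linear_combination hs
      have h2 : ¬ IsSquare (y / t ^ 2) := by
        rintro ⟨s, hs⟩
        apply hsy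
        refine ⟨s * t, ?_⟩
        field_simp at hs
        linear_combination hs
      obtain ⟨s, hs⟩ := h.nn _ _ hx' hy' h1 h2
      refine ⟨s * z * t, ?_⟩
      field_simp at hs
      linear_combination hs

/-- The norm form of a nonsquare unit. -/
theorem LF.val_ns {d : E} (hd : w d = 1) (hns : ¬ IsSquare d) (x z : E) :
    w (x ^ 2 - d * z ^ 2) = max (w x) (w z) ^ 2 := by
  have hd0 := ne_of_w hd
  have key : ∀ t : E, w (t ^ 2 - d) = max (w t) 1 ^ 2 := by
    intro t
    rcases lt_or_ge 1 (w t) with ht | ht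
    · rw [max_eq_left ht.le, ← map_pow]
      apply Valuation.map_sub_eq_of_lt_left
      rw [hd, map_pow]
      exact one_lt_pow₀ ht two_ne_zero
    · rw [max_eq_right ht, one_pow]
      have h1 : w (t ^ 2 - d) ≤ 1 := by
        refine (Valuation.map_sub _ _ _).trans (max_le ?_ hd.le)
        rw [map_pow]
        exact pow_le_one₀ zero_le ht
      refine le_antisymm h1 (not_lt.1 fun h3 => ?_)
      have h4 := h.near (x := d) (y := t ^ 2) hd0 (by rw [hd]; exact h3)
      apply hns
      rw [mul_comm] at h4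
      exact (sqm (x := t ^ 2) ⟨t, by ring⟩ h4.2).1 h4.1
  by_cases hz : z = 0
  · subst hz
    have hm : max (w x) (w (0 : E)) = w x := by
      rw [map_zero]
      exact max_eq_left zero_le
    rw [hm]
    simp
  · have e : x ^ 2 - d * z ^ 2 = z ^ 2 * ((x / z) ^ 2 - d) := by
      field_simp
    rw [e, map_mul, key, map_pow, ← mul_pow]
    congr 1
    have hz' : w z ≠ 0 := w_ne hz
    rw [mul_max, map_div₀, mul_one, mul_div_cancel₀ _ hz']

theorem LF.ns_ne {d : E} (hd : w d = 1) (hns : ¬ IsSquare d) {x z : E} (hxz : ¬ (x = 0 ∧ z = 0)) :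
    x ^ 2 - d * z ^ 2 ≠ 0 := by
  intro h0
  have h1 := h.val_ns hd hns x z
  rw [h0, map_zero] at h1
  have h2 : max (w x) (w z) = 0 := (pow_eq_zero_iff two_ne_zero).1 h1.symm
  apply hxz
  constructor
  · have : w x ≤ 0 := h2 ▸ le_max_left _ _
    exact (Valuation.zero_iff w).1 (le_zero_iff.1 this)
  · have : w z ≤ 0 := h2 ▸ le_max_right _ _
    exact (Valuation.zero_iff w).1 (le_zero_iff.1 this)

theorem LF.ns_even {d : E} (hd : w d = 1) (hns : ¬ IsSquare d) (x z : E) :
    Even (od w (x ^ 2 - d * z ^ 2)) := by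
  rcases le_total (w x) (w z) with hxz | hxz
  · have h1 := h.val_ns hd hns x z
    rw [max_eq_right hxz] at h1
    refine ⟨od w z, ?_⟩
    unfold od
    rw [h1, log_pow, nsmul_eq_mul]
    push_cast
    ring
  · have h1 := h.val_ns hd hns x z
    rw [max_eq_left hxz] at h1
    refine ⟨od w x, ?_⟩
    unfold od
    rw [h1, log_pow, nsmul_eq_mul]
    push_cast
    ring

end lf

end Pool.Agent.H467.MR
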