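import Pool.Agent.H467.MR.Loc1

/-!
# The local conditions at a place with one simple root

Project MR (helper467).
-/

set_option autoImplicit false
set_option linter.all false

open Pool.Agent.N765.PP WithZero

namespace Pool.Agent.H467.MR

/-- `X ^ 3 + a X + b` has the root `r`, and the other factor is irreducible modulo the prime. -/
structure ST {E : Type} [Field E] (w : Valuation E (WithZero (Multiplicative ℤ)))
    (a b r d : E) : Prop where
  root : r ^ 3 + a * r + b = 0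
  disc : d = -3 * r ^ 2 - 4 * a
  ra : w r ≤ 1
  d1 : w d = 1
  dns : ¬ IsSquare d
  f1 : w (3 * r ^ 2 + a) = 1

section st

variable {E : Type} [Field E] {w : Valuation E (WithZero (Multiplicative ℤ))} (h : LF w)
  {a b r d : E} (hs : ST w a b r d)

/-- The valuation of the quadratic component is even. -/
def EvQ (w : Valuation E (WithZero (Multiplicative ℤ))) (r d : E) (x : Fin 3 → E) : Prop :=
  (4 : ℤ) ∣ od w (nq r d x)

/-- The class of the quadratic component is trivial, or that of the point of order two. -/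
def Eta (w : Valuation E (WithZero (Multiplicative ℤ))) (a r d : E) (x : Fin 3 → E) : Prop :=
  (EvQ w r d x → IsSquare (c0 r x)) ∧ (¬ EvQ w r d x → IsSquare (c0 r x * (3 * r ^ 2 + a)))

/-- The norm is a nonzero square. -/
def Nsq (a b : E) (x : Fin 3 → E) : Prop := ∃ n : E, n ≠ 0 ∧ dnE a b x = n ^ 2

include h hs

theorem ST.c0_ne {x : Fin 3 → E} (hx : Nsq a b x) : c0 r x ≠ 0 := by
  obtain ⟨n, hn, hn2⟩ := hx
  rw [dn_eq h.two_ne hs.root hs.disc] at hn2
  exact left_ne_zero_of_mul (a := c0 r x) (by rw [hn2]; exact pow_ne_zero 2 hn)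

theorem ST.nq_ne {x : Fin 3 → E} (hx : Nsq a b x) : nq r d x ≠ 0 := by
  obtain ⟨n, hn, hn2⟩ := hx
  rw [dn_eq h.two_ne hs.root hs.disc] at hn2
  exact right_ne_zero_of_mul (a := c0 r x) (by rw [hn2]; exact pow_ne_zero 2 hn)

theorem ST.sq {x : Fin 3 → E} (hx : Nsq a b x) : IsSquare (c0 r x * nq r d x) := by
  obtain ⟨n, hn, hn2⟩ := hx
  rw [dn_eq h.two_ne hs.root hs.disc] at hn2
  rw [hn2]
  exact ⟨n, by ring⟩

theorem ST.nq_even (x : Fin 3 → E) : Even (od w (nq r d x)) := h.ns_even hs.d1 hs.dns _ _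

theorem ST.c0_even {x : Fin 3 → E} (hx : Nsq a b x) : Even (od w (c0 r x)) := by
  obtain ⟨n, hn, hn2⟩ := hx
  have h1 := ST.c0_ne h hs ⟨n, hn, hn2⟩
  have h2 := ST.nq_ne h hs ⟨n, hn, hn2⟩
  rw [dn_eq h.two_ne hs.root hs.disc] at hn2
  have h3 := congrArg (od w) hn2
  rw [od_mul h1 h2, od_sq] at h3
  obtain ⟨i, hi⟩ := ST.nq_even h hs x
  exact ⟨od w n - i, by omega⟩

theorem ST.evq_mul {x y : Fin 3 → E} (hx : nq r d x ≠ 0) (hy : nq r d y ≠ 0) :
    EvQ w r d (mulc a b x y) ↔ (EvQ w r d x ↔ EvQ w r d y) := by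
  unfold EvQ
  rw [nq_mul h.two_ne hs.root hs.disc, od_mul hx hy]
  obtain ⟨i, hi⟩ := ST.nq_even h hs x
  obtain ⟨j, hj⟩ := ST.nq_even h hs y
  rw [hi, hj]
  omega

theorem ST.eta_mul {x y : Fin 3 → E} (hx : Nsq a b x) (hy : Nsq a b y) :
    Eta w a r d (mulc a b x y) ↔ (Eta w a r d x ↔ Eta w a r d y) := by
  have hcx := ST.c0_ne h hs hx
  have hcy := ST.c0_ne h hs hy
  have hex := ST.c0_even h hs hx
  have hey := ST.c0_even h hs hy
  have hE := ST.evq_mul h hs (ST.nq_ne h hs hx) (ST.nq_ne h hs hy)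
  have hF : (3 * r ^ 2 + a) ≠ 0 := ne_of_w hs.f1
  have hF0 : Even (od w (3 * r ^ 2 + a)) := by
    rw [(w_one_iff hF).1 hs.f1]
    exact ⟨0, by norm_num⟩
  have hxF : Even (od w (c0 r x * (3 * r ^ 2 + a))) := by
    rw [od_mul hcx hF]
    exact hex.add hF0
  have hyF : Even (od w (c0 r y * (3 * r ^ 2 + a))) := by
    rw [od_mul hcy hF]
    exact hey.add hF0
  unfold Eta
  rw [c0_mul hs.root, hE]
  by_cases h1 : EvQ w r d x <;> by_cases h2 : EvQ w r d y
  · simp only [h1, h2, true_implies, not_true, false_implies, and_true, iff_self]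
    exact h.ev_mul hcx hcy hex hey
  · simp only [h1, h2, true_implies, not_true, false_implies, and_true, not_false_eq_true,
      true_and, iff_false, true_iff]
    rw [mul_assoc]
    exact h.ev_mul hcx (mul_ne_zero hcy hF) hex hyF
  · simp only [h1, h2, true_implies, not_true, false_implies, and_true, not_false_eq_true,
      true_and, iff_false, false_iff]
    have e : c0 r x * c0 r y * (3 * r ^ 2 + a) = (c0 r x * (3 * r ^ 2 + a)) * c0 r y := by ring
    rw [e]
    exact h.ev_mul (mul_ne_zero hcx hF) hcy hxF hey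
  · simp only [h1, h2, true_implies, not_true, false_implies, and_true, not_false_eq_true,
      true_and, iff_self]
    rw [← h.ev_mul (mul_ne_zero hcx hF) (mul_ne_zero hcy hF) hxF hyF]
    have e : (c0 r x * (3 * r ^ 2 + a)) * (c0 r y * (3 * r ^ 2 + a)) =
        (3 * r ^ 2 + a) ^ 2 * (c0 r x * c0 r y) := by ring
    rw [e]
    exact (sqm ⟨_, pow_two _⟩ (pow_ne_zero 2 hF)).symm

/-- Odd valuation of the quadratic component: no zero if the class is not trivial. -/
theorem ST.aniso {β : Fin 3 → E} (hβ : Nsq a b β) (hQ : ¬ EvQ w r d β)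
    (hns : ¬ IsSquare (c0 r β * (3 * r ^ 2 + a))) : ¬ Iso a b β := by
  rintro ⟨x, hx, h0⟩
  have h2 := h.two_ne
  have hF : (3 * r ^ 2 + a) ≠ 0 := ne_of_w hs.f1
  have hd0 : d ≠ 0 := ne_of_w hs.d1
  have hβ0 := ST.c0_ne h hs hβ
  have hN0 := ST.nq_ne h hs hβ
  have hβe := ST.c0_even h hs hβ
  have e := co2 h2 hs.disc (mulc a b β (mulc a b x x))
  rw [h0, zero_mul, c0_mul hs.root, c0_mul hs.root, cU_mul h2 hs.root hs.disc β (mulc a b x x),
    cV_mul h2 hs.root hs.disc β (mulc a b x x), cU_mul h2 hs.root hs.disc x x,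
    cV_mul h2 hs.root hs.disc x x] at e
  set B0 := c0 r β with hB0
  set U := cU r d β with hU
  set V := cV r β with hV
  set X0 := c0 r x with hX0
  set X := cU r d x with hX
  set Y := cV r x with hY
  set N := nq r d β with hN
  have hNU : N = U ^ 2 - d * V ^ 2 := rfl
  -- `g = β (-3 r - √d) x ^ 2`
  set gU := (-3 * r * U - d * V) * (X ^ 2 + d * Y ^ 2) + d * (-(U + 3 * r * V)) * (2 * X * Y)
    with hgU
  set gV := (-(U + 3 * r * V)) * (X ^ 2 + d * Y ^ 2) + (-3 * r * U - d * V) * (2 * X * Y) with hgV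
  have hgV0 : gV = - (B0 * X0 ^ 2) := by
    rw [hgV]
    linear_combination -e
  have hnorm : gU ^ 2 - d * gV ^ 2 = 4 * (3 * r ^ 2 + a) * N * (X ^ 2 - d * Y ^ 2) ^ 2 := by
    rw [hgU, hgV, hNU, hs.disc]
    ring
  have hXY : ¬ (X = 0 ∧ Y = 0) := by
    rintro ⟨hX', hY'⟩
    have h3 : B0 * X0 ^ 2 = 0 := by
      rw [hX', hY'] at e
      linear_combination -e
    have h4 : X0 = 0 := (pow_eq_zero_iff two_ne_zero).1 ((mul_eq_zero.1 h3).resolve_left hβ0)
    exact hx (comp_inj h2 hs.disc hF h4 hX' hY')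
  have hxy0 := h.ns_ne hs.d1 hs.dns hXY
  -- the nonsquare `ν = F N = d κ ^ 2`
  have hνns : ¬ IsSquare ((3 * r ^ 2 + a) * N) := by
    intro hh
    apply hns
    have h3 : IsSquare (B0 * N) := ST.sq h hs hβ
    have h4 : IsSquare (N * (3 * r ^ 2 + a)) := by rw [mul_comm]; exact hh
    exact sq_tr h3 h4 hN0
  have hνe : Even (od w ((3 * r ^ 2 + a) * N)) := by
    rw [od_mul hF hN0, (w_one_iff hF).1 hs.f1, zero_add]
    exact ST.nq_even h hs β
  have hνd : IsSquare ((3 * r ^ 2 + a) * N * d) := by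
    rw [h.ev_mul (mul_ne_zero hF hN0) hd0 hνe (by rw [(w_one_iff hd0).1 hs.d1]; exact ⟨0, by norm_num⟩)]
    exact ⟨fun hh => absurd hh hνns, fun hh => absurd hh hs.dns⟩
  obtain ⟨κ, hκ⟩ := hνd
  have hκ0 : κ ≠ 0 := by
    rintro rfl
    exact (mul_ne_zero (mul_ne_zero hF hN0) hd0) (by rw [hκ]; ring)
  -- `od κ` is odd
  have hκo : Odd (od w κ) := by
    have h3 := congrArg (od w) hκ
    rw [od_mul (mul_ne_zero hF hN0) hd0, od_mul hF hN0, (w_one_iff hd0).1 hs.d1,
      (w_one_iff hF).1 hs.f1, od_mul hκ0 hκ0] at h3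
    obtain ⟨i, hi⟩ := ST.nq_even h hs β
    have h4 : ¬ (4 : ℤ) ∣ od w N := hQ
    rcases Int.even_or_odd (od w κ) with he | ho
    · exfalso
      obtain ⟨j, hj⟩ := he
      apply h4
      exact ⟨j, by omega⟩
    · exact ho
  -- `d gU ^ 2 = (d gV) ^ 2 + (2 κ n) ^ 2`
  set n := X ^ 2 - d * Y ^ 2 with hn
  have hmain : d * gU ^ 2 = (d * gV) ^ 2 + (2 * κ * n) ^ 2 := by
    linear_combination d * hnorm + 4 * n ^ 2 * hκ
  have hne : 2 * κ * n ≠ 0 := mul_ne_zero (mul_ne_zero h2 hκ0) hxy0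
  have hnod : Odd (od w (2 * κ * n)) := by
    rw [od_mul (mul_ne_zero h2 hκ0) hxy0, od_mul h2 hκ0, (w_one_iff h2).1 h.two, zero_add]
    exact hκo.add_even (h.ns_even hs.d1 hs.dns _ _)
  -- the two summands have different valuations
  have hcontra : ∀ u t : E, u ≠ 0 → w t < w u → d * gU ^ 2 = u ^ 2 + t ^ 2 → False := by
    intro u t hu htu hh
    have h3 := h.near (x := u ^ 2) (y := u ^ 2 + t ^ 2) (pow_ne_zero 2 hu) (by
      rw [add_sub_cancel_left, map_pow, map_pow]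
      exact pow_lt_pow_left₀ htu zero_le two_ne_zero)
    rw [← hh] at h3
    have h4 : IsSquare (d * gU ^ 2) := (sqm ⟨u, pow_two u⟩ (pow_ne_zero 2 hu)).1 h3.1
    have hg0 : gU ^ 2 ≠ 0 := right_ne_zero_of_mul h3.2
    rw [mul_comm] at h4
    exact hs.dns ((sqm ⟨gU, pow_two gU⟩ hg0).1 h4)
  by_cases hg0 : gV = 0
  · refine hcontra (2 * κ * n) 0 hne (by rw [map_zero]; exact zero_lt_iff.2 (w_ne hne)) ?_
    rw [hmain, hg0]
    ring
  · have hX00 : X0 ≠ 0 := by
      rintro h3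
      apply hg0
      rw [hgV0, h3]
      ring
    have hgod : Even (od w (d * gV)) := by
      rw [od_mul hd0 hg0, (w_one_iff hd0).1 hs.d1, zero_add, hgV0, od_neg,
        od_mul hβ0 (pow_ne_zero 2 hX00), od_sq]
      exact hβe.add ⟨od w X0, by ring⟩
    have hdg : d * gV ≠ 0 := mul_ne_zero hd0 hg0
    have hne' : od w (d * gV) ≠ od w (2 * κ * n) := by
      intro hh
      rw [hh] at hgod
      exact (Int.not_even_iff_odd.2 hnod) hgod
    rcases lt_or_gt_of_ne hne' with hlt | hlt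
    · exact hcontra _ _ hne ((od_lt hdg hne).1 hlt) (by rw [hmain]; ring)
    · exact hcontra _ _ hdg ((od_lt hne hdg).1 hlt) hmain

end st

end Pool.Agent.H467.MR
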