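import Pool.Agent.H467.MR.Loc2

/-!
# Points of the twist by a uniformiser; places of multiplicative reduction

Project MR (helper467).
-/

set_option autoImplicit false
set_option linter.all false

open Pool.Agent.N765.PP WithZero

namespace Pool.Agent.H467.MR

section st

variable {E : Type} [Field E] {w : Valuation E (WithZero (Multiplicative ℤ))} (h : LF w)
  {a b r d : E} (hs : ST w a b r d)

include h hs

/-- Squares have trivial classes. -/
theorem ST.eta_sq {x g : Fin 3 → E} (hx : Nsq a b x) (hg : x = mulc a b g g) : Eta w a r d x := by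
  have hq := ST.nq_ne h hs hx
  have e1 : nq r d x = nq r d g * nq r d g := by
    rw [hg, nq_mul h.two_ne hs.root hs.disc]
  have e2 : c0 r x = c0 r g * c0 r g := by rw [hg, c0_mul hs.root]
  have hg0 : nq r d g ≠ 0 := by
    intro hh
    rw [e1, hh, mul_zero] at hq
    exact hq rfl
  have hev : EvQ w r d x := by
    unfold EvQ
    rw [e1, od_mul hg0 hg0]
    obtain ⟨i, hi⟩ := ST.nq_even h hs g
    exact ⟨i, by omega⟩
  exact ⟨fun _ => ⟨_, e2⟩, fun hh => absurd hev hh⟩

/-- The classes of the points of the twist by `D`, `D` of odd valuation. -/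
theorem ST.eta_pt {D x y : E} (hD : od w D = -1) (hxy : y ^ 2 = x ^ 3 + a * D ^ 2 * x + b * D ^ 3)
    {α g : Fin 3 → E} (hα : Nsq a b α) (hg : mulc a b ![x, -D, 0] α = mulc a b g g) :
    Eta w a r d α := by
  have h2 := h.two_ne
  have hF : (3 * r ^ 2 + a) ≠ 0 := ne_of_w hs.f1
  have hD0 : D ≠ 0 := by
    rintro rfl
    rw [od_zero] at hD
    omega
  have hb : b = -r ^ 3 - a * r := by linear_combination hs.root
  have h4 : (4 : E) ≠ 0 := ne_of_w h.four
  have ha : a = -(d + 3 * r ^ 2) / 4 := by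
    rw [hs.disc]; field_simp; ring
  -- the components of `x - D θ`
  have e0 : c0 r ![x, -D, 0] = x - D * r := by
    simp only [c0, Matrix.cons_val_zero, Matrix.cons_val_one, Matrix.cons_val]
    ring
  set M := (x + D * r / 2) ^ 2 - d * (D / 2) ^ 2 with hM
  have eM : nq r d ![x, -D, 0] = M := by
    simp only [nq, cU, cV, Matrix.cons_val_zero, Matrix.cons_val_one, Matrix.cons_val, hM]
    ring
  have hyM : y ^ 2 = (x - D * r) * M := by
    rw [hxy, hM, hb, ha]
    field_simp
    ring
  have hM0 : M ≠ 0 := h.ns_ne hs.d1 hs.dns (fun hh => (div_ne_zero hD0 h2) hh.2)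
  have hgM : M * nq r d α = nq r d g * nq r d g := by
    rw [← eM, ← nq_mul h2 hs.root hs.disc, ← nq_mul h2 hs.root hs.disc, hg]
  have hα0 := ST.c0_ne h hs hα
  have hαq := ST.nq_ne h hs hα
  have hg0 : nq r d g ≠ 0 := by
    intro hh
    rw [hh, mul_zero] at hgM
    exact (mul_ne_zero hM0 hαq) hgM
  have hod : od w M + od w (nq r d α) = 2 * od w (nq r d g) := by
    rw [← od_mul hM0 hαq, hgM, od_mul hg0 hg0]; ring
  obtain ⟨i, hi⟩ := ST.nq_even h hs g
  -- `c0 α` has the class of `M`
  have hsq : IsSquare (c0 r α * M) :=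
    sq_tr (ST.sq h hs hα) (y := nq r d α) ⟨nq r d g, by rw [mul_comm]; exact hgM⟩ hαq
  have hD2 : w (D / 2) = w D := by rw [map_div₀, h.two, div_one]
  have hDr : w (D * r / 2) ≤ w D := by
    rw [map_div₀, h.two, div_one, map_mul]
    calc w D * w r ≤ w D * 1 := mul_le_mul' le_rfl hs.ra
      _ = w D := mul_one _
  have hDr' : w (D * r) ≤ w D := by
    rw [map_mul]
    calc w D * w r ≤ w D * 1 := mul_le_mul' le_rfl hs.ra
      _ = w D := mul_one _
  rcases lt_or_ge (w D) (w x) with hx | hx
  · -- the point is close to zero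
    have hx0 : x ≠ 0 := by
      rintro rfl
      rw [map_zero] at hx
      exact absurd hx (by simp)
    have hMx : w (M - x ^ 2) < w (x ^ 2) := by
      have e : M - x ^ 2 = D * r * x + ((D * r / 2) ^ 2 - d * (D / 2) ^ 2) := by
        rw [hM]; field_simp; ring
      rw [e, map_pow]
      refine lt_of_le_of_lt (Valuation.map_add _ _ _) (max_lt ?_ ?_)
      · rw [map_mul, pow_two]
        exact mul_lt_mul_of_pos_right (lt_of_le_of_lt hDr' hx) (zero_lt_iff.2 (w_ne hx0))
      · refine lt_of_le_of_lt (Valuation.map_sub _ _ _) (max_lt ?_ ?_)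
        · rw [map_pow]
          exact pow_lt_pow_left₀ (lt_of_le_of_lt hDr hx) zero_le two_ne_zero
        · rw [map_mul, hs.d1, one_mul, map_pow, hD2]
          exact pow_lt_pow_left₀ hx zero_le two_ne_zero
    have h5 := h.near (pow_ne_zero 2 hx0) hMx
    have hMsq : IsSquare M := (sqm ⟨x, pow_two x⟩ (pow_ne_zero 2 hx0)).1 h5.1
    have hc : IsSquare (c0 r α) := by
      rw [mul_comm] at hsq
      exact (sqm hMsq hM0).1 hsq
    have h6 : w ((x - D * r) - x) < w x := by
      have e : (x - D * r) - x = -(D * r) := by ring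
      rw [e, Valuation.map_neg]
      exact lt_of_le_of_lt hDr' hx
    have h7 := h.near hx0 h6
    have hwx : w (x - D * r) = w x := by
      have e : x - D * r = x + ((x - D * r) - x) := by ring
      rw [e]
      exact Valuation.map_add_eq_of_lt_left _ h6
    have hwM : w M = w (x ^ 2) := by
      have e : M = x ^ 2 + (M - x ^ 2) := by ring
      rw [e]
      exact Valuation.map_add_eq_of_lt_left _ hMx
    have hodM : od w M = 2 * od w x := by
      rw [← od_sq]
      unfold od
      rw [hwM]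
    have hodx : od w (x - D * r) = od w x := by
      unfold od
      rw [hwx]
    have h8 := congrArg (od w) hyM
    rw [od_sq, od_mul h7.2 hM0, hodM, hodx] at h8
    have hev : EvQ w r d α := ⟨i - (od w y - od w x), by omega⟩
    exact ⟨fun _ => hc, fun hh => absurd hev hh⟩
  · -- the point is close to the point of order two
    obtain ⟨z, hz⟩ : ∃ z, x = D * z := ⟨x / D, by field_simp⟩
    have hz1 : w z ≤ 1 := by
      rw [hz, map_mul] at hx
      have h0 : 0 < w D := zero_lt_iff.2 (w_ne hD0)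
      by_contra hcon
      rw [not_le] at hcon
      have := mul_lt_mul_of_pos_left hcon h0
      rw [mul_one] at this
      exact absurd (lt_of_lt_of_le this hx) (lt_irrefl _)
    set m := (z + r / 2) ^ 2 - d * (1 / 2) ^ 2 with hm
    have hMm : M = D ^ 2 * m := by
      rw [hM, hm, hz]
      ring
    have hr2 : w (r / 2) ≤ 1 := by
      rw [map_div₀, h.two, div_one]; exact hs.ra
    have hm1 : w m = 1 := by
      rw [hm, h.val_ns hs.d1 hs.dns, h.half, max_eq_right, one_pow]
      exact (Valuation.map_add _ _ _).trans (max_le hz1 hr2)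
    have hm0 := ne_of_w hm1
    have hodM : od w M = -2 := by
      rw [hMm, od_mul (pow_ne_zero 2 hD0) hm0, od_sq, hD, (w_one_iff hm0).1 hm1]
      norm_num
    have hnev : ¬ EvQ w r d α := by
      rintro ⟨j, hj⟩
      rw [hodM, hj, hi] at hod
      omega
    refine ⟨fun hh => absurd hh hnev, fun _ => ?_⟩
    -- `z` is close to `r`
    have hy' : y ^ 2 = D ^ 3 * ((z - r) * m) := by
      rw [hyM, hMm, hz]
      ring
    have hzr : w (z - r) < 1 := by
      by_cases hzr0 : z - r = 0
      · rw [hzr0, map_zero]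
        exact zero_lt_one
      · have h8 := congrArg (od w) hy'
        have e3 : D ^ 3 = D ^ 2 * D := by ring
        rw [od_sq, od_mul (pow_ne_zero 3 hD0) (mul_ne_zero hzr0 hm0), e3,
          od_mul (pow_ne_zero 2 hD0) hD0, od_sq, hD, od_mul hzr0 hm0, (w_one_iff hm0).1 hm1] at h8
        rw [w_lt_one_iff hzr0]
        have h9 : od w (z - r) ≤ 0 := by
          rw [← w_le_one_iff hzr0]
          exact (Valuation.map_sub _ _ _).trans (max_le hz1 hs.ra)
        omega
    have hmF : w (m - (3 * r ^ 2 + a)) < w (3 * r ^ 2 + a) := by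
      have e : m - (3 * r ^ 2 + a) = (z - r) * (z - r + 3 * r) := by
        rw [hm, ha]
        field_simp
        ring
      rw [e, hs.f1, map_mul]
      refine mul_lt_one_of_lt_of_le hzr ?_
      refine (Valuation.map_add _ _ _).trans (max_le hzr.le ?_)
      have h3 : w (3 : E) ≤ 1 := by
        have e3 : (3 : E) = 2 + 1 := by norm_num
        rw [e3]
        exact (Valuation.map_add _ _ _).trans (max_le h.two.le (map_one _).le)
      rw [map_mul]
      exact mul_le_one' h3 hs.ra
    have h5 := (h.near hF hmF).1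
    have h6 : IsSquare (M * (3 * r ^ 2 + a)) := by
      have e : M * (3 * r ^ 2 + a) = D ^ 2 * ((3 * r ^ 2 + a) * m) := by rw [hMm]; ring
      rw [e]
      exact (IsSquare.sq D).mul h5
    exact sq_tr hsq h6 hM0

end st

/-- A place of multiplicative reduction: `r` is a simple root, and the discriminant of the other
factor has odd valuation. -/
structure MT {E : Type} [Field E] (w : Valuation E (WithZero (Multiplicative ℤ)))
    (a b r d : E) : Prop where
  root : r ^ 3 + a * r + b = 0
  disc : d = -3 * r ^ 2 - 4 * a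
  r1 : w (3 * r / 2) = 1
  dlt : w d < 1
  dodd : Odd (od w d)

section mt

variable {E : Type} [Field E] {w : Valuation E (WithZero (Multiplicative ℤ))} (h : LF w)
  {a b r d : E} (hs : MT w a b r d)

include h hs

theorem MT.d_ne : d ≠ 0 := by
  rintro rfl
  have := hs.dodd
  rw [od_zero] at this
  exact (Int.not_even_iff_odd.2 this) ⟨0, by norm_num⟩

/-- `f'(r)` is a square. -/
theorem MT.f_sq : IsSquare (3 * r ^ 2 + a) ∧ 3 * r ^ 2 + a ≠ 0 := by
  have h4 : (4 : E) ≠ 0 := ne_of_w h.four
  have h2 := h.two_ne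
  have e : 3 * r ^ 2 + a - (3 * r / 2) ^ 2 = - d / 4 := by
    rw [hs.disc]; field_simp; ring
  have hr0 : 3 * r / 2 ≠ 0 := ne_of_w hs.r1
  have h5 := h.near (x := (3 * r / 2) ^ 2) (y := 3 * r ^ 2 + a) (pow_ne_zero 2 hr0) (by
    rw [e, map_pow, hs.r1, one_pow, map_div₀, Valuation.map_neg, h.four, div_one]
    exact hs.dlt)
  exact ⟨(sqm ⟨_, pow_two _⟩ (pow_ne_zero 2 hr0)).1 h5.1, h5.2⟩

/-- Norms from the ramified extension with even valuation are squares. -/
theorem MT.nq_sq {x : Fin 3 → E} (hx : nq r d x ≠ 0) (he : Even (od w (nq r d x))) :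
    IsSquare (nq r d x) := by
  have hd0 := MT.d_ne h hs
  set U := cU r d x with hU
  set V := cV r x with hV
  have e : nq r d x = U ^ 2 - d * V ^ 2 := rfl
  rw [e] at hx he ⊢
  by_cases hV0 : V = 0
  · rw [hV0]
    exact ⟨U, by ring⟩
  have hdV : d * V ^ 2 ≠ 0 := mul_ne_zero hd0 (pow_ne_zero 2 hV0)
  have hodd : Odd (od w (d * V ^ 2)) := by
    rw [od_mul hd0 (pow_ne_zero 2 hV0), od_sq]
    exact hs.dodd.add_even ⟨od w V, by ring⟩
  by_cases hU0 : U = 0
  · exfalso
    rw [hU0] at he
    have e2 : (0 : E) ^ 2 - d * V ^ 2 = -(d * V ^ 2) := by ring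
    rw [e2, od_neg] at he
    exact (Int.not_even_iff_odd.2 hodd) he
  have hne : od w (U ^ 2) ≠ od w (d * V ^ 2) := by
    intro hh
    rw [← hh, od_sq] at hodd
    exact (Int.not_even_iff_odd.2 hodd) ⟨od w U, by ring⟩
  rcases lt_or_gt_of_ne hne with hlt | hlt
  · exfalso
    have h3 : w (U ^ 2 - d * V ^ 2) = w (d * V ^ 2) :=
      Valuation.map_sub_eq_of_lt_right _ ((od_lt (pow_ne_zero 2 hU0) hdV).1 hlt)
    have h4 : od w (U ^ 2 - d * V ^ 2) = od w (d * V ^ 2) := by
      unfold od
      rw [h3]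
    rw [h4] at he
    exact (Int.not_even_iff_odd.2 hodd) he
  · have h5 := h.near (x := U ^ 2) (y := U ^ 2 - d * V ^ 2) (pow_ne_zero 2 hU0) (by
      have e3 : U ^ 2 - d * V ^ 2 - U ^ 2 = -(d * V ^ 2) := by ring
      rw [e3, Valuation.map_neg]
      exact (od_lt hdV (pow_ne_zero 2 hU0)).1 hlt)
    exact (sqm ⟨U, pow_two U⟩ (pow_ne_zero 2 hU0)).1 h5.1

/-- Isotropy at a place of multiplicative reduction. -/
theorem MT.iso {β : Fin 3 → E} (hβ : Nsq a b β) (he : Even (od w (c0 r β))) : Iso a b β := by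
  obtain ⟨n, hn, hn2⟩ := hβ
  have hn3 := hn2
  rw [dn_eq h.two_ne hs.root hs.disc] at hn3
  have hc : c0 r β ≠ 0 := left_ne_zero_of_mul (a := c0 r β) (by rw [hn3]; exact pow_ne_zero 2 hn)
  have hq : nq r d β ≠ 0 := right_ne_zero_of_mul (a := c0 r β) (by rw [hn3]; exact pow_ne_zero 2 hn)
  have h3 := congrArg (od w) hn3
  rw [od_mul hc hq, od_sq] at h3
  have hqe : Even (od w (nq r d β)) := by
    obtain ⟨i, hi⟩ := he
    exact ⟨od w n - i, by omega⟩
  have h4 := MT.nq_sq h hs hq hqe
  have h5 : IsSquare (c0 r β) := by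
    have h6 : IsSquare (nq r d β * c0 r β) := by
      rw [mul_comm, hn3]; exact IsSquare.sq n
    exact (sqm h4 hq).1 h6
  obtain ⟨u, hu⟩ := h5.mul (MT.f_sq h hs).1
  exact iso_of_sq h.two_ne hs.root hs.disc (MT.f_sq h hs).2 hn2 hn (w := u) (by rw [hu]; ring)

end mt

end Pool.Agent.H467.MR
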