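import Pool.Agent.H467.MR.Crd

/-!
# Classes modulo the cubic polynomial over a field

Project MR (helper467).
-/

set_option autoImplicit false
set_option linter.all false

open Polynomial
open Pool.Agent.N765.PP
open scoped Classical

namespace Pool.Agent.H467.MR

section rv

variable {E : Type} [Field E] {A B : E}

theorem cub_monic (A B : E) : (cub A B).Monic := by
  unfold cub
  monicity!

theorem cub_deg (A B : E) : (cub A B).natDegree = 3 := by
  unfold cub
  compute_degree!

/-- The coordinates of the residue class of `u` modulo the cubic polynomial. -/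
noncomputable def rv (A B : E) (u : E[X]) : Fin 3 → E := fun i => (u %ₘ cub A B).coeff i

/-- The polynomial with given coordinates. -/
noncomputable def pl3 (x : Fin 3 → E) : E[X] := C (x 0) + C (x 1) * X + C (x 2) * X ^ 2

theorem pl3_lt (x : Fin 3 → E) : (pl3 x).degree < 3 := by
  unfold pl3
  refine lt_of_le_of_lt (b := 2) ?_ (by norm_num)
  compute_degree

theorem rv_spec (u : E[X]) : cub A B ∣ u - pl3 (rv A B u) := by
  have h1 : pl3 (rv A B u) = u %ₘ cub A B := by
    have hd : (u %ₘ cub A B).natDegree < 3 := by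
      rw [← cub_deg A B]
      refine natDegree_modByMonic_lt u (cub_monic A B) ?_
      intro h
      have := cub_deg A B
      rw [h] at this
      simp at this
    conv_rhs => rw [(u %ₘ cub A B).as_sum_range_C_mul_X_pow' hd]
    simp [pl3, rv, Finset.sum_range_succ]
  rw [h1]
  exact ⟨u /ₘ cub A B, by
    have := modByMonic_add_div u (cub A B)
    linear_combination -this⟩

theorem rv_unique {u : E[X]} {x : Fin 3 → E} (h : cub A B ∣ u - pl3 x) : rv A B u = x := by
  obtain ⟨q, hq⟩ := h
  have h1 : u %ₘ cub A B = pl3 x := by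
    have hdeg : (cub A B).degree = 3 := by
      rw [degree_eq_natDegree (cub_monic A B).ne_zero, cub_deg]
      rfl
    exact (div_modByMonic_unique q (pl3 x) (cub_monic A B) ⟨by linear_combination -hq, by
      rw [hdeg]; exact pl3_lt x⟩).2
  funext i
  unfold rv
  rw [h1]
  fin_cases i <;> simp [pl3, coeff_X, coeff_C]

theorem rv_eq {u w : E[X]} (h : cub A B ∣ u - w) : rv A B u = rv A B w := by
  refine rv_unique ?_
  have h1 := rv_spec (A := A) (B := B) w
  have := dvd_add h h1
  rwa [sub_add_sub_cancel] at this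

theorem rv_mul (u w : E[X]) : rv A B (u * w) = mulc A B (rv A B u) (rv A B w) := by
  obtain ⟨p, hp⟩ := rv_spec (A := A) (B := B) u
  obtain ⟨q, hq⟩ := rv_spec (A := A) (B := B) w
  refine rv_unique ?_
  generalize rv A B u = x at *
  generalize rv A B w = y at *
  refine ⟨p * w + pl3 x * q + (C (x 1 * y 2 + x 2 * y 1) + C (x 2 * y 2) * X), ?_⟩
  have hu : u = pl3 x + cub A B * p := by linear_combination hp
  have hw : w = pl3 y + cub A B * q := by linear_combination hq
  rw [hu, hw]
  simp only [pl3, cub, mulc, Matrix.cons_val_zero, Matrix.cons_val_one, Matrix.cons_val, C_add,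
    C_mul, C_sub]
  ring

theorem rv_pl3 (x : Fin 3 → E) : rv A B (pl3 x) = x := rv_unique (by simp)

theorem rv_one : rv A B (1 : E[X]) = ![1, 0, 0] := by
  refine rv_unique ?_
  simp [pl3]

theorem rv_lin (x y : E) : rv A B (C x - C y * X) = ![x, -y, 0] := by
  refine rv_unique ?_
  simp only [pl3, Matrix.cons_val_zero, Matrix.cons_val_one, Matrix.cons_val, C_neg, C_0]
  refine ⟨0, ?_⟩
  ring

theorem dvd_of_rv {u : E[X]} (h : rv A B u = 0) : cub A B ∣ u := by
  have h1 := rv_spec (A := A) (B := B) u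
  rw [h] at h1
  simpa [pl3] using h1

/-- Isotropy from a representation of the class by a point. -/
theorem iso_of_pt {h g : E[X]} {x : E} (hd : cub A B ∣ (C x - X) * h - g ^ 2)
    {β : Fin 3 → E} (hβ : mulc A B β (rv A B h) = ![1, 0, 0]) (hg : ¬ cub A B ∣ g) :
    Iso A B β := by
  refine ⟨rv A B g, fun h0 => hg (dvd_of_rv h0), ?_⟩
  have e1 : mulc A B (rv A B g) (rv A B g) = rv A B ((C x - X) * h) := by
    rw [← rv_mul, rv_eq hd, pow_two]
  have e2 : β = rv A B (pl3 β) := (rv_pl3 β).symm
  rw [e1, e2, ← rv_mul]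
  have e3 : pl3 β * ((C x - X) * h) = (C x - C 1 * X) * (pl3 β * h) := by rw [C_1]; ring
  rw [e3, rv_mul, rv_mul (pl3 β) h, ← e2, hβ, rv_lin]
  simp [mulc]

/-- Isotropy for the trivial class. -/
theorem iso_of_one {h g : E[X]} (hd : cub A B ∣ h - g ^ 2)
    {β : Fin 3 → E} (hβ : mulc A B β (rv A B h) = ![1, 0, 0]) (hg : ¬ cub A B ∣ g) :
    Iso A B β := by
  refine ⟨rv A B g, fun h0 => hg (dvd_of_rv h0), ?_⟩
  have e1 : mulc A B (rv A B g) (rv A B g) = rv A B h := by
    rw [← rv_mul, rv_eq hd, pow_two]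
  rw [e1, hβ]
  simp

theorem rv_ne_of {h : E[X]} {β : Fin 3 → E} (hβ : mulc A B β (rv A B h) = ![1, 0, 0]) :
    IsCoprime (cub A B) h := by
  have e2 : β = rv A B (pl3 β) := (rv_pl3 β).symm
  rw [e2, ← rv_mul, ← rv_one (A := A) (B := B)] at hβ
  have h1 := rv_spec (A := A) (B := B) (pl3 β * h)
  have h2 := rv_spec (A := A) (B := B) (1 : E[X])
  rw [hβ] at h1
  obtain ⟨q, hq⟩ := dvd_sub h1 h2
  exact ⟨-q, pl3 β, by linear_combination hq⟩

end rv

section tor

variable {E : Type} [Field E] {A B : E}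

theorem cub_fac {e : E} (he : e ^ 3 + A * e + B = 0) :
    cub A B = (X - C e) * (X ^ 2 + C e * X + C (e ^ 2 + A)) := by
  have hB : B = -e ^ 3 - A * e := by linear_combination he
  rw [hB]
  unfold cub
  simp only [C_sub, C_neg, C_mul, C_pow, C_add]
  ring

/-- `g_e u ≡ u(e) g_e`. -/
theorem ge_mul {e : E} (he : e ^ 3 + A * e + B = 0) (u : E[X]) :
    cub A B ∣ (X ^ 2 + C e * X + C (e ^ 2 + A)) * u - C (u.eval e) *
      (X ^ 2 + C e * X + C (e ^ 2 + A)) := by
  have h1 : X - C e ∣ u - C (u.eval e) := by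
    rw [dvd_iff_isRoot]
    simp
  obtain ⟨q, hq⟩ := h1
  rw [cub_fac he]
  exact ⟨q, by linear_combination (X ^ 2 + C e * X + C (e ^ 2 + A)) * hq⟩

theorem fe_ne (hΔ : 4 * A ^ 3 + 27 * B ^ 2 ≠ 0) {e : E} (he : e ^ 3 + A * e + B = 0) :
    3 * e ^ 2 + A ≠ 0 := by
  intro h0
  apply hΔ
  have hB : B = -e ^ 3 - A * e := by linear_combination he
  have hA : A = -3 * e ^ 2 := by linear_combination h0
  rw [hB, hA]
  ring

/-- A class coming from a point, given by a polynomial congruence without a condition at a rational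
point of order two, comes from a point in the sense of `Wc`, if the norm is a square. -/
theorem wc_of_loc (h2 : (2 : E) ≠ 0) (hΔ : 4 * A ^ 3 + 27 * B ^ 2 ≠ 0) {h : E[X]}
    (hN : Nsq A B (rv A B h))
    (hl : (∃ g : E[X], cub A B ∣ h - g ^ 2) ∨ ∃ x y : E, y ^ 2 = x ^ 3 + A * x + B ∧
      ∃ g : E[X], cub A B ∣ (C x - X) * h - g ^ 2) : Wc A B h := by
  rcases hl with ⟨g, hg⟩ | ⟨x, y, hxy, g, hg⟩
  · exact ⟨1, g, IsMu.one, by rwa [one_mul]⟩
  · by_cases hy : y = 0
    · -- a point of order two
      have hx : x ^ 3 + A * x + B = 0 := by rw [← hxy, hy]; ring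
      have hF := fe_ne hΔ hx
      obtain ⟨n, hn, hn2⟩ := hN
      rw [dn_eq h2 hx rfl] at hn2
      set d := -3 * x ^ 2 - 4 * A with hd
      -- `c0 x (rv h) = h(x)`
      have hval : ∀ u : E[X], c0 x (rv A B u) = u.eval x := by
        intro u
        obtain ⟨q, hq⟩ := rv_spec (A := A) (B := B) u
        have h1 := congrArg (eval x) hq
        rw [cub_fac hx] at h1
        simp [pl3] at h1
        unfold c0
        linear_combination -h1
      have hgx : g.eval x = 0 := by
        obtain ⟨q, hq⟩ := hg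
        have h1 := congrArg (eval x) hq
        rw [cub_fac hx] at h1
        simp at h1
        exact h1
      -- the norm of the quadratic component
      have e1 : mulc A B ![x, -1, 0] (rv A B h) = mulc A B (rv A B g) (rv A B g) := by
        rw [← rv_lin (A := A) (B := B) x 1, ← rv_mul, ← rv_mul, ← pow_two]
        refine rv_eq ?_
        rw [C_1, one_mul]
        exact hg
      have e2 := congrArg (nq x d) e1
      rw [nq_mul h2 hx rfl, nq_mul h2 hx rfl] at e2
      have e3 : nq x d ![x, -1, 0] = 3 * x ^ 2 + A := by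
        have h4 : (4 : E) ≠ 0 := by
          rw [show (4 : E) = 2 * 2 by norm_num]; exact mul_ne_zero h2 h2
        simp only [nq, cU, cV, Matrix.cons_val_zero, Matrix.cons_val_one, Matrix.cons_val, hd]
        field_simp
        ring
      rw [e3] at e2
      rw [hval] at hn2
      have hq0 : nq x d (rv A B h) ≠ 0 := right_ne_zero_of_mul (a := h.eval x) (by
        rw [hn2]; exact pow_ne_zero 2 hn)
      have hh0 : h.eval x ≠ 0 := left_ne_zero_of_mul (a := h.eval x) (b := nq x d (rv A B h)) (by
        rw [hn2]; exact pow_ne_zero 2 hn)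
      have hg0 : nq x d (rv A B g) ≠ 0 := by
        intro h0
        rw [h0, mul_zero] at e2
        exact (mul_ne_zero hF hq0) e2
      -- κ² F = h(x)
      obtain ⟨κ, hκ⟩ : ∃ κ : E, κ ^ 2 * (3 * x ^ 2 + A) = h.eval x := by
        refine ⟨n / nq x d (rv A B g), ?_⟩
        rw [div_pow, ← hn2, div_mul_eq_mul_div, div_eq_iff (pow_ne_zero 2 hg0)]
        rw [pow_two (nq x d (rv A B g)), ← e2]
        ring
      refine ⟨_, g + C κ * (X ^ 2 + C x * X + C (x ^ 2 + A)), IsMu.tor x hx, ?_⟩
      set G := (X ^ 2 + C x * X + C (x ^ 2 + A) : E[X]) with hG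
      have hGx : G.eval x = 3 * x ^ 2 + A := by
        rw [hG]; simp; ring
      have d1 := ge_mul hx h
      have d2 := ge_mul hx g
      have d3 := ge_mul hx G
      rw [← hG] at d1 d2 d3
      rw [hgx, C_0, zero_mul, sub_zero] at d2
      rw [hGx] at d3
      have e5 : ((C x - X) + G) * h - (g + C κ * G) ^ 2 =
          ((C x - X) * h - g ^ 2) + (G * h - C (h.eval x) * G) - C (2 * κ) * (G * g) -
          C (κ ^ 2) * (G * G - C (3 * x ^ 2 + A) * G) +
          (C (h.eval x) - C (κ ^ 2) * C (3 * x ^ 2 + A)) * G := by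
        simp only [C_mul, C_pow, C_ofNat]
        ring
      have e6 : (C (h.eval x) - C (κ ^ 2) * C (3 * x ^ 2 + A) : E[X]) = 0 := by
        rw [← C_mul, hκ, sub_self]
      rw [e5, e6, zero_mul, add_zero]
      exact dvd_sub (dvd_sub (dvd_add hg d1) (Dvd.dvd.mul_left d2 _)) (Dvd.dvd.mul_left d3 _)
    · exact ⟨C x - X, g, IsMu.pt x y hy hxy, hg⟩

/-- Isotropy for the classes of points. -/
theorem iso_of_wc (hΔ : 4 * A ^ 3 + 27 * B ^ 2 ≠ 0) {h : E[X]} (hw : Wc A B h)
    {β : Fin 3 → E} (hβ : mulc A B β (rv A B h) = ![1, 0, 0]) : Iso A B β := by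
  have hcop := rv_ne_of hβ
  obtain ⟨μ, g, hμ, hd⟩ := hw
  have hdeg : ∀ u : E[X], u ≠ 0 → u.natDegree < 3 → ¬ cub A B ∣ u := by
    intro u hu hlt hdvd
    have := natDegree_le_of_dvd hdvd hu
    rw [cub_deg] at this
    omega
  rcases hμ with _ | ⟨x, y, hy, hxy⟩ | ⟨e, he⟩
  · rw [one_mul] at hd
    refine iso_of_one hd hβ fun hg => ?_
    have h1 : cub A B ∣ h := by
      have := dvd_add hd (dvd_pow hg two_ne_zero)
      rwa [sub_add_cancel] at this
    have h3 := hcop.isUnit_of_dvd' dvd_rfl h1
    have := natDegree_eq_zero_of_isUnit h3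
    rw [cub_deg] at this
    omega
  · refine iso_of_pt hd hβ fun hg => ?_
    have h1 : cub A B ∣ (C x - X) * h := by
      have := dvd_add hd (dvd_pow hg two_ne_zero)
      rwa [sub_add_cancel] at this
    have h3 := hcop.dvd_of_dvd_mul_right h1
    refine hdeg _ ?_ ?_ h3
    · intro h0
      have := congrArg (fun p => coeff p 1) h0
      simp at this
    · refine lt_of_le_of_lt (b := 1) ?_ (by norm_num)
      compute_degree
  · -- a point of order two
    have hF := fe_ne hΔ he
    set G := (X ^ 2 + C e * X + C (e ^ 2 + A) : E[X]) with hG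
    have hGe : G.eval e = 3 * e ^ 2 + A := by
      rw [hG]; simp; ring
    set κ := g.eval e / (3 * e ^ 2 + A) with hκ
    have hκ' : κ * (3 * e ^ 2 + A) = g.eval e := by rw [hκ]; field_simp
    have hroot : (cub A B).eval e = 0 := by
      unfold cub; simp; linear_combination he
    have hval : (3 * e ^ 2 + A) * h.eval e = g.eval e ^ 2 := by
      obtain ⟨q, hq⟩ := hd
      have h1 := congrArg (eval e) hq
      rw [eval_mul, hroot, zero_mul] at h1
      simp only [eval_sub, eval_add, eval_mul, eval_pow, eval_C, eval_X, hGe, sub_self,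
        zero_add] at h1
      linear_combination h1
    have d1 := ge_mul he h
    have d2 := ge_mul he g
    have d3 := ge_mul he G
    rw [← hG] at d1 d2 d3
    rw [hGe] at d3
    have e5 : (C e - X) * h - (g - C κ * G) ^ 2 =
        (((C e - X) + G) * h - g ^ 2) - (G * h - C (h.eval e) * G) +
        C (2 * κ) * (G * g - C (g.eval e) * G) - C (κ ^ 2) * (G * G - C (3 * e ^ 2 + A) * G) +
        C (2 * κ * g.eval e - h.eval e - κ ^ 2 * (3 * e ^ 2 + A)) * G := by
      simp only [C_mul, C_pow, C_ofNat, C_sub]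
      ring
    have e6 : 2 * κ * g.eval e - h.eval e - κ ^ 2 * (3 * e ^ 2 + A) = 0 := by
      have h1 : (3 * e ^ 2 + A) * (2 * κ * g.eval e - h.eval e - κ ^ 2 * (3 * e ^ 2 + A)) = 0 := by
        rw [← hκ'] at hval ⊢
        linear_combination -hval
      exact (mul_eq_zero.1 h1).resolve_left hF
    rw [e6, C_0, zero_mul, add_zero] at e5
    have hd' : cub A B ∣ (C e - X) * h - (g - C κ * G) ^ 2 := by
      rw [e5]
      exact dvd_sub (dvd_add (dvd_sub hd d1) (Dvd.dvd.mul_left d2 _)) (Dvd.dvd.mul_left d3 _)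
    refine iso_of_pt hd' hβ fun hg => ?_
    have h1 : cub A B ∣ (C e - X) * h := by
      have := dvd_add hd' (dvd_pow hg two_ne_zero)
      rwa [sub_add_cancel] at this
    have h3 := hcop.dvd_of_dvd_mul_right h1
    refine hdeg _ ?_ ?_ h3
    · intro h0
      have := congrArg (fun p => coeff p 1) h0
      simp at this
    · refine lt_of_le_of_lt (b := 1) ?_ (by norm_num)
      compute_degree

end tor

end Pool.Agent.H467.MR
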