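import Pool.Agent.H467.MR.Prm4
import Pool.Agent.H467.MR.Poly
import Pool.Agent.H467.MR.Spec2

/-!
# Local conditions of the twist at the primes not dividing `D`

Project MR (helper467).
-/

set_option autoImplicit false
set_option linter.all false

open Polynomial IsDedekindDomain WithZero
open Pool.Agent.N874.PP Pool.Agent.N704.PP
open scoped Classical

namespace Pool.Agent.H467.MR

section prm

variable {k K L O : Type} [Field k] [Field K] [Algebra k[X] K] [IsFractionRing k[X] K]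
  [Field L] [Algebra K L] [Algebra k[X] L] [IsScalarTower k[X] K L] [CommRing O]
  [IsDedekindDomain O] [Algebra O L] [IsFractionRing O L] [Algebra k[X] O]
  [IsScalarTower k[X] O L] [IsIntegralClosure O k[X] L] [Module.Finite k[X] O]
  [Module.IsTorsionFree k[X] O] {a b : k[X]} {θ : L}

/-- The parity at a prime of odd degree from the norm. -/
theorem parity_n [FiniteDimensional K L] {P : k[X]} (hP : Irreducible P) {𝔓 : HeightOneSpectrum O}
    (h𝔓 : Ov P 𝔓) (hf : Odd (fd P 𝔓)) {α : L} (hα : α ≠ 0) (hN : IsSquare (Algebra.norm K α))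
    (hall : ∀ 𝔮 : HeightOneSpectrum O, Ov P 𝔮 → 𝔮 ≠ 𝔓 → Ev 𝔮 α) : Ev 𝔓 α := by
  obtain ⟨v, hv⟩ : ∃ v : HeightOneSpectrum k[X], v.asIdeal = Ideal.span {P} :=
    ⟨⟨Ideal.span {P}, (Ideal.span_singleton_prime hP.ne_zero).2 hP.prime,
      by rw [Ne, Ideal.span_singleton_eq_bot]; exact hP.ne_zero⟩, rfl⟩
  have key := normo (K := K) (L := L) (O := O) hP hv hα
  have h1 : Even (od (v.valuation K) (Algebra.norm K α)) := by
    obtain ⟨n, hn⟩ := hN
    have hn2 : Algebra.norm K α = n ^ 2 := by rw [hn, pow_two]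
    rw [hn2, od_sq]
    exact ⟨_, two_mul _⟩
  have hmem : 𝔓 ∈ SP (O := O) K L P hP.ne_zero := (mem_SP (K := K) (L := L)).2 h𝔓
  rw [key, ← Finset.add_sum_erase _ _ hmem, Int.even_add] at h1
  have h2 : Even (∑ 𝔮 ∈ (SP (O := O) K L P hP.ne_zero).erase 𝔓,
      (fd P 𝔮 : ℤ) * od (𝔮.valuation L) α) := by
    refine Finset.even_sum _ fun 𝔮 h𝔮 => ?_
    have h3 := hall 𝔮 ((mem_SP (K := K) (L := L)).1 (Finset.mem_of_mem_erase h𝔮))
      (Finset.ne_of_mem_erase h𝔮)
    rw [ev_iff 𝔮 hα] at h3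
    exact h3.mul_left _
  have h3 := h1.2 h2
  rw [ev_iff 𝔓 hα]
  rw [Int.even_mul] at h3
  rcases h3 with h4 | h4
  · exfalso
    have h5 : Odd ((fd P 𝔓 : ℕ) : ℤ) := by exact_mod_cast hf
    exact (Int.not_even_iff_odd.2 h5) h4
  · exact h4

/-- The local condition at a nice prime not dividing `D`: even valuations. -/
theorem loc1n [FiniteDimensional K L] (hcub : IsCub K a b θ) {P : k[X]}
    {v : HeightOneSpectrum k[X]} (hP : Irreducible P) (hv : v.asIdeal = Ideal.span {P})
    (hn : Nice O θ P) {D : k[X]} {h : K[X]} (hD : ¬ P ∣ D)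
    (hne : aeval (algebraMap k[X] L D * θ) h ≠ 0)
    (hN : IsSquare (Algebra.norm K (aeval (algebraMap k[X] L D * θ) h)))
    (hl : PolyLoc v (a * D ^ 2) (b * D ^ 3) h) (𝔓 : HeightOneSpectrum O) (h𝔓 : Ov P 𝔓) :
    Ev 𝔓 (aeval (algebraMap k[X] L D * θ) h) := by
  have hΘ := hTheta hcub D
  set Θ : L := algebraMap k[X] L D * θ with hΘd
  set α : L := aeval Θ h with hα
  have hθ1 : ∀ 𝔮 : HeightOneSpectrum O, 𝔮.valuation L θ ≤ 1 := fun 𝔮 => val_int 𝔮 (theta_int hcub)
  rcases loc_cases (O := O) hΘ hl with H | ⟨x, y, hxy, H⟩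
  · obtain ⟨j, hj1, hj2, hj3⟩ := cmap (K := K) (L := L) hP hv h𝔓
    obtain ⟨g, hg⟩ := H 𝔓 j hj1
    exact ev_of 𝔓 α g (by rw [hg, map_pow])
  · by_cases hx : Valued.v x ≤ 1
    · obtain ⟨c, hc⟩ := resid_mul hP hv hD x hx
      have key : ∀ 𝔮 : HeightOneSpectrum O, Ov P 𝔮 →
          ¬ (𝔮.valuation L (θ - algebraMap k[X] L c) < 1) → Ev 𝔮 α := by
        intro 𝔮 hq hlt
        obtain ⟨j, hj1, hj2, hj3⟩ := cmap (K := K) (L := L) hP hv hq
        obtain ⟨g, hg⟩ := H 𝔮 j hj1
        have e : j x - algebraMap L (𝔮.adicCompletion L) Θ =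
            j (x - algebraMap K (v.adicCompletion K) (algebraMap k[X] K (D * c))) -
            algebraMap L (𝔮.adicCompletion L)
              (algebraMap k[X] L D * (θ - algebraMap k[X] L c)) := by
          rw [map_sub, hj1, ← IsScalarTower.algebraMap_apply k[X] K L]
          simp only [hΘd, map_mul, map_sub]
          ring
        have h3 : 𝔮.valuation L (θ - algebraMap k[X] L c) = 1 :=
          le_antisymm ((Valuation.map_sub _ _ _).trans (max_le (hθ1 𝔮) (valO_le_one 𝔮 c)))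
            (not_lt.1 hlt)
        have h4 : Valued.v (algebraMap L (𝔮.adicCompletion L)
              (algebraMap k[X] L D * (θ - algebraMap k[X] L c))) = 1 := by
          rw [vx, map_mul, h3, valO_eq_one hP hq hD, one_mul]
        have h5 : Valued.v (j x - algebraMap L (𝔮.adicCompletion L) Θ) = 1 := by
          rw [e, Valuation.map_sub_eq_of_lt_right _ (by rw [h4]; exact hj3 _ hc), h4]
        refine ev_of 𝔮 α g ?_
        have h6 := congrArg (Valued.v : 𝔮.adicCompletion L → WithZero (Multiplicative ℤ)) hg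
        rw [map_mul, h5, one_mul, map_pow] at h6
        exact h6
      by_cases hcc : 𝔓.valuation L (θ - algebraMap k[X] L c) < 1
      · obtain ⟨hodd, huniq⟩ := hn 𝔓 c h𝔓 hcc
        refine parity_n (K := K) hP h𝔓 hodd hne hN ?_
        intro 𝔮 hq hne'
        exact key 𝔮 hq fun hlt => hne' (huniq 𝔮 hq hlt)
      · exact key 𝔓 h𝔓 hcc
    · rw [not_le] at hx
      have hv3 := big hxy hx
      have hx0 : x ≠ 0 := by
        rintro rfl
        rw [map_zero] at hx
        exact absurd hx (by simp)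
      have hvx0 : Valued.v x ≠ 0 := (Valuation.ne_zero_iff _).2 hx0
      have hvy0 : Valued.v y ≠ 0 := by
        intro h
        rw [h, zero_pow two_ne_zero] at hv3
        exact pow_ne_zero 3 hvx0 hv3.symm
      have hy0 : y ≠ 0 := (Valuation.ne_zero_iff _).1 hvy0
      obtain ⟨j, hj1, hj2, hj3⟩ := cmap (K := K) (L := L) hP hv h𝔓
      obtain ⟨g, hg⟩ := H 𝔓 j hj1
      have h3 : Valued.v (j (x ^ 3 / y ^ 2)) = 1 := j_unit j hj2 (by
        rw [map_div₀, map_pow, map_pow, hv3, div_self (pow_ne_zero 3 hvx0)])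
      have hjx := j_big j hj3 hx
      have h4 : Valued.v (algebraMap L (𝔓.adicCompletion L) Θ) ≤ 1 := by
        rw [vx, hΘd, map_mul]
        exact mul_le_one' (valO_le_one 𝔓 D) (hθ1 𝔓)
      have h5 : Valued.v (j x - algebraMap L (𝔓.adicCompletion L) Θ) = Valued.v (j x) :=
        Valuation.map_sub_eq_of_lt_left _ (lt_of_le_of_lt h4 hjx)
      have hjy0 : j y ≠ 0 := by rw [Ne, map_eq_zero]; exact hy0
      have hjx0 : j x ≠ 0 := by rw [Ne, map_eq_zero]; exact hx0
      refine ev_of 𝔓 α (g / (j y / j x)) ?_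
      have h6 := congrArg (Valued.v : 𝔓.adicCompletion L → WithZero (Multiplicative ℤ)) hg
      rw [map_mul, h5, map_pow] at h6
      have e7 : (g / (j y / j x)) ^ 2 * (j x)⁻¹ = g ^ 2 / (j x) ^ 2 * j (x ^ 3 / y ^ 2) := by
        rw [map_div₀, map_pow, map_pow]
        field_simp
      have h7 := congrArg (Valued.v : 𝔓.adicCompletion L → WithZero (Multiplicative ℤ)) e7
      have hvj0 : Valued.v (j x) ≠ 0 := (Valuation.ne_zero_iff _).2 hjx0
      rw [map_mul, map_mul, h3, mul_one, map_div₀, map_pow, map_pow, map_pow, map_inv₀, ← h6] at h7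
      calc Valued.v (algebraMap L (𝔓.adicCompletion L) α) =
          (Valued.v (j x) * Valued.v (algebraMap L (𝔓.adicCompletion L) α) /
            Valued.v (j x) ^ 2) * Valued.v (j x) := by field_simp
        _ = Valued.v (g / (j y / j x)) ^ 2 * (Valued.v (j x))⁻¹ * Valued.v (j x) := by rw [h7]
        _ = Valued.v (g / (j y / j x)) ^ 2 := by
          rw [mul_assoc, inv_mul_cancel₀ hvj0, mul_one]

end prm

end Pool.Agent.H467.MR
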