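import Pool.Agent.H467.MR.Crd
import Pool.Graph.R_pool_sql_team_seeded_63374d34.N704.PP.Loc1

/-!
# The valuation of a norm

Project MR (helper467).
-/

set_option autoImplicit false
set_option linter.all false

open Polynomial IsDedekindDomain WithZero UniqueFactorizationMonoid
open Pool.Agent.N874.PP Pool.Agent.N352.PP Pool.Agent.N862.PP
open scoped Classical

namespace Pool.Agent.H467.MR

section nrm

variable {k K L O : Type} [Field k] [Field K] [Algebra k[X] K] [IsFractionRing k[X] K]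
  [Field L] [Algebra K L] [Algebra k[X] L] [IsScalarTower k[X] K L] [CommRing O]
  [IsDedekindDomain O] [Algebra O L] [IsFractionRing O L] [Algebra k[X] O]
  [IsScalarTower k[X] O L] [IsIntegralClosure O k[X] L] [Module.Finite k[X] O]
  [Module.IsTorsionFree k[X] O]

/-- The inertia degree of `𝔓` over `P`, in terms of the relative norm. -/
noncomputable def fd (P : k[X]) (𝔓 : HeightOneSpectrum O) : ℕ :=
  cn k[X] (Ideal.span {P}) 𝔓.asIdeal

/-- The primes over `P`. -/
noncomputable def SP (K L : Type) [Field K] [Algebra k[X] K] [IsFractionRing k[X] K] [Field L]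
    [Algebra K L] [Algebra k[X] L] [IsScalarTower k[X] K L] [Algebra O L] [IsFractionRing O L]
    [IsScalarTower k[X] O L] (P : k[X]) (hP : P ≠ 0) : Finset (HeightOneSpectrum O) :=
  (Pool.Agent.N765.PP.fin_over (K := K) (L := L) (O := O) hP).toFinset

theorem mem_SP {P : k[X]} {hP : P ≠ 0} {𝔓 : HeightOneSpectrum O} :
    𝔓 ∈ SP K L P hP ↔ Ov P 𝔓 := by
  simp [SP]

theorem normo_int [FiniteDimensional K L] {P : k[X]} (hP : Irreducible P)
    {v : HeightOneSpectrum k[X]} (hv : v.asIdeal = Ideal.span {P}) {z : O} (hz : z ≠ 0) :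
    od (v.valuation K) (Algebra.norm K (algebraMap O L z)) =
      ∑ 𝔓 ∈ SP (O := O) K L P hP.ne_zero, (fd P 𝔓 : ℤ) * od (𝔓.valuation L) (algebraMap O L z) := by
  have hpp : (Ideal.span {P} : Ideal k[X]).IsPrime :=
    (Ideal.span_singleton_prime hP.ne_zero).mpr hP.prime
  have hpb : (Ideal.span {P} : Ideal k[X]) ≠ ⊥ := by
    rw [Ne, Ideal.span_singleton_eq_bot]
    exact hP.ne_zero
  have hn0 : Algebra.intNorm k[X] O z ≠ 0 := fun h0 => hz (Algebra.intNorm_eq_zero.mp h0)
  have e1 : Algebra.norm K (algebraMap O L z) = algebraMap k[X] K (Algebra.intNorm k[X] O z) :=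
    (Algebra.algebraMap_intNorm (A := k[X]) (K := K) (L := L) (B := O) z).symm
  have e2 : od (v.valuation K) (algebraMap k[X] K (Algebra.intNorm k[X] O z)) =
      -((normalizedFactors (Ideal.span {Algebra.intNorm k[X] O z})).count (Ideal.span {P}) : ℤ) := by
    unfold od
    rw [Pool.Agent.N862.PP.val_eq v hn0, log_exp, hv]
  have e3 : (normalizedFactors (Ideal.span {Algebra.intNorm k[X] O z})).count (Ideal.span {P}) =
      cn k[X] (Ideal.span {P}) (Ideal.span {z} : Ideal O) := by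
    unfold cn
    rw [Ideal.relNorm_singleton]
  have hzI : (Ideal.span {z} : Ideal O) ≠ ⊥ := by
    rw [Ne, Ideal.span_singleton_eq_bot]
    exact hz
  have e4 : ∀ 𝔓 : HeightOneSpectrum O, od (𝔓.valuation L) (algebraMap O L z) =
      -((normalizedFactors (Ideal.span {z} : Ideal O)).count 𝔓.asIdeal : ℤ) := by
    intro 𝔓
    unfold od
    rw [Pool.Agent.N862.PP.val_eq 𝔓 hz, log_exp]
  rw [e1, e2, e3, cn_sum _ hzI]
  simp only [e4]
  push_cast
  rw [← Finset.sum_neg_distrib]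
  -- compare the sums
  have e5 : ∑ J ∈ (normalizedFactors (Ideal.span {z} : Ideal O)).toFinset,
      -(((normalizedFactors (Ideal.span {z} : Ideal O)).count J : ℤ) *
        (cn k[X] (Ideal.span {P}) J : ℤ)) =
      ∑ J ∈ (normalizedFactors (Ideal.span {z} : Ideal O)).toFinset.filter
        (fun J => (Ideal.span {P} : Ideal k[X]) ≤ J.comap (algebraMap k[X] O)),
      -(((normalizedFactors (Ideal.span {z} : Ideal O)).count J : ℤ) *
        (cn k[X] (Ideal.span {P}) J : ℤ)) := by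
    symm
    refine Finset.sum_subset (Finset.filter_subset _ _) fun J hJ hJ' => ?_
    have hJp := prime_of_normalized_factor J (Multiset.mem_toFinset.1 hJ)
    have hJ2 : ¬ (Ideal.span {P} : Ideal k[X]) ≤ J.comap (algebraMap k[X] O) := fun hh =>
      hJ' (Finset.mem_filter.2 ⟨hJ, hh⟩)
    rw [cn_zero hpp hpb (Ideal.isPrime_of_prime hJp) hJp.ne_zero hJ2]
    simp
  have e6 : ∑ 𝔓 ∈ SP (O := O) K L P hP.ne_zero, (fd P 𝔓 : ℤ) *
      -((normalizedFactors (Ideal.span {z} : Ideal O)).count 𝔓.asIdeal : ℤ) =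
      ∑ 𝔓 ∈ (SP (O := O) K L P hP.ne_zero).filter
        (fun 𝔓 => 𝔓.asIdeal ∈ normalizedFactors (Ideal.span {z} : Ideal O)), (fd P 𝔓 : ℤ) *
      -((normalizedFactors (Ideal.span {z} : Ideal O)).count 𝔓.asIdeal : ℤ) := by
    symm
    refine Finset.sum_subset (Finset.filter_subset _ _) fun 𝔓 h𝔓 h𝔓' => ?_
    have : 𝔓.asIdeal ∉ normalizedFactors (Ideal.span {z} : Ideal O) := fun hh =>
      h𝔓' (Finset.mem_filter.2 ⟨h𝔓, hh⟩)
    rw [Multiset.count_eq_zero_of_notMem this]
    simp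
  rw [e5, e6]
  symm
  refine Finset.sum_bij (fun 𝔓 _ => 𝔓.asIdeal) ?_ ?_ ?_ ?_
  · intro 𝔓 h𝔓
    rw [Finset.mem_filter] at h𝔓 ⊢
    refine ⟨Multiset.mem_toFinset.2 h𝔓.2, ?_⟩
    rw [Ideal.span_singleton_le_iff_mem]
    exact (mem_SP (K := K) (L := L)).1 h𝔓.1
  · intro 𝔓 _ 𝔓' _ h0
    exact HeightOneSpectrum.ext h0
  · intro J hJ
    rw [Finset.mem_filter] at hJ
    have hJ1 := Multiset.mem_toFinset.1 hJ.1
    have hJp := prime_of_normalized_factor J hJ1
    refine ⟨⟨J, Ideal.isPrime_of_prime hJp, hJp.ne_zero⟩, ?_, rfl⟩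
    rw [Finset.mem_filter]
    refine ⟨(mem_SP (K := K) (L := L)).2 ?_, hJ1⟩
    exact hJ.2 (Ideal.mem_span_singleton_self P)
  · intro 𝔓 _
    unfold fd
    ring

theorem normo [FiniteDimensional K L] {P : k[X]} (hP : Irreducible P)
    {v : HeightOneSpectrum k[X]} (hv : v.asIdeal = Ideal.span {P}) {x : L} (hx : x ≠ 0) :
    od (v.valuation K) (Algebra.norm K x) =
      ∑ 𝔓 ∈ SP (O := O) K L P hP.ne_zero, (fd P 𝔓 : ℤ) * od (𝔓.valuation L) x := by
  obtain ⟨z, y, hy, rfl⟩ := IsFractionRing.div_surjective (A := O) x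
  have hy0 : y ≠ 0 := nonZeroDivisors.ne_zero hy
  have hyL : algebraMap O L y ≠ 0 := by simpa using hy0
  have hzL : algebraMap O L z ≠ 0 := left_ne_zero_of_mul (b := (algebraMap O L y)⁻¹) (by
    rw [← div_eq_mul_inv]; exact hx)
  have hz0 : z ≠ 0 := by
    rintro rfl
    simp at hzL
  have hny : Algebra.norm K (algebraMap O L y) ≠ 0 := Algebra.norm_ne_zero_iff.2 hyL
  have hnz : Algebra.norm K (algebraMap O L z) ≠ 0 := Algebra.norm_ne_zero_iff.2 hzL
  have hdiv : Algebra.norm K (algebraMap O L z / algebraMap O L y) =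
      Algebra.norm K (algebraMap O L z) / Algebra.norm K (algebraMap O L y) := by
    rw [eq_div_iff hny, ← map_mul, div_mul_cancel₀ _ hyL]
  rw [hdiv, od_div hnz hny, normo_int (L := L) hP hv hz0, normo_int (L := L) hP hv hy0,
    ← Finset.sum_sub_distrib]
  refine Finset.sum_congr rfl fun 𝔓 _ => ?_
  rw [od_div hzL hyL]
  ring

/-- `Ev` in terms of the exponent. -/
theorem ev_iff {R F : Type} [CommRing R] [IsDedekindDomain R] [Field F] [Algebra R F]
    [IsFractionRing R F] (𝔓 : HeightOneSpectrum R) {x : F} (hx : x ≠ 0) :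
    Ev 𝔓 x ↔ Even (od (𝔓.valuation F) x) := by
  constructor
  · rintro ⟨y, hy⟩
    refine ⟨od (𝔓.valuation F) y, ?_⟩
    have : od (𝔓.valuation F) x = od (𝔓.valuation F) (y ^ 2) := by
      unfold od
      rw [hy, map_pow]
    rw [this, od_sq]
    ring
  · rintro ⟨i, hi⟩
    obtain ⟨y, hy⟩ := 𝔓.valuation_surjective F (exp i)
    refine ⟨y, ?_⟩
    rw [← exp_od (w := 𝔓.valuation F) hx, hi, hy, ← exp_nsmul]
    congr 1
    simp
    ring

theorem fd_pos {P : k[X]} (hP : Irreducible P) {𝔓 : HeightOneSpectrum O} (h : Ov P 𝔓) :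
    1 ≤ fd P 𝔓 := by
  have hpp : (Ideal.span {P} : Ideal k[X]).IsPrime :=
    (Ideal.span_singleton_prime hP.ne_zero).mpr hP.prime
  have hpb : (Ideal.span {P} : Ideal k[X]) ≠ ⊥ := by
    rw [Ne, Ideal.span_singleton_eq_bot]
    exact hP.ne_zero
  exact (cn_pow hpp hpb 𝔓.isPrime (Pool.Agent.N704.PP.comap_eq hP h)).2

end nrm

end Pool.Agent.H467.MR
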