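import Pool.Agent.H467.MR.Chs
import Pool.Graph.R_pool_sql_team_seeded_63374d34.N874.PP.Sel2

/-!
# One curve

Project MR (helper467).
-/

set_option autoImplicit false
set_option linter.all false

open Polynomial IsDedekindDomain WithZero
open Pool.Agent.N874.PP Pool.Agent.N352.PP Pool.Agent.N765.PP Pool.Agent.TH115.GD
open scoped Classical

namespace Pool.Agent.H467.MR

section irr

variable {k K : Type} [Field k] [Field K] [Algebra k[X] K] [IsFractionRing k[X] K] {a b : k[X]}

/-- The cubic polynomial of the twist is irreducible. -/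
theorem irr_twist (h : Irreducible (X ^ 3 + C (algebraMap k[X] K a) * X +
    C (algebraMap k[X] K b) : K[X])) {D : k[X]} (hD : D ≠ 0) :
    Irreducible (X ^ 3 + C (algebraMap k[X] K (a * D ^ 2)) * X +
      C (algebraMap k[X] K (b * D ^ 3)) : K[X]) := by
  have hD' : algebraMap k[X] K D ≠ 0 := by
    rwa [Ne, IsFractionRing.to_map_eq_zero_iff]
  have key : ∀ A B : K, Irreducible (X ^ 3 + C A * X + C B : K[X]) ↔
      ∀ x : K, x ^ 3 + A * x + B ≠ 0 := by
    intro A B
    have hm : (X ^ 3 + C A * X + C B : K[X]).Monic := by monicity!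
    have hdeg : (X ^ 3 + C A * X + C B : K[X]).natDegree = 3 := by compute_degree!
    rw [hm.irreducible_iff_roots_eq_zero_of_degree_le_three (by rw [hdeg]; norm_num)
      (by rw [hdeg])]
    constructor
    · intro h0 x hx
      have : x ∈ (X ^ 3 + C A * X + C B : K[X]).roots := by
        rw [mem_roots hm.ne_zero]
        simp only [IsRoot.def, eval_add, eval_mul, eval_pow, eval_X, eval_C]
        exact hx
      rw [h0] at this
      simp at this
    · intro h0
      rw [Multiset.eq_zero_iff_forall_notMem]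
      intro x hx
      rw [mem_roots hm.ne_zero] at hx
      simp only [IsRoot.def, eval_add, eval_mul, eval_pow, eval_X, eval_C] at hx
      exact h0 x hx
  rw [key] at h ⊢
  intro x hx
  apply h (x / algebraMap k[X] K D)
  rw [map_mul, map_mul, map_pow, map_pow] at hx
  field_simp
  linear_combination hx

end irr

/-- The primes of the data can be taken to be monic. -/
theorem Dat.normal {k K : Type} [Field k] [Field K] [Algebra k[X] K] {m : ℕ}
    {a b P : Fin m → k[X]} (h : Dat K a b P) : Dat K a b (fun i => normalize (P i)) where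
  irr := h.irr
  prm := fun i => (normalize_associated (P i)).symm.irreducible (h.prm i)
  mul := fun i hd => h.mul i ((normalize_associated (P i)).dvd_iff_dvd_left.1 hd)
  odd := fun i => by
    obtain ⟨n, c, hc, hn⟩ := h.odd i
    obtain ⟨u, hu⟩ := normalize_associated (P i)
    refine ⟨n, (u : k[X]) ^ (2 * n + 1) * c, ?_, ?_⟩
    · show dsc (a i) (b i) = normalize (P i) ^ (2 * n + 1) * ((u : k[X]) ^ (2 * n + 1) * c)
      rw [hc]
      conv_lhs => rw [← hu]
      ring
    · intro hd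
      rw [(normalize_associated (P i)).dvd_iff_dvd_left] at hd
      have h1 : IsUnit ((u : k[X]) ^ (2 * n + 1)) := u.isUnit.pow _
      exact hn (h1.dvd_mul_left.1 hd)
  oth := fun i j hij hd => h.oth i j hij ((normalize_associated (P i)).dvd_iff_dvd_left.1 hd)

theorem Dat.mt {k K : Type} [Field k] [Field K] [Algebra k[X] K] {m : ℕ}
    {a b P : Fin m → k[X]} (h : Dat K a b P) (i : Fin m) : MTp (a i) (b i) (P i) :=
  ⟨h.prm i, h.mul i, h.odd i⟩

theorem Dat.dsc_ne {k K : Type} [Field k] [Field K] [Algebra k[X] K] {m : ℕ}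
    {a b P : Fin m → k[X]} (h : Dat K a b P) (i : Fin m) : dsc (a i) (b i) ≠ 0 := by
  obtain ⟨n, c, hc, hn⟩ := h.odd i
  rw [hc]
  refine mul_ne_zero (pow_ne_zero _ (h.prm i).ne_zero) ?_
  rintro rfl
  exact hn (dvd_zero _)

/-- The conclusion for one curve and one twist. -/
def GoodTw {k : Type} [Field k] (K : Type) [Field K] [Algebra k[X] K] [IsFractionRing k[X] K]
    (a b D : k[X]) : Prop :=
  Finite (Pt (sW (algebraMap k[X] K (a * D ^ 2)) (algebraMap k[X] K (b * D ^ 3))) K) ∧
    Odd (Nat.card (Pt (sW (algebraMap k[X] K (a * D ^ 2)) (algebraMap k[X] K (b * D ^ 3))) K)) ∧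
    ShaTwo k (sW (algebraMap k[X] K (a * D ^ 2)) (algebraMap k[X] K (b * D ^ 3)))

theorem one (hFINT : S_FINT) (hSTQ : S_STQ) (hCLO : S_CLO) (hLIN : S_LIN)
    (hUNI : S_UNI) (hEVI : S_EVI) (hDI : S_DIAGI) (hHP : S_HP) (hT : S_TAME) (hGAL : S_GALI)
    {k : Type} [Field k] [Finite k] (K : Type) [Field K] [Algebra k[X] K] [IsFractionRing k[X] K]
    {m : ℕ} {a b P : Fin m → k[X]} (h6 : (6 : k) ≠ 0) (hdat : Dat K a b P) (i : Fin m) :
    ∃ S J : Finset k[X], J ⊆ S ∧
      (∀ Q ∈ S, Q.Monic ∧ Irreducible Q ∧ (∃ c : k[X], Q ∣ c ^ 3 + a i * c + b i) ∧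
        ¬ Q ∣ dsc (a i) (b i) ∧ ∀ j, j ≠ i → ∀ c : k[X], ¬ Q ∣ c ^ 3 + a j * c + b j) ∧
      ∀ D : k[X], D.Monic → Squarefree D → Even D.natDegree →
        (∀ Q : k[X], Q.Monic → Irreducible Q → Q ∣ D →
          Q ∈ S ∨ ∀ c : k[X], ¬ Q ∣ c ^ 3 + a i * c + b i) →
        (∀ Q ∈ S, (Q ∣ D ↔ Q ∈ J)) →
        (∀ Q : k[X], Q.Monic → Irreducible Q → Q ∣ dsc (a i) (b i) → Q ≠ P i →
          ∃ z : k[X], Q ∣ z ^ 2 - D) →
        GoodTw K (a i) (b i) D := by
  haveI hfact : Fact (Irreducible (FF K (a i) (b i))) := ⟨hdat.irr i⟩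
  have hc := isCub_adjoinRoot (K := K) (a i) (b i)
  have h6K : (6 : K) ≠ 0 := by
    have : (6 : K) = algebraMap k[X] K (C 6) := by
      rw [show (C (6 : k) : k[X]) = 6 from rfl, map_ofNat]
    rw [this, Ne, IsFractionRing.to_map_eq_zero_iff, C_eq_zero]
    exact h6
  haveI : FiniteDimensional K (AdjoinRoot (FF K (a i) (b i))) :=
    (FF_monic (K := K) (a i) (b i)).finite_adjoinRoot
  haveI : Algebra.IsSeparable K (AdjoinRoot (FF K (a i) (b i))) := sep_adjoinRoot h6K (a i) (b i)
  haveI : IsDedekindDomain (integralClosure k[X] (AdjoinRoot (FF K (a i) (b i)))) :=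
    integralClosure.isDedekindDomain k[X] K (AdjoinRoot (FF K (a i) (b i)))
  haveI : IsFractionRing (integralClosure k[X] (AdjoinRoot (FF K (a i) (b i))))
      (AdjoinRoot (FF K (a i) (b i))) :=
    integralClosure.isFractionRing_of_finite_extension K (AdjoinRoot (FF K (a i) (b i)))
  haveI : Module.Finite k[X] (integralClosure k[X] (AdjoinRoot (FF K (a i) (b i)))) :=
    IsIntegralClosure.finite k[X] K (AdjoinRoot (FF K (a i) (b i))) _
  have hinjL : Function.Injective (algebraMap k[X] (AdjoinRoot (FF K (a i) (b i)))) := by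
    rw [IsScalarTower.algebraMap_eq k[X] K (AdjoinRoot (FF K (a i) (b i)))]
    exact (algebraMap K _).injective.comp (IsFractionRing.injective k[X] K)
  haveI : Module.IsTorsionFree k[X] (integralClosure k[X] (AdjoinRoot (FF K (a i) (b i)))) := by
    have : Module.IsTorsionFree k[X] (AdjoinRoot (FF K (a i) (b i))) := by
      have := Module.IsTorsionFree.of_smul_eq_zero (R := k[X])
        (M := AdjoinRoot (FF K (a i) (b i))) (fun r x hrx => by
          rw [Algebra.smul_def] at hrx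
          rcases mul_eq_zero.1 hrx with h1 | h1
          · left
            exact hinjL (by rw [h1, map_zero])
          · right
            exact h1)
      exact this
    infer_instance
  have hΔ := hdat.dsc_ne i
  obtain ⟨S, R, hS, hsep⟩ := exists_S hFINT hSTQ h6 hdat i hc
    (integralClosure k[X] (AdjoinRoot (FF K (a i) (b i)))) hΔ
  obtain ⟨J, hJ, hcore⟩ := sel_core (integralClosure k[X] (AdjoinRoot (FF K (a i) (b i)))) hCLO hLIN
    hUNI hEVI hDI hHP hT h6 hc hΔ (hdat.mt i) S R (fun Q hQ => (hS Q hQ).1) hsep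
  refine ⟨S, J, hJ, fun Q hQ => ⟨(hS Q hQ).1.1, (hS Q hQ).1.2.irr, ⟨R Q, (hS Q hQ).1.2.root⟩,
    (hS Q hQ).1.2.dsc, (hS Q hQ).2⟩, ?_⟩
  intro D hDm hDsq hDe hDP hDJ hDbad
  have hD0 : D ≠ 0 := hDm.ne_zero
  have hRt : Rt (algebraMap k[X] K (a i * D ^ 2)) (algebraMap k[X] K (b i * D ^ 3))
      (algebraMap k[X] (AdjoinRoot (FF K (a i) (b i))) D * AdjoinRoot.root (FF K (a i) (b i))) := by
    unfold Rt
    rw [← IsScalarTower.algebraMap_apply k[X] K (AdjoinRoot (FF K (a i) (b i))),
      ← IsScalarTower.algebraMap_apply k[X] K (AdjoinRoot (FF K (a i) (b i)))]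
    have h1 := root_eq (K := K) (a i) (b i)
    simp only [map_mul, map_pow]
    linear_combination (algebraMap k[X] (AdjoinRoot (FF K (a i) (b i))) D) ^ 3 * h1
  have hd2 : (4 * (a i * D ^ 2) ^ 3 + 27 * (b i * D ^ 3) ^ 2 : k[X]) ≠ 0 := by
    have e : (4 * (a i * D ^ 2) ^ 3 + 27 * (b i * D ^ 3) ^ 2 : k[X]) =
        D ^ 6 * dsc (a i) (b i) := by
      simp only [dsc]
      ring
    rw [e]
    exact mul_ne_zero (pow_ne_zero _ hD0) hΔ
  exact hGAL k K (AdjoinRoot (FF K (a i) (b i))) (a i * D ^ 2) (b i * D ^ 3) _ h6 hd2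
    (irr_twist (hdat.irr i) hD0) hRt hc.rank (fun p hp hN hloc hinf =>
      hcore D hDm hDsq hDe hDP hDJ hDbad p ⟨hp, hN⟩ hloc hinf)

end Pool.Agent.H467.MR
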