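import Pool.Agent.H467.MR.Nrm

/-!
# The primes of the cubic field over a prime of `k[X]`

Project MR (helper467).
-/

set_option autoImplicit false
set_option linter.all false

open Polynomial IsDedekindDomain WithZero UniqueFactorizationMonoid
open Pool.Agent.N874.PP Pool.Agent.N352.PP
open scoped Classical

namespace Pool.Agent.H467.MR

section prm

variable {k K L O : Type} [Field k] [Field K] [Algebra k[X] K] [IsFractionRing k[X] K]
  [Field L] [Algebra K L] [Algebra k[X] L] [IsScalarTower k[X] K L] [CommRing O]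
  [IsDedekindDomain O] [Algebra O L] [IsFractionRing O L] [Algebra k[X] O]
  [IsScalarTower k[X] O L] [IsIntegralClosure O k[X] L] [Module.Finite k[X] O]
  [Module.IsTorsionFree k[X] O] {a b : k[X]} {θ : L}

/-- The value of the cubic polynomial. -/
noncomputable def fv (a b c : k[X]) : k[X] := c ^ 3 + a * c + b

theorem theta_le (h : IsCub K a b θ) (𝔓 : HeightOneSpectrum O) : 𝔓.valuation L θ ≤ 1 :=
  Pool.Agent.N704.PP.val_int 𝔓 (Pool.Agent.N704.PP.theta_int h)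

theorem thc_le (h : IsCub K a b θ) (𝔓 : HeightOneSpectrum O) (c : k[X]) :
    𝔓.valuation L (θ - algebraMap k[X] L c) ≤ 1 :=
  (Valuation.map_sub _ _ _).trans (max_le (theta_le h 𝔓) (Pool.Agent.N704.PP.valO_le_one 𝔓 c))

theorem thc_ne (h : IsCub K a b θ) (c : k[X]) : θ - algebraMap k[X] L c ≠ 0 := by
  intro h0
  have h1 : cK h θ = cK h (algebraMap K L (algebraMap k[X] K c)) := by
    rw [← IsScalarTower.algebraMap_apply k[X] K L, ← sub_eq_zero.1 h0]
  rw [cK_theta, cK_algebraMap] at h1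
  have := congrFun h1 1
  simp at this

theorem norm_thc (h : IsCub K a b θ) (c : k[X]) :
    Algebra.norm K (θ - algebraMap k[X] L c) = algebraMap k[X] K (-(fv a b c)) := by
  have e : cK h (θ - algebraMap k[X] L c) = ![-(algebraMap k[X] K c), 1, 0] := by
    refine cK_of h ?_
    rw [IsScalarTower.algebraMap_apply k[X] K L]
    simp
    ring
  rw [norm_cK h, e]
  simp only [dnE, fv, Matrix.cons_val_zero, Matrix.cons_val_one, Matrix.cons_val, map_neg, map_add,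
    map_mul, map_pow]
  ring

/-- If `θ ≡ c` then `f(c) ≡ 0`. -/
theorem dvd_of_lt (h : IsCub K a b θ) {P : k[X]} (hP : Irreducible P) {𝔓 : HeightOneSpectrum O}
    (h𝔓 : Ov P 𝔓) {c : k[X]} (hc : 𝔓.valuation L (θ - algebraMap k[X] L c) < 1) :
    P ∣ fv a b c := by
  rw [← Pool.Agent.N704.PP.valO_lt_one (L := L) hP h𝔓]
  have e : algebraMap k[X] L (fv a b c) = -((θ - algebraMap k[X] L c) *
      (θ ^ 2 + θ * algebraMap k[X] L c + algebraMap k[X] L (c ^ 2 + a))) := by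
    have := h.root
    simp only [fv, map_add, map_mul, map_pow]
    linear_combination this
  rw [e, Valuation.map_neg, map_mul]
  refine mul_lt_one_of_lt_of_le hc ?_
  refine (Valuation.map_add _ _ _).trans (max_le ((Valuation.map_add _ _ _).trans (max_le ?_ ?_))
    (Pool.Agent.N704.PP.valO_le_one 𝔓 _))
  · rw [map_pow]
    exact pow_le_one₀ zero_le (theta_le h 𝔓)
  · rw [map_mul]
    exact mul_le_one' (theta_le h 𝔓) (Pool.Agent.N704.PP.valO_le_one 𝔓 _)

/-- The other factor at a prime with `θ ≡ c`, `c` a simple root. -/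
theorem cof_one (h : IsCub K a b θ) {P : k[X]} (hP : Irreducible P) {𝔓 : HeightOneSpectrum O}
    (h𝔓 : Ov P 𝔓) {c : k[X]} (hc : 𝔓.valuation L (θ - algebraMap k[X] L c) < 1)
    (hs : ¬ P ∣ 3 * c ^ 2 + a) :
    𝔓.valuation L (θ ^ 2 + θ * algebraMap k[X] L c + algebraMap k[X] L (c ^ 2 + a)) = 1 := by
  have e : θ ^ 2 + θ * algebraMap k[X] L c + algebraMap k[X] L (c ^ 2 + a) =
      algebraMap k[X] L (3 * c ^ 2 + a) + (θ - algebraMap k[X] L c) *
        (θ + algebraMap k[X] L (2 * c)) := by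
    simp only [map_add, map_mul, map_pow, map_ofNat]
    ring
  have h1 := Pool.Agent.N704.PP.valO_eq_one (L := L) hP h𝔓 hs
  rw [e, Valuation.map_add_eq_of_lt_left, h1]
  rw [h1, map_mul]
  refine mul_lt_one_of_lt_of_le hc ?_
  exact (Valuation.map_add _ _ _).trans (max_le (theta_le h 𝔓)
    (Pool.Agent.N704.PP.valO_le_one 𝔓 _))

/-- A representative of a simple root at which the value is exactly divisible by `P`. -/
theorem exact_rep {P : k[X]} (hP : Irreducible P) {c : k[X]} (hc : P ∣ fv a b c)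
    (hs : ¬ P ∣ 3 * c ^ 2 + a) : ∃ R u : k[X], P ∣ R - c ∧ fv a b R = P * u ∧ ¬ P ∣ u := by
  obtain ⟨u0, hu0⟩ := hc
  by_cases hu : P ∣ u0
  · refine ⟨c + P, u0 + (3 * c ^ 2 + a) + P * (3 * c + P), ⟨1, by ring⟩, ?_, ?_⟩
    · unfold fv at hu0 ⊢
      linear_combination hu0
    · intro h0
      apply hs
      have h1 := dvd_sub (dvd_sub h0 hu) (Dvd.intro (3 * c + P) (rfl : P * (3 * c + P) = _))
      have e : u0 + (3 * c ^ 2 + a) + P * (3 * c + P) - u0 - P * (3 * c + P) =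
          3 * c ^ 2 + a := by ring
      rwa [e] at h1
  · exact ⟨c, u0, ⟨0, by ring⟩, hu0, hu⟩

theorem od_v_P {P : k[X]} (hP : Irreducible P) {v : HeightOneSpectrum k[X]}
    (hv : v.asIdeal = Ideal.span {P}) : od (v.valuation K) (algebraMap k[X] K P) = -1 := by
  unfold od
  rw [← vv_em, vv_em_P hP.ne_zero hv, log_exp]

theorem od_v_unit {P : k[X]} (hP : Irreducible P) {v : HeightOneSpectrum k[X]}
    (hv : v.asIdeal = Ideal.span {P}) {u : k[X]} (hu : ¬ P ∣ u) :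
    od (v.valuation K) (algebraMap k[X] K u) = 0 := by
  unfold od
  rw [Pool.Agent.N704.PP.val_eq_one hv hu, log_one]

theorem od_O_unit {P : k[X]} (hP : Irreducible P) {𝔓 : HeightOneSpectrum O} (h𝔓 : Ov P 𝔓)
    {u : k[X]} (hu : ¬ P ∣ u) : od (𝔓.valuation L) (algebraMap k[X] L u) = 0 := by
  unfold od
  rw [Pool.Agent.N704.PP.valO_eq_one hP h𝔓 hu, log_one]

include K in
theorem algL_ne {u : k[X]} (hu : u ≠ 0) : algebraMap k[X] L u ≠ 0 := by
  intro h0
  exact hu (Pool.Agent.N765.PP.injL (K := K) (L := L) (by rw [h0, map_zero]))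

/-- The sum over the primes for an element `θ - R` with `f(R)` exactly divisible by `P`: there is
exactly one prime with `θ ≡ R`, it has degree one and is unramified. -/
theorem simple_prime [FiniteDimensional K L] (h : IsCub K a b θ) {P : k[X]} (hP : Irreducible P)
    {c : k[X]} (hc : P ∣ fv a b c) (hs : ¬ P ∣ 3 * c ^ 2 + a) :
    ∃ 𝔓₀ : HeightOneSpectrum O, Ov P 𝔓₀ ∧ 𝔓₀.valuation L (θ - algebraMap k[X] L c) < 1 ∧
      fd P 𝔓₀ = 1 ∧ od (𝔓₀.valuation L) (algebraMap k[X] L P) = -1 ∧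
      ∀ 𝔓 : HeightOneSpectrum O, Ov P 𝔓 → 𝔓.valuation L (θ - algebraMap k[X] L c) < 1 →
        𝔓 = 𝔓₀ := by
  obtain ⟨v, hv⟩ : ∃ v : HeightOneSpectrum k[X], v.asIdeal = Ideal.span {P} :=
    ⟨⟨Ideal.span {P}, (Ideal.span_singleton_prime hP.ne_zero).2 hP.prime,
      by rw [Ne, Ideal.span_singleton_eq_bot]; exact hP.ne_zero⟩, rfl⟩
  obtain ⟨R, u, hRc, hR, hu⟩ := exact_rep hP hc hs
  have hu0 : u ≠ 0 := by rintro rfl; exact hu (dvd_zero _)
  have hf0 : fv a b R ≠ 0 := by rw [hR]; exact mul_ne_zero hP.ne_zero hu0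
  have hne := thc_ne h R
  have key := normo (K := K) (L := L) (O := O) hP hv hne
  have e1 : od (v.valuation K) (Algebra.norm K (θ - algebraMap k[X] L R)) = -1 := by
    have hPK : algebraMap k[X] K P ≠ 0 := by
      rw [Ne, IsFractionRing.to_map_eq_zero_iff]; exact hP.ne_zero
    have huK : algebraMap k[X] K u ≠ 0 := by
      rw [Ne, IsFractionRing.to_map_eq_zero_iff]; exact hu0
    rw [norm_thc h, map_neg, od_neg, hR, map_mul, od_mul hPK huK, od_v_P hP hv, od_v_unit hP hv hu]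
    norm_num
  rw [e1] at key
  -- `θ ≡ R` iff `θ ≡ c`
  have hiff : ∀ 𝔓 : HeightOneSpectrum O, Ov P 𝔓 →
      (𝔓.valuation L (θ - algebraMap k[X] L R) < 1 ↔
        𝔓.valuation L (θ - algebraMap k[X] L c) < 1) := by
    intro 𝔓 h𝔓
    have h1 : 𝔓.valuation L (algebraMap k[X] L (R - c)) < 1 :=
      (Pool.Agent.N704.PP.valO_lt_one (L := L) hP h𝔓 _).2 hRc
    constructor
    · intro h2
      have e : θ - algebraMap k[X] L c = (θ - algebraMap k[X] L R) + algebraMap k[X] L (R - c) := by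
        rw [map_sub]; ring
      rw [e]
      exact lt_of_le_of_lt (Valuation.map_add _ _ _) (max_lt h2 h1)
    · intro h2
      have e : θ - algebraMap k[X] L R = (θ - algebraMap k[X] L c) - algebraMap k[X] L (R - c) := by
        rw [map_sub]; ring
      rw [e]
      exact lt_of_le_of_lt (Valuation.map_sub _ _ _) (max_lt h2 h1)
  have hle : ∀ 𝔓 : HeightOneSpectrum O, od (𝔓.valuation L) (θ - algebraMap k[X] L R) ≤ 0 :=
    fun 𝔓 => (w_le_one_iff hne).1 (thc_le h 𝔓 R)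
  have hterm : ∀ 𝔓 ∈ SP (O := O) K L P hP.ne_zero,
      (fd P 𝔓 : ℤ) * od (𝔓.valuation L) (θ - algebraMap k[X] L R) ≤ 0 := fun 𝔓 _ =>
    mul_nonpos_of_nonneg_of_nonpos (by positivity) (hle 𝔓)
  -- some prime contributes
  obtain ⟨𝔓₀, h𝔓₀, h𝔓₀'⟩ : ∃ 𝔓₀ ∈ SP (O := O) K L P hP.ne_zero,
      od (𝔓₀.valuation L) (θ - algebraMap k[X] L R) < 0 := by
    by_contra hcon
    push Not at hcon
    have : ∑ 𝔓 ∈ SP (O := O) K L P hP.ne_zero,
        (fd P 𝔓 : ℤ) * od (𝔓.valuation L) (θ - algebraMap k[X] L R) = 0 :=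
      Finset.sum_eq_zero fun 𝔓 h𝔓 => by
        rw [le_antisymm (hle 𝔓) (hcon 𝔓 h𝔓), mul_zero]
    omega
  have hov := (mem_SP (K := K) (L := L)).1 h𝔓₀
  have hsplit := Finset.add_sum_erase (SP (O := O) K L P hP.ne_zero)
    (fun 𝔓 => (fd P 𝔓 : ℤ) * od (𝔓.valuation L) (θ - algebraMap k[X] L R)) h𝔓₀
  have hrest : ∑ 𝔓 ∈ (SP (O := O) K L P hP.ne_zero).erase 𝔓₀,
      (fd P 𝔓 : ℤ) * od (𝔓.valuation L) (θ - algebraMap k[X] L R) ≤ 0 :=
    Finset.sum_nonpos fun 𝔓 h𝔓 => hterm 𝔓 (Finset.mem_of_mem_erase h𝔓)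
  have hfd := fd_pos (O := O) hP hov
  have h1 : (fd P 𝔓₀ : ℤ) * od (𝔓₀.valuation L) (θ - algebraMap k[X] L R) ≤ -1 * 1 := by
    nlinarith
  have h2 : (fd P 𝔓₀ : ℤ) * od (𝔓₀.valuation L) (θ - algebraMap k[X] L R) = -1 := by omega
  have h3 : ∑ 𝔓 ∈ (SP (O := O) K L P hP.ne_zero).erase 𝔓₀,
      (fd P 𝔓 : ℤ) * od (𝔓.valuation L) (θ - algebraMap k[X] L R) = 0 := by omega
  have h4 : fd P 𝔓₀ = 1 ∧ od (𝔓₀.valuation L) (θ - algebraMap k[X] L R) = -1 := by
    have h5 : (1 : ℤ) ≤ fd P 𝔓₀ := by exact_mod_cast hfd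
    have h6 : od (𝔓₀.valuation L) (θ - algebraMap k[X] L R) ≤ -1 := by omega
    have h7 : (fd P 𝔓₀ : ℤ) = 1 := by nlinarith
    refine ⟨by exact_mod_cast h7, ?_⟩
    rw [h7, one_mul] at h2
    exact h2
  have hlt0 : 𝔓₀.valuation L (θ - algebraMap k[X] L R) < 1 := (w_lt_one_iff hne).2 h𝔓₀'
  refine ⟨𝔓₀, hov, (hiff 𝔓₀ hov).1 hlt0, h4.1, ?_, ?_⟩
  · -- unramified
    have hsR : ¬ P ∣ 3 * R ^ 2 + a := by
      intro h0
      apply hs
      obtain ⟨q, hq⟩ := hRc
      have e : 3 * c ^ 2 + a = (3 * R ^ 2 + a) - P * (q * (3 * (R + c))) := by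
        linear_combination (-3 * (R + c)) * hq
      rw [e]
      exact dvd_sub h0 (Dvd.intro _ rfl)
    have hcof := cof_one h hP hov hlt0 hsR
    have e : algebraMap k[X] L P * algebraMap k[X] L u = -((θ - algebraMap k[X] L R) *
      (θ ^ 2 + θ * algebraMap k[X] L R + algebraMap k[X] L (R ^ 2 + a))) := by
      rw [← map_mul, ← hR]
      have := h.root
      simp only [fv, map_add, map_mul, map_pow]
      linear_combination this
    have e2 := congrArg (od (𝔓₀.valuation L)) e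
    rw [od_neg, od_mul (algL_ne (K := K) hP.ne_zero) (algL_ne (K := K) hu0),
      od_O_unit hP hov hu, od_mul hne (ne_of_w hcof), (w_one_iff (ne_of_w hcof)).1 hcof, h4.2] at e2
    omega
  · intro 𝔓 h𝔓 hlt
    by_contra hne'
    have hlt' := (w_lt_one_iff hne).1 ((hiff 𝔓 h𝔓).2 hlt)
    have hmem : 𝔓 ∈ (SP (O := O) K L P hP.ne_zero).erase 𝔓₀ :=
      Finset.mem_erase.2 ⟨hne', (mem_SP (K := K) (L := L)).2 h𝔓⟩
    have h5 := (Finset.sum_eq_zero_iff_of_nonpos (fun 𝔓 h𝔓 =>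
      hterm 𝔓 (Finset.mem_of_mem_erase h𝔓))).1 h3 𝔓 hmem
    have h6 : (1 : ℤ) ≤ fd P 𝔓 := by exact_mod_cast fd_pos (O := O) hP h𝔓
    rcases mul_eq_zero.1 h5 with h7 | h7 <;> omega

end prm

end Pool.Agent.H467.MR
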