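import Pool.Agent.H467.MR.Prm

/-!
# The primes over a place with a simple root: comparison with the completion of `K`

Project MR (helper467).
-/

set_option autoImplicit false
set_option linter.all false

open Polynomial IsDedekindDomain WithZero UniqueFactorizationMonoid
open Pool.Agent.N874.PP Pool.Agent.N352.PP
open scoped Classical

namespace Pool.Agent.H467.MR

section prm

variable {k K L O : Type} [Field k] [Field K] [Algebra k[X] K] [IsFractionRing k[X] K]
  [Field L] [Algebra K L] [Algebra k[X] L] [IsScalarTower k[X] K L] [CommRing O]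
  [IsDedekindDomain O] [Algebra O L] [IsFractionRing O L] [Algebra k[X] O]
  [IsScalarTower k[X] O L] [IsIntegralClosure O k[X] L] [Module.Finite k[X] O]
  [Module.IsTorsionFree k[X] O] {a b : k[X]} {θ : L}

/-- The coordinates in the completion. -/
noncomputable abbrev cv (v : HeightOneSpectrum k[X]) (h : IsCub K a b θ) (x : L) :
    Fin 3 → v.adicCompletion K := cE (algebraMap K (v.adicCompletion K)) h x

/-- The valuation of the image of an element of the completion of `K`. -/
theorem od_j {P : k[X]} (hP : Irreducible P) {v : HeightOneSpectrum k[X]}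
    (hv : v.asIdeal = Ideal.span {P}) {𝔓 : HeightOneSpectrum O} (h𝔓 : Ov P 𝔓)
    (j : v.adicCompletion K →+* 𝔓.adicCompletion L)
    (hj1 : ∀ x : K, j (algebraMap K (v.adicCompletion K) x) =
      algebraMap L (𝔓.adicCompletion L) (algebraMap K L x))
    (hj2 : ∀ y, Valued.v y ≤ 1 → Valued.v (j y) ≤ 1)
    {y : v.adicCompletion K} (hy : y ≠ 0) :
    od (vv 𝔓) (j y) = -(od (𝔓.valuation L) (algebraMap k[X] L P)) * od (vv v) y := by
  have hPv : em K v P ≠ 0 := by
    intro h0
    have := vv_em_P (K := K) hP.ne_zero hv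
    rw [h0, map_zero] at this
    exact exp_ne_zero this.symm
  have hodP : od (vv v) (em K v P) = -1 := by
    unfold od
    rw [vv_em_P (K := K) hP.ne_zero hv, log_exp]
  set n := od (vv v) y with hn
  -- `y = P ^ (-n) u`
  set u := y * em K v P ^ n with hu
  have hu0 : u ≠ 0 := mul_ne_zero hy (zpow_ne_zero _ hPv)
  have hz : ∀ m : ℤ, od (vv v) (em K v P ^ m) = -m := by
    intro m
    unfold od
    rw [map_zpow₀, log_zpow, vv_em_P (K := K) hP.ne_zero hv, log_exp]
    simp
  have hu1 : vv v u = 1 := by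
    rw [w_one_iff hu0, hu, od_mul hy (zpow_ne_zero _ hPv), hz]
    omega
  have hju : Valued.v (j u) = 1 := Pool.Agent.N704.PP.j_unit j hj2 hu1
  have hju0 : j u ≠ 0 := by rw [Ne, map_eq_zero]; exact hu0
  have hjP : j (em K v P) = algebraMap L (𝔓.adicCompletion L) (algebraMap k[X] L P) := by
    change j (algebraMap K (v.adicCompletion K) (algebraMap k[X] K P)) = _
    rw [hj1, ← IsScalarTower.algebraMap_apply k[X] K L]
  have e : y = u * em K v P ^ (-n) := by
    rw [hu, mul_assoc, ← zpow_add₀ hPv]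
    simp
  have hjP0 : j (em K v P) ≠ 0 := by rw [Ne, map_eq_zero]; exact hPv
  have e1 : od (vv 𝔓) (j (em K v P)) = od (𝔓.valuation L) (algebraMap k[X] L P) := by
    unfold od
    rw [hjP, vv_coe]
  have e2 : ∀ m : ℤ, od (vv 𝔓) (j (em K v P) ^ m) = m * od (vv 𝔓) (j (em K v P)) := by
    intro m
    unfold od
    rw [map_zpow₀, log_zpow]
    simp
  have e3 : od (vv 𝔓) (j u) = 0 := (w_one_iff hju0).1 hju
  rw [e, map_mul, map_zpow₀, od_mul hju0 (zpow_ne_zero _ hjP0), e2, e1, e3]
  ring

/-- At a prime with `θ ≡ R` a simple root, `θ` is the image of the root in the completion. -/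
theorem j_root (h : IsCub K a b θ) {P : k[X]} (hP : Irreducible P) {v : HeightOneSpectrum k[X]}
    (hv : v.asIdeal = Ideal.span {P}) {𝔓 : HeightOneSpectrum O} (h𝔓 : Ov P 𝔓)
    (j : v.adicCompletion K →+* 𝔓.adicCompletion L)
    (hj1 : ∀ x : K, j (algebraMap K (v.adicCompletion K) x) =
      algebraMap L (𝔓.adicCompletion L) (algebraMap K L x))
    (hj3 : ∀ y, Valued.v y < 1 → Valued.v (j y) < 1)
    {R : k[X]} (hR : 𝔓.valuation L (θ - algebraMap k[X] L R) < 1) (hs : ¬ P ∣ 3 * R ^ 2 + a)
    {r : v.adicCompletion K} (hr : r ^ 3 + em K v a * r + em K v b = 0)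
    (hrR : vv v (r - em K v R) < 1) :
    j r = algebraMap L (𝔓.adicCompletion L) θ := by
  have hjp : ∀ p : k[X], j (em K v p) = algebraMap L (𝔓.adicCompletion L) (algebraMap k[X] L p) := by
    intro p
    change j (algebraMap K (v.adicCompletion K) (algebraMap k[X] K p)) = _
    rw [hj1, ← IsScalarTower.algebraMap_apply k[X] K L]
  set T := algebraMap L (𝔓.adicCompletion L) θ with hT
  have e1 := congrArg j hr
  rw [map_add, map_add, map_mul, map_pow, hjp, hjp, map_zero] at e1
  have e2 := congrArg (algebraMap L (𝔓.adicCompletion L)) h.root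
  rw [map_add, map_add, map_mul, map_pow, map_zero, ← hT] at e2
  set A := algebraMap L (𝔓.adicCompletion L) (algebraMap k[X] L a) with hA
  have hmul : (j r - T) * (T ^ 2 + T * j r + (j r ^ 2 + A)) = 0 := by
    linear_combination e1 - e2
  rcases mul_eq_zero.1 hmul with h0 | h0
  · exact sub_eq_zero.1 h0
  · exfalso
    -- the second factor is a unit
    have hx : vv 𝔓 (j r - algebraMap L (𝔓.adicCompletion L) (algebraMap k[X] L R)) < 1 := by
      rw [← hjp, ← map_sub]
      exact hj3 _ hrR
    have hc1 : vv 𝔓 (algebraMap L (𝔓.adicCompletion L)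
        (θ ^ 2 + θ * algebraMap k[X] L R + algebraMap k[X] L (R ^ 2 + a))) = 1 := by
      rw [vv_coe]
      exact cof_one h hP h𝔓 hR hs
    set R' := algebraMap L (𝔓.adicCompletion L) (algebraMap k[X] L R) with hR'
    have e3 : T ^ 2 + T * j r + (j r ^ 2 + A) =
        algebraMap L (𝔓.adicCompletion L)
        (θ ^ 2 + θ * algebraMap k[X] L R + algebraMap k[X] L (R ^ 2 + a)) +
        (j r - R') * (T + (j r - R') + 2 * R') := by
      simp only [map_add, map_mul, map_pow, ← hT, ← hR', ← hA]
      ring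
    have h4 : vv 𝔓 ((j r - R') * (T + (j r - R') + 2 * R')) < 1 := by
      rw [map_mul]
      refine mul_lt_one_of_lt_of_le hx ?_
      have hTle : vv 𝔓 T ≤ 1 := by rw [hT, vv_coe]; exact theta_le h 𝔓
      refine (Valuation.map_add _ _ _).trans (max_le
        ((Valuation.map_add _ _ _).trans (max_le hTle hx.le)) ?_)
      have e5 : 2 * R' = algebraMap L (𝔓.adicCompletion L) (algebraMap k[X] L (2 * R)) := by
        rw [map_mul, map_mul, map_ofNat, map_ofNat, ← hR']
      rw [e5, vv_coe]
      exact Pool.Agent.N704.PP.valO_le_one 𝔓 _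
    have h5 : vv 𝔓 (T ^ 2 + T * j r + (j r ^ 2 + A)) = 1 := by
      rw [e3, Valuation.map_add_eq_of_lt_left, hc1]
      rw [hc1]; exact h4
    rw [h0, map_zero] at h5
    exact zero_ne_one h5

/-- The valuation at the prime of a simple root is the valuation of the component at the root. -/
theorem od_simple (h : IsCub K a b θ) {P : k[X]} (hP : Irreducible P) {v : HeightOneSpectrum k[X]}
    (hv : v.asIdeal = Ideal.span {P}) {𝔓 : HeightOneSpectrum O} (h𝔓 : Ov P 𝔓)
    {R : k[X]} (hR : 𝔓.valuation L (θ - algebraMap k[X] L R) < 1) (hs : ¬ P ∣ 3 * R ^ 2 + a)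
    (he : od (𝔓.valuation L) (algebraMap k[X] L P) = -1)
    {r : v.adicCompletion K} (hr : r ^ 3 + em K v a * r + em K v b = 0)
    (hrR : vv v (r - em K v R) < 1) {x : L} (hx : x ≠ 0) :
    od (𝔓.valuation L) x = od (vv v) (c0 r (cv v h x)) := by
  obtain ⟨j, hj1, hj2, hj3⟩ := Pool.Agent.N704.PP.cmap (K := K) (L := L) hP hv h𝔓
  have hjr := j_root h hP hv h𝔓 j hj1 hj3 hR hs hr hrR
  have e : j (c0 r (cv v h x)) = algebraMap L (𝔓.adicCompletion L) x := by
    conv_rhs => rw [cK_sum h x]
    simp only [c0, cv, cE, map_add, map_mul, map_pow, hj1, hjr]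
  have h0 : c0 r (cv v h x) ≠ 0 := by
    intro h0
    rw [h0, map_zero] at e
    exact hx ((map_eq_zero _).1 e.symm)
  have h1 := od_j hP hv h𝔓 j hj1 hj2 h0
  rw [he, e] at h1
  have h2 : od (vv 𝔓) (algebraMap L (𝔓.adicCompletion L) x) = od (𝔓.valuation L) x := by
    unfold od
    rw [vv_coe]
  rw [← h2, h1]
  ring

/-- The sum over the other primes. -/
theorem sum_other [FiniteDimensional K L] (h2 : (2 : k) ≠ 0) (h : IsCub K a b θ) {P : k[X]}
    (hP : Irreducible P)
    {v : HeightOneSpectrum k[X]} (hv : v.asIdeal = Ideal.span {P}) {𝔓 : HeightOneSpectrum O}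
    (h𝔓 : Ov P 𝔓)
    {R : k[X]} (hR : 𝔓.valuation L (θ - algebraMap k[X] L R) < 1) (hs : ¬ P ∣ 3 * R ^ 2 + a)
    (he : od (𝔓.valuation L) (algebraMap k[X] L P) = -1) (hf : fd P 𝔓 = 1)
    {r d : v.adicCompletion K} (hr : r ^ 3 + em K v a * r + em K v b = 0)
    (hd : d = -3 * r ^ 2 - 4 * em K v a)
    (hrR : vv v (r - em K v R) < 1) {x : L} (hx : x ≠ 0) :
    ∑ 𝔔 ∈ (SP (O := O) K L P hP.ne_zero).erase 𝔓, (fd P 𝔔 : ℤ) * od (𝔔.valuation L) x =
      od (vv v) (nq r d (cv v h x)) := by
  have h2E : (2 : v.adicCompletion K) ≠ 0 := by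
    have h3 := val_two (K := K) hv hP h2
    intro h0
    rw [← vv_coe, map_ofNat, h0, map_zero] at h3
    exact zero_ne_one h3
  have key := normo (K := K) (L := L) (O := O) hP hv hx
  rw [← Finset.add_sum_erase _ _ ((mem_SP (K := K) (L := L) (hP := hP.ne_zero)).2 h𝔓), hf,
    od_simple h hP hv h𝔓 hR hs he hr hrR hx] at key
  have e1 : od (v.valuation K) (Algebra.norm K x) =
      od (vv v) (c0 r (cv v h x)) + od (vv v) (nq r d (cv v h x)) := by
    have e2 : od (v.valuation K) (Algebra.norm K x) =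
        od (vv v) (algebraMap K (v.adicCompletion K) (Algebra.norm K x)) := by
      unfold od
      rw [vv_coe]
    have hn0 : algebraMap K (v.adicCompletion K) (Algebra.norm K x) ≠ 0 := by
      rw [Ne, map_eq_zero]
      exact Algebra.norm_ne_zero_iff.2 hx
    have e3 : algebraMap K (v.adicCompletion K) (Algebra.norm K x) =
        c0 r (cv v h x) * nq r d (cv v h x) := by
      rw [cE_norm h (algebraMap K (v.adicCompletion K))]
      exact dn_eq h2E hr hd _
    rw [e2, e3]
    rw [e3] at hn0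
    rw [od_mul (left_ne_zero_of_mul hn0) (right_ne_zero_of_mul hn0)]
  rw [e1] at key
  push_cast at key
  linarith

end prm

end Pool.Agent.H467.MR
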