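import Pool.Agent.H467.MR.Prm2

/-!
# The local types of the primes of `k[X]`

Project MR (helper467).
-/

set_option autoImplicit false
set_option linter.all false

open Polynomial IsDedekindDomain WithZero UniqueFactorizationMonoid
open Pool.Agent.N874.PP Pool.Agent.N352.PP
open scoped Classical

namespace Pool.Agent.H467.MR

section pol

variable {k : Type} [Field k] {a b : k[X]}

/-- `P` is a prime with exactly one simple root `R` of the cubic polynomial modulo `P`. -/
structure STp (a b P R : k[X]) : Prop where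
  irr : Irreducible P
  dsc : ¬ P ∣ dsc a b
  root : P ∣ fv a b R
  ns : ∀ z : k[X], ¬ P ∣ z ^ 2 + (3 * R ^ 2 + 4 * a)

/-- `P` is a prime of multiplicative reduction with discriminant of odd valuation. -/
structure MTp (a b P : k[X]) : Prop where
  irr : Irreducible P
  na : ¬ P ∣ a
  odd : ∃ (n : ℕ) (c : k[X]), dsc a b = P ^ (2 * n + 1) * c ∧ ¬ P ∣ c

theorem two_pol (h6 : (6 : k) ≠ 0) {P : k[X]} (hP : Irreducible P) : ¬ P ∣ (2 : k[X]) ∧
    ¬ P ∣ (3 : k[X]) := by
  have h2 : (2 : k) ≠ 0 := by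
    intro h; apply h6
    have : (6 : k) = 2 * 3 := by norm_num
    rw [this, h, zero_mul]
  have h3 : (3 : k) ≠ 0 := by
    intro h; apply h6
    have : (6 : k) = 2 * 3 := by norm_num
    rw [this, h, mul_zero]
  constructor
  · intro h
    have e : (2 : k[X]) = C 2 := (map_ofNat C 2).symm
    rw [e] at h
    exact hP.not_isUnit (isUnit_of_dvd_unit h (isUnit_C.2 (isUnit_iff_ne_zero.2 h2)))
  · intro h
    have e : (3 : k[X]) = C 3 := (map_ofNat C 3).symm
    rw [e] at h
    exact hP.not_isUnit (isUnit_of_dvd_unit h (isUnit_C.2 (isUnit_iff_ne_zero.2 h3)))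

/-- A multiple root gives a divisor of the discriminant. -/
theorem dsc_of_double {P c : k[X]} (h1 : P ∣ fv a b c) (h2 : P ∣ 3 * c ^ 2 + a) : P ∣ dsc a b := by
  obtain ⟨u, hu⟩ := h1
  obtain ⟨w, hw⟩ := h2
  -- 4 a^3 + 27 b^2 as a combination
  have e : dsc a b = P * (u * (27 * b - 27 * (c ^ 3 + a * c)) +
      w * (4 * a ^ 2 + 15 * a * c ^ 2 + 9 * c ^ 4)) := by
    unfold fv at hu
    unfold dsc
    linear_combination (27 * b - 27 * (c ^ 3 + a * c)) * hu +
      (4 * a ^ 2 + 15 * a * c ^ 2 + 9 * c ^ 4) * hw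
  exact ⟨_, e⟩

end pol

section prm

variable {k K L O : Type} [Field k] [Field K] [Algebra k[X] K] [IsFractionRing k[X] K]
  [Field L] [Algebra K L] [Algebra k[X] L] [IsScalarTower k[X] K L] [CommRing O]
  [IsDedekindDomain O] [Algebra O L] [IsFractionRing O L] [Algebra k[X] O]
  [IsScalarTower k[X] O L] [IsIntegralClosure O k[X] L] [Module.Finite k[X] O]
  [Module.IsTorsionFree k[X] O] {a b : k[X]} {θ : L}

/-- The local data at a prime of type `STp`. -/
theorem st_of {P R : k[X]} (hs : STp a b P R) {v : HeightOneSpectrum k[X]}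
    (hv : v.asIdeal = Ideal.span {P}) : ∃ r d : v.adicCompletion K,
      ST (vv v) (em K v a) (em K v b) r d ∧ vv v (r - em K v R) < 1 ∧
      ¬ P ∣ 3 * R ^ 2 + a := by
  have hf : ¬ P ∣ 3 * R ^ 2 + a := fun h0 => hs.dsc (dsc_of_double hs.root h0)
  have hroot := hs.root
  unfold fv at hroot
  obtain ⟨r, hr, hrR⟩ := lift_root (K := K) hv hroot hf
  refine ⟨r, -3 * r ^ 2 - 4 * em K v a, ⟨hr, rfl, ?_, ?_, ?_, ?_⟩, hrR, hf⟩
  · have e : r = (r - em K v R) + em K v R := by ring
    rw [e]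
    exact (Valuation.map_add _ _ _).trans (max_le hrR.le (vv_em_le R))
  all_goals
    have hr1 : vv v r ≤ 1 := by
      have e : r = (r - em K v R) + em K v R := by ring
      rw [e]
      exact (Valuation.map_add _ _ _).trans (max_le hrR.le (vv_em_le R))
    have hcl : ∀ c0 : k[X], vv v ((em K v c0 * r ^ 2) - em K v (c0 * R ^ 2)) < 1 := by
      intro c0
      have e : (em K v c0 * r ^ 2) - em K v (c0 * R ^ 2) =
          (r - em K v R) * (em K v c0 * (r + em K v R)) := by
        rw [map_mul, map_pow]; ring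
      rw [e, map_mul]
      refine mul_lt_one_of_lt_of_le hrR ?_
      rw [map_mul]
      exact mul_le_one' (vv_em_le c0) ((Valuation.map_add _ _ _).trans (max_le hr1 (vv_em_le R)))
  · -- `d` is a unit
    have e : -3 * r ^ 2 - 4 * em K v a = em K v (-(3 * R ^ 2 + 4 * a)) +
        ((em K v (-3) * r ^ 2) - em K v (-3 * R ^ 2)) := by
      simp only [map_neg, map_mul, map_add, map_ofNat, map_pow]
      ring
    have h1 : vv v (em K v (-(3 * R ^ 2 + 4 * a))) = 1 := by
      rw [vv_em_one hv]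
      intro h0
      exact hs.ns 0 (by
        have : (0 : k[X]) ^ 2 + (3 * R ^ 2 + 4 * a) = -(-(3 * R ^ 2 + 4 * a)) := by ring
        rw [this]
        exact (dvd_neg).2 h0)
    rw [e, Valuation.map_add_eq_of_lt_left, h1]
    rw [h1]
    exact hcl (-3)
  · -- `d` is not a square
    rintro ⟨s, hs'⟩
    have hs1 : vv v s ≤ 1 := by
      have h3 : vv v (s * s) ≤ 1 := by
        rw [← hs']
        have e : -3 * r ^ 2 - 4 * em K v a = (em K v (-3) * r ^ 2) - em K v (4 * a) := by
          simp only [map_neg, map_mul, map_ofNat]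
        rw [e]
        refine (Valuation.map_sub _ _ _).trans (max_le ?_ (vv_em_le _))
        rw [map_mul, map_pow]
        exact mul_le_one' (vv_em_le _) (pow_le_one₀ zero_le hr1)
      rw [map_mul] at h3
      by_contra hcon
      rw [not_le] at hcon
      exact absurd h3 (not_le.2 (one_lt_mul'' hcon hcon))
    obtain ⟨z, hz⟩ := dense_R v s hs1
    change vv v (s - em K v z) < 1 at hz
    refine hs.ns z ?_
    rw [← vv_em_lt (K := K) hv]
    have e : em K v (z ^ 2 + (3 * R ^ 2 + 4 * a)) =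
        -((s - em K v z) * (s + em K v z)) - ((em K v 3 * r ^ 2) - em K v (3 * R ^ 2)) := by
      simp only [map_mul, map_add, map_ofNat, map_pow]
      linear_combination -hs'
    rw [e]
    refine lt_of_le_of_lt (Valuation.map_sub _ _ _) (max_lt ?_ (hcl 3))
    rw [Valuation.map_neg, map_mul]
    exact mul_lt_one_of_lt_of_le hz ((Valuation.map_add _ _ _).trans (max_le hs1 (vv_em_le z)))
  · have e : 3 * r ^ 2 + em K v a = em K v (3 * R ^ 2 + a) +
        ((em K v 3 * r ^ 2) - em K v (3 * R ^ 2)) := by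
      simp only [map_mul, map_add, map_ofNat, map_pow]
      ring
    have h1 : vv v (em K v (3 * R ^ 2 + a)) = 1 := (vv_em_one hv _).2 hf
    rw [e, Valuation.map_add_eq_of_lt_left, h1]
    rw [h1]
    exact hcl 3

/-- The simple root at a prime of multiplicative reduction. -/
theorem mt_root (h6 : (6 : k) ≠ 0) {P : k[X]} (hm : MTp a b P) : ∃ R : k[X], P ∣ fv a b R ∧
    ¬ P ∣ 3 * R ^ 2 + a ∧ ¬ P ∣ R := by
  obtain ⟨a', ha'⟩ := Pool.Agent.N704.PP.exists_inv_mod hm.irr hm.na
  obtain ⟨n, c, hdc, hc⟩ := hm.odd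
  have hd : P ∣ dsc a b := by
    rw [hdc, pow_succ]
    exact Dvd.dvd.mul_right (Dvd.intro_left _ rfl) _
  obtain ⟨q, hq⟩ := ha'
  obtain ⟨s, hs⟩ := hd
  unfold dsc at hs
  have hp := two_pol h6 hm.irr
  have hPp := hm.irr.prime
  have hb : ¬ P ∣ b := by
    intro h0
    have h1 : P ∣ 4 * a ^ 3 := by
      have e : 4 * a ^ 3 = P * s - 27 * b ^ 2 := by linear_combination hs
      rw [e]
      exact dvd_sub (Dvd.intro _ rfl) (Dvd.dvd.mul_left (dvd_pow h0 two_ne_zero) _)
    rcases hPp.dvd_or_dvd h1 with h2 | h2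
    · have e4 : (4 : k[X]) = 2 * 2 := by norm_num
      rw [e4] at h2
      rcases hPp.dvd_or_dvd h2 with h3 | h3 <;> exact hp.1 h3
    · exact hm.na (hPp.dvd_of_dvd_pow h2)
  have ha'' : ¬ P ∣ a' := by
    intro h0
    apply hm.irr.not_isUnit
    apply isUnit_of_dvd_one
    have e : (1 : k[X]) = P * q + a * a' := by linear_combination hq
    rw [e]
    exact dvd_add (Dvd.intro _ rfl) (Dvd.dvd.mul_left h0 _)
  refine ⟨3 * b * a', ?_, ?_, ?_⟩
  · -- f(3 b a') = b (27 b² a'^3 + 3 a a' + 1), 27 b^2 = P s - 4 a^3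
    have e : fv a b (3 * b * a') = P * (b * (s * a' ^ 3 + 4 * q * (1 + a * a' + a ^ 2 * a' ^ 2)) -
        3 * b * q) := by
      unfold fv
      linear_combination (b * a' ^ 3) * hs + (4 * b * (1 + a * a' + a ^ 2 * a' ^ 2) - 3 * b) * hq
    exact ⟨_, e⟩
  · intro h0
    -- 3 (3 b a')^2 + a = 27 b² a'^2 + a = (P s - 4 a^3) a'^2 + a ≡ -3 a
    have h1 : P ∣ 3 * a := by
      have e : 3 * a = P * (s * a' ^ 2 + 4 * a * q * (1 + a * a')) -
          (3 * (3 * b * a') ^ 2 + a) := by
        linear_combination (a' ^ 2) * hs + 4 * a * (1 + a * a') * hq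
      rw [e]
      exact dvd_sub (Dvd.intro _ rfl) h0
    rcases hPp.dvd_or_dvd h1 with h2 | h2
    · exact hp.2 h2
    · exact hm.na h2
  · intro h0
    rcases hPp.dvd_or_dvd h0 with h1 | h1
    · rcases hPp.dvd_or_dvd h1 with h2 | h2
      · exact hp.2 h2
      · exact hb h2
    · exact ha'' h1

theorem mt_of (h6 : (6 : k) ≠ 0) {P : k[X]} (hm : MTp a b P) {v : HeightOneSpectrum k[X]}
    (hv : v.asIdeal = Ideal.span {P}) : ∃ (R : k[X]) (r d : v.adicCompletion K),
      P ∣ fv a b R ∧ ¬ P ∣ 3 * R ^ 2 + a ∧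
      MT (vv v) (em K v a) (em K v b) r d ∧ vv v (r - em K v R) < 1 := by
  obtain ⟨R, hR, hf, hR0⟩ := mt_root h6 hm
  have hp := two_pol h6 hm.irr
  have hroot := hR
  unfold fv at hroot
  obtain ⟨r, hr, hrR⟩ := lift_root (K := K) hv hroot hf
  have hRv : vv v (em K v R) = 1 := (vv_em_one hv R).2 hR0
  have hr1 : vv v r = 1 := by
    have e : r = em K v R + (r - em K v R) := by ring
    rw [e, Valuation.map_add_eq_of_lt_left, hRv]
    rw [hRv]; exact hrR
  have hv2 : vv v (2 : v.adicCompletion K) = 1 := by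
    have := (vv_em_one (K := K) hv (2 : k[X])).2 hp.1
    rwa [map_ofNat] at this
  have hv3 : vv v (3 : v.adicCompletion K) = 1 := by
    have := (vv_em_one (K := K) hv (3 : k[X])).2 hp.2
    rwa [map_ofNat] at this
  have hf1 : vv v (3 * r ^ 2 + em K v a) = 1 := by
    have e : 3 * r ^ 2 + em K v a = em K v (3 * R ^ 2 + a) +
        (r - em K v R) * (3 * (r + em K v R)) := by
      simp only [map_mul, map_add, map_ofNat, map_pow]
      ring
    have h1 : vv v (em K v (3 * R ^ 2 + a)) = 1 := (vv_em_one hv _).2 hf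
    rw [e, Valuation.map_add_eq_of_lt_left, h1]
    rw [h1, map_mul]
    refine mul_lt_one_of_lt_of_le hrR ?_
    rw [map_mul, hv3, one_mul]
    exact (Valuation.map_add _ _ _).trans (max_le hr1.le hRv.le)
  obtain ⟨n, c, hdc, hc⟩ := hm.odd
  have hc0 : c ≠ 0 := by rintro rfl; exact hc (dvd_zero _)
  set d := -3 * r ^ 2 - 4 * em K v a with hd
  have hf0 := ne_of_w hf1
  have e1 : em K v (dsc a b) = -((3 * r ^ 2 + em K v a) ^ 2 * d) := by
    have hb : em K v b = -r ^ 3 - em K v a * r := by linear_combination hr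
    simp only [dsc, map_add, map_mul, map_pow, map_ofNat, hb, hd]
    ring
  have hdsc0 : em K v (dsc a b) ≠ 0 := by
    intro h0
    have : dsc a b = 0 := by
      have h3 : algebraMap K (v.adicCompletion K) (algebraMap k[X] K (dsc a b)) = 0 := h0
      rw [map_eq_zero] at h3
      exact (IsFractionRing.to_map_eq_zero_iff).1 h3
    rw [hdc] at this
    exact (mul_ne_zero (pow_ne_zero _ hm.irr.ne_zero) hc0) this
  have hd0 : d ≠ 0 := by
    intro h0
    rw [h0, mul_zero, neg_zero] at e1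
    exact hdsc0 e1
  have e2 : od (vv v) (em K v (dsc a b)) = -(2 * n + 1) := by
    have hP0 : em K v P ≠ 0 := by
      intro h0
      have := vv_em_P (K := K) hm.irr.ne_zero hv
      rw [h0, map_zero] at this
      exact exp_ne_zero this.symm
    have hcv : vv v (em K v c) = 1 := (vv_em_one hv c).2 hc
    rw [hdc, map_mul, map_pow, od_mul (pow_ne_zero _ hP0) (ne_of_w hcv),
      (w_one_iff (ne_of_w hcv)).1 hcv]
    unfold od
    rw [map_pow, log_pow, vv_em_P (K := K) hm.irr.ne_zero hv, log_exp]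
    simp
  have e3 : od (vv v) (em K v (dsc a b)) = od (vv v) d := by
    rw [e1, od_neg, od_mul (pow_ne_zero 2 hf0) hd0, od_sq, (w_one_iff hf0).1 hf1]
    ring
  refine ⟨R, r, d, hR, hf, ⟨hr, rfl, ?_, ?_, ?_⟩, hrR⟩
  · rw [map_div₀, map_mul, hv2, hv3, hr1, mul_one, div_one]
  · rw [w_lt_one_iff hd0, ← e3, e2]
    omega
  · rw [← e3, e2]
    exact ⟨-n - 1, by ring⟩

end prm

end Pool.Agent.H467.MR
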