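import Pool.Agent.H467.MR.Prm3

/-!
# The primes over a prime of type `STp` or `MTp`; nice primes

Project MR (helper467).
-/

set_option autoImplicit false
set_option linter.all false

open Polynomial IsDedekindDomain WithZero UniqueFactorizationMonoid
open Pool.Agent.N874.PP Pool.Agent.N352.PP
open scoped Classical

namespace Pool.Agent.H467.MR

section prm

variable {k K L O : Type} [Field k] [Field K] [Algebra k[X] K] [IsFractionRing k[X] K]
  [Field L] [Algebra K L] [Algebra k[X] L] [IsScalarTower k[X] K L] [CommRing O]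
  [IsDedekindDomain O] [Algebra O L] [IsFractionRing O L] [Algebra k[X] O]
  [IsScalarTower k[X] O L] [IsIntegralClosure O k[X] L] [Module.Finite k[X] O]
  [Module.IsTorsionFree k[X] O] {a b : k[X]} {θ : L}

theorem nq_P (h : IsCub K a b θ) {P : k[X]} (hP : Irreducible P) {v : HeightOneSpectrum k[X]}
    (hv : v.asIdeal = Ideal.span {P}) (r d : v.adicCompletion K) :
    od (vv v) (nq r d (cv v h (algebraMap k[X] L P))) = -2 := by
  have e : cv v h (algebraMap k[X] L P) = ![em K v P, 0, 0] := by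
    funext i
    rw [IsScalarTower.algebraMap_apply k[X] K L]
    simp only [cv, cE, cK_algebraMap]
    fin_cases i
    · rfl
    · simp
    · simp
  rw [e]
  have e2 : nq r d ![em K v P, 0, 0] = em K v P ^ 2 := by
    simp only [nq, cU, cV, Matrix.cons_val_zero, Matrix.cons_val_one, Matrix.cons_val]
    ring
  rw [e2, od_sq]
  unfold od
  rw [vv_em_P (K := K) hP.ne_zero hv, log_exp]
  norm_num

include K in
theorem od_P_neg {P : k[X]} (hP : Irreducible P) {𝔓 : HeightOneSpectrum O} (h𝔓 : Ov P 𝔓) :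
    od (𝔓.valuation L) (algebraMap k[X] L P) ≤ -1 := by
  have h1 := (Pool.Agent.N704.PP.valO_lt_one (L := L) hP h𝔓 P).2 dvd_rfl
  have h0 : algebraMap k[X] L P ≠ 0 := algL_ne (K := K) hP.ne_zero
  have := (w_lt_one_iff h0).1 h1
  omega

/-- A sum equal to `-2` of at least one term `≤ -2` consists of one term. -/
theorem one_term {ι : Type} (s : Finset ι) (f : ι → ℤ) (hf : ∀ i ∈ s, f i ≤ -2)
    (hs : ∑ i ∈ s, f i = -2) : ∃ i ∈ s, f i = -2 ∧ ∀ j ∈ s, j = i := by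
  have hne : s.Nonempty := by
    rw [Finset.nonempty_iff_ne_empty]
    rintro rfl
    simp at hs
  obtain ⟨i, hi⟩ := hne
  have h1 := Finset.add_sum_erase s f hi
  have h2 : ∑ j ∈ s.erase i, f j ≤ 0 := Finset.sum_nonpos fun j hj => by
    have := hf j (Finset.mem_of_mem_erase hj)
    omega
  have h3 := hf i hi
  refine ⟨i, hi, by omega, fun j hj => ?_⟩
  by_contra hne
  have hj' : j ∈ s.erase i := Finset.mem_erase.2 ⟨hne, hj⟩
  have h4 := Finset.add_sum_erase (s.erase i) f hj'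
  have h5 : ∑ l ∈ (s.erase i).erase j, f l ≤ 0 := Finset.sum_nonpos fun l hl => by
    have := hf l (Finset.mem_of_mem_erase (Finset.mem_of_mem_erase hl))
    omega
  have h6 := hf j hj
  omega

/-- The two primes over a prime of type `STp`. -/
theorem st_primes [FiniteDimensional K L] (h6 : (6 : k) ≠ 0) [Finite k] (h : IsCub K a b θ)
    {P R : k[X]} (hs : STp a b P R) {v : HeightOneSpectrum k[X]} (hv : v.asIdeal = Ideal.span {P})
    {r d : v.adicCompletion K} (hst : ST (vv v) (em K v a) (em K v b) r d)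
    (hrR : vv v (r - em K v R) < 1) :
    ∃ 𝔓₀ 𝔮 : HeightOneSpectrum O, Ov P 𝔓₀ ∧ Ov P 𝔮 ∧ fd P 𝔓₀ = 1 ∧ fd P 𝔮 = 2 ∧ 𝔓₀ ≠ 𝔮 ∧
      (∀ 𝔓 : HeightOneSpectrum O, Ov P 𝔓 → 𝔓 = 𝔓₀ ∨ 𝔓 = 𝔮) ∧
      (∀ x : L, x ≠ 0 → od (𝔓₀.valuation L) x = od (vv v) (c0 r (cv v h x))) ∧
      (∀ x : L, x ≠ 0 → 2 * od (𝔮.valuation L) x = od (vv v) (nq r d (cv v h x))) := by
  have h2 : (2 : k) ≠ 0 := by
    intro h; apply h6
    have : (6 : k) = 2 * 3 := by norm_num
    rw [this, h, zero_mul]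
  have hP := hs.irr
  have hL := lf (K := K) h2 hP hv
  have hf : ¬ P ∣ 3 * R ^ 2 + a := fun h0 => hs.dsc (dsc_of_double hs.root h0)
  obtain ⟨𝔓₀, hov, hlt, hfd, he, huniq⟩ := simple_prime (K := K) (L := L) (O := O) h hP hs.root hf
  have hsum := fun (x : L) (hx : x ≠ 0) => sum_other (O := O) h2 h hP hv hov hlt hf he hfd hst.root
    hst.disc hrR hx
  -- the other primes have even degree
  have heven : ∀ 𝔔 ∈ (SP (O := O) K L P hP.ne_zero).erase 𝔓₀, Even (fd P 𝔔 : ℤ) := by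
    intro 𝔔 h𝔔
    obtain ⟨π, hπ⟩ := 𝔔.valuation_surjective L (exp (-1 : ℤ))
    have hπ0 : π ≠ 0 := by
      rintro rfl
      rw [map_zero] at hπ
      exact exp_ne_zero hπ.symm
    obtain ⟨g, hg0, hg⟩ := Pool.Agent.N765.PP.weak (L := L) (SP (O := O) K L P hP.ne_zero)
      (fun 𝔓 => if 𝔓 = 𝔔 then π else 1) (fun 𝔓 _ => by
        by_cases h1 : 𝔓 = 𝔔
        · simp [h1, hπ0]
        · simp [h1])
    have h3 := hsum g hg0
    rw [← Finset.add_sum_erase _ _ h𝔔] at h3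
    have h4 : ∑ 𝔓 ∈ ((SP (O := O) K L P hP.ne_zero).erase 𝔓₀).erase 𝔔,
        (fd P 𝔓 : ℤ) * od (𝔓.valuation L) g = 0 := by
      refine Finset.sum_eq_zero fun 𝔓 h𝔓 => ?_
      have h5 := hg 𝔓 (Finset.mem_of_mem_erase (Finset.mem_of_mem_erase h𝔓))
      rw [if_neg (Finset.ne_of_mem_erase h𝔓), map_one] at h5
      rw [(w_one_iff hg0).1 h5, mul_zero]
    have h5 := hg 𝔔 (Finset.mem_of_mem_erase h𝔔)
    rw [if_pos rfl, hπ] at h5
    have h6' : od (𝔔.valuation L) g = -1 := by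
      unfold od
      rw [h5, log_exp]
    rw [h4, add_zero, h6'] at h3
    have h7 := ST.nq_even hL hst (cv v h g)
    rw [← h3] at h7
    have h8 : Even (-((fd P 𝔔 : ℤ) * -1)) := by rw [even_neg]; exact h7
    simpa using h8
  have hterm : ∀ 𝔔 ∈ (SP (O := O) K L P hP.ne_zero).erase 𝔓₀,
      (fd P 𝔔 : ℤ) * od (𝔔.valuation L) (algebraMap k[X] L P) ≤ -2 := by
    intro 𝔔 h𝔔
    have hov' := (mem_SP (K := K) (L := L)).1 (Finset.mem_of_mem_erase h𝔔)
    have h1 : (1 : ℤ) ≤ fd P 𝔔 := by exact_mod_cast fd_pos (O := O) hP hov'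
    have h3 := od_P_neg (K := K) (L := L) hP hov'
    obtain ⟨i, hi⟩ := heven 𝔔 h𝔔
    have h4 : (2 : ℤ) ≤ fd P 𝔔 := by omega
    nlinarith
  have hPL : algebraMap k[X] L P ≠ 0 := algL_ne (K := K) hP.ne_zero
  have hsP := hsum _ hPL
  rw [nq_P h hP hv] at hsP
  obtain ⟨𝔮, hq, hq2, hqu⟩ := one_term _ _ hterm hsP
  have hovq := (mem_SP (K := K) (L := L)).1 (Finset.mem_of_mem_erase hq)
  have hfq : fd P 𝔮 = 2 := by
    have h3 := od_P_neg (K := K) (L := L) hP hovq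
    have h1 : (1 : ℤ) ≤ fd P 𝔮 := by exact_mod_cast fd_pos (O := O) hP hovq
    obtain ⟨i, hi⟩ := heven 𝔮 hq
    have h4 : (2 : ℤ) ≤ fd P 𝔮 := by omega
    have h5 : (fd P 𝔮 : ℤ) = 2 := by nlinarith
    exact_mod_cast h5
  refine ⟨𝔓₀, 𝔮, hov, hovq, hfd, hfq, (Finset.ne_of_mem_erase hq).symm, ?_, ?_, ?_⟩
  · intro 𝔓 h𝔓
    by_cases h1 : 𝔓 = 𝔓₀
    · exact Or.inl h1
    · exact Or.inr (hqu 𝔓 (Finset.mem_erase.2 ⟨h1, (mem_SP (K := K) (L := L)).2 h𝔓⟩))
  · intro x hx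
    exact od_simple h hP hv hov hlt hf he hst.root hrR hx
  · intro x hx
    have h3 := hsum x hx
    have h4 : (SP (O := O) K L P hP.ne_zero).erase 𝔓₀ = {𝔮} := by
      ext 𝔓
      rw [Finset.mem_singleton]
      exact ⟨hqu 𝔓, fun h5 => h5 ▸ hq⟩
    rw [h4, Finset.sum_singleton, hfq] at h3
    exact_mod_cast h3

/-- The two primes over a prime of type `MTp`. -/
theorem mt_primes [FiniteDimensional K L] (h6 : (6 : k) ≠ 0) [Finite k] (h : IsCub K a b θ)
    {P : k[X]} (hm : MTp a b P) {v : HeightOneSpectrum k[X]} (hv : v.asIdeal = Ideal.span {P})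
    {R : k[X]} (hR : P ∣ fv a b R) (hf : ¬ P ∣ 3 * R ^ 2 + a)
    {r d : v.adicCompletion K} (hst : MT (vv v) (em K v a) (em K v b) r d)
    (hrR : vv v (r - em K v R) < 1) :
    ∃ 𝔓₀ 𝔮 : HeightOneSpectrum O, Ov P 𝔓₀ ∧ Ov P 𝔮 ∧ fd P 𝔓₀ = 1 ∧ fd P 𝔮 = 1 ∧ 𝔓₀ ≠ 𝔮 ∧
      (∀ 𝔓 : HeightOneSpectrum O, Ov P 𝔓 → 𝔓 = 𝔓₀ ∨ 𝔓 = 𝔮) ∧
      𝔓₀.valuation L (θ - algebraMap k[X] L R) < 1 ∧
      (∀ x : L, x ≠ 0 → od (𝔓₀.valuation L) x = od (vv v) (c0 r (cv v h x))) := by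
  have h2 : (2 : k) ≠ 0 := by
    intro h; apply h6
    have : (6 : k) = 2 * 3 := by norm_num
    rw [this, h, zero_mul]
  have hP := hm.irr
  have hL := lf (K := K) h2 hP hv
  obtain ⟨𝔓₀, hov, hlt, hfd, he, huniq⟩ := simple_prime (K := K) (L := L) (O := O) h hP hR hf
  have hsum := fun (x : L) (hx : x ≠ 0) => sum_other (O := O) h2 h hP hv hov hlt hf he hfd hst.root
    hst.disc hrR hx
  have hPL : algebraMap k[X] L P ≠ 0 := algL_ne (K := K) hP.ne_zero
  -- the other primes are ramified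
  have heven : ∀ 𝔔 ∈ (SP (O := O) K L P hP.ne_zero).erase 𝔓₀,
      Even (od (𝔔.valuation L) (algebraMap k[X] L P)) := by
    intro 𝔔 h𝔔
    have hov' := (mem_SP (K := K) (L := L)).1 (Finset.mem_of_mem_erase h𝔔)
    obtain ⟨j, hj1, hj2, hj3⟩ := Pool.Agent.N704.PP.cmap (K := K) (L := L) hP hv hov'
    have hjp : ∀ p : k[X], j (em K v p) =
        algebraMap L (𝔔.adicCompletion L) (algebraMap k[X] L p) := by
      intro p
      change j (algebraMap K (v.adicCompletion K) (algebraMap k[X] K p)) = _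
      rw [hj1, ← IsScalarTower.algebraMap_apply k[X] K L]
    set T := algebraMap L (𝔔.adicCompletion L) θ with hT
    have hne : j r ≠ T := by
      intro h0
      apply (Finset.ne_of_mem_erase h𝔔)
      refine huniq 𝔔 hov' ?_
      have h3 := hj3 _ hrR
      rw [map_sub, hjp, h0, hT, ← map_sub] at h3
      have h4 : vv 𝔔 (algebraMap L (𝔔.adicCompletion L) (θ - algebraMap k[X] L R)) < 1 := h3
      rwa [vv_coe] at h4
    have e1 := congrArg j hst.root
    rw [map_add, map_add, map_mul, map_pow, hjp, hjp, map_zero] at e1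
    have e2 := congrArg (algebraMap L (𝔔.adicCompletion L)) h.root
    rw [map_add, map_add, map_mul, map_pow, map_zero, ← hT] at e2
    have e3 := congrArg j hst.disc
    rw [map_sub, map_mul, map_mul, map_pow, hjp, map_neg, map_ofNat, map_ofNat] at e3
    set A := algebraMap L (𝔔.adicCompletion L) (algebraMap k[X] L a) with hA
    have hmul : (j r - T) * (T ^ 2 + T * j r + (j r ^ 2 + A)) = 0 := by
      linear_combination e1 - e2
    have h0 := (mul_eq_zero.1 hmul).resolve_left (sub_ne_zero.2 hne)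
    have e4 : (2 * T + j r) ^ 2 = j d := by
      rw [e3]
      linear_combination 4 * h0
    have hd0 := MT.d_ne hL hst
    have h5 := od_j hP hv hov' j hj1 hj2 hd0
    rw [← e4, od_sq] at h5
    have h7 := hst.dodd
    rcases Int.even_or_odd (od (𝔔.valuation L) (algebraMap k[X] L P)) with h8 | h8
    · exact h8
    · exfalso
      have h9 : Odd (-(od (𝔔.valuation L) (algebraMap k[X] L P)) * od (vv v) d) := h8.neg.mul h7
      rw [← h5] at h9
      exact (Int.not_even_iff_odd.2 h9) ⟨_, by ring⟩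
  have hterm : ∀ 𝔔 ∈ (SP (O := O) K L P hP.ne_zero).erase 𝔓₀,
      (fd P 𝔔 : ℤ) * od (𝔔.valuation L) (algebraMap k[X] L P) ≤ -2 := by
    intro 𝔔 h𝔔
    have hov' := (mem_SP (K := K) (L := L)).1 (Finset.mem_of_mem_erase h𝔔)
    have h1 : (1 : ℤ) ≤ fd P 𝔔 := by exact_mod_cast fd_pos (O := O) hP hov'
    have h3 := od_P_neg (K := K) (L := L) hP hov'
    obtain ⟨i, hi⟩ := heven 𝔔 h𝔔
    have h4 : od (𝔔.valuation L) (algebraMap k[X] L P) ≤ -2 := by omega
    nlinarith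
  have hsP := hsum _ hPL
  rw [nq_P h hP hv] at hsP
  obtain ⟨𝔮, hq, hq2, hqu⟩ := one_term _ _ hterm hsP
  have hovq := (mem_SP (K := K) (L := L)).1 (Finset.mem_of_mem_erase hq)
  have hfq : fd P 𝔮 = 1 := by
    have h3 := od_P_neg (K := K) (L := L) hP hovq
    have h1 : (1 : ℤ) ≤ fd P 𝔮 := by exact_mod_cast fd_pos (O := O) hP hovq
    obtain ⟨i, hi⟩ := heven 𝔮 hq
    have h4 : od (𝔮.valuation L) (algebraMap k[X] L P) ≤ -2 := by omega
    have h5 : (fd P 𝔮 : ℤ) = 1 := by nlinarith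
    exact_mod_cast h5
  refine ⟨𝔓₀, 𝔮, hov, hovq, hfd, hfq, (Finset.ne_of_mem_erase hq).symm, ?_, hlt, ?_⟩
  · intro 𝔓 h𝔓
    by_cases h1 : 𝔓 = 𝔓₀
    · exact Or.inl h1
    · exact Or.inr (hqu 𝔓 (Finset.mem_erase.2 ⟨h1, (mem_SP (K := K) (L := L)).2 h𝔓⟩))
  · intro x hx
    exact od_simple h hP hv hov hlt hf he hst.root hrR hx

/-- In every residue class there is at most one prime over `P`, and it has odd degree. -/
def Nice (O : Type) {k L : Type} [Field k] [Field L] [CommRing O] [IsDedekindDomain O]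
    [Algebra O L] [IsFractionRing O L] [Algebra k[X] O] [Algebra k[X] L] [Module.Finite k[X] O]
    [Module.IsTorsionFree k[X] O] (θ : L) (P : k[X]) : Prop :=
  ∀ (𝔓 : HeightOneSpectrum O) (c : k[X]), Ov P 𝔓 → 𝔓.valuation L (θ - algebraMap k[X] L c) < 1 →
    Odd (fd P 𝔓) ∧ ∀ 𝔔 : HeightOneSpectrum O, Ov P 𝔔 →
      𝔔.valuation L (θ - algebraMap k[X] L c) < 1 → 𝔔 = 𝔓

theorem nice_good [FiniteDimensional K L] (h : IsCub K a b θ) {P : k[X]} (hP : Irreducible P)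
    (hd : ¬ P ∣ dsc a b) : Nice O θ P := by
  intro 𝔓 c h𝔓 hc
  have h1 := dvd_of_lt h hP h𝔓 hc
  have h3 : ¬ P ∣ 3 * c ^ 2 + a := fun h0 => hd (dsc_of_double h1 h0)
  obtain ⟨𝔓₀, hov, hlt, hfd, he, huniq⟩ := simple_prime (K := K) (L := L) (O := O) h hP h1 h3
  have h4 := huniq 𝔓 h𝔓 hc
  refine ⟨by rw [h4, hfd]; exact odd_one, fun 𝔔 h𝔔 hc' => ?_⟩
  rw [huniq 𝔔 h𝔔 hc', h4]

theorem nice_mult [FiniteDimensional K L] (h6 : (6 : k) ≠ 0) [Finite k] (h : IsCub K a b θ)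
    {P : k[X]} (hm : MTp a b P) : Nice O θ P := by
  intro 𝔓 c h𝔓 hc
  have hP := hm.irr
  obtain ⟨v, hv⟩ : ∃ v : HeightOneSpectrum k[X], v.asIdeal = Ideal.span {P} :=
    ⟨⟨Ideal.span {P}, (Ideal.span_singleton_prime hP.ne_zero).2 hP.prime,
      by rw [Ne, Ideal.span_singleton_eq_bot]; exact hP.ne_zero⟩, rfl⟩
  by_cases h3 : P ∣ 3 * c ^ 2 + a
  · obtain ⟨R, r, d, hR, hf, hst, hrR⟩ := mt_of (K := K) h6 hm hv
    obtain ⟨𝔓₀, 𝔮, h1, h2, hf0, hfq, hne, hall, hlt, -⟩ := mt_primes (O := O) h6 h hm hv hR hf hst hrR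
    -- `𝔓₀` is not in the class of `c`
    have hnot : ∀ 𝔔 : HeightOneSpectrum O, Ov P 𝔔 → 𝔔.valuation L (θ - algebraMap k[X] L c) < 1 →
        𝔔 = 𝔮 := by
      intro 𝔔 h𝔔 hc'
      rcases hall 𝔔 h𝔔 with h5 | h5
      · exfalso
        subst h5
        apply hf
        have h7 : P ∣ R - c := by
          rw [← Pool.Agent.N704.PP.valO_lt_one (L := L) hP h𝔔]
          have e : algebraMap k[X] L (R - c) = (θ - algebraMap k[X] L c) -
              (θ - algebraMap k[X] L R) := by rw [map_sub]; ring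
          rw [e]
          exact lt_of_le_of_lt (Valuation.map_sub _ _ _) (max_lt hc' hlt)
        obtain ⟨q, hq⟩ := h7
        have e : 3 * R ^ 2 + a = (3 * c ^ 2 + a) + P * (q * (3 * (R + c))) := by
          linear_combination (3 * (R + c)) * hq
        rw [e]
        exact dvd_add h3 (Dvd.intro _ rfl)
      · exact h5
    have h5 := hnot 𝔓 h𝔓 hc
    refine ⟨by rw [h5, hfq]; exact odd_one, fun 𝔔 h𝔔 hc' => ?_⟩
    rw [hnot 𝔔 h𝔔 hc', h5]
  · have h1 := dvd_of_lt h hP h𝔓 hc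
    obtain ⟨𝔓₀, hov, hlt, hfd, he, huniq⟩ := simple_prime (K := K) (L := L) (O := O) h hP h1 h3
    have h4 := huniq 𝔓 h𝔓 hc
    refine ⟨by rw [h4, hfd]; exact odd_one, fun 𝔔 h𝔔 hc' => ?_⟩
    rw [huniq 𝔔 h𝔔 hc', h4]

end prm

end Pool.Agent.H467.MR
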