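import Pool.Agent.H467.MR.Wcl

/-!
# The local classes at a prime with exactly one simple root

Project MR (helper467).
-/

set_option autoImplicit false
set_option linter.all false

open Polynomial IsDedekindDomain WithZero
open Pool.Agent.N874.PP Pool.Agent.N352.PP Pool.Agent.N765.PP
open scoped Classical

namespace Pool.Agent.H467.MR

section ev

variable {k K : Type} [Field k] [Field K] [Algebra k[X] K] [IsFractionRing k[X] K]
  {v : HeightOneSpectrum k[X]}

/-- Values of polynomials with integral coefficients at close points. -/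
theorem near_eval {r : v.adicCompletion K} {R : k[X]} (hr : vv v r ≤ 1)
    (hrR : vv v (r - em K v R) < 1) (p : k[X][X]) :
    vv v (eval₂ (em K v) r p - em K v (p.eval R)) < 1 := by
  induction p using Polynomial.induction_on' with
  | add p q hp hq =>
    have e : eval₂ (em K v) r (p + q) - em K v ((p + q).eval R) =
        (eval₂ (em K v) r p - em K v (p.eval R)) + (eval₂ (em K v) r q - em K v (q.eval R)) := by
      rw [eval₂_add, eval_add, map_add]; ring
    rw [e]
    exact lt_of_le_of_lt (Valuation.map_add _ _ _) (max_lt hp hq)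
  | monomial n c =>
    have key : ∀ n : ℕ, vv v (r ^ n - em K v R ^ n) < 1 := by
      intro n
      induction n with
      | zero => rw [pow_zero, pow_zero, sub_self, map_zero]; exact zero_lt_one
      | succ n ih =>
        have e : r ^ (n + 1) - em K v R ^ (n + 1) =
            (r ^ n - em K v R ^ n) * r + em K v R ^ n * (r - em K v R) := by ring
        rw [e]
        refine lt_of_le_of_lt (Valuation.map_add _ _ _) (max_lt ?_ ?_)
        · rw [map_mul]
          exact mul_lt_one_of_lt_of_le ih hr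
        · rw [map_mul, map_pow]
          exact mul_lt_one_of_nonneg_of_lt_one_right (pow_le_one₀ zero_le (vv_em_le R)) zero_le hrR
    have e : eval₂ (em K v) r (monomial n c) - em K v ((monomial n c).eval R) =
        em K v c * (r ^ n - em K v R ^ n) := by
      rw [eval₂_monomial, eval_monomial, map_mul, map_pow]; ring
    rw [e, map_mul]
    exact mul_lt_one_of_nonneg_of_lt_one_right (vv_em_le c) zero_le (key n)

/-- A unit which is not a square modulo `Q` is not a square in the completion. -/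
theorem em_ns {Q : k[X]} (hv : v.asIdeal = Ideal.span {Q}) {g : k[X]}
    (hg : ∀ z : k[X], ¬ Q ∣ z ^ 2 - g) : ¬ IsSquare (em K v g) := by
  rintro ⟨s, hs⟩
  have hs1 : vv v s ≤ 1 := by
    have h3 : vv v (s * s) ≤ 1 := by
      rw [← hs]; exact vv_em_le g
    rw [map_mul] at h3
    by_contra hcon
    rw [not_le] at hcon
    exact absurd h3 (not_le.2 (one_lt_mul'' hcon hcon))
  obtain ⟨z, hz⟩ := dense_R v s hs1
  change vv v (s - em K v z) < 1 at hz
  refine hg z ?_
  rw [← vv_em_lt (K := K) hv]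
  have e : em K v (z ^ 2 - g) = -((s - em K v z) * (s + em K v z)) := by
    simp only [map_sub, map_pow]
    linear_combination -hs
  rw [e, Valuation.map_neg, map_mul]
  exact mul_lt_one_of_lt_of_le hz ((Valuation.map_add _ _ _).trans (max_le hs1 (vv_em_le z)))

theorem c0_rv {E : Type} [Field E] {A B r : E} (hr : r ^ 3 + A * r + B = 0) (u : E[X]) :
    c0 r (rv A B u) = u.eval r := by
  obtain ⟨q, hq⟩ := rv_spec (A := A) (B := B) u
  have h1 := congrArg (eval r) hq
  rw [cub_fac hr] at h1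
  simp [pl3] at h1
  unfold c0
  linear_combination -h1

end ev

section qd

variable {k K L O : Type} [Field k] [Field K] [Algebra k[X] K] [IsFractionRing k[X] K]
  [Field L] [Algebra K L] [Algebra k[X] L] [IsScalarTower k[X] K L] [CommRing O]
  [IsDedekindDomain O] [Algebra O L] [IsFractionRing O L] [Algebra k[X] O]
  [IsScalarTower k[X] O L] [IsIntegralClosure O k[X] L] [Module.Finite k[X] O]
  [Module.IsTorsionFree k[X] O] {a b : k[X]} {θ : L}

/-- The nonzero elements whose norm is a square. -/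
def NS (K : Type) {L : Type} [Field K] [Field L] [Algebra K L] (α : L) : Prop :=
  α ≠ 0 ∧ IsSquare (Algebra.norm K α)

theorem NS.mul {α β : L} (hα : NS K α) (hβ : NS K β) : NS K (α * β) :=
  ⟨mul_ne_zero hα.1 hβ.1, by rw [map_mul]; exact hα.2.mul hβ.2⟩

theorem NS.one : NS K (1 : L) := ⟨one_ne_zero, by rw [map_one]; exact IsSquare.one⟩

theorem NS.inv {α : L} (hα : NS K α) : NS K α⁻¹ := by
  refine ⟨inv_ne_zero hα.1, ?_⟩
  obtain ⟨n, hn⟩ := hα.2
  refine ⟨n⁻¹, ?_⟩
  have h1 : Algebra.norm K α⁻¹ * Algebra.norm K α = 1 := by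
    rw [← map_mul, inv_mul_cancel₀ hα.1, map_one]
  rw [eq_inv_of_mul_eq_one_left h1, hn, mul_inv]

/-- The two characters at a prime `Q` of type `STp`. -/
structure QD (O : Type) {k K L : Type} [Field k] [Field K] [Algebra k[X] K] [IsFractionRing k[X] K]
    [Field L] [Algebra K L] [Algebra k[X] L] [IsScalarTower k[X] K L] [CommRing O]
    [IsDedekindDomain O] [Algebra O L] [IsFractionRing O L] [Algebra k[X] O] {a b : k[X]} {θ : L}
    (h : IsCub K a b θ) (Q R : k[X]) (v : HeightOneSpectrum k[X]) (e η : L → Prop) : Prop where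
  e_mul : ∀ α β : L, NS K α → NS K β → (e (α * β) ↔ (e α ↔ e β))
  h_mul : ∀ α β : L, NS K α → NS K β → (η (α * β) ↔ (η α ↔ η β))
  e_iff : ∀ α : L, NS K α → (e α ↔ ∀ 𝔓 : HeightOneSpectrum O, Ov Q 𝔓 → Ev 𝔓 α)
  iso : ∀ α : L, NS K α → (IsoAt h v α ↔ e α ∨ η α)
  tw : ∀ (D' : k[X]) (p : K[X]), ¬ Q ∣ D' → NS K (aeval (algebraMap k[X] L (Q * D') * θ) p) →
    PolyLoc v (a * (Q * D') ^ 2) (b * (Q * D') ^ 3) p →
    η (aeval (algebraMap k[X] L (Q * D') * θ) p)
  ns : ∀ p : k[X][X], (∀ z : k[X], ¬ Q ∣ z ^ 2 - p.eval R) → ∀ y : L, y ≠ 0 →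
    NS K (eval₂ (algebraMap k[X] L) θ p) → e (eval₂ (algebraMap k[X] L) θ p * y ^ 2) →
    ¬ η (eval₂ (algebraMap k[X] L) θ p * y ^ 2)

theorem exists_qd [Finite k] [FiniteDimensional K L] (hU : S_UNI) (h6 : (6 : k) ≠ 0)
    (h : IsCub K a b θ) {Q R : k[X]} (hs : STp a b Q R) {v : HeightOneSpectrum k[X]}
    (hv : v.asIdeal = Ideal.span {Q}) : ∃ e η : L → Prop, QD O h Q R v e η := by
  have h2 : (2 : k) ≠ 0 := by
    intro h0; apply h6
    have : (6 : k) = 2 * 3 := by norm_num
    rw [this, h0, zero_mul]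
  obtain ⟨r, d, hst, hrR, hfR⟩ := st_of (K := K) hs hv
  have hP := hs.irr
  have hL := lf (K := K) h2 hP hv
  obtain ⟨𝔓₀, 𝔮, ho0, hoq, -, -, hne, hall, hod0, hodq⟩ :=
    st_primes (O := O) h6 h hs hv hst hrR
  have hN : ∀ α : L, NS K α → Nsq (em K v a) (em K v b) (cv v h α) := fun α hα =>
    cE_nsq h (algebraMap K (v.adicCompletion K)) hα.1 hα.2
  have hmul : ∀ α β : L, cv v h (α * β) = mulc (em K v a) (em K v b) (cv v h α) (cv v h β) :=
    fun α β => cE_mul h (algebraMap K (v.adicCompletion K)) α β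
  -- the characters
  let e : L → Prop := fun α => EvQ (vv v) r d (cv v h α)
  let η : L → Prop := fun α => Eta (vv v) (em K v a) r d (cv v h α)
  have e_mul : ∀ α β : L, NS K α → NS K β → (e (α * β) ↔ (e α ↔ e β)) := by
    intro α β hα hβ
    simp only [e]
    rw [hmul]
    exact ST.evq_mul hL hst (ST.nq_ne hL hst (hN α hα)) (ST.nq_ne hL hst (hN β hβ))
  have h_mul : ∀ α β : L, NS K α → NS K β → (η (α * β) ↔ (η α ↔ η β)) := by
    intro α β hα hβ
    simp only [η]
    rw [hmul]
    exact ST.eta_mul hL hst (hN α hα) (hN β hβ)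
  have e_one : e 1 := by
    have := e_mul 1 1 NS.one NS.one
    rw [mul_one] at this
    tauto
  have h_one : η 1 := by
    have := h_mul 1 1 NS.one NS.one
    rw [mul_one] at this
    tauto
  have e_inv : ∀ α : L, NS K α → (e α⁻¹ ↔ e α) := by
    intro α hα
    have := e_mul α⁻¹ α hα.inv hα
    rw [inv_mul_cancel₀ hα.1] at this
    tauto
  have h_inv : ∀ α : L, NS K α → (η α⁻¹ ↔ η α) := by
    intro α hα
    have := h_mul α⁻¹ α hα.inv hα
    rw [inv_mul_cancel₀ hα.1] at this
    tauto
  have e_iff : ∀ α : L, NS K α → (e α ↔ ∀ 𝔓 : HeightOneSpectrum O, Ov Q 𝔓 → Ev 𝔓 α) := by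
    intro α hα
    have hc := ST.c0_even hL hst (hN α hα)
    rw [← hod0 α hα.1] at hc
    have hq := hodq α hα.1
    simp only [e]
    unfold EvQ
    rw [← hq]
    constructor
    · intro h4 𝔓 h𝔓
      rcases hall 𝔓 h𝔓 with rfl | rfl
      · rw [ev_iff 𝔓 hα.1]; exact hc
      · rw [ev_iff 𝔓 hα.1]
        obtain ⟨i, hi⟩ := h4
        exact ⟨i, by omega⟩
    · intro h4
      have h5 := h4 𝔮 hoq
      rw [ev_iff 𝔮 hα.1] at h5
      obtain ⟨i, hi⟩ := h5
      exact ⟨i, by omega⟩
  refine ⟨e, η, e_mul, h_mul, e_iff, ?_, ?_, ?_⟩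
  · -- isotropy
    intro α hα
    constructor
    · intro hi
      by_contra hcon
      push Not at hcon
      obtain ⟨h1, h3⟩ := hcon
      rw [isoAt_iff] at hi
      have h4 : ¬ EvQ (vv v) r d (cv v h α⁻¹) := fun hh => h1 ((e_inv α hα).1 hh)
      refine ST.aniso hL hst (hN _ hα.inv) h4 ?_ hi
      intro hsq
      exact h3 ((h_inv α hα).1 ⟨fun hh => absurd hh h4, fun _ => hsq⟩)
    · intro hi
      by_cases h1 : e α
      · exact hU k K L O a b θ h6 h Q v hP hv hs.dsc α hα.1 ((e_iff α hα).1 h1)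
      · have h3 : η α := hi.resolve_left h1
        have h4 : ¬ EvQ (vv v) r d (cv v h α⁻¹) := fun hh => h1 ((e_inv α hα).1 hh)
        have h5 := ((h_inv α hα).2 h3).2 h4
        rw [isoAt_iff]
        obtain ⟨n, hn0, hn⟩ := hN _ hα.inv
        obtain ⟨w, hw⟩ := h5
        exact iso_of_sq hL.two_ne hst.root hst.disc (ne_of_w hst.f1) hn hn0 (w := w)
          (by rw [hw]; ring)
  · -- the points of the twist
    intro D' p hD' hα hl
    have hP0 : em K v Q ≠ 0 := by
      intro h0
      have := vv_em_P (K := K) hP.ne_zero hv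
      rw [h0, map_zero] at this
      exact exp_ne_zero this.symm
    have hD0 : Q * D' ≠ 0 := by
      refine mul_ne_zero hP.ne_zero ?_
      rintro rfl
      exact hD' (dvd_zero _)
    have hodD : od (vv v) (em K v (Q * D')) = -1 := by
      have h3 : vv v (em K v D') = 1 := (vv_em_one hv D').2 hD'
      rw [map_mul, od_mul hP0 (ne_of_w h3), (w_one_iff (ne_of_w h3)).1 h3]
      unfold od
      rw [vv_em_P (K := K) hP.ne_zero hv, log_exp]
      norm_num
    rw [polyLoc_iff] at hl
    rcases loc_scale_crd h hD0 hl with ⟨g, hg⟩ | ⟨x, y, hxy, g, hg⟩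
    · exact ST.eta_sq hL hst (hN _ hα) hg
    · exact ST.eta_pt hL hst hodD hxy (hN _ hα) hg
  · -- nonsquares
    intro p hp y hy hα he hη
    have hy2 : NS K (y ^ 2) := ⟨pow_ne_zero 2 hy, by rw [map_pow]; exact IsSquare.sq _⟩
    have h1 : IsSquare (c0 r (cv v h (eval₂ (algebraMap k[X] L) θ p * y ^ 2))) := hη.1 he
    rw [hmul, c0_mul hst.root, pow_two, hmul, c0_mul hst.root] at h1
    have hy0 : c0 r (cv v h y) ≠ 0 := by
      have h3 := ST.c0_ne hL hst (hN _ hy2)
      rw [pow_two, hmul, c0_mul hst.root] at h3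
      exact left_ne_zero_of_mul h3
    have h3 : IsSquare (c0 r (cv v h (eval₂ (algebraMap k[X] L) θ p))) := by
      rw [mul_comm] at h1
      exact (sqm ⟨_, rfl⟩ (mul_ne_zero hy0 hy0)).1 h1
    have h4 : eval₂ (algebraMap k[X] L) θ p = aeval θ (p.map (algebraMap k[X] K)) := by
      rw [aeval_def, eval₂_map, ← IsScalarTower.algebraMap_eq k[X] K L]
    have h5 : c0 r (cv v h (eval₂ (algebraMap k[X] L) θ p)) = eval₂ (em K v) r p := by
      rw [h4]
      unfold cv
      rw [← rv_aeval (algebraMap K (v.adicCompletion K)) h]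
      refine (c0_rv (A := algebraMap K (v.adicCompletion K) (algebraMap k[X] K a))
        (B := algebraMap K (v.adicCompletion K) (algebraMap k[X] K b)) hst.root _).trans ?_
      rw [Polynomial.map_map, eval_map]
      rfl
    rw [h5] at h3
    have h7 := near_eval hst.ra hrR p
    have hg0 : ¬ Q ∣ p.eval R := by
      intro h0
      refine hp 0 ?_
      rw [zero_pow two_ne_zero, zero_sub]
      exact (dvd_neg).2 h0
    have hg1 : vv v (em K v (p.eval R)) = 1 := (vv_em_one hv _).2 hg0
    have h8 := hL.near (x := em K v (p.eval R)) (y := eval₂ (em K v) r p) (ne_of_w hg1)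
      (by rw [hg1]; exact h7)
    exact em_ns (K := K) hv hp ((sqi h8.1 (ne_of_w hg1) h8.2).2 h3)

end qd

end Pool.Agent.H467.MR
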