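import Pool.Agent.H467.MR.Qd
import Pool.Graph.R_pool_sql_team_seeded_63374d34.N141.PP.Rec

/-!
# Reciprocity

Project MR (helper467).
-/

set_option autoImplicit false
set_option linter.all false

open Polynomial IsDedekindDomain WithZero
open Pool.Agent.N874.PP Pool.Agent.N352.PP Pool.Agent.N765.PP Pool.Agent.TH115.GD
open scoped Classical

namespace Pool.Agent.H467.MR

section inf

variable {k K : Type} [Field k] [Finite k] [Field K] [Algebra k[X] K] [IsFractionRing k[X] K]

theorem inf_sq0 (h2 : (2 : k) ≠ 0) {p : k[X]} (hp : p.coeff 0 = 1) :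
    IsSquare (em (AtInf K) (pl (0 : k)) p) := by
  have hP : Irreducible (X - C (0 : k)) := irreducible_X_sub_C 0
  have hv : (pl (0 : k)).asIdeal = Ideal.span {X - C (0 : k)} := rfl
  have hL := lf (K := AtInf K) h2 hP hv
  have h1 : vv (F := AtInf K) (pl (0 : k)) (em (AtInf K) (pl (0 : k)) p - 1) < 1 := by
    rw [← map_one (em (AtInf K) (pl (0 : k))), ← map_sub, vv_em_lt hv, C_0, sub_zero,
      X_dvd_iff, coeff_sub, hp, coeff_one_zero, sub_self]
  exact hL.hens _ h1

theorem inf_sq1 (h2 : (2 : k) ≠ 0) {p : k[X]} (hp : p.coeff 0 = 1) :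
    ∃ s : CompInf k K, algebraMap K (CompInf k K) (infMap k K p) = s * s :=
  inf_sq0 (K := K) h2 hp

/-- Monic polynomials of even degree are squares at infinity. -/
theorem inf_sq (h2 : (2 : k) ≠ 0) {D : k[X]} (hm : D.Monic) (he : Even D.natDegree) :
    ∃ δ : CompInf k K, algebraMap K (CompInf k K) (algebraMap k[X] K D) = δ ^ 2 := by
  obtain ⟨n, hn⟩ := he
  obtain ⟨s, hs⟩ := inf_sq1 (K := K) h2 (p := reverse D) (by
    rw [coeff_zero_reverse, hm.leadingCoeff])
  have e1 : algebraMap K (CompInf k K) (algebraMap k[X] K D) =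
      algebraMap K (CompInf k K) (infMap k K (reverse D)) *
        (algebraMap K (CompInf k K) (algebraMap k[X] K X)) ^ D.natDegree := by
    rw [std_inf D, map_mul, map_pow]
  refine ⟨s * (algebraMap K (CompInf k K) (algebraMap k[X] K X)) ^ n, ?_⟩
  rw [e1, hs, hn, pow_add]
  ring

end inf

section rec

variable {k K L : Type} [Field k] [Finite k] [Field K] [Algebra k[X] K] [IsFractionRing k[X] K]
  [Field L] [Algebra K L] [Algebra k[X] L] [IsScalarTower k[X] K L] {a b : k[X]} {θ : L}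

/-- The number of places of `k[X]` at which the form is anisotropic is even, if it is isotropic at
infinity. -/
theorem rec_gen (hDI : S_DIAGI) (hHP : S_HP) (hT : S_TAME) (h6 : (6 : k) ≠ 0) (h : IsCub K a b θ)
    {α : L} (hα : NS K α) (hinf : Iso (algebraMap K (CompInf k K) (algebraMap k[X] K a))
      (algebraMap K (CompInf k K) (algebraMap k[X] K b))
      (cE (algebraMap K (CompInf k K)) h α⁻¹)) (S : Finset k[X])
    (hS : ∀ P : k[X], P.Monic → ∀ hP : Irreducible P,
      ¬ IsoAt h (Pool.Agent.N141.PP.vP P hP) α → P ∈ S) :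
    Even (S.filter fun P => P.Monic ∧ ∃ hP : Irreducible P,
      ¬ IsoAt h (Pool.Agent.N141.PP.vP P hP) α).card := by
  have h2 : (2 : k) ≠ 0 := by
    intro h0; apply h6
    have : (6 : k) = 2 * 3 := by norm_num
    rw [this, h0, zero_mul]
  obtain ⟨x, hx0, hx⟩ := hinf
  obtain ⟨d, e, hdm, hds, hde, he0, hes, ve, hli, ho, g0, g1, g2⟩ := hDI k K L a b θ h6 h α hα.1 hα.2
    ⟨x, hx0, by rw [form_eq h (algebraMap K (CompInf k K)) α]; exact hx⟩
  obtain ⟨-, heven⟩ := hHP k h2 d e hdm hds hde he0 hes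
  have hiso : ∀ (P : k[X]) (hP : Irreducible P),
      IsoAt h (Pool.Agent.N141.PP.vP P hP) α ↔ ¬ HBad P d e := by
    intro P hP
    rw [Pool.Agent.N141.PP.iso_iff h (Pool.Agent.N141.PP.vP P hP) α hli d e ho g0 g1 g2]
    exact hT k K h2 P (Pool.Agent.N141.PP.vP P hP) hP rfl d e hdm.ne_zero he0 hds hes
  have hset : {P : k[X] | P.Monic ∧ Irreducible P ∧ HBad P d e} =
      ((S.filter fun P => P.Monic ∧ ∃ hP : Irreducible P,
        ¬ IsoAt h (Pool.Agent.N141.PP.vP P hP) α : Finset k[X]) : Set k[X]) := by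
    ext P
    rw [Finset.coe_filter]
    constructor
    · rintro ⟨hPm, hPi, hPb⟩
      have hn : ¬ IsoAt h (Pool.Agent.N141.PP.vP P hPi) α := fun hh => (hiso P hPi).1 hh hPb
      exact ⟨hS P hPm hPi hn, hPm, hPi, hn⟩
    · rintro ⟨-, hPm, hPi, hn⟩
      refine ⟨hPm, hPi, ?_⟩
      by_contra hb
      exact hn ((hiso P hPi).2 hb)
  rw [hset, Set.ncard_coe_finset] at heven
  exact heven

end rec

end Pool.Agent.H467.MR
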