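import Pool.Agent.H467.MR.Spec2
import Pool.Graph.R_pool_sql_team_seeded_63374d34.N765.PP.Unim
import Pool.Graph.R_pool_sql_team_seeded_63374d34.N833.PP.Int

/-!
# Even valuations at a prime not dividing the discriminant: the form is isotropic

Project MR (helper467), part UNI (helper548).
-/

set_option autoImplicit false
set_option linter.all false

open Polynomial IsDedekindDomain Matrix
open Pool.Agent.N874.PP Pool.Agent.N765.PP
open scoped Classical

namespace Pool.Agent.H467.MR.Uni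

section cub

variable {k K L : Type} [Field k] [Field K] [Algebra k[X] K] [IsFractionRing k[X] K]
  [Field L] [Algebra K L]
  [Algebra k[X] L] [IsScalarTower k[X] K L] {a b : k[X]} {θ : L}

/-- the coordinates of an integral element, multiplied by the discriminant, are polynomials -/
theorem dsc_int (h : IsCub K a b θ) {x : L} (hx : IsIntegral k[X] x) :
    ∃ v : Fin 3 → k[X], Crd θ v (algebraMap k[X] L (dsc a b) * x) := by
  have hfin : Module.Finite K L := Module.Finite.of_basis h.basis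
  have hθ : IsIntegral k[X] θ := by
    refine ⟨X ^ 3 + C a * X + C b, ?_, ?_⟩
    · monicity!
    · simp [h.root]
  obtain ⟨r, s, t, hrst⟩ := h.gen x
  set A := algebraMap k[X] K a with hA
  set B := algebraMap k[X] K b with hB
  have h3 : θ ^ 3 = -(algebraMap K L A * θ) - algebraMap K L B := Pool.Agent.N833.PP.cube h
  have hT : ∀ y : L, IsIntegral k[X] y → ∃ c : k[X], algebraMap k[X] K c = Algebra.trace K L y := by
    intro y hy
    exact IsIntegrallyClosed.isIntegral_iff.1 (Algebra.isIntegral_trace hy)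
  obtain ⟨c0, hc0⟩ := hT x hx
  obtain ⟨c1, hc1⟩ := hT (x * θ) (hx.mul hθ)
  obtain ⟨c2, hc2⟩ := hT (x * θ ^ 2) (hx.mul (hθ.pow 2))
  have e0 : algebraMap k[X] K c0 = 3 * r - 2 * A * t := by
    rw [hc0, hrst]; exact Pool.Agent.N833.PP.trace_comb h r s t
  have e1 : algebraMap k[X] K c1 = 3 * (-(t * B)) - 2 * A * s := by
    have e : x * θ = algebraMap K L (-(t * B)) + algebraMap K L (r - t * A) * θ +
        algebraMap K L s * θ ^ 2 := by
      rw [hrst]
      simp only [map_neg, map_sub, map_mul]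
      linear_combination algebraMap K L t * h3
    rw [hc1, e]; exact Pool.Agent.N833.PP.trace_comb h _ _ _
  have e2 : algebraMap k[X] K c2 = 3 * (-(s * B)) - 2 * A * (r - t * A) := by
    have e : x * θ ^ 2 = algebraMap K L (-(s * B)) + algebraMap K L (-(s * A) - t * B) * θ +
        algebraMap K L (r - t * A) * θ ^ 2 := by
      rw [hrst]
      simp only [map_neg, map_sub, map_mul]
      linear_combination (algebraMap K L s + algebraMap K L t * θ) * h3
    rw [hc2, e]; exact Pool.Agent.N833.PP.trace_comb h _ _ _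
  have hD : algebraMap k[X] K (dsc a b) = 4 * A ^ 3 + 27 * B ^ 2 := by
    unfold dsc
    simp only [map_add, map_mul, map_pow, ← hA, ← hB, map_ofNat]
  refine ⟨![(4 * a ^ 3 + 9 * b ^ 2) * c0 - 6 * a * b * c1 + 4 * a ^ 2 * c2,
    -(6 * a * b * c0) - 2 * a ^ 2 * c1 - 9 * b * c2,
    4 * a ^ 2 * c0 - 9 * b * c1 + 6 * a * c2], ?_⟩
  have f0 : algebraMap k[X] K ((4 * a ^ 3 + 9 * b ^ 2) * c0 - 6 * a * b * c1 + 4 * a ^ 2 * c2) =
      (4 * A ^ 3 + 27 * B ^ 2) * r := by
    simp only [map_add, map_sub, map_mul, map_pow, ← hA, ← hB, map_ofNat, e0, e1, e2]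
    ring
  have f1 : algebraMap k[X] K (-(6 * a * b * c0) - 2 * a ^ 2 * c1 - 9 * b * c2) =
      (4 * A ^ 3 + 27 * B ^ 2) * s := by
    simp only [map_add, map_sub, map_mul, map_pow, map_neg, ← hA, ← hB, map_ofNat, e0, e1, e2]
    ring
  have f2 : algebraMap k[X] K (4 * a ^ 2 * c0 - 9 * b * c1 + 6 * a * c2) =
      (4 * A ^ 3 + 27 * B ^ 2) * t := by
    simp only [map_add, map_sub, map_mul, map_pow, ← hA, ← hB, map_ofNat, e0, e1, e2]
    ring
  unfold Crd
  simp only [Matrix.cons_val, Matrix.cons_val_zero, Matrix.cons_val_one]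
  rw [IsScalarTower.algebraMap_apply k[X] K L, IsScalarTower.algebraMap_apply k[X] K L,
    IsScalarTower.algebraMap_apply k[X] K L, IsScalarTower.algebraMap_apply k[X] K L, f0, f1, f2,
    hD, hrst]
  simp only [map_mul]
  ring

/-- The form in the basis `g θ ^ i`, scaled. -/
theorem gram' (h : IsCub K a b θ) {g α : L} {D : k[X]} {d : Fin 3 → k[X]}
    (hd : Crd θ d (algebraMap k[X] L D * (g ^ 2 / α)))
    (i j : Fin 3) : h.co 2 ((g * θ ^ (i : ℕ)) * (g * θ ^ (j : ℕ)) / α) * algebraMap k[X] K D =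
      algebraMap k[X] K (hk a b d i j) := by
  have e1 : h.co 2 ((g * θ ^ (i : ℕ)) * (g * θ ^ (j : ℕ)) / α) * algebraMap k[X] K D =
      h.co 2 (algebraMap k[X] K D • ((g * θ ^ (i : ℕ)) * (g * θ ^ (j : ℕ)) / α)) := by
    rw [map_smul, smul_eq_mul, mul_comm]
  have e : algebraMap k[X] K D • ((g * θ ^ (i : ℕ)) * (g * θ ^ (j : ℕ)) / α) =
      (algebraMap k[X] L D * (g ^ 2 / α)) * (θ ^ (i : ℕ) * θ ^ (j : ℕ)) := by
    rw [Algebra.smul_def, ← IsScalarTower.algebraMap_apply k[X] K L]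
    ring
  rw [e1, e, co_crd h (crd_mul h hd (crd_mul h (ee_crd i) (ee_crd j))) 2]
  rfl

end cub

end Pool.Agent.H467.MR.Uni

namespace Pool.Agent.H467.MR

open Pool.Agent.H467.MR.Uni

theorem uni : S_UNI := by
  intro k K L O _ _ _ _ _ _ _ _ _ _ _ _ _ _ _ _ a b θ h6 h P v hP hv hPD α hα hev
  have h2 : (2 : k) ≠ 0 := by
    intro h
    apply h6
    have e : (6 : k) = 2 * 3 := by norm_num
    rw [e, h, zero_mul]
  have hfin := fin_over (K := K) (L := L) (O := O) hP.ne_zero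
  have hev' : ∀ 𝔓 : HeightOneSpectrum O, ∃ y : L, Ov P 𝔓 → y ≠ 0 ∧
      𝔓.valuation L α = 𝔓.valuation L y ^ 2 := by
    intro 𝔓
    by_cases h𝔓 : Ov P 𝔓
    · obtain ⟨y, hy⟩ := hev 𝔓 h𝔓
      refine ⟨y, fun _ => ⟨?_, hy⟩⟩
      rintro rfl
      rw [map_zero, zero_pow two_ne_zero, map_eq_zero] at hy
      exact hα hy
    · exact ⟨0, fun h => absurd h h𝔓⟩
  choose y hy using hev'
  obtain ⟨g0, hg0, hgv⟩ := weak (L := L) hfin.toFinset y (fun 𝔓 h𝔓 =>
    (hy 𝔓 (by simpa using h𝔓)).1)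
  have hgv' : ∀ 𝔓 : HeightOneSpectrum O, Ov P 𝔓 → 𝔓.valuation L (g0 ^ 2 / α) = 1 := by
    intro 𝔓 h𝔓
    rw [map_div₀, map_pow, hgv 𝔓 (by simpa using h𝔓), (hy 𝔓 h𝔓).2, div_self]
    exact pow_ne_zero _ ((Valuation.ne_zero_iff _).2 (hy 𝔓 h𝔓).1)
  obtain ⟨s, hs, hsi⟩ := loc_int (K := K) hP (g0 ^ 2 / α) fun 𝔓 h𝔓 => (hgv' 𝔓 h𝔓).le
  have hs0 : algebraMap k[X] L s ≠ 0 := by
    intro h
    apply hs
    have : s = 0 := injL (K := K) (L := L) (by rw [h, map_zero])
    rw [this]; exact dvd_zero P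
  set g : L := algebraMap k[X] L s * g0 with hg
  have hgne : g ≠ 0 := mul_ne_zero hs0 hg0
  have hgi : IsIntegral k[X] (g ^ 2 / α) := by
    have e : g ^ 2 / α = algebraMap k[X] L s * (algebraMap k[X] L s * (g0 ^ 2 / α)) := by
      rw [hg]; ring
    rw [e]
    exact isIntegral_algebraMap.mul hsi
  have hδ0 : g ^ 2 / α ≠ 0 := div_ne_zero (pow_ne_zero _ hgne) hα
  have hδv : ∀ 𝔓 : HeightOneSpectrum O, Ov P 𝔓 → 𝔓.valuation L (g ^ 2 / α) = 1 := by
    intro 𝔓 h𝔓
    have e : g ^ 2 / α = algebraMap k[X] L s ^ 2 * (g0 ^ 2 / α) := by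
      rw [hg]; ring
    rw [e, map_mul, map_pow, val_eq hP h𝔓 hs, hgv' 𝔓 h𝔓, one_pow, one_mul]
  obtain ⟨d, hd⟩ := dsc_int h hgi
  obtain ⟨s', hs', hsi'⟩ := loc_int (K := K) hP (g ^ 2 / α)⁻¹ fun 𝔓 h𝔓 => by
    rw [map_inv₀, hδv 𝔓 h𝔓, inv_one]
  obtain ⟨e, he⟩ := dsc_int h hsi'
  have hprod : mulc a b d e = ![dsc a b ^ 2 * s', 0, 0] := by
    refine crd_uniq h (crd_mul h hd he) ?_
    have e1 : algebraMap k[X] L (dsc a b) * (g ^ 2 / α) *
        (algebraMap k[X] L (dsc a b) * (algebraMap k[X] L s' * (g ^ 2 / α)⁻¹)) =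
        algebraMap k[X] L (dsc a b ^ 2 * s') := by
      rw [map_mul, map_pow]
      have e2 : (g ^ 2 / α) * (g ^ 2 / α)⁻¹ = 1 := mul_inv_cancel₀ hδ0
      linear_combination (algebraMap k[X] L (dsc a b) ^ 2 * algebraMap k[X] L s') * e2
    rw [e1]
    exact crd_poly _
  have hdet : ¬ P ∣ (Matrix.of (hk a b d)).det := by
    intro hdvd
    have h3 := hk_det_mul a b d e
    rw [hprod, hk_det_poly, neg_neg] at h3
    have h4 : P ∣ (dsc a b ^ 2 * s') ^ 3 := by
      rw [← h3]; exact Dvd.dvd.mul_right hdvd _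
    rcases hP.prime.dvd_or_dvd (hP.prime.dvd_of_dvd_pow h4) with h5 | h5
    · exact hPD (hP.prime.dvd_of_dvd_pow h5)
    · exact hs' h5
  have hD0 : algebraMap k[X] K (dsc a b) ≠ 0 := by
    rw [Ne, IsFractionRing.to_map_eq_zero_iff (R := k[X])]
    intro h0
    exact hPD (by rw [h0]; exact dvd_zero P)
  have hiso := iso_unim (K := K) hP hv h2 (hk a b d) (hk_symm a b d) hdet
  have hF : IsoF h v α fun i : Fin 3 => g * θ ^ (i : ℕ) := by
    rw [isoF_iff h v α _ (hk a b d) (algebraMap k[X] K (dsc a b)) hD0 fun i j => gram' h hd i j]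
    exact hiso
  exact iso_change h v α (li_mul (li_pow h) hgne) (li_pow h) hF

end Pool.Agent.H467.MR
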