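import Pool.Agent.H467.MR.Loc4

/-!
# The classes of points over an extension of `K`; scaling of the twist

Project MR (helper467).
-/

set_option autoImplicit false
set_option linter.all false

open Polynomial IsDedekindDomain WithZero
open Pool.Agent.N874.PP Pool.Agent.N765.PP Pool.Agent.TH115.GD
open scoped Classical

namespace Pool.Agent.H467.MR

section gen

variable {E : Type} [Field E] {A B : E}

theorem pl3_rv {u : E[X]} : cub A B ∣ u - pl3 (rv A B u) := rv_spec u

theorem wc_congr {u w : E[X]} (h : cub A B ∣ u - w) (hu : Wc A B u) : Wc A B w := by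
  obtain ⟨μ, g, hμ, hd⟩ := hu
  refine ⟨μ, g, hμ, ?_⟩
  have e : μ * w - g ^ 2 = (μ * u - g ^ 2) - μ * (u - w) := by ring
  rw [e]
  exact dvd_sub hd (Dvd.dvd.mul_left h _)

theorem dvd_pl3_rv (u : E[X]) (x : Fin 3 → E) (h : rv A B u = x) : cub A B ∣ u - pl3 x := by
  rw [← h]
  exact rv_spec u

theorem dvd_of_rv_eq {u w : E[X]} (h : rv A B u = rv A B w) : cub A B ∣ u - w := by
  have h1 := rv_spec (A := A) (B := B) u
  have h2 := rv_spec (A := A) (B := B) w
  rw [h] at h1
  have := dvd_sub h1 h2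
  rwa [sub_sub_sub_cancel_right] at this

end gen

section crd

variable {k K L : Type} [Field k] [Field K] [Algebra k[X] K] [IsFractionRing k[X] K]
  [Field L] [Algebra K L] [Algebra k[X] L] [IsScalarTower k[X] K L] {a b : k[X]} {θ : L}

theorem rootK' (h : IsCub K a b θ) : θ ^ 3 + algebraMap K L (algebraMap k[X] K a) * θ +
    algebraMap K L (algebraMap k[X] K b) = 0 := by
  have h1 := h.root
  rwa [IsScalarTower.algebraMap_apply k[X] K L a, IsScalarTower.algebraMap_apply k[X] K L b] at h1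

theorem rvK_aeval (h : IsCub K a b θ) (p : K[X]) :
    cK h (aeval θ p) = rv (algebraMap k[X] K a) (algebraMap k[X] K b) p := by
  refine cK_of h ?_
  obtain ⟨q, hq⟩ := rv_spec (A := algebraMap k[X] K a) (B := algebraMap k[X] K b) p
  have h1 := congrArg (aeval θ) hq
  have h2 : aeval θ (cub (algebraMap k[X] K a) (algebraMap k[X] K b)) = 0 := by
    unfold cub
    simp only [map_add, map_mul, map_pow, aeval_X, aeval_C]
    exact rootK' h
  rw [map_mul, h2, zero_mul, map_sub, sub_eq_zero] at h1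
  rw [h1]
  unfold pl3
  simp only [map_add, map_mul, map_pow, aeval_X, aeval_C]

variable {E : Type} [Field E] (φ : K →+* E) (h : IsCub K a b θ)

theorem rv_aeval (p : K[X]) :
    rv (φ (algebraMap k[X] K a)) (φ (algebraMap k[X] K b)) (p.map φ) = cE φ h (aeval θ p) := by
  refine rv_unique ?_
  obtain ⟨q, hq⟩ := rv_spec (A := algebraMap k[X] K a) (B := algebraMap k[X] K b) p
  refine ⟨q.map φ, ?_⟩
  have h1 := congrArg (Polynomial.map φ) hq
  have e1 : (cub (algebraMap k[X] K a) (algebraMap k[X] K b)).map φ =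
      cub (φ (algebraMap k[X] K a)) (φ (algebraMap k[X] K b)) := by
    unfold cub
    simp
  have e2 : (pl3 (rv (algebraMap k[X] K a) (algebraMap k[X] K b) p)).map φ =
      pl3 (cE φ h (aeval θ p)) := by
    unfold pl3 cE
    rw [rvK_aeval h]
    simp
  rw [Polynomial.map_mul, Polynomial.map_sub, e1, e2] at h1
  exact h1

/-- The class of `α` comes from a point of the curve over the extension. -/
def WcL (φ : K →+* E) (h : IsCub K a b θ) (α : L) : Prop :=
  Wc (φ (algebraMap k[X] K a)) (φ (algebraMap k[X] K b)) (pl3 (cE φ h α))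

include φ in
theorem six_ne (h6 : (6 : k) ≠ 0) : (6 : E) ≠ 0 := by
  have e : (6 : E) = (φ.comp ((algebraMap k[X] K).comp C)) 6 := by
    rw [map_ofNat]
  rw [e, Ne, map_eq_zero]
  exact h6

include φ in
theorem two_neE (h6 : (6 : k) ≠ 0) : (2 : E) ≠ 0 := by
  intro h0
  apply six_ne φ h6
  have : (6 : E) = 2 * 3 := by norm_num
  rw [this, h0, zero_mul]

theorem dscE_ne (hΔ : dsc a b ≠ 0) : 4 * (φ (algebraMap k[X] K a)) ^ 3 +
    27 * (φ (algebraMap k[X] K b)) ^ 2 ≠ 0 := by
  have e : 4 * (φ (algebraMap k[X] K a)) ^ 3 + 27 * (φ (algebraMap k[X] K b)) ^ 2 =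
      (φ.comp (algebraMap k[X] K)) (dsc a b) := by
    unfold dsc
    simp only [map_add, map_mul, map_pow, map_ofNat, RingHom.comp_apply]
  rw [e, Ne, RingHom.comp_apply, map_eq_zero]
  rwa [IsFractionRing.to_map_eq_zero_iff (R := k[X])]

theorem wcl_mul (hC : S_CLO) (h6 : (6 : k) ≠ 0) (hΔ : dsc a b ≠ 0) {α β : L}
    (hα : WcL φ h α) (hβ : WcL φ h β) : WcL φ h (α * β) := by
  have h1 := hC E (φ (algebraMap k[X] K a)) (φ (algebraMap k[X] K b)) (six_ne φ h6) (dscE_ne φ hΔ)
    _ _ hα hβ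
  refine wc_congr ?_ h1
  refine dvd_of_rv_eq ?_
  rw [rv_mul, rv_pl3, rv_pl3, rv_pl3, cE_mul]

theorem wcl_one : WcL φ h 1 := by
  refine ⟨1, 1, IsMu.one, ?_⟩
  have e : cE φ h (1 : L) = ![1, 0, 0] := by
    funext i
    unfold cE
    rw [cK_one]
    fin_cases i <;> simp
  rw [e]
  simp [pl3]

theorem wcl_iso (hΔ : dsc a b ≠ 0) {α : L} (hα0 : α ≠ 0) (hα : WcL φ h α) :
    Iso (φ (algebraMap k[X] K a)) (φ (algebraMap k[X] K b)) (cE φ h α⁻¹) := by
  refine iso_of_wc (dscE_ne φ hΔ) hα ?_
  rw [rv_pl3]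
  exact cE_inv_mul h φ hα0

end crd

section twist

variable {k K L : Type} [Field k] [Field K] [Algebra k[X] K] [IsFractionRing k[X] K]
  [Field L] [Algebra K L] [Algebra k[X] L] [IsScalarTower k[X] K L] {a b : k[X]} {θ : L}
  (h : IsCub K a b θ) {E : Type} [Field E] [Algebra K E]

theorem polyLoc_iff (v : HeightOneSpectrum k[X]) (A B : k[X]) (p : K[X]) :
    PolyLoc v A B p ↔ PolyLocE (v.adicCompletion K) (algebraMap k[X] K A) (algebraMap k[X] K B) p :=
  Iff.rfl

theorem cub_comp (A B d : E) :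
    (cub (A * d ^ 2) (B * d ^ 3)).comp (C d * X) = C (d ^ 3) * cub A B := by
  unfold cub
  simp only [add_comp, mul_comp, pow_comp, X_comp, C_comp, C_mul, C_pow]
  ring

/-- The local condition for the twist by `D` in terms of the original cubic polynomial. -/
theorem loc_scale {D : k[X]} (hD : D ≠ 0) {p : K[X]}
    (hl : PolyLocE E (algebraMap k[X] K (a * D ^ 2)) (algebraMap k[X] K (b * D ^ 3)) p) :
    (∃ g : E[X], cub (algebraMap K E (algebraMap k[X] K a)) (algebraMap K E (algebraMap k[X] K b)) ∣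
      (p.comp (C (algebraMap k[X] K D) * X)).map (algebraMap K E) - g ^ 2) ∨
    ∃ x y : E, y ^ 2 = x ^ 3 + algebraMap K E (algebraMap k[X] K a) *
      (algebraMap K E (algebraMap k[X] K D)) ^ 2 * x + algebraMap K E (algebraMap k[X] K b) *
      (algebraMap K E (algebraMap k[X] K D)) ^ 3 ∧ ∃ g : E[X],
      cub (algebraMap K E (algebraMap k[X] K a)) (algebraMap K E (algebraMap k[X] K b)) ∣
        (C x - C (algebraMap K E (algebraMap k[X] K D)) * X) *
        (p.comp (C (algebraMap k[X] K D) * X)).map (algebraMap K E) - g ^ 2 := by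
  set A := algebraMap K E (algebraMap k[X] K a) with hA
  set B := algebraMap K E (algebraMap k[X] K b) with hB
  set d := algebraMap K E (algebraMap k[X] K D) with hd
  have eA : algebraMap K E (algebraMap k[X] K (a * D ^ 2)) = A * d ^ 2 := by simp [hA, hd]
  have eB : algebraMap K E (algebraMap k[X] K (b * D ^ 3)) = B * d ^ 3 := by simp [hB, hd]
  have hp : (p.comp (C (algebraMap k[X] K D) * X)).map (algebraMap K E) =
      (p.map (algebraMap K E)).comp (C d * X) := by
    rw [Polynomial.map_comp]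
    simp [hd]
  have key : ∀ u : E[X], cub (A * d ^ 2) (B * d ^ 3) ∣ u → cub A B ∣ u.comp (C d * X) := by
    rintro u ⟨q, rfl⟩
    rw [mul_comp, cub_comp]
    exact Dvd.dvd.mul_right (Dvd.dvd.mul_left dvd_rfl _) _
  rw [hp]
  rcases hl with ⟨g, hg⟩ | ⟨x, y, hxy, g, hg⟩
  · left
    rw [eA, eB] at hg
    refine ⟨g.comp (C d * X), ?_⟩
    have := key _ hg
    rwa [sub_comp, pow_comp] at this
  · right
    rw [eA, eB] at hxy hg
    refine ⟨x, y, hxy, g.comp (C d * X), ?_⟩
    have := key _ hg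
    rwa [sub_comp, pow_comp, mul_comp, sub_comp, C_comp, X_comp] at this

theorem aeval_scale (D : k[X]) (p : K[X]) :
    aeval θ (p.comp (C (algebraMap k[X] K D) * X)) = aeval (algebraMap k[X] L D * θ) p := by
  rw [aeval_comp]
  congr 1
  rw [map_mul, aeval_C, aeval_X, ← IsScalarTower.algebraMap_apply k[X] K L]

/-- The same in coordinates. -/
theorem loc_scale_crd {D : k[X]} (hD : D ≠ 0) {p : K[X]}
    (hl : PolyLocE E (algebraMap k[X] K (a * D ^ 2)) (algebraMap k[X] K (b * D ^ 3)) p) :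
    (∃ g : Fin 3 → E, cE (algebraMap K E) h (aeval (algebraMap k[X] L D * θ) p) =
      mulc (algebraMap K E (algebraMap k[X] K a)) (algebraMap K E (algebraMap k[X] K b)) g g) ∨
    ∃ x y : E, y ^ 2 = x ^ 3 + algebraMap K E (algebraMap k[X] K a) *
      (algebraMap K E (algebraMap k[X] K D)) ^ 2 * x + algebraMap K E (algebraMap k[X] K b) *
      (algebraMap K E (algebraMap k[X] K D)) ^ 3 ∧ ∃ g : Fin 3 → E,
      mulc (algebraMap K E (algebraMap k[X] K a)) (algebraMap K E (algebraMap k[X] K b))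
        ![x, -(algebraMap K E (algebraMap k[X] K D)), 0]
        (cE (algebraMap K E) h (aeval (algebraMap k[X] L D * θ) p)) =
      mulc (algebraMap K E (algebraMap k[X] K a)) (algebraMap K E (algebraMap k[X] K b)) g g := by
  rw [← aeval_scale D p, ← rv_aeval (algebraMap K E) h]
  rcases loc_scale hD hl with ⟨g, hg⟩ | ⟨x, y, hxy, g, hg⟩
  · left
    refine ⟨rv (algebraMap K E (algebraMap k[X] K a)) (algebraMap K E (algebraMap k[X] K b)) g, ?_⟩
    rw [← rv_mul, ← pow_two]
    exact rv_eq hg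
  · right
    refine ⟨x, y, hxy,
      rv (algebraMap K E (algebraMap k[X] K a)) (algebraMap K E (algebraMap k[X] K b)) g, ?_⟩
    rw [← rv_mul, ← pow_two, ← rv_lin, ← rv_mul]
    exact rv_eq hg

/-- If `D` is a square in `E`, the local condition for the twist by `D` is that of the original
curve. -/
theorem wcl_of_loc (h6 : (6 : k) ≠ 0) (hΔ : dsc a b ≠ 0) {D : k[X]} (hD : D ≠ 0) {δ : E}
    (hδ : algebraMap K E (algebraMap k[X] K D) = δ ^ 2) {p : K[X]}
    (hne : aeval (algebraMap k[X] L D * θ) p ≠ 0)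
    (hN : IsSquare (Algebra.norm K (aeval (algebraMap k[X] L D * θ) p)))
    (hl : PolyLocE E (algebraMap k[X] K (a * D ^ 2)) (algebraMap k[X] K (b * D ^ 3)) p) :
    WcL (algebraMap K E) h (aeval (algebraMap k[X] L D * θ) p) := by
  set d := algebraMap K E (algebraMap k[X] K D) with hd
  have hd0 : d ≠ 0 := by
    rw [hd, Ne, map_eq_zero, IsFractionRing.to_map_eq_zero_iff (R := k[X])]
    exact hD
  have hδ0 : δ ≠ 0 := by
    rintro rfl
    rw [zero_pow two_ne_zero] at hδ
    exact hd0 hδ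
  have hnsq := cE_nsq h (algebraMap K E) hne hN
  have hsc := loc_scale hD hl
  rw [← aeval_scale D p, ← rv_aeval (algebraMap K E) h] at hnsq
  have hmain : Wc (algebraMap K E (algebraMap k[X] K a)) (algebraMap K E (algebraMap k[X] K b))
      ((p.comp (C (algebraMap k[X] K D) * X)).map (algebraMap K E)) := by
    refine wc_of_loc (two_neE (algebraMap K E) h6) (dscE_ne (algebraMap K E) hΔ) hnsq ?_
    rcases hsc with ⟨g, hg⟩ | ⟨x, y, hxy, g, hg⟩
    · exact Or.inl ⟨g, hg⟩
    · right
      rw [← hd, hδ] at hxy hg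
      refine ⟨x / δ ^ 2, y / δ ^ 3, ?_, C δ⁻¹ * g, ?_⟩
      · field_simp
        linear_combination hxy
      · have e : (C (x / δ ^ 2) - X) *
            (p.comp (C (algebraMap k[X] K D) * X)).map (algebraMap K E) - (C δ⁻¹ * g) ^ 2 =
            C (δ⁻¹ ^ 2) * ((C x - C (δ ^ 2) * X) *
            (p.comp (C (algebraMap k[X] K D) * X)).map (algebraMap K E) - g ^ 2) := by
          have e1 : (C (x / δ ^ 2) : E[X]) = C (δ⁻¹ ^ 2) * C x := by
            rw [← C_mul]; congr 1; field_simp
          have e2 : (C (δ⁻¹ ^ 2) * C (δ ^ 2) : E[X]) = 1 := by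
            rw [← C_mul, ← C_1]; congr 1; field_simp
          rw [e1, mul_pow, ← C_pow]
          linear_combination (X * (p.comp (C (algebraMap k[X] K D) * X)).map (algebraMap K E)) * e2
        rw [e]
        exact Dvd.dvd.mul_left hg _
  refine wc_congr ?_ hmain
  refine dvd_pl3_rv _ _ ?_
  rw [rv_aeval (algebraMap K E) h, aeval_scale]

end twist

end Pool.Agent.H467.MR
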